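import Pool.Agent.V1110.SpA

/-! Conversions for `V1110/SpA`: counts as cardinalities of subtypes, integers of a given sign. -/

set_option autoImplicit false

namespace Pool.Agent.V1110.SpA

open Finset Filter Topology

/-- the number of the `1 ≤ n ≤ N` with `Q ⌊α n ^ c⌋` -/
noncomputable def along (α c : ℝ) (Q : ℕ → Prop) (N : ℕ) : ℕ :=
  Nat.card {n : ℕ // (1 ≤ n ∧ n ≤ N) ∧ Q ⌊α * (n : ℝ) ^ c⌋₊}

lemma along_eq (α c : ℝ) (Q : ℕ → Prop) (N : ℕ) : along α c Q N = seqCnt α c {t | Q t} N := by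
  classical
  unfold along seqCnt
  refine Nat.subtype_card _ fun n => ?_
  rw [Finset.mem_filter, Finset.mem_Icc]
  exact Iff.rfl

lemma cnt_card (Q : ℕ → Prop) (X : ℕ) :
    Nat.card {t : ℕ // (1 ≤ t ∧ t ≤ X) ∧ Q t} = cnt {t | Q t} X := by
  classical
  unfold cnt
  refine Nat.subtype_card _ fun n => ?_
  rw [Finset.mem_filter, Finset.mem_Ioc]
  exact Iff.rfl

/-- integers of a given sign -/
lemma card_sign (Q : ℤ → Prop) {s : ℤ} (hs : s = 1 ∨ s = -1) (X : ℕ) :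
    Nat.card {D : ℤ // |D| ≤ X ∧ 0 < s * D ∧ Q D} = cnt {t : ℕ | Q (s * t)} X := by
  rw [← cnt_card (fun t => Q (s * t)) X]
  have hss : s * s = 1 := by
    rcases hs with rfl | rfl <;> norm_num
  refine (Nat.card_congr ?_).symm
  refine
    { toFun := fun t => ⟨s * t.1, ?_⟩
      invFun := fun D => ⟨(s * D.1).toNat, ?_⟩
      left_inv := ?_
      right_inv := ?_ }
  · obtain ⟨t, ⟨h1, h2⟩, h3⟩ := t
    refine ⟨?_, ?_, h3⟩
    · rcases hs with rfl | rfl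
      · simp only [one_mul, Nat.abs_cast]
        exact_mod_cast h2
      · simp only [neg_mul, one_mul, abs_neg, Nat.abs_cast]
        exact_mod_cast h2
    · rw [← mul_assoc, hss, one_mul]
      exact_mod_cast h1
  · obtain ⟨D, h1, h2, h3⟩ := D
    simp only
    have h4 : ((s * D).toNat : ℤ) = s * D := Int.toNat_of_nonneg h2.le
    have h5 : s * D ≤ |D| := by
      rcases hs with rfl | rfl
      · simpa using le_abs_self D
      · simpa using neg_le_abs D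
    refine ⟨⟨?_, ?_⟩, ?_⟩
    · have : (0 : ℤ) < ((s * D).toNat : ℤ) := by rw [h4]; exact h2
      have h6 : 0 < (s * D).toNat := by exact_mod_cast this
      exact h6
    · have : ((s * D).toNat : ℤ) ≤ X := by rw [h4]; exact h5.trans h1
      exact_mod_cast this
    · rw [h4, ← mul_assoc, hss, one_mul]
      exact h3
  · rintro ⟨t, ht⟩
    apply Subtype.ext
    simp only
    rw [← mul_assoc, hss, one_mul]
    exact Int.toNat_natCast t
  · rintro ⟨D, h1, h2, h3⟩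
    apply Subtype.ext
    simp only
    rw [Int.toNat_of_nonneg h2.le, ← mul_assoc, hss, one_mul]

/-- The form for cardinalities. -/
theorem ratio_nat (c : ℝ) (hc : 1 < c) {ι : Type} [Countable ι] (P Q : ι → ℕ → Prop) :
    ∃ E : Set ℝ, dimH E < 1 ∧ ∀ α : ℝ, 0 < α → α ∉ E → ∀ k : ι, ∀ p a A : ℝ, 0 < a → 0 ≤ A →
      (∃ X0 : ℕ, ∀ X : ℕ, X0 ≤ X → a * X * (Real.log X) ^ (-A) ≤
        (Nat.card {t : ℕ // (1 ≤ t ∧ t ≤ X) ∧ Q k t} : ℝ)) →
      Tendsto (fun X : ℕ => (Nat.card {t : ℕ // (1 ≤ t ∧ t ≤ X) ∧ P k t} : ℝ) /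
        (Nat.card {t : ℕ // (1 ≤ t ∧ t ≤ X) ∧ Q k t} : ℝ)) atTop (𝓝 p) →
      Tendsto (fun N : ℕ => (along α c (P k) N : ℝ) / along α c (Q k) N) atTop (𝓝 p) ∧
      ∃ b : ℝ, 0 < b ∧ ∃ N0 : ℕ, ∀ N : ℕ, N0 ≤ N →
        b * N * (Real.log N) ^ (-A) ≤ along α c (Q k) N := by
  obtain ⟨E, hE, h⟩ := ratio c hc (fun k => {t | P k t}) (fun k => {t | Q k t})
  refine ⟨E, hE, fun α hα hαE k p a A ha hA hQ hp => ?_⟩
  have hlog : ∀ X : ℕ, (Real.log X) ^ (-A) = ((Real.log X) ^ A)⁻¹ := fun X =>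
    Real.rpow_neg (Real.log_natCast_nonneg X) A
  simp only [cnt_card] at hQ hp
  simp only [along_eq, hlog] at *
  simp only [← div_eq_mul_inv] at *
  exact h α hα hαE k p a A ha hA hQ hp

/-- The form for integers of a given sign: `D = s ⌊α n ^ c⌋`, `s = ± 1`. -/
theorem ratio_int (c : ℝ) (hc : 1 < c) {ι : Type} [Countable ι] (P Q : ι → ℤ → Prop) :
    ∃ E : Set ℝ, dimH E < 1 ∧ ∀ α : ℝ, 0 < α → α ∉ E → ∀ k : ι, ∀ s : ℤ, (s = 1 ∨ s = -1) →
      ∀ p a A : ℝ, 0 < a → 0 ≤ A →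
      (∃ X0 : ℕ, ∀ X : ℕ, X0 ≤ X → a * X * (Real.log X) ^ (-A) ≤
        (Nat.card {D : ℤ // |D| ≤ X ∧ 0 < s * D ∧ Q k D} : ℝ)) →
      Tendsto (fun X : ℕ => (Nat.card {D : ℤ // |D| ≤ X ∧ 0 < s * D ∧ P k D} : ℝ) /
        (Nat.card {D : ℤ // |D| ≤ X ∧ 0 < s * D ∧ Q k D} : ℝ)) atTop (𝓝 p) →
      Tendsto (fun N : ℕ => (along α c (fun t => P k (s * t)) N : ℝ) /
        along α c (fun t => Q k (s * t)) N) atTop (𝓝 p) ∧
      ∃ b : ℝ, 0 < b ∧ ∃ N0 : ℕ, ∀ N : ℕ, N0 ≤ N →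
        b * N * (Real.log N) ^ (-A) ≤ along α c (fun t => Q k (s * t)) N := by
  obtain ⟨E, hE, h⟩ := ratio_nat c hc (ι := ι × ℤ) (fun k t => P k.1 (k.2 * t))
    (fun k t => Q k.1 (k.2 * t))
  refine ⟨E, hE, fun α hα hαE k s hs p a A ha hA hQ hp => ?_⟩
  simp only [card_sign _ hs] at hQ hp
  have h1 := h α hα hαE (k, s) p a A ha hA
  simp only [cnt_card] at h1
  exact h1 hQ hp

end Pool.Agent.V1110.SpA
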