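import Mathlib

set_option autoImplicit false

/-!
# `p`-soluble groups and the `p`-length
-/

namespace Pool.Agent.V1110.Pl

/-- The group `G` is `p`-soluble: it has a subnormal series `1 = H 0 ≤ H 1 ≤ ... ≤ H k = G`
(each term normal in the next one) whose factors have order `p` or order prime to `p`. -/
def PSoluble (p : ℕ) (G : Type) [Group G] : Prop :=
  ∃ (k : ℕ) (H : ℕ → Subgroup G), H 0 = ⊥ ∧ H k = ⊤ ∧ ∀ i < k, H i ≤ H (i + 1) ∧
    ((H i).subgroupOf (H (i + 1))).Normal ∧
    ((H i).relIndex (H (i + 1)) = p ∨ Nat.Coprime ((H i).relIndex (H (i + 1))) p)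

/-- `1 = N 0 ≤ N 1 ≤ ... ≤ N k = G` is a series of normal subgroups of `G` in which the order of
each factor is a power of `p` or prime to `p`. -/
def IsSeries (p : ℕ) (G : Type) [Group G] (k : ℕ) (N : ℕ → Subgroup G) : Prop :=
  N 0 = ⊥ ∧ N k = ⊤ ∧ (∀ i ≤ k, (N i).Normal) ∧ ∀ i < k, N i ≤ N (i + 1) ∧
    ((∃ j, (N i).relIndex (N (i + 1)) = p ^ j) ∨ Nat.Coprime ((N i).relIndex (N (i + 1))) p)

/-- The number of factors of the series `N 0 ≤ N 1 ≤ ... ≤ N k` which are nontrivial `p`-groups. -/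
noncomputable def pFactors (p : ℕ) (G : Type) [Group G] (k : ℕ) (N : ℕ → Subgroup G) : ℕ :=
  {i : ℕ | i < k ∧ ∃ j, 1 ≤ j ∧ (N i).relIndex (N (i + 1)) = p ^ j}.ncard

/-- The `p`-length of `G`: the smallest number of nontrivial `p`-factors in a series of normal
subgroups of `G` whose factors are `p`-groups or `p'`-groups. -/
noncomputable def pLength (p : ℕ) (G : Type) [Group G] : ℕ :=
  sInf {l | ∃ (k : ℕ) (N : ℕ → Subgroup G), IsSeries p G k N ∧ l = pFactors p G k N}

/-- `m_n(q)`: the maximum of the `p`-lengths of the `p`-soluble subgroups of `GL(n, F)`, `F` the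
field with `q` elements. -/
noncomputable def maxLength (p : ℕ) (F : Type) [Field F] (n : ℕ) : ℕ :=
  sSup {l | ∃ H : Subgroup (GL (Fin n) F), PSoluble p H ∧ l = pLength p H}

end Pool.Agent.V1110.Pl
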