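import Mathlib
import Pool.Agent.TH69.OgC

set_option autoImplicit false

/-!
# The theorem of Hall and Higman for `p`-soluble groups

`PSep a b G`: `G` has a normal series whose factors have exponent dividing `a` or `b`.
The library `Pool.Agent.TH69` proves Theorem B of Hall and Higman for modules and applies it to
finite soluble groups; here it is carried over to all finite `p`-soluble groups.
-/

namespace Pool.Agent.V1110.Pl

open Pool.Agent.H32BU Pool.Agent.W629 Pool.Agent.TH69.Mtn Pool.Agent.TH69.Od Pool.Agent.TH69.Og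

/-- `G` has a normal series whose factors have exponent dividing `a` or `b` -/
def PSep (a b : ℕ) (G : Type) [Group G] : Prop :=
  ∃ (k : ℕ) (N : ℕ → Subgroup G), N 0 = ⊥ ∧ N k = ⊤ ∧ (∀ i, (N i).Normal) ∧
    ∀ i < k, (∀ x ∈ N (i + 1), x ^ a ∈ N i) ∨ (∀ x ∈ N (i + 1), x ^ b ∈ N i)

variable {a b : ℕ} {G : Type} [Group G]

theorem PSep.symm (h : PSep a b G) : PSep b a G := by
  obtain ⟨k, N, h1, h2, h3, h4⟩ := h
  exact ⟨k, N, h1, h2, h3, fun i hi => (h4 i hi).symm⟩

theorem PSep.quot (h : PSep a b G) (M : Subgroup G) [M.Normal] : PSep a b (G ⧸ M) := by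
  obtain ⟨k, N, h1, h2, h3, h4⟩ := h
  refine ⟨k, fun i => (N i).map (QuotientGroup.mk' M), ?_, ?_, ?_, ?_⟩
  · change (N 0).map (QuotientGroup.mk' M) = ⊥
    rw [h1, Subgroup.map_bot]
  · change (N k).map (QuotientGroup.mk' M) = ⊤
    rw [h2, Subgroup.map_top_of_surjective _ (QuotientGroup.mk'_surjective M)]
  · intro i
    exact Subgroup.Normal.map (h3 i) _ (QuotientGroup.mk'_surjective M)
  · intro i hi
    rcases h4 i hi with h | h
    · left
      rintro _ ⟨x, hx, rfl⟩
      exact ⟨x ^ a, h x hx, map_pow _ _ _⟩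
    · right
      rintro _ ⟨x, hx, rfl⟩
      exact ⟨x ^ b, h x hx, map_pow _ _ _⟩

theorem PSep.sub (h : PSep a b G) (H : Subgroup G) : PSep a b H := by
  obtain ⟨k, N, h1, h2, h3, h4⟩ := h
  refine ⟨k, fun i => (N i).comap H.subtype, ?_, ?_, ?_, ?_⟩
  · change (N 0).comap H.subtype = ⊥
    rw [h1]
    ext x
    rw [Subgroup.mem_comap, Subgroup.mem_bot, Subgroup.mem_bot]
    exact ⟨fun h => Subtype.ext h, fun h => by rw [h]; rfl⟩
  · change (N k).comap H.subtype = ⊤
    rw [h2, Subgroup.comap_top]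
  · intro i
    have := h3 i
    exact inferInstance
  · intro i hi
    rcases h4 i hi with h | h
    · left
      intro x hx
      exact h _ hx
    · right
      intro x hx
      exact h _ hx

/-- every nontrivial normal subgroup contains a nontrivial one of exponent dividing `a` or `b` -/
theorem PSep.exists_sub (h : PSep a b G) (C : Subgroup G) (hC : C.Normal) (hC1 : C ≠ ⊥) :
    ∃ K : Subgroup G, K.Normal ∧ K ≤ C ∧ K ≠ ⊥ ∧ ((∀ x ∈ K, x ^ a = 1) ∨ (∀ x ∈ K, x ^ b = 1)) := by
  classical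
  obtain ⟨k, N, h1, h2, h3, h4⟩ := h
  have hex : ∃ i, C ⊓ N i ≠ ⊥ := ⟨k, by rw [h2, inf_top_eq]; exact hC1⟩
  obtain ⟨j, hj⟩ : ∃ j, j = Nat.find hex := ⟨_, rfl⟩
  have hj1 : C ⊓ N j ≠ ⊥ := by rw [hj]; exact Nat.find_spec hex
  have hjk : j ≤ k := by
    rw [hj]
    exact Nat.find_min' hex (by rw [h2, inf_top_eq]; exact hC1)
  cases j with
  | zero =>
    exact absurd (by rw [h1, inf_bot_eq]) hj1
  | succ i =>
    have hi : C ⊓ N i = ⊥ := by
      by_contra hne
      have := Nat.find_min' hex hne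
      omega
    have := h3 (i + 1)
    refine ⟨C ⊓ N (i + 1), inferInstance, inf_le_left, hj1, ?_⟩
    rcases h4 i (by omega) with h | h
    · left
      intro x hx
      have h5 : x ^ a ∈ C ⊓ N i := ⟨pow_mem hx.1 _, h x hx.2⟩
      rw [hi] at h5
      exact h5
    · right
      intro x hx
      have h5 : x ^ b ∈ C ⊓ N i := ⟨pow_mem hx.1 _, h x hx.2⟩
      rw [hi] at h5
      exact h5

/-- a prime dividing the order of a finite group of exponent dividing `n` divides `n` -/
theorem prime_dvd {H : Type} [Group H] [Finite H] {n q : ℕ} (hq : q.Prime)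
    (hH : ∀ x : H, x ^ n = 1) (h : q ∣ Nat.card H) : q ∣ n := by
  have : Fact q.Prime := ⟨hq⟩
  obtain ⟨x, hx⟩ := exists_prime_orderOf_dvd_card' q h
  rw [← hx]
  exact orderOf_dvd_of_pow_eq_one (hH x)

/-- the Hall-Higman lemma for separable groups of exponent `a * b` -/
theorem hall_higmanS [Finite G] (hab : Nat.Coprime a b) (hG : ∀ x : G, x ^ (a * b) = 1)
    (hs : PSep a b G) (hR : Rad a G = ⊥) {x : G}
    (hx : ∀ e ∈ Rad b G, x * e = e * x) : x ∈ Rad b G := by
  have hG' : ∀ x : G, x ^ (b * a) = 1 := fun x => by rw [mul_comm]; exact hG x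
  let C : Subgroup G := Subgroup.centralizer (Rad b G : Set G)
  have hC : C.Normal := by
    refine ⟨fun y hy g => ?_⟩
    rw [Subgroup.mem_centralizer_iff] at hy ⊢
    intro e he
    have h1 : g⁻¹ * e * g ∈ Rad b G := by
      have := (rad_normal (G := G) b).conj_mem e he g⁻¹
      rwa [inv_inv] at this
    have h2 := hy _ h1
    have h3 : e * (g * y * g⁻¹) = g * ((g⁻¹ * e * g) * y) * g⁻¹ := by group
    rw [h3, h2]
    group
  have hmem : ∀ y ∈ C, ∀ e ∈ Rad b G, y * e = e * y := by
    intro y hy e he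
    exact ((Subgroup.mem_centralizer_iff.1 hy) e he).symm
  have hxC : x ∈ C := Subgroup.mem_centralizer_iff.2 fun e he => (hx e he).symm
  by_contra hxR
  let Z : Subgroup G := C ⊓ Rad b G
  have hZn : Z.Normal := inferInstance
  have hbar : C.map (QuotientGroup.mk' Z) ≠ ⊥ := by
    intro h
    have h1 : (x : G ⧸ Z) ∈ C.map (QuotientGroup.mk' Z) := ⟨x, hxC, rfl⟩
    rw [h, Subgroup.mem_bot, QuotientGroup.eq_one_iff] at h1
    exact hxR h1.2
  obtain ⟨Kb, hKn, hKC, hK1, hK⟩ := (hs.quot Z).exists_sub _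
    (Subgroup.Normal.map hC _ (QuotientGroup.mk'_surjective Z)) hbar
  let K : Subgroup G := Kb.comap (QuotientGroup.mk' Z)
  have hKnn : K.Normal := inferInstance
  have hKleC : K ≤ C := by
    intro y hy
    obtain ⟨c, hc, hcy⟩ := hKC hy
    have h1 : c⁻¹ * y ∈ Z := QuotientGroup.eq.1 hcy
    have h2 := mul_mem hc h1.1
    rwa [mul_inv_cancel_left] at h2
  have hKZ : ¬ K ≤ Z := by
    intro h
    apply hK1
    rw [eq_bot_iff]
    intro y hy
    obtain ⟨y, rfl⟩ := QuotientGroup.mk_surjective y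
    rw [Subgroup.mem_bot, QuotientGroup.eq_one_iff]
    exact h hy
  rcases hK with hK | hK
  · -- exponent `a` modulo the central subgroup `Z`
    have hKa : ∀ y ∈ K, y ^ a ∈ Z := by
      intro y hy
      have := hK _ hy
      rw [← QuotientGroup.eq_one_iff, QuotientGroup.mk_pow]
      exact this
    let Z' : Subgroup K := Z.subgroupOf K
    have hZ'b : ∀ z : Z', z ^ b = 1 := by
      rintro ⟨⟨z, hz⟩, hz'⟩
      apply Subtype.ext
      apply Subtype.ext
      exact rad_pow (show z ∈ Rad b G from hz'.2)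
    have hcop : Nat.Coprime (Nat.card Z') Z'.index := by
      rw [Nat.coprime_iff_gcd_eq_one]
      by_contra hne
      obtain ⟨q, hq, hqd⟩ := Nat.exists_prime_and_dvd hne
      have h1 := prime_dvd hq hZ'b (hqd.trans (Nat.gcd_dvd_left _ _))
      have h2 : q ∣ a := by
        refine prime_dvd (H := K ⧸ Z') hq ?_ (hqd.trans (Nat.gcd_dvd_right _ _))
        intro y
        obtain ⟨y, rfl⟩ := QuotientGroup.mk_surjective y
        rw [← QuotientGroup.mk_pow, QuotientGroup.eq_one_iff]
        exact hKa y y.2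
      have h3 := Nat.dvd_gcd h2 h1
      rw [hab] at h3
      exact hq.one_lt.ne' (Nat.dvd_one.1 h3)
    obtain ⟨H, hH⟩ := Subgroup.exists_right_complement'_of_coprime hcop
    have hHa : ∀ h ∈ H, h ^ a = 1 := by
      intro h hh
      have h1 : h ^ a ∈ Z' := hKa h h.2
      have h2 : h ^ a ∈ Z' ⊓ H := ⟨h1, pow_mem hh _⟩
      rw [hH.disjoint.eq_bot] at h2
      exact h2
    have hall : ∀ y : K, y ^ a = 1 → y ∈ H := by
      intro y hy
      obtain ⟨⟨z, h⟩, hzh⟩ := hH.surjective y
      have hzh' : (z : K) * (h : K) = y := hzh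
      have hcomm : Commute (z : K) (h : K) := by
        apply Subtype.ext
        exact (hmem (h : K) (hKleC (h : K).2) (z : K) z.2.2).symm
      have h1 : (z : K) ^ a = 1 := by
        rw [← hzh', hcomm.mul_pow, hHa _ h.2, mul_one] at hy
        exact hy
      have h2 : (z : K) = 1 := eq_one_of_coprime hab h1 (congrArg Subtype.val (hZ'b z))
      rw [← hzh', h2, one_mul]
      exact h.2
    let R : Subgroup G :=
      { carrier := {y | y ∈ K ∧ y ^ a = 1}
        one_mem' := ⟨one_mem _, one_pow _⟩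
        mul_mem' := by
          rintro y z ⟨hy, hy'⟩ ⟨hz, hz'⟩
          refine ⟨mul_mem hy hz, ?_⟩
          have h1 := hall ⟨y, hy⟩ (Subtype.ext hy')
          have h2 := hall ⟨z, hz⟩ (Subtype.ext hz')
          exact congrArg Subtype.val (hHa _ (mul_mem h1 h2))
        inv_mem' := by
          rintro y ⟨hy, hy'⟩
          exact ⟨inv_mem hy, by rw [inv_pow, hy', inv_one]⟩ }
    have hRn : R.Normal := ⟨fun y hy g => ⟨hKnn.conj_mem y hy.1 g, conj_pow_one hy.2⟩⟩
    have hRa : R ≤ Rad a G := le_rad hab hG R fun y hy => hy.2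
    rw [hR, le_bot_iff] at hRa
    apply hKZ
    intro y hy
    have h1 : y ^ b ∈ R := ⟨pow_mem hy _, by rw [← pow_mul, hG']⟩
    rw [hRa, Subgroup.mem_bot] at h1
    have h2 : K ≤ Rad b G := by
      refine le_rad hab.symm hG' K fun y hy => ?_
      have h1 : y ^ b ∈ R := ⟨pow_mem hy _, by rw [← pow_mul, hG']⟩
      rw [hRa, Subgroup.mem_bot] at h1
      exact h1
    exact ⟨hKleC hy, h2 hy⟩
  · apply hKZ
    have h2 : K ≤ Rad b G := by
      refine le_rad hab.symm hG' K fun y hy => ?_
      have h3 : y ^ b ∈ Z := by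
        have := hK _ hy
        rw [← QuotientGroup.eq_one_iff, QuotientGroup.mk_pow]
        exact this
      exact pow_a_of hab.symm (hG' y) (rad_pow h3.2)
    exact fun y hy => ⟨hKleC hy, h2 hy⟩

end Pool.Agent.V1110.Pl
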