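import Mathlib
import Pool.Agent.V1110.Pla

set_option autoImplicit false

/-!
# The theorem of Hall and Higman for `p`-soluble groups, second part

The proofs of `ind_TTS` and `hhBS` are those of `ind_TTG` and `hhBG` (library
`Pool.Agent.TH69.OgC`), with `p`-soluble groups in place of soluble ones.
-/

namespace Pool.Agent.V1110.Pl

open Pool.Agent.H32BU Pool.Agent.W629 Pool.Agent.TH69.Mtn Pool.Agent.TH69.Od Pool.Agent.TH69.Og

/-- induction principle for the property `TT` -/
theorem ind_TTS {p α m : ℕ} (hp : p.Prime) (hpm' : Nat.Coprime p m)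
    (R : (F : Type) → [Group F] → F → Prop)
    (hR : ∀ (F : Type) [Group F] (N : Subgroup F) [N.Normal] (z : F), R F z → R (F ⧸ N) (z : F ⧸ N))
    (hbad : ∀ (F : Type) [Group F] [Finite F], (∀ x : F, x ^ (p ^ α * m) = 1) → ∀ z : F,
      z ^ p ^ α = 1 → R F z → ∀ V L : Subgroup F, V.Normal → L.Normal → V ≤ L →
      (∀ v ∈ V, ∀ w ∈ V, v * w = w * v) → (∀ v ∈ V, v ^ p = 1) → (∀ x ∈ L, x ^ m ∈ V) →
      (∀ x ∈ L, (∀ v ∈ V, x * v = v * x) → x ∈ V) →
      ∀ s ∈ L, s ^ m = 1 → z * s * z⁻¹ * s⁻¹ ∈ V) :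
    ∀ d : ℕ, ∀ (F : Type) [Group F] [Finite F], Nat.card F ≤ d →
      (∀ x : F, x ^ (p ^ α * m) = 1) → PSep (p ^ α) m F → ∀ z : F, z ^ p ^ α = 1 → R F z →
      TT (p ^ α) m ⊤ z := by
  have hab : Nat.Coprime (p ^ α) m := Nat.Coprime.pow_left _ hpm'
  have hcardq : ∀ (F : Type) [Group F] [Finite F] (N : Subgroup F), N ≠ ⊥ →
      Nat.card (F ⧸ N) < Nat.card F := by
    intro F _ _ N hN
    have h1 := Subgroup.card_eq_card_quotient_mul_card_subgroup N
    have h2 : 1 < Nat.card N := by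
      have : Nontrivial N := (Subgroup.nontrivial_iff_ne_bot N).2 hN
      exact Finite.one_lt_card
    have h3 : 0 < Nat.card (F ⧸ N) := Nat.card_pos
    rw [h1]
    exact lt_mul_of_one_lt_right h3 h2
  intro d
  induction d with
  | zero =>
    intro F _ _ hd
    have : 0 < Nat.card F := Nat.card_pos
    omega
  | succ d ih =>
    intro F _ _ hd hF hsol z hz hRz
    by_cases hRq : Rad m F = ⊥
    swap
    · -- pass to the quotient
      have h1 := ih (F ⧸ Rad m F) (by have := hcardq F _ hRq; omega) (exp_quot hF _)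
        (hsol.quot _) z
        (by rw [← QuotientGroup.mk_pow, hz]; rfl) (hR F _ z hRz)
      obtain ⟨A, B, h2, h3, h4, h5, h6⟩ := h1
      refine ⟨A.comap (QuotientGroup.mk' _), B.comap (QuotientGroup.mk' _), ?_, ?_, ?_, ?_, h6⟩
      · intro g _ x hx
        exact h2 (g : F ⧸ Rad m F) (Subgroup.mem_top _) _ hx
      · intro g _ x hx
        exact h3 (g : F ⧸ Rad m F) (Subgroup.mem_top _) _ hx
      · intro x hx
        exact pow_of_mk hab.symm (fun x => by rw [mul_comm]; exact hF x) _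
          (fun x hx => rad_pow hx) (h4 _ hx)
      · intro x hx
        exact h5 _ hx
    by_cases hzR : z ∈ Rad (p ^ α) F
    · refine ⟨⊥, Rad (p ^ α) F, ?_, ?_, ?_, ?_, hzR⟩
      · intro g _ x hx
        rw [Subgroup.mem_bot] at hx ⊢
        rw [hx, mul_one, mul_inv_cancel]
      · intro g _ x hx
        exact (rad_normal _).conj_mem x hx g
      · intro x hx
        rw [Subgroup.mem_bot] at hx
        rw [hx, one_pow]
      · intro x hx
        rw [rad_pow hx]
        exact one_mem _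
    exfalso
    have hRp : Rad (p ^ α) F ≠ ⊥ := by
      intro h
      have h1 := hall_higmanS hab hF hsol h (x := z) (by
        intro e he
        rw [hRq, Subgroup.mem_bot] at he
        rw [he, mul_one, one_mul])
      rw [hRq, Subgroup.mem_bot] at h1
      apply hzR
      rw [h1]
      exact one_mem _
    obtain ⟨V, hV, hV1, hVR, hVc, hVp⟩ := exists_omega hp (Rad (p ^ α) F) inferInstance hRp
      fun x hx => rad_pow hx
    have hVab : ∀ v ∈ V, ∀ w ∈ V, v * w = w * v := fun v hv w hw => hVc v hv w (hVR hw)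
    have hVP : ∀ v ∈ V, v ^ p ^ α = 1 := fun v hv => rad_pow (hVR hv)
    have h1 := ih (F ⧸ V) (by have := hcardq F _ hV1; omega) (exp_quot hF _)
      (hsol.quot _) z
      (by rw [← QuotientGroup.mk_pow, hz]; rfl) (hR F _ z hRz)
    obtain ⟨A, B, h2, h3, h4, h5, h6⟩ := h1
    have hAn : A.Normal := ⟨fun x hx g => h2 g (Subgroup.mem_top _) x hx⟩
    have hBn : B.Normal := ⟨fun x hx g => h3 g (Subgroup.mem_top _) x hx⟩
    let L : Subgroup F := A.comap (QuotientGroup.mk' V)
    have hLn : L.Normal := inferInstance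
    have hVL : V ≤ L := by
      intro v hv
      change ((v : F) : F ⧸ V) ∈ A
      rw [(QuotientGroup.eq_one_iff v).2 hv]
      exact one_mem _
    have hLQ : ∀ x ∈ L, x ^ m ∈ V := by
      intro x hx
      have h7 := h4 _ hx
      rw [← QuotientGroup.eq_one_iff, QuotientGroup.mk_pow]
      exact h7
    obtain ⟨a, b, ha, hb, ca, cb, cab⟩ := crt hab
    -- the centralizer of `V` in `L`
    have hCV : ∀ x ∈ L, (∀ v ∈ V, x * v = v * x) → x ∈ V := by
      let C : Subgroup F :=
        { carrier := {x | x ∈ L ∧ ∀ v ∈ V, x * v = v * x}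
          one_mem' := ⟨one_mem _, fun v _ => by rw [mul_one, one_mul]⟩
          mul_mem' := by
            rintro x y ⟨hx, hx2⟩ ⟨hy, hy2⟩
            refine ⟨mul_mem hx hy, fun v hv => ?_⟩
            rw [mul_assoc, hy2 v hv, ← mul_assoc, hx2 v hv, mul_assoc]
          inv_mem' := by
            rintro x ⟨hx, hx2⟩
            refine ⟨inv_mem hx, fun v hv => ?_⟩
            have h1 := hx2 v hv
            rw [inv_mul_eq_iff_eq_mul, ← mul_assoc, h1]
            group }
      have hCn : C.Normal := by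
        refine ⟨?_⟩
        rintro x ⟨hx, hx2⟩ g
        refine ⟨hLn.conj_mem x hx g, fun v hv => ?_⟩
        have h7 : g⁻¹ * v * g ∈ V := by
          have := hV.conj_mem v hv g⁻¹
          rwa [inv_inv] at this
        have h8 := hx2 _ h7
        calc g * x * g⁻¹ * v = g * (x * (g⁻¹ * v * g)) * g⁻¹ := by group
          _ = g * ((g⁻¹ * v * g) * x) * g⁻¹ := by rw [h8]
          _ = v * (g * x * g⁻¹) := by group
      have hR0 : Rad m C = ⊥ := by
        refine rad_sub_bot C hCn fun N hN hNm => ?_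
        have h9 := le_rad hab.symm (fun x => by rw [mul_comm]; exact hF x) N hNm
        rw [hRq] at h9
        exact le_bot_iff.1 h9
      intro x hx hx2
      have hxC : x ∈ C := ⟨hx, hx2⟩
      have hRV : ∀ e ∈ Rad (p ^ α) C, (e : F) ∈ V := by
        intro e he
        exact mem_of_pow hab (x := (e : F)) (congrArg Subtype.val (rad_pow he)) (hLQ e e.2.1)
      have h10 := hall_higmanS (G := C) (a := m) (b := p ^ α) hab.symm (fun x => Subtype.ext (by
        rw [Subgroup.coe_pow, mul_comm]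
        exact hF x)) (hsol.symm.sub C) hR0 (x := ⟨x, hxC⟩) (by
        intro e he
        apply Subtype.ext
        exact hx2 e (hRV e he))
      exact hRV _ h10
    have h7 := hbad F hF z hz hRz V L hV hLn hVL hVab hVp hLQ hCV
    -- `z` centralises `A`
    have h8 : ∀ x ∈ A, (z : F ⧸ V) * x = x * z := by
      intro x hx
      obtain ⟨l, rfl⟩ := QuotientGroup.mk_surjective x
      have h9 : (l : F ⧸ V) ^ a = l := ca _ (h4 _ hx)
      have h10 : (l ^ a) ^ m = 1 := by
        obtain ⟨a', rfl⟩ := ha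
        rw [← pow_mul, show p ^ α * a' * m = (p ^ α * m) * a' from by ring, pow_mul, hF,
          one_pow]
      have h11 := h7 (l ^ a) (pow_mem (show l ∈ L from hx) a) h10
      rw [← QuotientGroup.eq_one_iff] at h11
      have h12 : (z : F ⧸ V) * (l : F ⧸ V) ^ a * (z : F ⧸ V)⁻¹ * ((l : F ⧸ V) ^ a)⁻¹ = 1 := h11
      rw [h9, mul_inv_eq_one, mul_inv_eq_iff_eq_mul] at h12
      exact h12
    let D : Subgroup (F ⧸ V) :=
      { carrier := {x | x ∈ B ∧ ∀ v ∈ A, x * v = v * x}
        one_mem' := ⟨one_mem _, fun v _ => by rw [mul_one, one_mul]⟩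
        mul_mem' := by
          rintro x y ⟨hx, hx2⟩ ⟨hy, hy2⟩
          refine ⟨mul_mem hx hy, fun v hv => ?_⟩
          rw [mul_assoc, hy2 v hv, ← mul_assoc, hx2 v hv, mul_assoc]
        inv_mem' := by
          rintro x ⟨hx, hx2⟩
          refine ⟨inv_mem hx, fun v hv => ?_⟩
          have h1 := hx2 v hv
          rw [inv_mul_eq_iff_eq_mul, ← mul_assoc, h1]
          group }
    have hDn : D.Normal := by
      refine ⟨?_⟩
      rintro x ⟨hx, hx2⟩ g
      refine ⟨hBn.conj_mem x hx g, fun v hv => ?_⟩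
      have h7 : g⁻¹ * v * g ∈ A := by
        have := hAn.conj_mem v hv g⁻¹
        rwa [inv_inv] at this
      have h8 := hx2 _ h7
      calc g * x * g⁻¹ * v = g * (x * (g⁻¹ * v * g)) * g⁻¹ := by group
        _ = g * ((g⁻¹ * v * g) * x) * g⁻¹ := by rw [h8]
        _ = v * (g * x * g⁻¹) := by group
    have hzD : (z : F ⧸ V) ∈ D := ⟨h6, h8⟩
    have h9 := nilpG hp hab hpm' (exp_quot hF V) D hDn (by
      intro x hx y hy hyq
      have h10 : y ∈ A := mem_of_pow hab.symm hyq (h5 y hy.1)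
      exact hx.2 y h10) hzD (by rw [← QuotientGroup.mk_pow, hz]; rfl)
    apply hzR
    have h10 : (Rad (p ^ α) (F ⧸ V)).comap (QuotientGroup.mk' V) ≤ Rad (p ^ α) F := by
      refine le_rad hab hF _ fun x hx => ?_
      exact pow_of_mk hab hF V hVP (rad_pow (show (x : F ⧸ V) ∈ Rad (p ^ α) (F ⧸ V) from hx))
    exact h10 h9


/-- the theorem of Hall and Higman: powers of elements of maximal order -/
theorem hhBS {p α m : ℕ} (hp : p.Prime) (hpm : ¬ p ∣ m) (hm : m ≠ 0) (hα : 1 ≤ α)
    (hex : ∀ q : ℕ, q.Prime → q ∣ m → ∀ μ, 1 ≤ μ → μ ≤ α → ∀ r, 1 ≤ r → q ^ r ≠ p ^ μ - 1)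
    {F : Type} [Group F] [Finite F] (hF : ∀ x : F, x ^ (p ^ α * m) = 1)
    (hsol : PSep (p ^ α) m F) {x : F}
    (hx : x ^ p ^ α = 1) : TT (p ^ α) m ⊤ (x ^ p ^ (α - 1)) := by
  have hcpm : Nat.Coprime p m := (Nat.Prime.coprime_iff_not_dvd hp).2 hpm
  refine ind_TTS hp hcpm (fun F _ z => ∃ x : F, x ^ p ^ α = 1 ∧ z = x ^ p ^ (α - 1)) ?_ ?_
    (Nat.card F) F le_rfl hF hsol _ ?_ ⟨x, hx, rfl⟩
  · rintro F _ N _ _ ⟨x, hx, rfl⟩
    exact ⟨x, by rw [← QuotientGroup.mk_pow, hx]; rfl, by rw [QuotientGroup.mk_pow]⟩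
  · rintro F _ _ hF _ - ⟨x, hx, rfl⟩ V L hV hL hVL hVab hVp hLQ hC s hs _
    exact no_confG hp hpm hm hα hex hF hx V L hV hL hVL hVab hVp hLQ hC hs
  · rw [← pow_mul, mul_comm, pow_mul, hx, one_pow]


end Pool.Agent.V1110.Pl
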