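import Mathlib
import Pool.Agent.V1110.PlDefs
import Pool.Agent.V1110.Plb

set_option autoImplicit false

/-!
# The theorem of Hall and Higman for `p`-soluble groups: the `p`-length
-/

namespace Pool.Agent.V1110.Pl

open Pool.Agent.H32BU Pool.Agent.W629 Pool.Agent.TH69.Mtn Pool.Agent.TH69.Od Pool.Agent.TH69.Og

variable {p : ℕ}

/-- there is a series with at most `l` nontrivial `p`-factors -/
def SL (p l : ℕ) (G : Type) [Group G] : Prop :=
  ∃ (k : ℕ) (N : ℕ → Subgroup G), IsSeries p G k N ∧ pFactors p G k N ≤ l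

theorem SL.le {l : ℕ} {G : Type} [Group G] (h : SL p l G) : pLength p G ≤ l := by
  obtain ⟨k, N, h1, h2⟩ := h
  have h3 : pFactors p G k N ∈ {l | ∃ (k : ℕ) (N : ℕ → Subgroup G),
    IsSeries p G k N ∧ l = pFactors p G k N} := ⟨k, N, h1, rfl⟩
  exact (Nat.sInf_le h3).trans h2

theorem not_pow_of_coprime (hp : p.Prime) {n j : ℕ} (hn : Nat.Coprime n p) (hj : 1 ≤ j) :
    n ≠ p ^ j := by
  rintro rfl
  rw [Nat.coprime_pow_left_iff (by omega), Nat.coprime_self] at hn
  exact hp.one_lt.ne' hn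

/-- the series `⊥ ≤ ⊤` -/
def two (G : Type) [Group G] : ℕ → Subgroup G
  | 0 => ⊥
  | _ + 1 => ⊤

theorem SL.zero (hp : p.Prime) {G : Type} [Group G] (h : Nat.Coprime (Nat.card G) p) :
    SL p 0 G := by
  have hr : (two G 0).relIndex (two G (0 + 1)) = Nat.card G := by
    change (⊥ : Subgroup G).relIndex ⊤ = _
    rw [Subgroup.relIndex_bot_left, Subgroup.card_top]
  refine ⟨1, two G, ⟨rfl, rfl, ?_, ?_⟩, ?_⟩
  · intro i _
    cases i with
    | zero => exact inferInstanceAs (⊥ : Subgroup G).Normal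
    | succ i => exact inferInstanceAs (⊤ : Subgroup G).Normal
  · intro i hi
    have : i = 0 := by omega
    subst this
    rw [hr]
    exact ⟨bot_le, Or.inr h⟩
  · have : {i : ℕ | i < 1 ∧ ∃ j, 1 ≤ j ∧
        (two G i).relIndex (two G (i + 1)) = p ^ j} = ∅ := by
      refine Set.eq_empty_iff_forall_notMem.2 ?_
      rintro i ⟨hi, j, hj, h2⟩
      have : i = 0 := by omega
      subst this
      rw [hr] at h2
      exact not_pow_of_coprime hp h hj h2
    unfold pFactors
    rw [this, Set.ncard_empty]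

/-- the series of `G` given by a normal subgroup `M` and a series of `G ⧸ M` -/
def pull {G : Type} [Group G] (M : Subgroup G) [M.Normal] (N : ℕ → Subgroup (G ⧸ M)) :
    ℕ → Subgroup G
  | 0 => ⊥
  | i + 1 => (N i).comap (QuotientGroup.mk' M)

theorem pull_relIndex {G : Type} [Group G] (M : Subgroup G) [M.Normal]
    (N : ℕ → Subgroup (G ⧸ M)) (i : ℕ) :
    (pull M N (i + 1)).relIndex (pull M N (i + 1 + 1)) = (N i).relIndex (N (i + 1)) := by
  change ((N i).comap (QuotientGroup.mk' M)).relIndex ((N (i + 1)).comap (QuotientGroup.mk' M)) = _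
  rw [Subgroup.relIndex_comap,
    Subgroup.map_comap_eq_self_of_surjective (QuotientGroup.mk'_surjective M)]

theorem pull_one {G : Type} [Group G] (M : Subgroup G) [M.Normal]
    (N : ℕ → Subgroup (G ⧸ M)) (h : N 0 = ⊥) : pull M N 1 = M := by
  change (N 0).comap (QuotientGroup.mk' M) = M
  rw [h, MonoidHom.comap_bot, QuotientGroup.ker_mk']

theorem pull_zero_relIndex {G : Type} [Group G] (M : Subgroup G) [M.Normal]
    (N : ℕ → Subgroup (G ⧸ M)) (h : N 0 = ⊥) :
    (pull M N 0).relIndex (pull M N (0 + 1)) = Nat.card M := by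
  rw [zero_add, pull_one M N h]
  exact Subgroup.relIndex_bot_left M

theorem pull_series {G : Type} [Group G] (M : Subgroup G) [M.Normal]
    (hM : (∃ j, Nat.card M = p ^ j) ∨ Nat.Coprime (Nat.card M) p) {k : ℕ}
    {N : ℕ → Subgroup (G ⧸ M)} (h : IsSeries p (G ⧸ M) k N) :
    IsSeries p G (k + 1) (pull M N) := by
  obtain ⟨h1, h2, h3, h4⟩ := h
  refine ⟨rfl, ?_, ?_, ?_⟩
  · change (N k).comap (QuotientGroup.mk' M) = ⊤
    rw [h2, Subgroup.comap_top]
  · intro i hi
    cases i with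
    | zero => exact inferInstanceAs (⊥ : Subgroup G).Normal
    | succ i =>
      have := h3 i (by omega)
      exact inferInstanceAs ((N i).comap (QuotientGroup.mk' M)).Normal
  · intro i hi
    cases i with
    | zero =>
      rw [pull_zero_relIndex M N h1]
      exact ⟨bot_le, hM⟩
    | succ i =>
      rw [pull_relIndex]
      exact ⟨Subgroup.comap_mono (h4 i (by omega)).1, (h4 i (by omega)).2⟩

theorem pFactors_pull_le {G : Type} [Group G] (M : Subgroup G) [M.Normal] {k : ℕ}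
    {N : ℕ → Subgroup (G ⧸ M)} :
    pFactors p G (k + 1) (pull M N) ≤ pFactors p (G ⧸ M) k N + 1 := by
  unfold pFactors
  have hf : {i : ℕ | i < k ∧ ∃ j, 1 ≤ j ∧ (N i).relIndex (N (i + 1)) = p ^ j}.Finite :=
    (Set.finite_lt_nat k).subset fun i hi => hi.1
  have hsub : {i : ℕ | i < k + 1 ∧ ∃ j, 1 ≤ j ∧
      (pull M N i).relIndex (pull M N (i + 1)) = p ^ j} ⊆
      insert 0 (Nat.succ '' {i : ℕ | i < k ∧ ∃ j, 1 ≤ j ∧
        (N i).relIndex (N (i + 1)) = p ^ j}) := by
    rintro i ⟨hi, j, hj, h⟩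
    cases i with
    | zero => exact Set.mem_insert _ _
    | succ i =>
      rw [pull_relIndex] at h
      exact Set.mem_insert_of_mem _ ⟨i, ⟨by omega, j, hj, h⟩, rfl⟩
  refine (Set.ncard_le_ncard hsub ((hf.image _).insert _)).trans ?_
  refine (Set.ncard_insert_le _ _).trans ?_
  exact Nat.add_le_add_right (Set.ncard_image_le hf) 1

theorem pFactors_pull_eq (hp : p.Prime) {G : Type} [Group G] (M : Subgroup G) [M.Normal]
    (hM : Nat.Coprime (Nat.card M) p) {k : ℕ} {N : ℕ → Subgroup (G ⧸ M)} (h0 : N 0 = ⊥) :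
    pFactors p G (k + 1) (pull M N) ≤ pFactors p (G ⧸ M) k N := by
  unfold pFactors
  have hf : {i : ℕ | i < k ∧ ∃ j, 1 ≤ j ∧ (N i).relIndex (N (i + 1)) = p ^ j}.Finite :=
    (Set.finite_lt_nat k).subset fun i hi => hi.1
  have hsub : {i : ℕ | i < k + 1 ∧ ∃ j, 1 ≤ j ∧
      (pull M N i).relIndex (pull M N (i + 1)) = p ^ j} ⊆
      (Nat.succ '' {i : ℕ | i < k ∧ ∃ j, 1 ≤ j ∧
        (N i).relIndex (N (i + 1)) = p ^ j}) := by
    rintro i ⟨hi, j, hj, h⟩
    cases i with
    | zero =>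
      rw [pull_zero_relIndex M N h0] at h
      exact absurd h (not_pow_of_coprime hp hM hj)
    | succ i =>
      rw [pull_relIndex] at h
      exact ⟨i, ⟨by omega, j, hj, h⟩, rfl⟩
  refine (Set.ncard_le_ncard hsub (hf.image _)).trans ?_
  exact Set.ncard_image_le hf

theorem SL.of_p' (hp : p.Prime) {l : ℕ} {G : Type} [Group G] (M : Subgroup G) [M.Normal]
    (hM : Nat.Coprime (Nat.card M) p) (h : SL p l (G ⧸ M)) : SL p l G := by
  obtain ⟨k, N, h1, h2⟩ := h
  exact ⟨k + 1, pull M N, pull_series M (Or.inr hM) h1,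
    (pFactors_pull_eq hp M hM h1.1).trans h2⟩

theorem SL.of_p {l : ℕ} {G : Type} [Group G] (M : Subgroup G) [M.Normal]
    (hM : ∃ j, Nat.card M = p ^ j) (h : SL p l (G ⧸ M)) : SL p (l + 1) G := by
  obtain ⟨k, N, h1, h2⟩ := h
  exact ⟨k + 1, pull M N, pull_series M (Or.inl hM) h1,
    (pFactors_pull_le M).trans (Nat.add_le_add_right h2 1)⟩

/-- lowering the exponent -/
theorem PSep.lower {a a' b : ℕ} (hab : Nat.Coprime a b) {G : Type} [Group G]
    (hG : ∀ x : G, x ^ (a' * b) = 1) (h : PSep a b G) : PSep a' b G := by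
  obtain ⟨k, N, h1, h2, h3, h4⟩ := h
  refine ⟨k, N, h1, h2, h3, fun i hi => ?_⟩
  rcases h4 i hi with h | h
  · left
    intro x hx
    have hn := h3 i
    have h5 : ((x : G ⧸ N i) ^ a') = 1 := by
      refine eq_one_of_coprime hab ?_ ?_
      · rw [← pow_mul, mul_comm, pow_mul, ← QuotientGroup.mk_pow,
          (QuotientGroup.eq_one_iff _).2 (h x hx), one_pow]
      · rw [← pow_mul, ← QuotientGroup.mk_pow, hG]
        rfl
    rwa [← QuotientGroup.mk_pow, QuotientGroup.eq_one_iff] at h5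
  · exact Or.inr h

theorem card_pow_of_exp (hp : p.Prime) {H : Type} [Group H] [Finite H] {α : ℕ}
    (h : ∀ x : H, x ^ p ^ α = 1) : ∃ j, Nat.card H = p ^ j := by
  have : Fact p.Prime := ⟨hp⟩
  have h1 : IsPGroup p H := fun x => ⟨α, h x⟩
  exact IsPGroup.iff_card.1 h1

theorem card_coprime_of_exp (hp : p.Prime) {H : Type} [Group H] [Finite H] {m : ℕ}
    (hpm : ¬ p ∣ m) (h : ∀ x : H, x ^ m = 1) : Nat.Coprime (Nat.card H) p := by
  rw [Nat.coprime_comm, Nat.Prime.coprime_iff_not_dvd hp]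
  exact fun h1 => hpm (prime_dvd hp h h1)

/-- **Theorem A of Hall and Higman** for the non-exceptional primes -/
theorem thmA (hp : p.Prime) {m : ℕ} (hpm : ¬ p ∣ m) (hm : m ≠ 0)
    (hex : ∀ q : ℕ, q.Prime → q ∣ m → ∀ μ, 1 ≤ μ → ∀ r, 1 ≤ r → q ^ r ≠ p ^ μ - 1) :
    ∀ (α : ℕ) (G : Type) [Group G] [Finite G], (∀ x : G, x ^ (p ^ α * m) = 1) →
      PSep (p ^ α) m G → SL p α G := by
  have hcpm : Nat.Coprime p m := (Nat.Prime.coprime_iff_not_dvd hp).2 hpm
  intro α
  induction α with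
  | zero =>
    intro G _ _ hG _
    refine SL.zero hp (card_coprime_of_exp hp hpm fun x => ?_)
    have := hG x
    rwa [pow_zero, one_mul] at this
  | succ α ih =>
    intro G _ _ hG hs
    have hab : Nat.Coprime (p ^ (α + 1)) m := Nat.Coprime.pow_left _ hcpm
    have hG' : ∀ x : G, x ^ (m * p ^ (α + 1)) = 1 := fun x => by rw [mul_comm]; exact hG x
    refine SL.of_p' hp (Rad m G) (card_coprime_of_exp hp hpm fun x => Subtype.ext ?_) ?_
    · rw [Subgroup.coe_pow]
      exact rad_pow x.2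
    have hG1 : ∀ x : G ⧸ Rad m G, x ^ (p ^ (α + 1) * m) = 1 := exp_quot hG _
    refine SL.of_p (Rad (p ^ (α + 1)) (G ⧸ Rad m G)) (card_pow_of_exp hp (α := α + 1)
      fun x => Subtype.ext ?_) ?_
    · rw [Subgroup.coe_pow]
      exact rad_pow x.2
    have hG2 : ∀ x : (G ⧸ Rad m G) ⧸ Rad (p ^ (α + 1)) (G ⧸ Rad m G),
        x ^ (p ^ α * m) = 1 := by
      intro x
      obtain ⟨x, rfl⟩ := QuotientGroup.mk_surjective x
      obtain ⟨g, rfl⟩ := QuotientGroup.mk_surjective x
      have h1 : (g ^ m) ^ p ^ (α + 1) = 1 := by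
        rw [← pow_mul]
        exact hG' g
      obtain ⟨A, B, h2, h3, h4, h5, h6⟩ := hhBS hp hpm hm (by omega)
        (fun q hq hqm μ h1 _ r hr => hex q hq hqm μ h1 r hr) hG hs h1
      rw [Nat.add_sub_cancel] at h6
      have hAn : A.Normal := ⟨fun x hx g => h2 g (Subgroup.mem_top _) x hx⟩
      have hBn : B.Normal := ⟨fun x hx g => h3 g (Subgroup.mem_top _) x hx⟩
      have hA : A ≤ Rad m G := le_rad hab.symm hG' A h4
      have hB : B.map (QuotientGroup.mk' (Rad m G)) ≤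
          Rad (p ^ (α + 1)) (G ⧸ Rad m G) := by
        have := Subgroup.Normal.map hBn _ (QuotientGroup.mk'_surjective (Rad m G))
        refine le_rad hab hG1 _ ?_
        rintro _ ⟨y, hy, rfl⟩
        rw [← map_pow]
        exact (QuotientGroup.eq_one_iff _).2 (hA (h5 y hy))
      have h7 : ((((g ^ m) ^ p ^ α : G) : G ⧸ Rad m G)) ∈
          Rad (p ^ (α + 1)) (G ⧸ Rad m G) := hB ⟨_, h6, rfl⟩
      have h8 := (QuotientGroup.eq_one_iff _).2 h7
      rw [← pow_mul, mul_comm m] at h8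
      exact h8
    exact ih _ hG2 (((hs.quot _).quot _).lower hab hG2)

end Pool.Agent.V1110.Pl
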