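import Mathlib
import Pool.Agent.V1110.Plc

set_option autoImplicit false

/-!
# `p`-soluble groups have a normal series with `p`- and `p'`-factors
-/

namespace Pool.Agent.V1110.Pl

open Pool.Agent.W629

variable {a b : ℕ} {G : Type} [Group G]

/-- the radical of a normal subgroup is contained in the radical -/
theorem rad_step (hab : Nat.Coprime a b) (hG : ∀ x : G, x ^ (a * b) = 1) {A B : Subgroup G}
    (hAB : A ≤ B) (hn : (A.subgroupOf B).Normal) {e : G} (he : e ∈ A)
    (h : (⟨e, he⟩ : A) ∈ Rad a A) : (⟨e, hAB he⟩ : B) ∈ Rad a B := by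
  let R : Subgroup B := ((Rad a A).map A.subtype).subgroupOf B
  have hmem : ∀ x : B, x ∈ R ↔ ∃ hx : (x : G) ∈ A, (⟨x, hx⟩ : A) ∈ Rad a A := by
    intro x
    constructor
    · rintro ⟨y, hy, hyx⟩
      have h1 : (y : G) = x := hyx
      have h2 : (x : G) ∈ A := h1 ▸ y.2
      refine ⟨h2, ?_⟩
      have h3 : (⟨x, h2⟩ : A) = y := Subtype.ext h1.symm
      rw [h3]
      exact hy
    · rintro ⟨hx, hx2⟩
      exact ⟨_, hx2, rfl⟩
  have hRn : R.Normal := by
    refine ⟨fun x hx g => ?_⟩
    rw [hmem] at hx ⊢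
    obtain ⟨hx, hx1, hx2⟩ := hx
    have h1 : ((g * x * g⁻¹ : B) : G) ∈ A := hn.conj_mem x hx g
    refine ⟨h1, ?_, ?_⟩
    · apply Subtype.ext
      have h2 : (x : G) ^ a = 1 := congrArg Subtype.val hx1
      change ((g : G) * (x : G) * (g : G)⁻¹) ^ a = 1
      exact conj_pow_one h2
    · intro z hz
      apply Subtype.ext
      change ((g : G) * (x : G) * (g : G)⁻¹ * (z : G)) ^ a = 1
      have h3 : (g : G)⁻¹ * (z : G) * (g : G) ∈ A := by
        have h4 := hn.conj_mem (⟨z, hAB z.2⟩ : B) z.2 g⁻¹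
        rw [inv_inv] at h4
        exact h4
      have h5 : (⟨_, h3⟩ : A) ^ a = 1 := by
        apply Subtype.ext
        change ((g : G)⁻¹ * (z : G) * (g : G)) ^ a = 1
        exact conj_pow_one' (congrArg Subtype.val hz)
      have h6 := congrArg Subtype.val (hx2 _ h5)
      have h7 : (g : G) * (x : G) * (g : G)⁻¹ * (z : G) =
          (g : G) * ((x : G) * ((g : G)⁻¹ * (z : G) * (g : G))) * (g : G)⁻¹ := by group
      rw [h7]
      exact conj_pow_one h6
  have hexpB : ∀ x : B, x ^ (a * b) = 1 := exp_sub hG B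
  refine le_rad hab hexpB R ?_ ((hmem _).2 ⟨he, h⟩)
  intro x hx
  obtain ⟨hx, hx1, -⟩ := (hmem x).1 hx
  have h9 : (x : G) ^ a = 1 := congrArg Subtype.val hx1
  exact Subtype.ext h9

/-- a subnormal subgroup of exponent dividing `a` is contained in the radical -/
theorem subnormal_le (hab : Nat.Coprime a b) (hG : ∀ x : G, x ^ (a * b) = 1) {k : ℕ}
    {H : ℕ → Subgroup G} (hk : H k = ⊤)
    (hH : ∀ i < k, H i ≤ H (i + 1) ∧ ((H i).subgroupOf (H (i + 1))).Normal) {j : ℕ} (hj : j ≤ k)
    (hexp : ∀ x ∈ H j, x ^ a = 1) : H j ≤ Rad a G := by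
  have key : ∀ i, j ≤ i → i ≤ k → ∀ e ∈ H j, ∃ he : e ∈ H i, (⟨e, he⟩ : H i) ∈ Rad a (H i) := by
    intro i hji
    induction i, hji using Nat.le_induction with
    | base =>
      intro _ e he
      refine ⟨he, Subtype.ext (hexp e he), fun z _ => Subtype.ext ?_⟩
      exact hexp _ (mul_mem he z.2)
    | succ i hi ih =>
      intro hik e he
      obtain ⟨h1, h2⟩ := ih (by omega) e he
      exact ⟨(hH i (by omega)).1 h1, rad_step hab hG (hH i (by omega)).1 (hH i (by omega)).2 h1 h2⟩
  intro e he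
  obtain ⟨h1, h2, h3⟩ := key k hj le_rfl e he
  refine ⟨congrArg Subtype.val h2, fun z hz => ?_⟩
  exact congrArg Subtype.val (h3 ⟨z, by rw [hk]; trivial⟩ (Subtype.ext hz))

theorem relIndex_map_dvd {G' : Type} [Group G'] (f : G →* G') {A B : Subgroup G} (hAB : A ≤ B) :
    (A.map f).relIndex (B.map f) ∣ A.relIndex B := by
  have h1 : (A.map f).subgroupOf (B.map f) = (A.subgroupOf B).map (f.subgroupMap B) := by
    ext x
    constructor
    · rintro ⟨y, hy, hyx⟩
      refine ⟨⟨y, hAB hy⟩, hy, Subtype.ext hyx⟩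
    · rintro ⟨y, hy, rfl⟩
      exact ⟨y, hy, rfl⟩
  unfold Subgroup.relIndex
  rw [h1]
  exact Subgroup.index_map_dvd _ (f.subgroupMap_surjective B)

theorem PSoluble.quot {p : ℕ} (hp : p.Prime) (h : PSoluble p G) (M : Subgroup G) [M.Normal] :
    PSoluble p (G ⧸ M) := by
  obtain ⟨k, H, h1, h2, h3⟩ := h
  refine ⟨k, fun i => (H i).map (QuotientGroup.mk' M), ?_, ?_, ?_⟩
  · change (H 0).map (QuotientGroup.mk' M) = ⊥
    rw [h1, Subgroup.map_bot]
  · change (H k).map (QuotientGroup.mk' M) = ⊤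
    rw [h2, Subgroup.map_top_of_surjective _ (QuotientGroup.mk'_surjective M)]
  · intro i hi
    obtain ⟨h4, h5, h6⟩ := h3 i hi
    refine ⟨Subgroup.map_mono h4, ?_, ?_⟩
    · refine ⟨?_⟩
      rintro ⟨x, hx⟩ ⟨y, hy, hyx⟩ ⟨g, z, hz, hzg⟩
      refine ⟨z * y * z⁻¹, ?_, ?_⟩
      · exact h5.conj_mem ⟨y, h4 hy⟩ hy ⟨z, hz⟩
      · have hyx' : (QuotientGroup.mk' M) y = x := hyx
        change (QuotientGroup.mk' M) (z * y * z⁻¹) = g * x * g⁻¹
        rw [map_mul, map_mul, map_inv, hyx', hzg]
    · have h7 := relIndex_map_dvd (QuotientGroup.mk' M) h4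
      rcases h6 with h6 | h6
      · rw [h6] at h7
        rcases (Nat.dvd_prime hp).1 h7 with h8 | h8
        · right
          rw [h8]
          exact Nat.coprime_one_left p
        · exact Or.inl h8
      · exact Or.inr (Nat.Coprime.coprime_dvd_left h7 h6)

theorem PSep.of_quot (M : Subgroup G) [M.Normal]
    (hM : (∀ x ∈ M, x ^ a = 1) ∨ (∀ x ∈ M, x ^ b = 1)) (h : PSep a b (G ⧸ M)) : PSep a b G := by
  obtain ⟨k, N, h1, h2, h3, h4⟩ := h
  have hM1 : pull M N 1 = M := pull_one M N h1
  refine ⟨k + 1, pull M N, rfl, ?_, ?_, ?_⟩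
  · change (N k).comap (QuotientGroup.mk' M) = ⊤
    rw [h2, Subgroup.comap_top]
  · intro i
    cases i with
    | zero => exact inferInstanceAs (⊥ : Subgroup G).Normal
    | succ i =>
      have := h3 i
      exact inferInstanceAs ((N i).comap (QuotientGroup.mk' M)).Normal
  · intro i hi
    cases i with
    | zero =>
      rw [zero_add, hM1]
      rcases hM with h | h
      · exact Or.inl fun x hx => Subgroup.mem_bot.2 (h x hx)
      · exact Or.inr fun x hx => Subgroup.mem_bot.2 (h x hx)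
    | succ i =>
      rcases h4 i (by omega) with h | h
      · exact Or.inl fun x hx => h _ hx
      · exact Or.inr fun x hx => h _ hx

/-- `p`-soluble groups have a normal series with `p`- and `p'`-factors -/
theorem PSoluble.psep {p : ℕ} (hp : p.Prime) {α m : ℕ} (hpm : ¬ p ∣ m) :
    ∀ (d : ℕ) (G : Type) [Group G] [Finite G], Nat.card G ≤ d →
      (∀ x : G, x ^ (p ^ α * m) = 1) → PSoluble p G → PSep (p ^ α) m G := by
  classical
  have hcpm : Nat.Coprime p m := (Nat.Prime.coprime_iff_not_dvd hp).2 hpm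
  have hab : Nat.Coprime (p ^ α) m := Nat.Coprime.pow_left _ hcpm
  intro d
  induction d with
  | zero =>
    intro G _ _ hd
    have : 0 < Nat.card G := Nat.card_pos
    omega
  | succ d ih =>
    intro G _ _ hd hG hs
    have hG' : ∀ x : G, x ^ (m * p ^ α) = 1 := fun x => by rw [mul_comm]; exact hG x
    by_cases htriv : (⊤ : Subgroup G) = ⊥
    · exact ⟨0, fun _ => ⊥, rfl, htriv.symm, fun _ => inferInstance,
        fun i hi => absurd hi (Nat.not_lt_zero i)⟩
    obtain ⟨k, H, h1, h2, h3⟩ := hs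
    have hex : ∃ i, H i ≠ ⊥ := ⟨k, by rw [h2]; exact htriv⟩
    obtain ⟨j, hj⟩ : ∃ j, j = Nat.find hex := ⟨_, rfl⟩
    have hj1 : H j ≠ ⊥ := by rw [hj]; exact Nat.find_spec hex
    have hjk : j ≤ k := by
      rw [hj]
      exact Nat.find_min' hex (by rw [h2]; exact htriv)
    have hrad : H j ≤ Rad (p ^ α) G ∨ H j ≤ Rad m G := by
      cases j with
      | zero => exact absurd h1 hj1
      | succ i =>
        have hi : H i = ⊥ := by
          by_contra hne
          have := Nat.find_min' hex hne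
          omega
        obtain ⟨-, -, h6⟩ := h3 i (by omega)
        rw [hi, Subgroup.relIndex_bot_left] at h6
        have hord : ∀ x ∈ H (i + 1), x ^ Nat.card (H (i + 1)) = 1 := by
          intro x hx
          exact congrArg Subtype.val (pow_card_eq_one' (x := (⟨x, hx⟩ : H (i + 1))))
        rcases h6 with h6 | h6
        · left
          refine subnormal_le hab hG h2 (fun i hi => ⟨(h3 i hi).1, (h3 i hi).2.1⟩) hjk ?_
          intro x hx
          refine eq_one_of_coprime hcpm (x := x ^ p ^ α) ?_ (by rw [← pow_mul, hG])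
          rw [← pow_mul, mul_comm, pow_mul]
          have := hord x hx
          rw [h6] at this
          rw [this, one_pow]
        · right
          refine subnormal_le hab.symm hG' h2 (fun i hi => ⟨(h3 i hi).1, (h3 i hi).2.1⟩) hjk ?_
          intro x hx
          have hc : Nat.Coprime (Nat.card (H (i + 1))) (p ^ α) := Nat.Coprime.pow_right _ h6
          refine eq_one_of_coprime hc (x := x ^ m) ?_ (by rw [← pow_mul, hG'])
          rw [← pow_mul, mul_comm, pow_mul, hord x hx, one_pow]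
    have hs : PSoluble p G := ⟨k, H, h1, h2, h3⟩
    have hcardq : ∀ (N : Subgroup G) [N.Normal], N ≠ ⊥ → Nat.card (G ⧸ N) < Nat.card G := by
      intro N _ hN
      have h1 := Subgroup.card_eq_card_quotient_mul_card_subgroup N
      have h2 : 1 < Nat.card N := by
        have : Nontrivial N := (Subgroup.nontrivial_iff_ne_bot N).2 hN
        exact Finite.one_lt_card
      have h3 : 0 < Nat.card (G ⧸ N) := Nat.card_pos
      rw [h1]
      exact lt_mul_of_one_lt_right h3 h2
    rcases hrad with hr | hr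
    · have hne : Rad (p ^ α) G ≠ ⊥ := fun h => hj1 (le_bot_iff.1 (h ▸ hr))
      have h7 := ih (G ⧸ Rad (p ^ α) G) (by have := hcardq _ hne; omega) (exp_quot hG _)
        (hs.quot hp _)
      exact PSep.of_quot _ (Or.inl fun x hx => rad_pow hx) h7
    · have hne : Rad m G ≠ ⊥ := fun h => hj1 (le_bot_iff.1 (h ▸ hr))
      have h7 := ih (G ⧸ Rad m G) (by have := hcardq _ hne; omega) (exp_quot hG _)
        (hs.quot hp _)
      exact PSep.of_quot _ (Or.inr fun x hx => rad_pow hx) h7

end Pool.Agent.V1110.Pl
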