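import Mathlib
import Pool.Agent.V1110.Pld
import Pool.Agent.TH69.OgE

set_option autoImplicit false

/-!
# Groups of exponent `p ^ α * m` with finite `p`-soluble two-generator subgroups

The proofs are those of the library `Pool.Agent.TH69` (parts `OgC`, `OgD`, `OgE`) for soluble groups,
with `p`-soluble groups in place of soluble ones and only one prime `p`.
-/

namespace Pool.Agent.V1110.Bt

open Pool.Agent.H32BU Pool.Agent.W629 Pool.Agent.TH69.Mtn Pool.Agent.TH69.Od Pool.Agent.V1110.Pl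
open Pool.Agent.TH69.Og (not_dvd_card cent_of_no_arr nilpG cov)

variable {F : Type} [Group F]

/-- criterion for membership in the radical -/
theorem mem_rad_ofS {a b : ℕ} (hab : Nat.Coprime a b) [Finite F] (hG : ∀ x : F, x ^ (a * b) = 1)
    (hs : PSep a b F) {x : F} (hx : x ^ a = 1)
    (h : ∀ u ∈ Rad b (F ⧸ Rad a F), Commute (x : F ⧸ Rad a F) u) : x ∈ Rad a F := by
  have h1 := hall_higmanS hab (exp_quot hG (Rad a F)) (hs.quot _) (rad_quot hab hG)
    (fun e he => (h e he).eq)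
  rw [← QuotientGroup.eq_one_iff]
  refine eq_one_of_coprime hab ?_ h1.1
  rw [← QuotientGroup.mk_pow, hx]
  rfl

/-- elements of `O_{p',p}` are detected on two-generator subgroups -/
theorem bsS {p α m : ℕ} (hp : p.Prime) (hpm' : Nat.Coprime p m) [Finite F]
    (hF : ∀ x : F, x ^ (p ^ α * m) = 1) (hsol : PSep (p ^ α) m F) {z : F} (hz : z ^ p ^ α = 1)
    (h : ∀ f : F, TT (p ^ α) m (c2 z f) z) : TT (p ^ α) m ⊤ z := by
  have hab : Nat.Coprime (p ^ α) m := Nat.Coprime.pow_left _ hpm'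
  refine ind_TTS hp hpm' (fun F _ z => ∀ f : F, TT (p ^ α) m (c2 z f) z) ?_ ?_
    (Nat.card F) F le_rfl hF hsol _ hz h
  · intro F _ N _ z h f
    obtain ⟨f, rfl⟩ := QuotientGroup.mk_surjective f
    have h1 := (h f).map (QuotientGroup.mk' N)
    have h2 : (c2 z f).map (QuotientGroup.mk' N) = c2 (z : F ⧸ N) (f : F ⧸ N) := by
      unfold c2
      rw [MonoidHom.map_closure, Set.image_pair]
      rfl
    rw [h2] at h1
    exact h1
  clear hF hz h z hsol
  intro F _ _ hF z hz h V L hV hL hVL hVab hVp hLQ hC s hs hsQ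
  -- the subgroup of the quotient
  obtain ⟨E, hE⟩ : ∃ E, E = c2 (z : F ⧸ V) (s : F ⧸ V) := ⟨_, rfl⟩
  have hzE : (z : F ⧸ V) ∈ E := by
    rw [hE]
    exact Subgroup.subset_closure (by simp)
  have hsE : (s : F ⧸ V) ∈ E := by
    rw [hE]
    exact Subgroup.subset_closure (by simp)
  obtain ⟨c, hc⟩ : ∃ c : F ⧸ V, c = z * s * (z : F ⧸ V)⁻¹ * (s : F ⧸ V)⁻¹ := ⟨_, rfl⟩
  have hLn := hL
  obtain ⟨L', hL'⟩ : ∃ L', L' = L.map (QuotientGroup.mk' V) := ⟨_, rfl⟩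
  have hL'n : L'.Normal := by
    rw [hL']
    exact Subgroup.Normal.map hL _ (QuotientGroup.mk'_surjective V)
  have hL'Q : ∀ x ∈ L', x ^ m = 1 := by
    intro x hx
    rw [hL'] at hx
    obtain ⟨l, hl, rfl⟩ := hx
    have := hLQ l hl
    rw [← QuotientGroup.eq_one_iff, QuotientGroup.mk_pow] at this
    exact this
  have hL'L : ∀ x : F, (x : F ⧸ V) ∈ L' → x ∈ L := by
    intro x hx
    rw [hL'] at hx
    obtain ⟨l, hl, e⟩ := hx
    have h1 : l⁻¹ * x ∈ V := QuotientGroup.eq.1 e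
    have h2 := mul_mem hl (hVL h1)
    rwa [mul_inv_cancel_left] at h2
  have hsL' : (s : F ⧸ V) ∈ L' := by
    rw [hL']
    exact ⟨s, hs, rfl⟩
  have hcL' : c ∈ L' := by
    rw [hc]
    exact mul_mem (hL'n.conj_mem _ hsL' _) (inv_mem hsL')
  let N : Subgroup (F ⧸ V) := Subgroup.closure {x | ∃ g ∈ E, x = g * c * g⁻¹}
  have hNE : ∀ g ∈ E, ∀ x ∈ N, g * x * g⁻¹ ∈ N := by
    intro g hg x hx
    induction hx using Subgroup.closure_induction with
    | mem x hx =>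
      obtain ⟨g', hg', rfl⟩ := hx
      refine Subgroup.subset_closure ⟨g * g', mul_mem hg hg', ?_⟩
      group
    | one => rw [mul_one, mul_inv_cancel]; exact one_mem _
    | mul x y _ _ hx hy =>
      have e : g * (x * y) * g⁻¹ = (g * x * g⁻¹) * (g * y * g⁻¹) := by group
      rw [e]
      exact mul_mem hx hy
    | inv x _ hx =>
      have e : g * x⁻¹ * g⁻¹ = (g * x * g⁻¹)⁻¹ := by group
      rw [e]
      exact inv_mem hx
  have hNle : ∀ A : Subgroup (F ⧸ V), (∀ g ∈ E, ∀ x ∈ A, g * x * g⁻¹ ∈ A) → c ∈ A → N ≤ A := by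
    intro A hA hcA
    rw [Subgroup.closure_le]
    rintro _ ⟨g, hg, rfl⟩
    exact hA g hg c hcA
  have hcN : c ∈ N := Subgroup.subset_closure ⟨1, one_mem _, by group⟩
  have hNL' : N ≤ L' := hNle L' (fun g _ x hx => hL'n.conj_mem x hx g) hcL'
  -- the subgroups `B'`
  have hBv : ∀ v ∈ V, ∃ B' : Subgroup F, (∀ b ∈ B', b ^ m = 1) ∧
      (∀ g : F, g = z ∨ g = z⁻¹ ∨ g = s * v ∨ g = (s * v)⁻¹ → ∀ b ∈ B', g * b * g⁻¹ ∈ B') ∧
      (∀ b ∈ B', (b : F ⧸ V) ∈ N) ∧ (∀ b : F, (b : F ⧸ V) ∈ N → ∃ w ∈ V, b * w ∈ B') := by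
    intro v hv
    obtain ⟨A, B, h1, h2, h3, h4, h5⟩ := h (s * v)
    have hz1 : z ∈ c2 z (s * v) := Subgroup.subset_closure (by simp)
    have hs1 : s * v ∈ c2 z (s * v) := Subgroup.subset_closure (by simp)
    have hv1 : ((s * v : F) : F ⧸ V) = s := by
      rw [QuotientGroup.mk_mul, (QuotientGroup.eq_one_iff v).2 hv, mul_one]
    have hmapE : (c2 z (s * v)).map (QuotientGroup.mk' V) = E := by
      rw [hE]
      unfold c2
      rw [MonoidHom.map_closure, Set.image_pair]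
      change Subgroup.closure {(z : F ⧸ V), ((s * v : F) : F ⧸ V)} = _
      rw [hv1]
    have hNA : N ≤ A.map (QuotientGroup.mk' V) := by
      apply hNle
      · intro g hg x hx
        rw [← hmapE] at hg
        obtain ⟨g, hg, rfl⟩ := hg
        obtain ⟨x, hx, rfl⟩ := hx
        exact ⟨g * x * g⁻¹, h1 g hg x hx, by simp⟩
      · have h6 : z * (s * v) * z⁻¹ * (s * v)⁻¹ ∈ B := by
          have h7 := mul_mem h5 (h2 (s * v) hs1 _ (inv_mem h5))
          have e : z * ((s * v) * z⁻¹ * (s * v)⁻¹) = z * (s * v) * z⁻¹ * (s * v)⁻¹ := by group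
          rwa [e] at h7
        have h7 : ((z * (s * v) * z⁻¹ * (s * v)⁻¹ : F) : F ⧸ V) = c := by
          rw [hc, QuotientGroup.mk_mul, QuotientGroup.mk_mul, QuotientGroup.mk_mul,
            QuotientGroup.mk_inv, QuotientGroup.mk_inv, hv1]
        refine mem_of_pow hab.symm (hL'Q c hcL') ?_
        exact ⟨_, h4 _ h6, by rw [map_pow]; exact congrArg (· ^ p ^ α) h7⟩
    refine ⟨A ⊓ N.comap (QuotientGroup.mk' V), fun b hb => h3 b hb.1, ?_, fun b hb => hb.2, ?_⟩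
    · have key : ∀ g ∈ c2 z (s * v), ∀ b ∈ A ⊓ N.comap (QuotientGroup.mk' V),
          g * b * g⁻¹ ∈ A ⊓ N.comap (QuotientGroup.mk' V) := by
        intro g hg b hb
        refine ⟨h1 g hg b hb.1, ?_⟩
        have h8 : (g : F ⧸ V) ∈ E := by
          rw [← hmapE]
          exact ⟨g, hg, rfl⟩
        exact hNE _ h8 _ hb.2
      rintro g (rfl | rfl | rfl | rfl)
      · exact key _ hz1
      · exact key _ (inv_mem hz1)
      · exact key _ hs1
      · exact key _ (inv_mem hs1)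
    · intro b hb
      obtain ⟨a, ha, e⟩ := hNA hb
      have e' : (a : F ⧸ V) = b := e
      refine ⟨b⁻¹ * a, QuotientGroup.eq.1 e'.symm, ?_⟩
      rw [mul_inv_cancel_left]
      refine ⟨ha, ?_⟩
      change (a : F ⧸ V) ∈ N
      rw [e']
      exact hb
  obtain ⟨B, hB1, hB2, hB3, hB4⟩ := hBv 1 (one_mem _)
  rw [mul_one] at hB2
  have hcopr : Nat.Coprime m p := hpm'.symm
  have hBz : ∀ b ∈ B, z * b * z⁻¹ ∈ B := hB2 z (Or.inl rfl)
  have hBz' : ∀ b ∈ B, z⁻¹ * b * z ∈ B := by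
    intro b hb
    have := hB2 z⁻¹ (Or.inr (Or.inl rfl)) b hb
    rwa [inv_inv] at this
  have hhalf := half' V p z s hp hV hVab hVp B (fun b hb => ⟨m, hcopr, hB1 b hb⟩) hBz hBz'
    (hB2 s (Or.inr (Or.inr (Or.inl rfl)))) (by
      intro b hb
      have := hB2 s⁻¹ (Or.inr (Or.inr (Or.inr rfl))) b hb
      rwa [inv_inv] at this) (by
      intro v hv
      obtain ⟨B', h1, h2, h3, h4⟩ := hBv v hv
      exact ⟨B', fun b hb => ⟨m, hcopr, h1 b hb⟩, h2 z (Or.inl rfl),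
        h2 (s * v) (Or.inr (Or.inr (Or.inl rfl))), fun b hb => h4 b (hB3 b hb),
        fun b hb => hB4 b (h3 b hb)⟩)
  -- `z` centralises `B`
  have hBc : ∀ b ∈ B, b * z = z * b := by
    intro b hb
    obtain ⟨g, hg⟩ : ∃ g, g = b * z * b⁻¹ * z⁻¹ := ⟨_, rfl⟩
    have hgB : g ∈ B := by
      have h1 := mul_mem hb (hBz _ (inv_mem hb))
      have e : b * (z * b⁻¹ * z⁻¹) = b * z * b⁻¹ * z⁻¹ := by group
      rwa [e, ← hg] at h1
    have hgL : g ∈ L := hL'L g (hNL' (hB3 g hgB))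
    have hC0 : ∀ x ∈ V ⊓ Subgroup.centralizer (B : Set F), x ∈ V ∧ ∀ b ∈ B, b * x = x * b := by
      intro x hx
      exact ⟨hx.1, fun b hb => (Subgroup.mem_centralizer_iff.1 hx.2) b hb⟩
    have hC0z : ∀ x ∈ V ⊓ Subgroup.centralizer (B : Set F),
        z * x * z⁻¹ ∈ V ⊓ Subgroup.centralizer (B : Set F) := by
      intro x hx
      refine ⟨hV.conj_mem x hx.1 z, Subgroup.mem_centralizer_iff.2 fun b hb => ?_⟩
      have h1 := (hC0 x hx).2 _ (hBz' b hb)
      calc b * (z * x * z⁻¹) = z * ((z⁻¹ * b * z) * x) * z⁻¹ := by group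
        _ = z * (x * (z⁻¹ * b * z)) * z⁻¹ := by rw [h1]
        _ = z * x * z⁻¹ * b := by group
    have hz2 : ∀ u ∈ V, z * u * z⁻¹ * u⁻¹ ∈ V ⊓ Subgroup.centralizer (B : Set F) := by
      intro u hu
      have h1 := hhalf (z * u * z⁻¹) (hV.conj_mem u hu z)
      have e : z⁻¹ * (z * u * z⁻¹) * z * (z * u * z⁻¹)⁻¹ = (z * u * z⁻¹ * u⁻¹)⁻¹ := by group
      rw [e] at h1
      have := inv_mem h1
      rwa [inv_inv] at this
    have hgV : ∀ u ∈ V, g * u = u * g := by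
      intro u hu
      obtain ⟨κ, hκ⟩ : ∃ κ, κ = g * u * g⁻¹ * u⁻¹ := ⟨_, rfl⟩
      have hκC : κ ∈ V ⊓ Subgroup.centralizer (B : Set F) := by
        -- `c1 = z⁻¹ u z u⁻¹`, `u2 = b⁻¹ u b`
        have h1 := hhalf u hu
        obtain ⟨c1, hc1⟩ : ∃ c1, c1 = z⁻¹ * u * z * u⁻¹ := ⟨_, rfl⟩
        rw [← hc1] at h1
        have hu2 : b⁻¹ * u * b ∈ V := by
          have := hV.conj_mem u hu b⁻¹
          rwa [inv_inv] at this
        have h2 := hz2 _ hu2
        obtain ⟨c2', hc2'⟩ : ∃ c2', c2' = z * (b⁻¹ * u * b) * z⁻¹ * (b⁻¹ * u * b)⁻¹ := ⟨_, rfl⟩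
        rw [← hc2'] at h2
        have h3 := hC0z c1 h1
        have h4 := mul_mem h3 h2
        have e1 : b⁻¹ * c1 * b = c1 := by
          have := (hC0 c1 h1).2 b hb
          rw [mul_assoc, ← this]
          group
        have e2 : b * (z * c1 * z⁻¹ * c2') * b⁻¹ = z * c1 * z⁻¹ * c2' := by
          have := (hC0 _ h4).2 b hb
          rw [this]
          group
        have e3 : κ = z * c1 * z⁻¹ * c2' := by
          rw [← e2, hκ, hg, hc2']
          have e4 : z⁻¹ * u * z = c1 * u := by rw [hc1]; group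
          calc b * z * b⁻¹ * z⁻¹ * u * (b * z * b⁻¹ * z⁻¹)⁻¹ * u⁻¹ =
                b * z * b⁻¹ * (z⁻¹ * u * z) * b * z⁻¹ * b⁻¹ * u⁻¹ := by group
            _ = b * z * b⁻¹ * (c1 * u) * b * z⁻¹ * b⁻¹ * u⁻¹ := by rw [e4]
            _ = b * z * (b⁻¹ * c1 * b) * (b⁻¹ * u * b) * z⁻¹ * b⁻¹ * u⁻¹ := by group
            _ = b * z * c1 * (b⁻¹ * u * b) * z⁻¹ * b⁻¹ * u⁻¹ := by rw [e1]
            _ = b * (z * c1 * z⁻¹ * (z * (b⁻¹ * u * b) * z⁻¹ * (b⁻¹ * u * b)⁻¹)) * b⁻¹ := by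
                group
        rw [e3]
        exact h4
      have hcm : Commute g κ := ((hC0 κ hκC).2 g hgB)
      have h5 := comm_pow (x := g) (y := u) (c := κ) hκ.symm hcm m
      rw [hB1 g hgB] at h5
      have h6 : κ ^ m = 1 := by rw [← h5]; group
      have h7 := W629.eq_one_of_coprime hcopr h6 (hVp κ (hC0 κ hκC).1)
      rw [h7, eq_comm, mul_inv_eq_one, mul_inv_eq_iff_eq_mul] at hκ
      exact hκ
    have h8 := hC g hgL hgV
    have h9 := W629.eq_one_of_coprime hcopr (hB1 g hgB) (hVp g h8)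
    rw [h9, eq_comm, mul_inv_eq_one, mul_inv_eq_iff_eq_mul] at hg
    exact hg
  -- conclusion
  obtain ⟨c0, hc0⟩ := QuotientGroup.mk_surjective c
  obtain ⟨w, hw, hcw⟩ := hB4 c0 (by rw [hc0]; exact hcN)
  have h1 := hBc _ hcw
  have h2 : ((c0 * w : F) : F ⧸ V) = c := by
    rw [QuotientGroup.mk_mul, (QuotientGroup.eq_one_iff w).2 hw, mul_one, hc0]
  have h3 : c * (z : F ⧸ V) = z * c := by
    rw [← h2, ← QuotientGroup.mk_mul, h1, QuotientGroup.mk_mul]
  have h4 := comm_pow (x := (z : F ⧸ V)) (y := (s : F ⧸ V)) (c := c) hc.symm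
    (show Commute (z : F ⧸ V) c from h3.symm) (p ^ α)
  have h5 : (z : F ⧸ V) ^ p ^ α = 1 := by rw [← QuotientGroup.mk_pow, hz]; rfl
  rw [h5] at h4
  have h6 : c ^ p ^ α = 1 := by rw [← h4]; group
  have h7 := W629.eq_one_of_coprime hab h6 (hL'Q c hcL')
  rw [← QuotientGroup.eq_one_iff]
  change (z : F ⧸ V) * s * (z : F ⧸ V)⁻¹ * (s : F ⧸ V)⁻¹ = 1
  rw [← hc, h7]



/-- the hypotheses on the group -/
structure Sg (P M : ℕ) (G : Type) [Group G] : Prop where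
  hn : P * M ≠ 0
  exp : ∀ x : G, x ^ (P * M) = 1
  fin : ∀ x y : G, Finite (c2 x y)
  sol : ∀ x y : G, PSep P M (c2 x y)

/-- elements which lie in `O_{p',p}` of all finite soluble subgroups containing them -/
def SG {G : Type} [Group G] (P M : ℕ) (z : G) : Prop :=
  z ^ P = 1 ∧ ∀ E : Subgroup G, Finite E → PSep P M E → z ∈ E → TT P M E z

variable {G : Type} [Group G]

/-- powers of elements of maximal order -/
theorem ss_of_maxG {p α m : ℕ} (S : Sg (p ^ α) m G) (hp : p.Prime) (hpm : ¬ p ∣ m)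
    (hα : 1 ≤ α)
    (hex : ∀ q : ℕ, q.Prime → q ∣ m → ∀ μ, 1 ≤ μ → μ ≤ α → ∀ r, 1 ≤ r → q ^ r ≠ p ^ μ - 1)
    {x : G} (hx : x ^ p ^ α = 1) : SG (p ^ α) m (x ^ p ^ (α - 1)) := by
  have hm : m ≠ 0 := by
    rintro rfl
    exact S.hn (by rw [mul_zero])
  have hpm' : Nat.Coprime p m := (Nat.Prime.coprime_iff_not_dvd hp).2 hpm
  have hexp : ∀ x : G, x ^ (p ^ α * m) = 1 := S.exp
  have hz : (x ^ p ^ (α - 1)) ^ p ^ α = 1 := by rw [← pow_mul, mul_comm, pow_mul, hx, one_pow]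
  refine ⟨hz, fun E hE hEs hzE => ?_⟩
  obtain ⟨z, hzx⟩ : ∃ z, z = x ^ p ^ (α - 1) := ⟨_, rfl⟩
  rw [← hzx] at hz hzE ⊢
  have key : ∀ f : G, TT (p ^ α) m (c2 z f) z := by
    intro f
    have hfin := S.fin x f
    have hxm : x ∈ c2 x f := Subgroup.subset_closure (by simp)
    have hfm : f ∈ c2 x f := Subgroup.subset_closure (by simp)
    have h1 := hhBS hp hpm hm hα hex (exp_sub hexp (c2 x f)) (S.sol x f) (x := ⟨x, hxm⟩)
      (Subtype.ext hx)
    have h2 := h1.map (c2 x f).subtype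
    rw [← MonoidHom.range_eq_map, Subgroup.range_subtype] at h2
    have h3 : (c2 x f).subtype ((⟨x, hxm⟩ : c2 x f) ^ p ^ (α - 1)) = z := by
      rw [hzx]
      rfl
    rw [h3] at h2
    refine h2.mono ?_
    unfold c2
    rw [Subgroup.closure_le]
    rintro y (rfl | hy)
    · rw [hzx]
      exact pow_mem hxm _
    · rw [Set.mem_singleton_iff.1 hy]
      exact hfm
  have h4 := bsS hp hpm' (exp_sub hexp E) hEs (z := ⟨z, hzE⟩) (Subtype.ext hz) (by
    intro f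
    refine TT.comap E.subtype E.subtype_injective ?_
    have h5 : (c2 (⟨z, hzE⟩ : E) f).map E.subtype = c2 z (f : G) := by
      unfold c2
      rw [MonoidHom.map_closure, Set.image_pair]
      rfl
    rw [h5]
    exact key f)
  have h5 := h4.map E.subtype
  rw [← MonoidHom.range_eq_map, Subgroup.range_subtype] at h5
  exact h5

/-- a theorem of Baer and Suzuki for finite soluble groups -/
theorem bsfG {P Q : ℕ} {F : Type} [Group F] [Finite F] (hab : Nat.Coprime P Q)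
    (hF : ∀ x : F, x ^ (P * Q) = 1) (hsol : PSep P Q F) {e : F} (he : e ^ P = 1)
    (h : ∀ k : F, ∀ x ∈ c2 e (k * e * k⁻¹), x ^ P = 1) : e ∈ Rad P F := by
  refine mem_rad_ofS hab hF hsol he ?_
  intro u hu
  obtain ⟨w, rfl⟩ := QuotientGroup.mk_surjective u
  have h1 : e * (w * e⁻¹ * w⁻¹) ∈ c2 e (w * e * w⁻¹) := by
    have e1 : w * e⁻¹ * w⁻¹ = (w * e * w⁻¹)⁻¹ := by group
    rw [e1]
    exact mul_mem (Subgroup.subset_closure (by simp)) (inv_mem (Subgroup.subset_closure (by simp)))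
  have h2 := h w _ h1
  have h3 : ((e * (w * e⁻¹ * w⁻¹) : F) : F ⧸ Rad P F) = 1 := by
    refine W629.eq_one_of_coprime hab (by rw [← QuotientGroup.mk_pow, h2]; rfl) ?_
    apply rad_pow (G := F ⧸ Rad P F)
    have e1 : ((e * (w * e⁻¹ * w⁻¹) : F) : F ⧸ Rad P F) =
        (e * (w : F ⧸ Rad P F) * (e : F ⧸ Rad P F)⁻¹) *
          (w : F ⧸ Rad P F)⁻¹ := by
      simp only [QuotientGroup.mk_mul, QuotientGroup.mk_inv]
      group
    rw [e1]
    exact mul_mem ((rad_normal Q).conj_mem _ hu _) (inv_mem hu)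
  have e1 : ((e * (w * e⁻¹ * w⁻¹) : F) : F ⧸ Rad P F) =
      e * (w : F ⧸ Rad P F) * (e : F ⧸ Rad P F)⁻¹ * (w : F ⧸ Rad P F)⁻¹ := by
    simp only [QuotientGroup.mk_mul, QuotientGroup.mk_inv]
    group
  rw [e1, mul_inv_eq_one, mul_inv_eq_iff_eq_mul] at h3
  exact h3

theorem Sg.symm {P Q : ℕ} (S : Sg P Q G) : Sg Q P G :=
  ⟨by rw [mul_comm]; exact S.hn, fun x => by rw [mul_comm]; exact S.exp x, S.fin,
    fun x y => (S.sol x y).symm⟩

theorem nice_existsG {P Q : ℕ} (S : Sg P Q G) (hab : Nat.Coprime P Q)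
    (rp : Rad P G = ⊥) {e : G} (he : e ^ P = 1) (he1 : e ≠ 1) : ∃ g, Nice P e g := by
  classical
  have hexp : ∀ x : G, x ^ (P * Q) = 1 := S.exp
  -- subgroups with `e` outside the radical
  have step : ∀ K : Subgroup G, Finite K → PSep P Q K → e ∈ K →
      (∃ t ∈ K, t ^ P = 1 ∧ (e * t) ^ P ≠ 1) →
      ∃ k ∈ K, ¬ ∀ x ∈ c2 e (k * e * k⁻¹), x ^ P = 1 := by
    rintro K hK hKs heK ⟨t, htK, ht, het⟩
    by_contra hcon
    push Not at hcon
    have h1 := bsfG hab (exp_sub hexp K) hKs (e := ⟨e, heK⟩) (Subtype.ext he) (by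
      intro k x hx
      apply Subtype.ext
      rw [Subgroup.coe_pow, Subgroup.coe_one]
      refine hcon k k.2 x ?_
      have h2 : (c2 (⟨e, heK⟩ : K) (k * ⟨e, heK⟩ * k⁻¹)).map K.subtype =
          c2 e ((k : G) * e * (k : G)⁻¹) := by
        unfold c2
        rw [MonoidHom.map_closure, Set.image_pair]
        rfl
      rw [← h2]
      exact ⟨x, hx, rfl⟩)
    have h2 := rad_mul h1 (z := ⟨t, htK⟩) (Subtype.ext ht)
    exact het (congrArg Subtype.val h2)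
  obtain ⟨t, ht, het⟩ : ∃ t : G, t ^ P = 1 ∧ (e * t) ^ P ≠ 1 := by
    by_contra hcon
    push Not at hcon
    have h1 : e ∈ Rad P G := ⟨he, hcon⟩
    rw [rp] at h1
    exact he1 h1
  have hex : ∃ d, ∃ g : G, (¬ ∀ x ∈ c2 e (g * e * g⁻¹), x ^ P = 1) ∧
      Nat.card (c2 e (g * e * g⁻¹)) = d := by
    obtain ⟨k, -, hk⟩ := step (c2 e t) (S.fin e t) (S.sol e t) (Subgroup.subset_closure (by simp))
      ⟨t, Subgroup.subset_closure (by simp), ht, het⟩
    exact ⟨_, k, hk, rfl⟩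
  obtain ⟨g, hg, hgd⟩ := Nat.find_spec hex
  have hmin := fun d (hd : d < Nat.find hex) => Nat.find_min hex hd
  have hfin := S.fin e (g * e * g⁻¹)
  have hsol := S.sol e (g * e * g⁻¹)
  have heK : e ∈ c2 e (g * e * g⁻¹) := Subgroup.subset_closure (by simp)
  have hgK : g * e * g⁻¹ ∈ c2 e (g * e * g⁻¹) := Subgroup.subset_closure (by simp)
  have h1 : ∃ t ∈ c2 e (g * e * g⁻¹), t ^ P = 1 ∧ (e * t) ^ P ≠ 1 := by
    by_contra hcon
    push Not at hcon
    -- `e` is in the radical of `K`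
    let e' : c2 e (g * e * g⁻¹) := ⟨e, heK⟩
    let y' : c2 e (g * e * g⁻¹) := ⟨g * e * g⁻¹, hgK⟩
    have h2 : e' ∈ Rad P (c2 e (g * e * g⁻¹)) :=
      ⟨Subtype.ext he, fun z hz => Subtype.ext (hcon z z.2 (congrArg Subtype.val hz))⟩
    apply hg
    intro x hx
    have h3 : (⊤ : Subgroup (c2 e (g * e * g⁻¹))) ≤
        (Subgroup.zpowers ((y' : c2 e (g * e * g⁻¹)) : c2 e (g * e * g⁻¹) ⧸
          Rad P (c2 e (g * e * g⁻¹)))).comap (QuotientGroup.mk' _) := by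
      have h4 : (⊤ : Subgroup (c2 e (g * e * g⁻¹))) = Subgroup.closure {e', y'} := by
        apply Subgroup.map_injective (c2 e (g * e * g⁻¹)).subtype_injective
        rw [← MonoidHom.range_eq_map, Subgroup.range_subtype, MonoidHom.map_closure,
          Set.image_pair]
        rfl
      rw [h4, Subgroup.closure_le]
      rintro a (rfl | ha)
      · rw [SetLike.mem_coe, Subgroup.mem_comap, QuotientGroup.mk'_apply,
          (QuotientGroup.eq_one_iff e').2 h2]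
        exact one_mem _
      · rw [Set.mem_singleton_iff.1 ha]
        exact Subgroup.mem_zpowers _
    have h5 := h3 (Subgroup.mem_top (⟨x, hx⟩ : c2 e (g * e * g⁻¹)))
    obtain ⟨i, hi⟩ := Subgroup.mem_zpowers_iff.1 h5
    have hy : y' ^ P = 1 := Subtype.ext (conj_pow_one he)
    have h6 : (((⟨x, hx⟩ : c2 e (g * e * g⁻¹)) : c2 e (g * e * g⁻¹) ⧸
        Rad P (c2 e (g * e * g⁻¹)))) ^ P = 1 := by
      change (QuotientGroup.mk' _ _) ^ P = 1
      rw [← hi, ← zpow_natCast, ← zpow_mul, mul_comm, zpow_mul, zpow_natCast,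
        ← QuotientGroup.mk_pow, hy]
      exact one_zpow i
    have h7 := pow_of_mk hab (exp_sub hexp _) _ (fun x hx => rad_pow hx) h6
    exact congrArg Subtype.val h7
  obtain ⟨k, hkK, hk⟩ := step _ hfin hsol heK h1
  have hle : c2 e (k * e * k⁻¹) ≤ c2 e (g * e * g⁻¹) :=
    c2_le heK (mul_mem (mul_mem hkK heK) (inv_mem hkK))
  have heq : c2 e (k * e * k⁻¹) = c2 e (g * e * g⁻¹) := by
    refine Subgroup.eq_of_le_of_card_ge hle ?_
    by_contra hlt
    push Not at hlt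
    rw [hgd] at hlt
    exact hmin _ hlt ⟨k, hk, rfl⟩
  exact ⟨k, by rw [heq]; exact hkK, hk⟩

/-- the minimal subgroup lies in `O_{q'}` -/
theorem in_AG {n Q M s : ℕ} (hab : Nat.Coprime Q M) (hs : qp s n ∣ M) {w : G} (hw : SG Q M w)
    {U : Subgroup G} (A : Arr n s w U) {E : Subgroup G} (hE : Finite E) (hEs : PSep Q M E)
    (hwE : w ∈ E) (hU : U ≤ E) :
    ∃ B : Subgroup G, (∀ g ∈ E, ∀ x ∈ B, g * x * g⁻¹ ∈ B) ∧ (∀ x ∈ B, x ^ M = 1) ∧ U ≤ B := by
  obtain ⟨B, h1, h2, h3⟩ := (hw.2 E hE hEs hwE).comm_mem hab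
  refine ⟨B, h1, h2, ?_⟩
  obtain ⟨u, hu, huw⟩ := A.nc
  have hco : Nat.Coprime Q (qp s n) := Nat.Coprime.coprime_dvd_right hs hab
  obtain ⟨h4, h5⟩ := A.comm_nc hw.1 hco hu huw
  have h6 : w * u * w⁻¹ * u⁻¹ ∈ B := by
    apply h3 u (hU hu)
    obtain ⟨c, rfl⟩ := hs
    rw [pow_mul, A.pow _ h4, one_pow]
  have h7 := A.min (U ⊓ B) inf_le_left (fun x hx => ⟨A.inv x hx.1, h1 w hwE x hx.2⟩)
    ⟨_, ⟨h4, h6⟩, h5⟩
  rw [← h7]
  exact inf_le_right

/-- the hypotheses for elements of `SG Q M` -/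
structure Pr (n Q M : ℕ) (G : Type) [Group G] : Prop where
  S : Sg Q M G
  cop : Nat.Coprime Q M
  fac : Q * M = n
  rad : Rad M G = ⊥

theorem Pr.nice {n Q M : ℕ} (S : Pr n Q M G) {e : G} (he : e ^ M = 1) (he1 : e ≠ 1) :
    ∃ g, Nice M e g := by
  exact nice_existsG S.S.symm S.cop.symm S.rad he he1

theorem arr_powM {n M s : ℕ} (hs : qp s n ∣ M) {w : G} {U : Subgroup G} (A : Arr n s w U)
    {u : G} (hu : u ∈ U) : u ^ M = 1 := by
  obtain ⟨c, rfl⟩ := hs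
  rw [pow_mul, A.pow _ hu, one_pow]

/-- no nontrivial element of a minimal subgroup commutes with it and with `w` -/
theorem c1G {n Q M s : ℕ} (S : Pr n Q M G) (hs : qp s n ∣ M) {w : G} (hw : SG Q M w)
    {U : Subgroup G} (A : Arr n s w U) {e : G} (he : e ∈ U) (he1 : e ≠ 1) (hew : e * w = w * e)
    (heU : ∀ u ∈ U, e * u = u * e) : False := by
  have heP : e ^ M = 1 := arr_powM hs A he
  obtain ⟨g, hg⟩ := S.nice heP he1
  obtain ⟨u, hu, huw⟩ := A.nc
  obtain ⟨m1, m2, m3, m4, m5⟩ := gens S.cop.symm (x := e) (k := w) (g := g) (c := u) heP hw.1 hew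
    ⟨1, by rw [pow_one, ← heU u hu]; group⟩ hg.1
  have hUE := A.gen _ m2 hu m4 huw
  obtain ⟨B, h1, h2, h3⟩ := in_AG S.cop hs hw A (S.S.fin _ _) (S.S.sol _ _) m2 hUE
  exact nice_false hg h2 (h1 g m3) (h3 he)

/-- structure of the minimal subgroups -/
theorem arr_structG {n Q M s : ℕ} (S : Pr n Q M G) (hQ : 0 < Q) (hsp : s.Prime)
    (hs : qp s n ∣ M) {w : G} (hw : SG Q M w) {U : Subgroup G}
    (A : Arr n s w U) : (∀ u ∈ U, ∀ v ∈ U, u * v = v * u) ∧ (∀ u ∈ U, u ^ s = 1) ∧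
      (∀ u ∈ U, u ≠ 1 → w * u ≠ u * w) ∧
      (∀ V : Subgroup G, V ≤ U → (∀ u ∈ V, w * u * w⁻¹ ∈ V) → V ≠ ⊥ → V = U) := by
  have hUfin := A.fin
  have hUP : ∀ u ∈ U, u ^ qp s n = 1 := A.pow
  have hUne : (⊤ : Subgroup U) ≠ ⊥ := by
    intro h
    obtain ⟨u, hu, huw⟩ := A.nc
    have h1 : (⟨u, hu⟩ : U) ∈ (⊤ : Subgroup U) := Subgroup.mem_top _
    rw [h, Subgroup.mem_bot] at h1
    have h2 : u = 1 := congrArg Subtype.val h1
    rw [h2, mul_one, one_mul] at huw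
    exact huw rfl
  -- the subgroup `Ω_1(Z(U))`
  let V : Subgroup G :=
    { carrier := {v | v ∈ U ∧ (∀ r ∈ U, v * r = r * v) ∧ v ^ s = 1}
      one_mem' := ⟨one_mem _, fun r _ => by rw [mul_one, one_mul], one_pow _⟩
      mul_mem' := by
        rintro a b ⟨ha, ha2, ha3⟩ ⟨hb, hb2, hb3⟩
        refine ⟨mul_mem ha hb, fun r hr => ?_, ?_⟩
        · rw [mul_assoc, hb2 r hr, ← mul_assoc, ha2 r hr, mul_assoc]
        · have : Commute a b := ha2 b hb
          rw [this.mul_pow, ha3, hb3, one_mul]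
      inv_mem' := by
        rintro a ⟨ha, ha2, ha3⟩
        refine ⟨inv_mem ha, fun r hr => ?_, by rw [inv_pow, ha3, inv_one]⟩
        have h1 := ha2 r hr
        rw [inv_mul_eq_iff_eq_mul, ← mul_assoc, h1]
        group }
  have hwinv := inv_conj hQ hw.1 A.inv
  have hVinv : ∀ v ∈ V, w * v * w⁻¹ ∈ V := by
    rintro v ⟨h1, h2, h3⟩
    refine ⟨A.inv v h1, fun r hr => ?_, conj_pow_one h3⟩
    have h5 := h2 _ (hwinv r hr)
    calc w * v * w⁻¹ * r = w * (v * (w⁻¹ * r * w)) * w⁻¹ := by group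
      _ = w * ((w⁻¹ * r * w) * v) * w⁻¹ := by rw [h5]
      _ = r * (w * v * w⁻¹) := by group
  obtain ⟨V', -, hV'1, -, hV'2, hV'3⟩ := exists_omega (α := n.factorization s) hsp
    (⊤ : Subgroup U) inferInstance hUne fun x _ => Subtype.ext (hUP x x.2)
  have hVne : ∃ e ∈ V, e ≠ 1 := by
    obtain ⟨e, he1⟩ := (Subgroup.ne_bot_iff_exists_ne_one).1 hV'1
    refine ⟨((e : U) : G), ⟨(e : U).2, fun r hr => ?_, ?_⟩, fun h => he1 ?_⟩
    · exact congrArg Subtype.val (hV'2 e e.2 ⟨r, hr⟩ (Subgroup.mem_top _))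
    · exact congrArg Subtype.val (hV'3 e e.2)
    · exact Subtype.ext (Subtype.ext h)
  have hVU : V = U := by
    apply A.min V (fun v hv => hv.1) hVinv
    by_contra hcon
    push Not at hcon
    obtain ⟨e, he, he1⟩ := hVne
    exact c1G S hs hw A he.1 he1 (hcon e he).symm he.2.1
  have hab : ∀ u ∈ U, ∀ v ∈ U, u * v = v * u := by
    intro u hu v hv
    have : u ∈ V := by rw [hVU]; exact hu
    exact this.2.1 v hv
  have hpow : ∀ u ∈ U, u ^ s = 1 := by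
    intro u hu
    have : u ∈ V := by rw [hVU]; exact hu
    exact this.2.2
  have hfpf : ∀ u ∈ U, u ≠ 1 → w * u ≠ u * w := by
    intro u hu hu1 h
    exact c1G S hs hw A hu hu1 h.symm (hab u hu)
  refine ⟨hab, hpow, hfpf, fun W hW hWinv hW1 => ?_⟩
  apply A.min W hW hWinv
  obtain ⟨e, he⟩ := (Subgroup.ne_bot_iff_exists_ne_one).1 hW1
  exact ⟨e, e.2, hfpf e (hW e.2) fun h => he (Subtype.ext h)⟩

/-- no eigenvectors -/
theorem no_eigG {n Q M s : ℕ} (S : Pr n Q M G) (hQ : 0 < Q) (hsp : s.Prime)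
    (hs : qp s n ∣ M) {w : G} (hw : SG Q M w) {U : Subgroup G}
    (A : Arr n s w U) {v : G} (hv : v ∈ U) (hv1 : v ≠ 1) {l : ℕ} (hl : w * v * w⁻¹ = v ^ l) :
    False := by
  obtain ⟨h1, h2, h3, h4⟩ := arr_structG S hQ hsp hs hw A
  have hvp := h2 v hv
  have hvP : v ^ M = 1 := arr_powM hs A hv
  obtain ⟨g, hg⟩ := S.nice hvP hv1
  obtain ⟨m, hm⟩ : ∃ m : ℕ, (w * v * w⁻¹) ^ m = v := by
    rw [hl]
    apply pow_gen hsp hvp
    intro h
    rw [h, mul_inv_eq_one] at hl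
    apply hv1
    exact (left_eq_mul.1 hl.symm)
  obtain ⟨m1, m2, m3, m4, m5⟩ := gens S.cop.symm (x := v) (k := 1) (g := g) (c := w) hvP
    (one_pow _) (by rw [mul_one, one_mul]) ⟨m, hm⟩ hg.1
  obtain ⟨B, h5, h6, h7⟩ := (hw.2 _ (S.S.fin _ _) (S.S.sol _ _) m4).comm_mem S.cop
  have h8 : w * v * w⁻¹ * v⁻¹ ∈ B := by
    apply h7 v m1
    exact arr_powM hs A (U.mul_mem (A.inv v hv) (U.inv_mem hv))
  have h9 : w * v * w⁻¹ * v⁻¹ = v ^ (l + (s - 1)) := by
    rw [hl, pow_add]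
    congr 1
    rw [inv_eq_iff_mul_eq_one, ← pow_succ', Nat.sub_add_cancel hsp.one_lt.le, hvp]
  have h10 : v ^ (l + (s - 1)) ≠ 1 := by
    rw [← h9]
    intro h
    rw [mul_inv_eq_one, mul_inv_eq_iff_eq_mul] at h
    exact h3 v hv hv1 h
  obtain ⟨m', hm'⟩ := pow_gen hsp hvp h10
  have h11 : v ∈ B := by
    rw [← hm', ← h9]
    exact pow_mem h8 m'
  exact nice_false hg h6 (h5 g m3) h11

/-- no minimal `s`-subgroups if `q ∣ s - 1` -/
theorem no_arrG {n q Q M s : ℕ} (S : Pr n Q M G) (hQ : 0 < Q) (hsp : s.Prime)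
    (hs : qp s n ∣ M) (hqs : q ∣ s - 1) {w : G} (hw : SG Q M w) (hwq : w ^ q = 1)
    {U : Subgroup G} (A : Arr n s w U) : False := by
  have := A.fin
  obtain ⟨h1, h2, h3, h4⟩ := arr_structG S hQ hsp hs hw A
  have hU : ∃ u ∈ U, u ≠ 1 := by
    obtain ⟨u, hu, huw⟩ := A.nc
    refine ⟨u, hu, ?_⟩
    rintro rfl
    rw [mul_one, one_mul] at huw
    exact huw rfl
  obtain ⟨v, hv, hv1, l, hl⟩ := eig hsp hqs U h1 h2 hwq A.inv hU
  exact no_eigG S hQ hsp hs hw A hv hv1 hl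


/-- if `w` acts trivially on the finite `s`-subgroups, then `w` is in the radical -/
theorem rad_of_no_arrG {n q β M : ℕ} (S : Sg (q ^ β) M G) (hq : q.Prime) (hqM : Nat.Coprime q M)
    (hn : q ^ β * M = n) {w : G} (hw : SG (q ^ β) M w)
    (hno : ∀ s : ℕ, s.Prime → s ≠ q → ∀ U : Subgroup G, ¬ Arr n s w U) :
    w ∈ Rad (q ^ β) G := by
  have hexp : ∀ x : G, x ^ (q ^ β * M) = 1 := S.exp
  have hab : Nat.Coprime (q ^ β) M := Nat.Coprime.pow_left _ hqM
  refine ⟨hw.1, fun t ht => ?_⟩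
  have hwE : w ∈ c2 w t := Subgroup.subset_closure (by simp)
  have htE : t ∈ c2 w t := Subgroup.subset_closure (by simp)
  obtain ⟨E, hE⟩ : ∃ E, E = c2 w t := ⟨_, rfl⟩
  have hfin : Finite E := by rw [hE]; exact S.fin w t
  have hsol : PSep (q ^ β) M E := by rw [hE]; exact S.sol w t
  rw [← hE] at hwE htE
  obtain ⟨A, B, h1, h2, h3, h4, h5⟩ := hw.2 E hfin hsol hwE
  have hf' : Finite (A ⊓ E : Subgroup G) :=
    Finite.of_injective (Subgroup.inclusion inf_le_right) (Subgroup.inclusion_injective _)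
  have hcA : ∀ a ∈ A, a ∈ E → w * a = a * w := by
    intro a ha haE
    refine cov (g := w) (k := β) hq (L := A ⊓ E) hf' hw.1
      (not_dvd_card hq hqM hf' fun x hx => h3 x hx.1)
      (fun u hu => ⟨h1 w hwE u hu.1, E.mul_mem (E.mul_mem hwE hu.2) (E.inv_mem hwE)⟩) ?_ a
      ⟨ha, haE⟩
    intro s hs hsq T hT hTs hwT
    have hTf : Finite T := Finite.of_injective (Subgroup.inclusion hT)
      (Subgroup.inclusion_injective _)
    exact cent_of_no_arr (n := n) (by rw [← hn]; exact S.hn) (by rw [← hn]; exact S.exp) hs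
      (hno s hs hsq) hTf hTs hwT
  let C : Subgroup E :=
    { carrier := {x | (x : G) ∈ B ∧ ∀ a ∈ A, a ∈ E → (x : G) * a = a * x}
      one_mem' := ⟨one_mem _, fun v _ _ => by rw [Subgroup.coe_one, mul_one, one_mul]⟩
      mul_mem' := by
        rintro x y ⟨hx, hx2⟩ ⟨hy, hy2⟩
        refine ⟨mul_mem hx hy, fun v hv hvE => ?_⟩
        rw [Subgroup.coe_mul, mul_assoc, hy2 v hv hvE, ← mul_assoc, hx2 v hv hvE, mul_assoc]
      inv_mem' := by
        rintro x ⟨hx, hx2⟩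
        refine ⟨inv_mem hx, fun v hv hvE => ?_⟩
        have h1 := hx2 v hv hvE
        rw [Subgroup.coe_inv, inv_mul_eq_iff_eq_mul, ← mul_assoc, h1]
        group }
  have hCn : C.Normal := by
    refine ⟨?_⟩
    rintro x ⟨hx, hx2⟩ g
    refine ⟨h2 g g.2 x hx, fun v hv hvE => ?_⟩
    have h7 : (g : G)⁻¹ * v * g ∈ A := by
      have := h1 (g : G)⁻¹ (inv_mem g.2) v hv
      rwa [inv_inv] at this
    have h9 : (g : G)⁻¹ * v * g ∈ E := E.mul_mem (E.mul_mem (E.inv_mem g.2) hvE) g.2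
    have h8 := hx2 _ h7 h9
    change (g : G) * x * (g : G)⁻¹ * v = v * ((g : G) * x * (g : G)⁻¹)
    calc (g : G) * x * (g : G)⁻¹ * v = g * (x * ((g : G)⁻¹ * v * g)) * (g : G)⁻¹ := by group
      _ = g * (((g : G)⁻¹ * v * g) * x) * (g : G)⁻¹ := by rw [h8]
      _ = v * (g * x * (g : G)⁻¹) := by group
  have h6 := nilpG hq hab hqM (exp_sub hexp E) C hCn (by
    intro x hx y hy hyp
    have h10 : (y : G) ∈ A := mem_of_pow hab.symm (congrArg Subtype.val hyp) (h4 y hy.1)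
    exact Subtype.ext (hx.2 y h10 y.2)) (x := ⟨w, hwE⟩) ⟨h5, hcA⟩ (Subtype.ext hw.1)
  have h7 := rad_mul h6 (z := ⟨t, htE⟩) (Subtype.ext ht)
  exact congrArg Subtype.val h7


end Pool.Agent.V1110.Bt
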