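import Mathlib
import Pool.Agent.V1110.BtA
import Pool.Agent.TH69.OgF

set_option autoImplicit false

/-!
# Powers of `p`-elements of maximal order lie in the radical
-/

namespace Pool.Agent.V1110.Bt

open Pool.Agent.H32BU Pool.Agent.W629 Pool.Agent.TH69.Mtn Pool.Agent.TH69.Od Pool.Agent.V1110.Pl
open Pool.Agent.TH69.Og (qp_dvd_M)

/-- elements of `O_{M,P}` -/
theorem tt_rad {F : Type} [Group F] {P M : ℕ} (hab : Nat.Coprime P M)
    (hF : ∀ x : F, x ^ (P * M) = 1) {z : F} (h : TT P M ⊤ z) :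
    (z : F ⧸ Rad M F) ∈ Rad P (F ⧸ Rad M F) := by
  obtain ⟨A, B, h1, h2, h3, h4, h5⟩ := h
  have hA : A.Normal := ⟨fun x hx g => h1 g (Subgroup.mem_top g) x hx⟩
  have hB : B.Normal := ⟨fun x hx g => h2 g (Subgroup.mem_top g) x hx⟩
  have hAR : A ≤ Rad M F := le_rad hab.symm (fun x => by rw [mul_comm]; exact hF x) A h3
  have hBn : (B.map (QuotientGroup.mk' (Rad M F))).Normal :=
    Subgroup.Normal.map hB _ (QuotientGroup.mk'_surjective _)
  refine le_rad hab (exp_quot hF (Rad M F)) (B.map (QuotientGroup.mk' (Rad M F))) ?_ ⟨z, h5, rfl⟩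
  rintro _ ⟨x, hx, rfl⟩
  rw [← map_pow, QuotientGroup.mk'_apply, QuotientGroup.eq_one_iff]
  exact hAR (h4 x hx)

variable {G : Type} [Group G]

/-- the hypotheses for three generators -/
structure S3 (P M : ℕ) (G : Type) [Group G] : Prop where
  S : Sg P M G
  fin : ∀ x y z : G, Finite (Subgroup.closure {x, y, z})
  sep : ∀ x y z : G, PSep P M (Subgroup.closure {x, y, z})

/-- `P`-th powers of elements of the subgroup generated by two elements of `O_{M,P}` -/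
theorem pow_mem_rad {P M : ℕ} (hab : Nat.Coprime P M) (T : S3 P M G) {z z' : G} (hz : SG P M z)
    (hz' : SG P M z') {x : G} (hx : x ∈ c2 z z') : x ^ P ∈ Rad M G := by
  have hexp : ∀ x : G, x ^ (P * M) = 1 := T.S.exp
  refine ⟨by rw [← pow_mul]; exact hexp x, fun y hy => ?_⟩
  obtain ⟨E, hE⟩ : ∃ E, E = Subgroup.closure {z, z', y} := ⟨_, rfl⟩
  have hfin : Finite E := by rw [hE]; exact T.fin z z' y
  have hsep : PSep P M E := by rw [hE]; exact T.sep z z' y
  have m1 : z ∈ E := by rw [hE]; exact Subgroup.subset_closure (by simp)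
  have m2 : z' ∈ E := by rw [hE]; exact Subgroup.subset_closure (by simp)
  have m3 : y ∈ E := by rw [hE]; exact Subgroup.subset_closure (by simp)
  have hxE : x ∈ E := c2_le m1 m2 hx
  have hexpE : ∀ x : E, x ^ (P * M) = 1 := exp_sub hexp E
  have key : ∀ w : G, SG P M w → ∀ hw : w ∈ E,
      (((⟨w, hw⟩ : E) : E ⧸ Rad M E)) ∈ Rad P (E ⧸ Rad M E) := by
    intro w hw hwE
    apply tt_rad hab hexpE
    apply TT.comap E.subtype E.subtype_injective
    rw [← MonoidHom.range_eq_map, Subgroup.range_subtype]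
    exact hw.2 E hfin hsep hwE
  have hx' : (⟨x, hxE⟩ : E) ∈ (Rad P (E ⧸ Rad M E)).comap (QuotientGroup.mk' (Rad M E)) := by
    have h1 : c2 z z' ≤ ((Rad P (E ⧸ Rad M E)).comap (QuotientGroup.mk' (Rad M E))).map
        E.subtype := by
      refine c2_le ?_ ?_
      · exact ⟨⟨z, m1⟩, key z hz m1, rfl⟩
      · exact ⟨⟨z', m2⟩, key z' hz' m2, rfl⟩
    obtain ⟨w, hw, hwx⟩ := h1 hx
    have : w = ⟨x, hxE⟩ := Subtype.ext hwx
    rw [← this]
    exact hw
  have h2 : (⟨x, hxE⟩ : E) ^ P ∈ Rad M E := by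
    rw [← QuotientGroup.eq_one_iff, QuotientGroup.mk_pow]
    exact rad_pow (G := E ⧸ Rad M E) hx'
  have h3 := rad_mul h2 (z := ⟨y, m3⟩) (Subtype.ext hy)
  exact congrArg Subtype.val h3

/-- three generators: powers of elements of maximal order lie in the radical -/
theorem max3 {p α m : ℕ} (T : S3 (p ^ α) m G) (hp : p.Prime) (hpm : ¬ p ∣ m) (hα : 1 ≤ α)
    (hex : ∀ q : ℕ, q.Prime → q ∣ m → ∀ μ, 1 ≤ μ → μ ≤ α → ∀ r, 1 ≤ r → q ^ r ≠ p ^ μ - 1)
    (hR : Rad m G = ⊥) {x : G} (hx : x ^ p ^ α = 1) : x ^ p ^ (α - 1) ∈ Rad (p ^ α) G := by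
  have hab : Nat.Coprime (p ^ α) m :=
    Nat.Coprime.pow_left _ ((Nat.Prime.coprime_iff_not_dvd hp).2 hpm)
  have hz := ss_of_maxG T.S hp hpm hα hex hx
  refine ⟨hz.1, fun t ht => ?_⟩
  obtain ⟨z, hze⟩ : ∃ z, z = x ^ p ^ (α - 1) := ⟨_, rfl⟩
  rw [← hze] at hz ⊢
  have m1 : z ∈ c2 z t := Subgroup.subset_closure (by simp)
  have m2 : t ∈ c2 z t := Subgroup.subset_closure (by simp)
  have hfin := T.S.fin z t
  have h1 := bsfG hab (exp_sub T.S.exp (c2 z t)) (T.S.sol z t) (e := ⟨z, m1⟩)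
    (Subtype.ext hz.1) (by
    intro k y hy
    have h2 : (c2 (⟨z, m1⟩ : c2 z t) (k * ⟨z, m1⟩ * k⁻¹)).map (c2 z t).subtype =
        c2 z ((k : G) * z * (k : G)⁻¹) := by
      unfold c2
      rw [MonoidHom.map_closure, Set.image_pair]
      rfl
    have h3 : (y : G) ∈ c2 z ((k : G) * z * (k : G)⁻¹) := by
      rw [← h2]
      exact ⟨y, hy, rfl⟩
    have h4 : SG (p ^ α) m ((k : G) * z * (k : G)⁻¹) := by
      have h5 := ss_of_maxG T.S hp hpm hα hex (x := (k : G) * x * (k : G)⁻¹) (conj_pow_one hx)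
      rwa [conj_pow, ← hze] at h5
    have h5 := pow_mem_rad hab T hz h4 h3
    rw [hR, Subgroup.mem_bot] at h5
    exact Subtype.ext h5)
  exact congrArg Subtype.val (rad_mul h1 (z := ⟨t, m2⟩) (Subtype.ext ht))

/-- two generators: powers of elements of maximal order lie in the radical, if all primes which
divide `m` are congruent to `1` modulo `p` -/
theorem max2 {p α m : ℕ} (T : Sg (p ^ α) m G) (hp : p.Prime) (hpm : ¬ p ∣ m) (hα : 1 ≤ α)
    (hex : ∀ q : ℕ, q.Prime → q ∣ m → ∀ μ, 1 ≤ μ → μ ≤ α → ∀ r, 1 ≤ r → q ^ r ≠ p ^ μ - 1)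
    (h1 : ∀ q : ℕ, q.Prime → q ∣ m → p ∣ q - 1)
    (hR : Rad m G = ⊥) {x : G} (hx : x ^ p ^ α = 1) : x ^ p ^ (α - 1) ∈ Rad (p ^ α) G := by
  have hpm' := (Nat.Prime.coprime_iff_not_dvd hp).2 hpm
  have hab : Nat.Coprime (p ^ α) m := Nat.Coprime.pow_left _ hpm'
  have hz := ss_of_maxG T hp hpm hα hex hx
  have hP : Pr (p ^ α * m) (p ^ α) m G := ⟨T, hab, rfl, hR⟩
  refine rad_of_no_arrG T hp hpm' rfl hz fun s hs hsp U A => ?_
  have hqp := qp_dvd_M hp hs hsp (rfl : p ^ α * m = p ^ α * m)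
  by_cases hsm : s ∣ m
  · refine no_arrG hP (Nat.pow_pos hp.pos) hs hqp (h1 s hs hsm) hz ?_ A
    rw [← pow_mul, ← pow_succ, Nat.sub_add_cancel hα, hx]
  · obtain ⟨u, hu, huw⟩ := A.nc
    have h2 : qp s (p ^ α * m) = 1 := by
      unfold qp
      rw [Nat.factorization_eq_zero_of_not_dvd, pow_zero]
      intro h
      rcases hs.dvd_mul.1 h with h | h
      · exact hsp ((Nat.prime_dvd_prime_iff_eq hs hp).1 (hs.dvd_of_dvd_pow h))
      · exact hsm h
    have h3 := A.pow u hu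
    rw [h2, pow_one] at h3
    rw [h3, mul_one, one_mul] at huw
    exact huw rfl

end Pool.Agent.V1110.Bt
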