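import Mathlib
import Pool.Agent.V1110.BtB
import Pool.Agent.TH69.OgL

set_option autoImplicit false

/-!
# The normal series with at most `a` factors of exponent `p ^ a`, all universes
-/

namespace Pool.Agent.V1110.Bt

open Pool.Agent.H32BU Pool.Agent.W629 Pool.Agent.TH69.Mtn Pool.Agent.TH69.Od Pool.Agent.V1110.Pl

universe u v

/-- `G` has a normal series whose factors have exponent dividing `a` or `b` -/
def PSepU (a b : ℕ) (G : Type u) [Group G] : Prop :=
  ∃ (k : ℕ) (N : ℕ → Subgroup G), N 0 = ⊥ ∧ N k = ⊤ ∧ (∀ i, (N i).Normal) ∧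
    ∀ i < k, (∀ x ∈ N (i + 1), x ^ a ∈ N i) ∨ (∀ x ∈ N (i + 1), x ^ b ∈ N i)

variable {a b : ℕ}

theorem PSepU.of_surj {G : Type u} {H : Type v} [Group G] [Group H] (f : G →* H)
    (hf : Function.Surjective f) (h : PSepU a b G) : PSepU a b H := by
  obtain ⟨k, N, h1, h2, h3, h4⟩ := h
  refine ⟨k, fun i => (N i).map f, ?_, ?_, ?_, ?_⟩
  · change (N 0).map f = ⊥
    rw [h1, Subgroup.map_bot]
  · change (N k).map f = ⊤
    rw [h2, Subgroup.map_top_of_surjective _ hf]
  · intro i
    exact Subgroup.Normal.map (h3 i) _ hf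
  · intro i hi
    rcases h4 i hi with h | h
    · left
      rintro _ ⟨x, hx, rfl⟩
      exact ⟨x ^ a, h x hx, map_pow _ _ _⟩
    · right
      rintro _ ⟨x, hx, rfl⟩
      exact ⟨x ^ b, h x hx, map_pow _ _ _⟩

theorem PSepU.of_inj {G : Type u} {H : Type v} [Group G] [Group H] (f : G →* H)
    (hf : Function.Injective f) (h : PSepU a b H) : PSepU a b G := by
  obtain ⟨k, N, h1, h2, h3, h4⟩ := h
  refine ⟨k, fun i => (N i).comap f, ?_, ?_, ?_, ?_⟩
  · change (N 0).comap f = ⊥
    rw [h1]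
    exact (MonoidHom.ker_eq_bot_iff f).2 hf
  · change (N k).comap f = ⊤
    rw [h2, Subgroup.comap_top]
  · intro i
    have := h3 i
    exact inferInstance
  · intro i hi
    rcases h4 i hi with h | h
    · left
      intro x hx
      rw [Subgroup.mem_comap, map_pow]
      exact h _ hx
    · right
      intro x hx
      rw [Subgroup.mem_comap, map_pow]
      exact h _ hx

theorem PSepU.lower {a' : ℕ} (hab : Nat.Coprime a b) {G : Type u} [Group G]
    (hG : ∀ x : G, x ^ (a' * b) = 1) (h : PSepU a b G) : PSepU a' b G := by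
  obtain ⟨k, N, h1, h2, h3, h4⟩ := h
  refine ⟨k, N, h1, h2, h3, fun i hi => ?_⟩
  rcases h4 i hi with h | h
  · left
    intro x hx
    have := h3 i
    have h5 : (x : G ⧸ N i) ^ a = 1 := by
      rw [← QuotientGroup.mk_pow, QuotientGroup.eq_one_iff]
      exact h x hx
    have h6 : (x : G ⧸ N i) ^ (a' * b) = 1 := by
      rw [← QuotientGroup.mk_pow, hG]
      rfl
    have h7 : orderOf (x : G ⧸ N i) ∣ a' := by
      have h8 : Nat.Coprime (orderOf (x : G ⧸ N i)) b :=
        Nat.Coprime.coprime_dvd_left (orderOf_dvd_of_pow_eq_one h5) hab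
      exact h8.dvd_of_dvd_mul_right (orderOf_dvd_of_pow_eq_one h6)
    rw [← QuotientGroup.eq_one_iff, QuotientGroup.mk_pow]
    exact orderOf_dvd_iff_pow_eq_one.1 h7
  · exact Or.inr h

/-- exponent `P * M`; the `d`-generator subgroups are finite and have a normal series whose factors
have exponent dividing `P` or `M`; moreover they are soluble, if `σ` holds -/
structure InvU (d : ℕ) (σ : Prop) (P M : ℕ) (G : Type u) [Group G] : Prop where
  exp : ∀ x : G, x ^ (P * M) = 1
  gen : ∀ v : Fin d → G, Finite (Subgroup.closure (Set.range v)) ∧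
    PSepU P M (Subgroup.closure (Set.range v)) ∧
    (σ → Group.IsSolvable (Subgroup.closure (Set.range v)))

variable {d P M : ℕ} {σ : Prop}

theorem InvU.quot {G : Type u} [Group G] (I : InvU d σ P M G) (N : Subgroup G) [N.Normal] :
    InvU d σ P M (G ⧸ N) := by
  refine ⟨exp_quot I.exp N, fun v => ?_⟩
  have hv : ∀ i, ∃ g : G, (g : G ⧸ N) = v i := fun i => QuotientGroup.mk_surjective (v i)
  choose w hw using hv
  have e : (Subgroup.closure (Set.range w)).map (QuotientGroup.mk' N) =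
      Subgroup.closure (Set.range v) := by
    rw [MonoidHom.map_closure, ← Set.range_comp]
    congr 2
    funext i
    exact hw i
  obtain ⟨h1, h2, h3⟩ := I.gen w
  rw [← e]
  refine ⟨Finite.of_surjective _ ((QuotientGroup.mk' N).subgroupMap_surjective _),
    h2.of_surj _ ((QuotientGroup.mk' N).subgroupMap_surjective _), fun h => ?_⟩
  have := h3 h
  exact Group.isSolvable_of_surjective ((QuotientGroup.mk' N).subgroupMap_surjective _)

theorem InvU.transfer {G : Type u} {Q : Type v} [Group G] [Group Q] (I : InvU d σ P M G)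
    (f : Q →* G) (hf : Function.Injective f) : InvU d σ P M Q := by
  refine ⟨fun x => hf (by rw [map_pow, map_one]; exact I.exp _), fun v => ?_⟩
  obtain ⟨h1, h2, h3⟩ := I.gen (f ∘ v)
  have e : (Subgroup.closure (Set.range v)).map f = Subgroup.closure (Set.range (f ∘ v)) := by
    rw [MonoidHom.map_closure, ← Set.range_comp]
  rw [← e] at h1 h2 h3
  have eq := (Subgroup.closure (Set.range v)).equivMapOfInjective f hf
  refine ⟨Finite.of_injective _ eq.injective, h2.of_inj eq.toMonoidHom eq.injective, fun h => ?_⟩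
  have := h3 h
  exact Group.isSolvable_of_isSolvable_injective (f := eq.toMonoidHom) eq.injective

/-- the key property -/
def Key (d : ℕ) (σ : Prop) (p α m : ℕ) : Prop := ∀ (G : Type) [Group G], InvU d σ (p ^ α) m G → Rad m G = ⊥ →
  ∀ x : G, x ^ p ^ α = 1 → x ^ p ^ (α - 1) ∈ Rad (p ^ α) G

theorem closure_two {G : Type u} [Group G] (v : Fin 2 → G) :
    Subgroup.closure (Set.range v) = Subgroup.closure {v 0, v 1} := by
  congr 1
  ext x
  constructor
  · rintro ⟨i, rfl⟩
    fin_cases i <;> simp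
  · rintro (rfl | hx)
    · exact ⟨0, rfl⟩
    · exact ⟨1, (Set.mem_singleton_iff.1 hx).symm⟩

theorem closure_three {G : Type u} [Group G] (v : Fin 3 → G) :
    Subgroup.closure (Set.range v) = Subgroup.closure {v 0, v 1, v 2} := by
  congr 1
  ext x
  constructor
  · rintro ⟨i, rfl⟩
    fin_cases i <;> simp
  · rintro (rfl | rfl | hx)
    · exact ⟨0, rfl⟩
    · exact ⟨1, rfl⟩
    · exact ⟨2, (Set.mem_singleton_iff.1 hx).symm⟩

theorem key_two {p α m : ℕ} (hp : p.Prime) (hpm : ¬ p ∣ m) (hα : 1 ≤ α)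
    (hex : ∀ q : ℕ, q.Prime → q ∣ m → ∀ μ, 1 ≤ μ → μ ≤ α → ∀ r, 1 ≤ r → q ^ r ≠ p ^ μ - 1)
    (h1 : ∀ q : ℕ, q.Prime → q ∣ m → p ∣ q - 1) : Key 2 σ p α m := by
  intro G _ I hR x hx
  have hm : m ≠ 0 := by
    rintro rfl
    exact hpm (dvd_zero p)
  have hT : Sg (p ^ α) m G := by
    refine ⟨Nat.mul_ne_zero (Nat.pow_pos hp.pos).ne' hm, I.exp, fun x y => ?_, fun x y => ?_⟩
    · have := (I.gen ![x, y]).1
      rw [closure_two] at this
      exact this
    · have := (I.gen ![x, y]).2.1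
      rw [closure_two] at this
      exact this
  exact max2 hT hp hpm hα hex h1 hR hx

theorem key_three {p α m : ℕ} (hp : p.Prime) (hpm : ¬ p ∣ m) (hα : 1 ≤ α)
    (hex : ∀ q : ℕ, q.Prime → q ∣ m → ∀ μ, 1 ≤ μ → μ ≤ α → ∀ r, 1 ≤ r → q ^ r ≠ p ^ μ - 1) :
    Key 3 σ p α m := by
  intro G _ I hR x hx
  have hm : m ≠ 0 := by
    rintro rfl
    exact hpm (dvd_zero p)
  have h3 : ∀ x y z : G, Finite (Subgroup.closure {x, y, z}) ∧
      PSep (p ^ α) m (Subgroup.closure {x, y, z}) := by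
    intro x y z
    have := I.gen ![x, y, z]
    rw [closure_three] at this
    exact ⟨this.1, this.2.1⟩
  have h2 : ∀ x y : G, Finite (Subgroup.closure {x, y}) ∧
      PSep (p ^ α) m (Subgroup.closure {x, y}) := by
    intro x y
    have := h3 x y y
    have e : ({x, y, y} : Set G) = {x, y} := by simp
    rw [e] at this
    exact this
  have hT : S3 (p ^ α) m G :=
    ⟨⟨Nat.mul_ne_zero (Nat.pow_pos hp.pos).ne' hm, I.exp, fun x y => (h2 x y).1,
      fun x y => (h2 x y).2⟩, fun x y z => (h3 x y z).1, fun x y z => (h3 x y z).2⟩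
  exact max3 hT hp hpm hα hex hR hx

/-- the key property for all universes -/
theorem key_u {p α m : ℕ} (K : Key d σ p α m) (G : Type u) [Group G] (I : InvU d σ (p ^ α) m G)
    (hR : Rad m G = ⊥) (x : G) (hx : x ^ p ^ α = 1) : x ^ p ^ (α - 1) ∈ Rad (p ^ α) G := by
  classical
  have hx' : (x ^ p ^ (α - 1)) ^ p ^ α = 1 := by rw [← pow_mul, mul_comm, pow_mul, hx, one_pow]
  refine ⟨hx', fun t ht => ?_⟩
  have hex : ∀ e : G, ∃ z : G, e ≠ 1 → e ^ m = 1 → z ^ m = 1 ∧ (e * z) ^ m ≠ 1 := by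
    intro e
    by_contra hcon
    push Not at hcon
    obtain ⟨he1, he, -⟩ := hcon 1
    apply he1
    have h3 : e ∈ Rad m G := ⟨he, fun z hz => (hcon z).2.2 hz⟩
    rw [hR] at h3
    exact h3
  choose f hf using hex
  obtain ⟨C, hC, hxC, hfC⟩ := exists_closed (fun s : ℕ => if s = 0 then fun _ => t else f) x
  have htC : t ∈ C := by
    have := hfC 0 x hxC
    simpa using this
  have hfC' : ∀ e ∈ C, f e ∈ C := by
    intro e he
    have := hfC 1 e he
    simpa using this
  have hsm : Small.{0} C := inferInstance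
  let e : Shrink.{0} C ≃* C := Shrink.mulEquiv
  let φ : Shrink.{0} C →* G := C.subtype.comp e.toMonoidHom
  have hφ : Function.Injective φ := fun x y hxy => e.injective (Subtype.ext hxy)
  have hmem : ∀ x, φ x ∈ C := fun x => (e x).2
  have hsurj : ∀ g ∈ C, ∃ y, φ y = g := by
    intro g hg
    refine ⟨e.symm ⟨g, hg⟩, ?_⟩
    change ((e (e.symm _) : C) : G) = _
    rw [MulEquiv.apply_symm_apply]
  obtain ⟨x0, hx0⟩ := hsurj x hxC
  obtain ⟨t0, ht0⟩ := hsurj t htC
  have h3 := K (Shrink.{0} C) (I.transfer φ hφ) (by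
    rw [Subgroup.eq_bot_iff_forall]
    rintro y ⟨hy, hy'⟩
    by_contra hne
    obtain ⟨h4, h5⟩ := hf (φ y) (fun h => hne (hφ (by rw [h, map_one])))
      (by rw [← map_pow, hy, map_one])
    obtain ⟨z, hz⟩ := hsurj _ (hfC' _ (hmem y))
    have h6 := hy' z (hφ (by rw [map_pow, hz, h4, map_one]))
    apply h5
    rw [← hz, ← map_mul, ← map_pow, h6, map_one]) x0
    (hφ (by rw [map_pow, hx0, hx, map_one]))
  have h4 := congrArg φ (rad_mul h3 (z := t0) (hφ (by rw [map_pow, ht0, ht, map_one])))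
  rw [map_pow, map_mul, map_pow, hx0, ht0, map_one] at h4
  exact h4

/-- passing to the second quotient -/
theorem InvU.next {p α m : ℕ} (hp : p.Prime) (hpm : ¬ p ∣ m) (K : Key d σ p (α + 1) m)
    {G : Type u} [Group G] (I : InvU d σ (p ^ (α + 1)) m G) (hR : Rad m G = ⊥) :
    InvU d σ (p ^ α) m (G ⧸ Rad (p ^ (α + 1)) G) := by
  have hcop := (Nat.Prime.coprime_iff_not_dvd hp).2 hpm
  have hexp : ∀ x : G ⧸ Rad (p ^ (α + 1)) G, x ^ (p ^ α * m) = 1 := by
    intro x
    obtain ⟨x, rfl⟩ := QuotientGroup.mk_surjective x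
    have h1 : (x ^ m) ^ p ^ (α + 1) = 1 := by
      rw [← pow_mul, mul_comm]
      exact I.exp x
    have h2 := key_u K G I hR (x ^ m) h1
    rw [Nat.add_sub_cancel] at h2
    rw [mul_comm, pow_mul, ← QuotientGroup.mk_pow, ← QuotientGroup.mk_pow,
      QuotientGroup.eq_one_iff]
    exact h2
  have J := I.quot (Rad (p ^ (α + 1)) G)
  refine ⟨hexp, fun v => ⟨(J.gen v).1, ?_, (J.gen v).2.2⟩⟩
  refine (J.gen v).2.1.lower (Nat.Coprime.pow_left _ hcop) ?_
  exact exp_sub hexp _

/-- the normal series -/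
def HasSer (p a m : ℕ) (G : Type u) [Group G] : Prop :=
  ∃ N : ℕ → Subgroup G, N 0 = ⊥ ∧ N (2 * a + 1) = ⊤ ∧ (∀ i, (N i).Normal ∧ N i ≤ N (i + 1)) ∧
    (∀ i ≤ a, ∀ x ∈ N (2 * i + 1), x ^ m ∈ N (2 * i)) ∧
    ∀ i < a, ∀ x ∈ N (2 * i + 2), x ^ p ^ (a - i) ∈ N (2 * i + 1)

theorem ser {p m : ℕ} (hp : p.Prime) (hpm : ¬ p ∣ m) {a : ℕ}
    (K : ∀ α, 1 ≤ α → α ≤ a → Key d σ p α m) : ∀ α ≤ a, ∀ (G : Type u) [Group G],
      InvU d σ (p ^ α) m G → HasSer p α m G := by
  have hcop := (Nat.Prime.coprime_iff_not_dvd hp).2 hpm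
  intro α
  induction α with
  | zero =>
    intro _ G _ I
    refine ⟨fun i => if i = 0 then ⊥ else ⊤, rfl, rfl, fun i => ?_, fun i hi x _ => ?_,
      fun i hi => absurd hi (Nat.not_lt_zero i)⟩
    · by_cases hi : i = 0
      · simp only [if_pos hi]
        exact ⟨inferInstance, bot_le⟩
      · simp only [if_neg hi]
        exact ⟨inferInstance, by simp⟩
    · have hi0 : i = 0 := by omega
      subst hi0
      have h1 := I.exp x
      rw [pow_zero, one_mul] at h1
      rw [h1]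
      exact one_mem _
  | succ α ih =>
    intro hα G _ I
    have hab : Nat.Coprime m (p ^ (α + 1)) := (Nat.Coprime.pow_left _ hcop).symm
    have hexp : ∀ x : G, x ^ (m * p ^ (α + 1)) = 1 := fun x => by rw [mul_comm]; exact I.exp x
    have J := (I.quot (Rad m G)).next hp hpm (K (α + 1) (by omega) hα) (rad_quot hab hexp)
    obtain ⟨N, h1, h2, h3, h4, h5⟩ := ih (by omega) _ J
    obtain ⟨π, hπ⟩ : ∃ π : G →* (G ⧸ Rad m G) ⧸ Rad (p ^ (α + 1)) (G ⧸ Rad m G),
        π = (QuotientGroup.mk' _).comp (QuotientGroup.mk' _) := ⟨_, rfl⟩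
    let N' : ℕ → Subgroup G := fun i => match i with
      | 0 => ⊥
      | 1 => Rad m G
      | (i + 2) => (N i).comap π
    have hN2 : ∀ x : G, x ∈ N' 2 → x ^ p ^ (α + 1) ∈ Rad m G := by
      intro x hx
      have h6 : π x ∈ N 0 := hx
      rw [h1, Subgroup.mem_bot, hπ] at h6
      have h7 : (x : G ⧸ Rad m G) ∈ Rad (p ^ (α + 1)) (G ⧸ Rad m G) :=
        (QuotientGroup.eq_one_iff _).1 h6
      have h8 := rad_pow h7
      rwa [← QuotientGroup.mk_pow, QuotientGroup.eq_one_iff] at h8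
    refine ⟨N', rfl, ?_, ?_, ?_, ?_⟩
    · change (N (2 * α + 1)).comap π = ⊤
      rw [h2, Subgroup.comap_top]
    · intro i
      match i with
      | 0 => exact ⟨inferInstanceAs (⊥ : Subgroup G).Normal, bot_le⟩
      | 1 =>
        refine ⟨rad_normal m, fun x hx => ?_⟩
        change π x ∈ N 0
        have h6 : (x : G ⧸ Rad m G) = 1 := (QuotientGroup.eq_one_iff x).2 hx
        have h7 : π x = ((x : G ⧸ Rad m G) : (G ⧸ Rad m G) ⧸ _) := by rw [hπ]; rfl
        rw [h7, h6]
        exact one_mem _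
      | (i + 2) =>
        have h6 := (h3 i).1
        exact ⟨inferInstanceAs ((N i).comap π).Normal, Subgroup.comap_mono (h3 i).2⟩
    · intro i hi x hx
      match i with
      | 0 =>
        have h6 : x ∈ Rad m G := hx
        change x ^ m ∈ (⊥ : Subgroup G)
        rw [rad_pow h6]
        exact one_mem _
      | (i + 1) =>
        have h6 : π x ∈ N (2 * i + 1) := hx
        change π (x ^ m) ∈ N (2 * i)
        rw [map_pow]
        exact h4 i (by omega) _ h6
    · intro i hi x hx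
      match i with
      | 0 => exact hN2 x hx
      | (i + 1) =>
        have h6 : π x ∈ N (2 * i + 2) := hx
        change π (x ^ p ^ (α + 1 - (i + 1))) ∈ N (2 * i + 1)
        rw [map_pow, Nat.add_sub_add_right]
        exact h5 i (by omega) _ h6

/-- local finiteness -/
theorem lf {p m : ℕ} (hp : p.Prime) (hpm : ¬ p ∣ m) {a : ℕ}
    (K : ∀ α, 1 ≤ α → α ≤ a → Key d σ p α m) (hLp : LocFin (p ^ a)) (hLm : LocFin m) :
    ∀ α ≤ a, ∀ (G : Type) [Group G], InvU d σ (p ^ α) m G → LF G := by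
  have hcop := (Nat.Prime.coprime_iff_not_dvd hp).2 hpm
  intro α
  induction α with
  | zero =>
    intro _ G _ I
    refine hLm G fun x => ?_
    have h1 := I.exp x
    rwa [pow_zero, one_mul] at h1
  | succ α ih =>
    intro hα G _ I
    have hab : Nat.Coprime m (p ^ (α + 1)) := (Nat.Coprime.pow_left _ hcop).symm
    have hexp : ∀ x : G, x ^ (m * p ^ (α + 1)) = 1 := fun x => by rw [mul_comm]; exact I.exp x
    have J := (I.quot (Rad m G)).next hp hpm (K (α + 1) (by omega) hα) (rad_quot hab hexp)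
    refine x_SCH G (Rad m G) (hLm _ fun x => Subtype.ext (rad_pow x.2)) ?_
    refine x_SCH _ (Rad (p ^ (α + 1)) (G ⧸ Rad m G)) (hLp _ fun x => Subtype.ext ?_)
      (ih (by omega) _ J)
    obtain ⟨c, hc⟩ : p ^ (α + 1) ∣ p ^ a := pow_dvd_pow p hα
    rw [Subgroup.coe_pow, Subgroup.coe_one, hc, pow_mul, rad_pow x.2, one_pow]

end Pool.Agent.V1110.Bt
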