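import Mathlib
import Pool.Agent.V1110.BtC

set_option autoImplicit false

/-!
# `p`-soluble and soluble groups, and the free Burnside groups
-/

namespace Pool.Agent.V1110.Bt

open Pool.Agent.H32BU Pool.Agent.W629 Pool.Agent.TH69.Mtn Pool.Agent.TH69.Od Pool.Agent.TH69
open Pool.Agent.TH69.Og (qp_dvd_M not_dvd_card cent_of_no_arr nilpG cov)

universe u v

/-- The group `G` is `p`-soluble: it has a subnormal series `1 = H 0 ≤ H 1 ≤ ... ≤ H k = G`
(each term normal in the next one) whose factors have order `p` or order prime to `p`. -/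
def PSol (p : ℕ) (G : Type u) [Group G] : Prop :=
  ∃ (k : ℕ) (H : ℕ → Subgroup G), H 0 = ⊥ ∧ H k = ⊤ ∧ ∀ i < k, H i ≤ H (i + 1) ∧
    ((H i).subgroupOf (H (i + 1))).Normal ∧
    ((H i).relIndex (H (i + 1)) = p ∨ Nat.Coprime ((H i).relIndex (H (i + 1))) p)

theorem PSol.of_equiv {p : ℕ} {Q : Type v} {G : Type u} [Group Q] [Group G] (e : Q ≃* G)
    (h : PSol p G) : PSol p Q := by
  obtain ⟨k, H, h1, h2, h3⟩ := h
  have hrel : ∀ A B : Subgroup G, (A.comap e.toMonoidHom).relIndex (B.comap e.toMonoidHom) =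
      A.relIndex B := by
    intro A B
    rw [Subgroup.relIndex_comap, Subgroup.map_comap_eq_self_of_surjective e.surjective]
  refine ⟨k, fun i => (H i).comap e.toMonoidHom, ?_, ?_, fun i hi => ?_⟩
  · change (H 0).comap e.toMonoidHom = ⊥
    rw [h1]
    exact (MonoidHom.ker_eq_bot_iff e.toMonoidHom).2 e.injective
  · change (H k).comap e.toMonoidHom = ⊤
    rw [h2, Subgroup.comap_top]
  · obtain ⟨h4, h5, h6⟩ := h3 i hi
    refine ⟨Subgroup.comap_mono h4, ⟨?_⟩, ?_⟩
    · rintro ⟨x, hx⟩ hy ⟨g, hg⟩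
      have h7 := h5.conj_mem (⟨e x, hx⟩ : H (i + 1)) hy ⟨e g, hg⟩
      have h8 : e g * e x * (e g)⁻¹ ∈ H i := h7
      rw [← map_inv, ← map_mul, ← map_mul] at h8
      exact h8
    · change ((H i).comap e.toMonoidHom).relIndex ((H (i + 1)).comap e.toMonoidHom) = p ∨
        Nat.Coprime (((H i).comap e.toMonoidHom).relIndex ((H (i + 1)).comap e.toMonoidHom)) p
      rw [hrel]
      exact h6

/-- finite `p`-soluble groups have a normal series with `p`- and `p'`-factors -/
theorem PSol.psep {p : ℕ} (hp : p.Prime) {α m : ℕ} (hpm : ¬ p ∣ m) (G : Type u) [Group G]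
    [Finite G] (hG : ∀ x : G, x ^ (p ^ α * m) = 1) (h : PSol p G) : PSepU (p ^ α) m G := by
  have hsm : Small.{0} G := inferInstance
  let e : Shrink.{0} G ≃* G := Shrink.mulEquiv
  have hfin : Finite (Shrink.{0} G) := Finite.of_equiv G e.symm.toEquiv
  have h1 : Pl.PSoluble p (Shrink.{0} G) := h.of_equiv e
  have h2 : Pl.PSep (p ^ α) m (Shrink.{0} G) :=
    Pl.PSoluble.psep hp hpm _ _ le_rfl (fun x => e.injective (by rw [map_pow, map_one, hG])) h1
  have h3 : PSepU (p ^ α) m (Shrink.{0} G) := h2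
  exact h3.of_inj e.symm.toMonoidHom e.symm.injective

/-- an abelian normal subgroup may be split off -/
theorem PSepU.of_abelian {P M : ℕ} {G : Type u} [Group G] (hG : ∀ x : G, x ^ (P * M) = 1)
    (A : Subgroup G) [hA : A.Normal] (hab : ∀ x ∈ A, ∀ y ∈ A, x * y = y * x)
    (h : PSepU P M (G ⧸ A)) : PSepU P M G := by
  obtain ⟨k, N, h1, h2, h3, h4⟩ := h
  let B : Subgroup G :=
    { carrier := {x | x ∈ A ∧ x ^ P = 1}
      one_mem' := ⟨one_mem _, one_pow _⟩
      mul_mem' := by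
        rintro a b ⟨ha, ha2⟩ ⟨hb, hb2⟩
        refine ⟨mul_mem ha hb, ?_⟩
        have : Commute a b := hab a ha b hb
        rw [this.mul_pow, ha2, hb2, one_mul]
      inv_mem' := by
        rintro a ⟨ha, ha2⟩
        exact ⟨inv_mem ha, by rw [inv_pow, ha2, inv_one]⟩ }
  have hBn : B.Normal := by
    refine ⟨?_⟩
    rintro x ⟨hx, hx2⟩ g
    exact ⟨hA.conj_mem x hx g, conj_pow_one hx2⟩
  let N' : ℕ → Subgroup G := fun i => match i with
    | 0 => ⊥
    | 1 => B
    | (i + 2) => (N i).comap (QuotientGroup.mk' A)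
  have hN2 : ∀ x : G, x ∈ N' 2 → x ∈ A := by
    intro x hx
    have h6 : (x : G ⧸ A) ∈ N 0 := hx
    rw [h1, Subgroup.mem_bot, QuotientGroup.eq_one_iff] at h6
    exact h6
  refine ⟨k + 2, N', rfl, ?_, ?_, ?_⟩
  · change (N k).comap (QuotientGroup.mk' A) = ⊤
    rw [h2, Subgroup.comap_top]
  · intro i
    match i with
    | 0 => exact inferInstanceAs (⊥ : Subgroup G).Normal
    | 1 => exact hBn
    | (i + 2) =>
      have := h3 i
      exact inferInstanceAs ((N i).comap (QuotientGroup.mk' A)).Normal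
  · intro i hi
    match i with
    | 0 =>
      left
      intro x hx
      have h6 : x ^ P = 1 := hx.2
      rw [h6]
      exact one_mem _
    | 1 =>
      right
      intro x hx
      refine ⟨pow_mem (hN2 x hx) M, ?_⟩
      rw [← pow_mul, mul_comm]
      exact hG x
    | (i + 2) =>
      rcases h4 i (by omega) with h | h
      · left
        intro x hx
        exact h _ hx
      · right
        intro x hx
        exact h _ hx

/-- soluble groups of exponent `P * M` -/
theorem psepU_of_solvable {P M : ℕ} (G : Type u) [Group G] (hs : Group.IsSolvable G)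
    (hG : ∀ x : G, x ^ (P * M) = 1) : PSepU P M G := by
  obtain ⟨⟨d, hd⟩⟩ := hs
  induction d generalizing G with
  | zero =>
    refine ⟨0, fun _ => ⊥, rfl, ?_, fun _ => inferInstance, fun i hi => absurd hi (by omega)⟩
    rw [derivedSeries_zero] at hd
    exact hd.symm
  | succ d ih =>
    have hn : (derivedSeries G d).Normal := inferInstance
    refine PSepU.of_abelian hG (derivedSeries G d) ?_ (ih _ (exp_quot hG _) ?_)
    · intro x hx y hy
      rw [derivedSeries_succ, Subgroup.commutator_eq_bot_iff_le_centralizer] at hd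
      exact ((Subgroup.mem_centralizer_iff.1 (hd hx)) y hy).symm
    · rw [← map_derivedSeries_eq (QuotientGroup.mk'_surjective (derivedSeries G d)),
        (Subgroup.map_eq_bot_iff _).2]
      rw [QuotientGroup.ker_mk']

/-- homomorphism from the free Burnside group of rank `d` onto a `d`-generator subgroup -/
theorem bud {n d : ℕ} {G : Type u} [Group G] (hG : ∀ x : G, x ^ n = 1) (w : Fin d → G) :
    ∃ f : Bu d n →* G, f.range = Subgroup.closure (Set.range w) := by
  let f0 : FreeGroup (Fin d) →* G := FreeGroup.lift w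
  have hker : Subgroup.normalClosure (Set.range fun w : FreeGroup (Fin d) => w ^ n) ≤ f0.ker := by
    apply Subgroup.normalClosure_le_normal
    rintro _ ⟨w, rfl⟩
    rw [SetLike.mem_coe, MonoidHom.mem_ker, map_pow, hG]
  refine ⟨QuotientGroup.lift _ f0 (fun w hw => hker hw), ?_⟩
  have e1 : (QuotientGroup.lift _ f0 (fun w hw => hker hw) : Bu d n →* G).range = f0.range := by
    ext g
    constructor
    · rintro ⟨w, rfl⟩
      obtain ⟨w, rfl⟩ := QuotientGroup.mk_surjective w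
      exact ⟨w, rfl⟩
    · rintro ⟨w, rfl⟩
      exact ⟨(w : Bu d n), rfl⟩
  rw [e1]
  exact FreeGroup.range_lift_eq_closure

theorem bu_exp {n d : ℕ} (x : Bu d n) : x ^ n = 1 := by
  obtain ⟨w, rfl⟩ := QuotientGroup.mk_surjective x
  rw [← QuotientGroup.mk_pow, QuotientGroup.eq_one_iff]
  exact Subgroup.subset_normalClosure ⟨w, rfl⟩

theorem inv_of_bu {d P M : ℕ} {σ : Prop} (hf : Finite (Bu d (P * M)))
    (hs : PSepU P M (Bu d (P * M))) (hσ : σ → Group.IsSolvable (Bu d (P * M))) {G : Type u}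
    [Group G] (hG : ∀ x : G, x ^ (P * M) = 1) : InvU d σ P M G := by
  refine ⟨hG, fun w => ?_⟩
  obtain ⟨f, hfr⟩ := bud hG w
  rw [← hfr]
  refine ⟨Finite.of_surjective f.rangeRestrict f.rangeRestrict_surjective,
    hs.of_surj f.rangeRestrict f.rangeRestrict_surjective, fun h => ?_⟩
  have := hσ h
  exact Group.isSolvable_of_surjective f.rangeRestrict_surjective

variable {G : Type} [Group G]

/-- if `w` acts trivially on the finite `s`-subgroups, then `w` is in the radical (a variant of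
`Og.rad_of_no_arrG`) -/
theorem rad_of_no_arrS {n q β M : ℕ} (S : Og.Sg n G) (hq : q.Prime) (hqM : Nat.Coprime q M)
    (hn : q ^ β * M = n) {w : G} (hw : Og.SG (q ^ β) M w)
    (hno : ∀ s : ℕ, s.Prime → s ≠ q → ∀ U : Subgroup G, ¬ Arr n s w U) :
    w ∈ Rad (q ^ β) G := by
  have hexp : ∀ x : G, x ^ (q ^ β * M) = 1 := by rw [hn]; exact S.exp
  have hab : Nat.Coprime (q ^ β) M := Nat.Coprime.pow_left _ hqM
  refine ⟨hw.1, fun t ht => ?_⟩
  have hwE : w ∈ c2 w t := Subgroup.subset_closure (by simp)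
  have htE : t ∈ c2 w t := Subgroup.subset_closure (by simp)
  obtain ⟨E, hE⟩ : ∃ E, E = c2 w t := ⟨_, rfl⟩
  have hfin : Finite E := by rw [hE]; exact S.fin w t
  have hsol : Group.IsSolvable E := by rw [hE]; exact S.sol w t
  rw [← hE] at hwE htE
  obtain ⟨A, B, h1, h2, h3, h4, h5⟩ := hw.2 E hfin hsol hwE
  have hf' : Finite (A ⊓ E : Subgroup G) :=
    Finite.of_injective (Subgroup.inclusion inf_le_right) (Subgroup.inclusion_injective _)
  have hcA : ∀ a ∈ A, a ∈ E → w * a = a * w := by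
    intro a ha haE
    refine cov (g := w) (k := β) hq (L := A ⊓ E) hf' hw.1
      (not_dvd_card hq hqM hf' fun x hx => h3 x hx.1)
      (fun u hu => ⟨h1 w hwE u hu.1, E.mul_mem (E.mul_mem hwE hu.2) (E.inv_mem hwE)⟩) ?_ a
      ⟨ha, haE⟩
    intro s hs hsq T hT hTs hwT
    have hTf : Finite T := Finite.of_injective (Subgroup.inclusion hT)
      (Subgroup.inclusion_injective _)
    exact cent_of_no_arr S.hn S.exp hs (hno s hs hsq) hTf hTs hwT
  let C : Subgroup E :=
    { carrier := {x | (x : G) ∈ B ∧ ∀ a ∈ A, a ∈ E → (x : G) * a = a * x}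
      one_mem' := ⟨one_mem _, fun v _ _ => by rw [Subgroup.coe_one, mul_one, one_mul]⟩
      mul_mem' := by
        rintro x y ⟨hx, hx2⟩ ⟨hy, hy2⟩
        refine ⟨mul_mem hx hy, fun v hv hvE => ?_⟩
        rw [Subgroup.coe_mul, mul_assoc, hy2 v hv hvE, ← mul_assoc, hx2 v hv hvE, mul_assoc]
      inv_mem' := by
        rintro x ⟨hx, hx2⟩
        refine ⟨inv_mem hx, fun v hv hvE => ?_⟩
        have h1 := hx2 v hv hvE
        rw [Subgroup.coe_inv, inv_mul_eq_iff_eq_mul, ← mul_assoc, h1]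
        group }
  have hCn : C.Normal := by
    refine ⟨?_⟩
    rintro x ⟨hx, hx2⟩ g
    refine ⟨h2 g g.2 x hx, fun v hv hvE => ?_⟩
    have h7 : (g : G)⁻¹ * v * g ∈ A := by
      have := h1 (g : G)⁻¹ (inv_mem g.2) v hv
      rwa [inv_inv] at this
    have h9 : (g : G)⁻¹ * v * g ∈ E := E.mul_mem (E.mul_mem (E.inv_mem g.2) hvE) g.2
    have h8 := hx2 _ h7 h9
    change (g : G) * x * (g : G)⁻¹ * v = v * ((g : G) * x * (g : G)⁻¹)
    calc (g : G) * x * (g : G)⁻¹ * v = g * (x * ((g : G)⁻¹ * v * g)) * (g : G)⁻¹ := by group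
      _ = g * (((g : G)⁻¹ * v * g) * x) * (g : G)⁻¹ := by rw [h8]
      _ = v * (g * x * (g : G)⁻¹) := by group
  have h6 := nilpG hq hab hqM (exp_sub hexp E) C hCn (by
    intro x hx y hy hyp
    have h10 : (y : G) ∈ A := mem_of_pow hab.symm (congrArg Subtype.val hyp) (h4 y hy.1)
    exact Subtype.ext (hx.2 y h10 y.2)) (x := ⟨w, hwE⟩) ⟨h5, hcA⟩ (Subtype.ext hw.1)
  have h7 := rad_mul h6 (z := ⟨t, htE⟩) (Subtype.ext ht)
  exact congrArg Subtype.val h7


theorem odd_hex {n m p a : ℕ} (hn : ¬ 2 ∣ n) (hmn : m ∣ n) (hp : ¬ 2 ∣ p) :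
    ∀ q : ℕ, q.Prime → q ∣ m → ∀ μ, 1 ≤ μ → μ ≤ a → ∀ r, 1 ≤ r → q ^ r ≠ p ^ μ - 1 := by
  intro q _ hqm μ _ _ r hr h
  have hq2 : ¬ 2 ∣ q := fun h2 => hn (h2.trans (hqm.trans hmn))
  have h3 : Odd (p ^ μ) := (Nat.not_even_iff_odd.1 fun h => hp h.two_dvd).pow
  have h4 : Odd (q ^ r) := (Nat.not_even_iff_odd.1 fun h => hq2 h.two_dvd).pow
  obtain ⟨c, hc⟩ := h3
  obtain ⟨d, hd⟩ := h4
  omega

/-- two generators, soluble subgroups -/
theorem key_sol {p α m : ℕ} (hp : p.Prime) (hpm : ¬ p ∣ m) (hα : 1 ≤ α)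
    (hex : ∀ q : ℕ, q.Prime → q ∣ m → ∀ μ, 1 ≤ μ → μ ≤ α → ∀ r, 1 ≤ r → q ^ r ≠ p ^ μ - 1)
    (h1 : ∀ q : ℕ, q.Prime → q ∣ m → p ∣ q - 1 ∨
      ¬ q ^ 2 ∣ m ∧ (¬ 2 ∣ p ^ α * m ∨ ∀ r, 1 ≤ r → q ≠ 2 ^ r + 1)) :
    Key 2 True p α m := by
  intro G _ I hR x hx
  have hm : m ≠ 0 := by
    rintro rfl
    exact hpm (dvd_zero p)
  have hpm' := (Nat.Prime.coprime_iff_not_dvd hp).2 hpm
  have hab : Nat.Coprime (p ^ α) m := Nat.Coprime.pow_left _ hpm'
  obtain ⟨n, hn⟩ : ∃ n, n = p ^ α * m := ⟨_, rfl⟩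
  have hn0 : n ≠ 0 := by
    rw [hn]
    exact Nat.mul_ne_zero (Nat.pow_pos hp.pos).ne' hm
  rw [← hn] at h1
  have S : Og.Sg n G := by
    refine ⟨hn0, fun x => by rw [hn]; exact I.exp x, fun x y => ?_, fun x y => ?_⟩
    · have := (I.gen ![x, y]).1
      rw [closure_two] at this
      exact this
    · have := (I.gen ![x, y]).2.2 trivial
      rw [closure_two] at this
      exact this
  have hz := Og.ss_of_maxG S hp hpm hn.symm hα hex hx
  have hP : Og.Pr n (p ^ α) m G :=
    ⟨S, hab, ⟨p ^ α, hab.symm, by rw [mul_comm]; exact hn.symm⟩, hR⟩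
  refine rad_of_no_arrS S hp hpm' hn.symm hz fun s hs hsp U A => ?_
  by_cases hsm : s ∣ m
  · rcases h1 s hs hsm with h2 | ⟨hs2, h2⟩
    · refine Og.no_arrG hP (Nat.pow_pos hp.pos) hs (qp_dvd_M hp hs hsp hn.symm) h2 hz
        ?_ A
      rw [← pow_mul, ← pow_succ, Nat.sub_add_cancel hα, hx]
    · obtain ⟨m1, rfl⟩ := hsm
      have hsm1 : ¬ s ∣ m1 := by
        rintro ⟨c, rfl⟩
        exact hs2 ⟨c, by ring⟩
      have hsn : ¬ s ∣ p ^ α * m1 := by
        intro h
        rcases hs.dvd_mul.1 h with h | h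
        · exact hsp ((Nat.prime_dvd_prime_iff_eq hs hp).1 (hs.dvd_of_dvd_pow h))
        · exact hsm1 h
      have hsn' : s ^ 1 * (p ^ α * m1) = n := by
        rw [hn]
        ring
      have hexs : ∀ q : ℕ, q.Prime → q ∣ p ^ α * m1 → ∀ μ, 1 ≤ μ → μ ≤ 1 → ∀ r, 1 ≤ r →
          q ^ r ≠ s ^ μ - 1 := by
        rcases h2 with h2 | h2
        · refine odd_hex h2 (Dvd.intro_left _ hsn') fun h => h2 ?_
          rw [← hsn', pow_one]
          exact h.trans (dvd_mul_right _ _)
        · intro q hq _ μ h3 h4 r hr h5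
          have hμ : μ = 1 := by omega
          rw [hμ, pow_one] at h5
          have hq2 := hq.two_le
          have h6 : 2 ≤ q ^ r := hq2.trans (Nat.le_self_pow (by omega) q)
          have hsodd := hs.odd_of_ne_two (by omega)
          have h7 : q = 2 := by
            by_contra h7
            have h8 : Odd (q ^ r) := (hq.odd_of_ne_two h7).pow
            obtain ⟨c, hc⟩ := hsodd
            obtain ⟨d, hd⟩ := h8
            omega
          rw [h7] at h5 h6
          exact h2 r hr (by omega)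
      refine Og.no_arr_small hP hp hpm' hn.symm hs hsp
        ((Nat.Prime.coprime_iff_not_dvd hs).2 hsn) (fun x hx => ?_) hz A
      have h2 := Og.ss_of_maxG S hs hsn hsn' le_rfl hexs (x := x) (by rw [pow_one]; exact hx)
      rwa [Nat.sub_self, pow_zero, pow_one, pow_one] at h2
  · obtain ⟨u, hu, huw⟩ := A.nc
    have h2 : qp s n = 1 := by
      unfold qp
      rw [Nat.factorization_eq_zero_of_not_dvd, pow_zero]
      intro h
      rw [hn] at h
      rcases hs.dvd_mul.1 h with h | h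
      · exact hsp ((Nat.prime_dvd_prime_iff_eq hs hp).1 (hs.dvd_of_dvd_pow h))
      · exact hsm h
    have h3 := A.pow u hu
    rw [h2, pow_one] at h3
    rw [h3, mul_one, one_mul] at huw
    exact huw rfl

end Pool.Agent.V1110.Bt
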