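import Mathlib
import Pool.Agent.V1110.BtD
import Pool.Agent.W629.TwiceLF
import Pool.Agent.H32BU.All

set_option autoImplicit false

/-!
# The consequences of the key property
-/

namespace Pool.Agent.V1110.Bt

open Pool.Agent.H32BU Pool.Agent.W629 Pool.Agent.TH69.Mtn Pool.Agent.TH69.Od Pool.Agent.TH69

universe u

theorem main {d : ℕ} {σ : Prop} {p a m : ℕ} (hp : p.Prime) (hpm : ¬ p ∣ m)
    (K : ∀ α, 1 ≤ α → α ≤ a → Key d σ p α m) :
    (∀ (G : Type u) [Group G], InvU d σ (p ^ a) m G → HasSer p a m G ∧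
      (InL.{u} (p ^ a) → InL.{u} m → ∀ S : Set G, S.Finite → Finite (Subgroup.closure S))) ∧
    (Finite (Bu d (p ^ a * m)) → PSepU (p ^ a) m (Bu d (p ^ a * m)) →
      (σ → Group.IsSolvable (Bu d (p ^ a * m))) →
      (∀ (G : Type u) [Group G], (∀ x : G, x ^ (p ^ a * m) = 1) → HasSer p a m G) ∧
      (InL.{u} (p ^ a * m) ↔ InL.{u} (p ^ a) ∧ InL.{u} m)) := by
  have h1 : ∀ (G : Type u) [Group G], InvU d σ (p ^ a) m G → HasSer p a m G ∧
      (InL.{u} (p ^ a) → InL.{u} m → ∀ S : Set G, S.Finite → Finite (Subgroup.closure S)) := by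
    intro G _ I
    refine ⟨ser hp hpm K a le_rfl G I, fun h1 h2 S hS => ?_⟩
    refine finite_closure_u S hS fun Q _ f hf => ?_
    exact lf hp hpm K ((inL_iff x_LFD _).1 h1) ((inL_iff x_LFD _).1 h2) a le_rfl Q (I.transfer f hf)
  refine ⟨h1, fun hf hs hσ => ⟨fun G _ hG => (h1 G (inv_of_bu hf hs hσ hG)).1, ?_, ?_⟩⟩
  · intro h
    refine ⟨fun G _ hG => h G fun x => by rw [pow_mul, hG, one_pow], fun G _ hG => h G fun x => by
      rw [mul_comm, pow_mul, hG, one_pow]⟩
  · rintro ⟨h2, h3⟩ G _ hG S hS
    exact (h1 G (inv_of_bu hf hs hσ hG)).2 h2 h3 S hS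

/-- a finite nontrivial soluble group has a normal subgroup of prime index -/
theorem exists_prime_index {G : Type u} [Group G] [Finite G] [Nontrivial G]
    (hs : Group.IsSolvable G) : ∃ N : Subgroup G, N.Normal ∧ N.index.Prime := by
  classical
  have hfin : {N : Subgroup G | N.Normal ∧ N ≠ ⊤}.Finite := Set.toFinite _
  obtain ⟨N, hN⟩ := hfin.exists_maximal ⟨⊥, inferInstance, bot_ne_top⟩
  obtain ⟨⟨hN1, hN2⟩, hN3⟩ := hN
  refine ⟨N, hN1, ?_⟩
  have hnt : Nontrivial (G ⧸ N) := QuotientGroup.nontrivial_iff.2 hN2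
  have hsimple : IsSimpleGroup (G ⧸ N) := by
    refine ⟨fun H hH => ?_⟩
    by_cases h : H = ⊤
    · exact Or.inr h
    · left
      have h1 : H.comap (QuotientGroup.mk' N) ≤ N := by
        refine hN3 ⟨inferInstance, fun h2 => h ?_⟩ ?_
        · rw [eq_top_iff]
          rintro x -
          obtain ⟨g, rfl⟩ := QuotientGroup.mk_surjective x
          have h3 : g ∈ H.comap (QuotientGroup.mk' N) := by rw [h2]; exact Subgroup.mem_top g
          exact h3
        · intro g hg
          have h3 : (g : G ⧸ N) = 1 := (QuotientGroup.eq_one_iff g).2 hg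
          change (g : G ⧸ N) ∈ H
          rw [h3]
          exact one_mem _
      rw [Subgroup.eq_bot_iff_forall]
      intro x hx
      obtain ⟨g, rfl⟩ := QuotientGroup.mk_surjective x
      exact (QuotientGroup.eq_one_iff g).2 (h1 hx)
  have hs' : Group.IsSolvable (G ⧸ N) := inferInstance
  have hcomm := IsSimpleGroup.comm_iff_isSolvable.2 hs'
  let _ : CommGroup (G ⧸ N) := { (inferInstance : Group (G ⧸ N)) with mul_comm := hcomm }
  exact IsSimpleGroup.prime_card

theorem PSol.of_solvable {p : ℕ} (hp : p.Prime) : ∀ (n : ℕ) (G : Type u) [Group G] [Finite G],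
    Nat.card G ≤ n → Group.IsSolvable G → PSol p G := by
  intro n
  induction n with
  | zero =>
    intro G _ _ hn
    have : 0 < Nat.card G := Nat.card_pos
    omega
  | succ n ih =>
    intro G _ _ hn hs
    by_cases hG : Nontrivial G
    swap
    · rw [not_nontrivial_iff_subsingleton] at hG
      exact ⟨0, fun _ => ⊥, rfl, Subsingleton.elim _ _, fun i hi => absurd hi (Nat.not_lt_zero i)⟩
    obtain ⟨N, hN, hprime⟩ := exists_prime_index hs
    have hcard : Nat.card N < Nat.card G := by
      rw [← N.card_mul_index]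
      exact lt_mul_of_one_lt_right Nat.card_pos hprime.one_lt
    obtain ⟨k, H, h1, h2, h3⟩ := ih N (by omega) inferInstance
    refine ⟨k + 1, fun i => if i ≤ k then (H i).map N.subtype else ⊤, ?_, ?_, fun i hi => ?_⟩
    · simp only [Nat.zero_le, if_true]
      rw [h1, Subgroup.map_bot]
    · simp
    · by_cases hik : i = k
      · subst hik
        simp only [le_refl, if_true, if_neg (Nat.not_succ_le_self i)]
        have h4 : (H i).map N.subtype = N := by
          rw [h2, ← MonoidHom.range_eq_map, Subgroup.range_subtype]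
        rw [h4, Subgroup.relIndex_top_right]
        refine ⟨le_top, inferInstance, ?_⟩
        by_cases h5 : N.index = p
        · exact Or.inl h5
        · exact Or.inr ((Nat.coprime_primes hprime hp).2 h5)
      · have hik' : i < k := by omega
        obtain ⟨h4, h5, h6⟩ := h3 i hik'
        have e1 : (if i ≤ k then (H i).map N.subtype else ⊤) = (H i).map N.subtype :=
          if_pos hik'.le
        have e2 : (if i + 1 ≤ k then (H (i + 1)).map N.subtype else ⊤) =
          (H (i + 1)).map N.subtype := if_pos (by omega)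
        beta_reduce
        rw [e1, e2]
        refine ⟨Subgroup.map_mono h4, ⟨?_⟩, ?_⟩
        · rintro ⟨_, ⟨x, hx, rfl⟩⟩ hy ⟨_, ⟨g, hg, rfl⟩⟩
          have hx' : x ∈ H i := by
            obtain ⟨x', hx', e⟩ := hy
            have : x' = x := Subtype.ext e
            rwa [this] at hx'
          have h7 := h5.conj_mem (⟨x, hx⟩ : H (i + 1)) hx' ⟨g, hg⟩
          exact ⟨g * x * g⁻¹, h7, rfl⟩
        · rw [Subgroup.relIndex_map_map_of_injective _ _ N.subtype_injective]
          exact h6

end Pool.Agent.V1110.Bt
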