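import Mathlib
import Pool.Agent.V1110.BtE

set_option autoImplicit false

/-!
# Characteristic series of explicit length
-/

namespace Pool.Agent.V1110.Bt

open Pool.Agent.H32BU Pool.Agent.W629 Pool.Agent.TH69.Mtn Pool.Agent.TH69.Od Pool.Agent.TH69

universe u v

/-- a characteristic series of length `L` all of whose factors have an exponent with the
property `E` -/
def CS (E : ℕ → Prop) (L : ℕ) (G : Type u) [Group G] : Prop :=
  ∃ N : ℕ → Subgroup G, N 0 = ⊥ ∧ N L = ⊤ ∧ (∀ i, (N i).Characteristic ∧ N i ≤ N (i + 1)) ∧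
    ∀ i < L, ∃ e, E e ∧ ∀ x ∈ N (i + 1), x ^ e ∈ N i

theorem char_iff {G : Type u} [Group G] {N : Subgroup G} :
    N.Characteristic ↔ ∀ φ : G ≃* G, ∀ x ∈ N, φ x ∈ N := by
  rw [Subgroup.characteristic_iff_le_comap]
  rfl

theorem rad_char {G : Type u} [Group G] (a : ℕ) : (Rad a G).Characteristic := by
  rw [char_iff]
  rintro φ x ⟨hx, hx'⟩
  refine ⟨by rw [← map_pow, hx, map_one], fun z hz => ?_⟩
  have h1 : (φ.symm z) ^ a = 1 := by rw [← map_pow, hz, map_one]
  have h2 := congrArg φ (hx' _ h1)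
  rw [map_pow, map_mul, MulEquiv.apply_symm_apply, map_one] at h2
  exact h2

variable {E : ℕ → Prop}

theorem CS.of_triv {G : Type u} [Group G] (h : ∀ x : G, x = 1) : CS E 0 G := by
  refine ⟨fun _ => ⊥, rfl, ?_, fun i => ⟨inferInstance, le_rfl⟩,
    fun i hi => absurd hi (Nat.not_lt_zero i)⟩
  rw [eq_comm, Subgroup.eq_bot_iff_forall]
  exact fun x _ => h x

theorem CS.one {G : Type u} [Group G] {e : ℕ} (he : E e) (h : ∀ x : G, x ^ e = 1) : CS E 1 G := by
  refine ⟨fun i => if i = 0 then ⊥ else ⊤, rfl, rfl, fun i => ?_, fun i hi => ⟨e, he, ?_⟩⟩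
  · by_cases hi : i = 0
    · simp only [if_pos hi]
      exact ⟨inferInstance, bot_le⟩
    · simp only [if_neg hi]
      exact ⟨inferInstance, by simp⟩
  · intro x _
    rw [h]
    exact one_mem _

theorem CS.mono {E' : ℕ → Prop} (hE : ∀ e, E e → E' e) {L : ℕ} {G : Type u} [Group G]
    (h : CS E L G) : CS E' L G := by
  obtain ⟨N, h1, h2, h3, h4⟩ := h
  refine ⟨N, h1, h2, h3, fun i hi => ?_⟩
  obtain ⟨e, he, h5⟩ := h4 i hi
  exact ⟨e, hE e he, h5⟩

/-- restriction of an automorphism to a characteristic subgroup -/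
theorem exists_restrict {G : Type u} [Group G] {K : Subgroup G} (hK : K.Characteristic)
    (φ : G ≃* G) : ∃ ψ : K ≃* K, ∀ x : K, ((ψ x : K) : G) = φ x := by
  have h1 := char_iff.1 hK
  refine ⟨⟨⟨fun x => ⟨φ x, h1 φ x x.2⟩, fun x => ⟨φ.symm x, h1 φ.symm x x.2⟩, fun x => ?_,
    fun x => ?_⟩, fun x y => ?_⟩, fun x => rfl⟩
  · exact Subtype.ext (φ.symm_apply_apply _)
  · exact Subtype.ext (φ.apply_symm_apply _)
  · exact Subtype.ext (map_mul φ _ _)

/-- the automorphism induced on the quotient by a characteristic subgroup -/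
theorem exists_quot {G : Type u} [Group G] {K : Subgroup G} [hn : K.Normal]
    (hK : K.Characteristic) (φ : G ≃* G) :
    ∃ ψ : G ⧸ K ≃* G ⧸ K, ∀ x : G, ψ (x : G ⧸ K) = ((φ x : G) : G ⧸ K) :=
  ⟨QuotientGroup.congr K K φ (Subgroup.characteristic_iff_map_eq.1 hK φ), fun _ => rfl⟩

theorem CS.ext {L1 L2 : ℕ} {G : Type u} [Group G] (K : Subgroup G) [hn : K.Normal]
    (hK : K.Characteristic) (h1 : CS E L1 K) (h2 : CS E L2 (G ⧸ K)) : CS E (L1 + L2) G := by
  obtain ⟨A, a1, a2, a3, a4⟩ := h1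
  obtain ⟨B, b1, b2, b3, b4⟩ := h2
  obtain ⟨N, hN⟩ : ∃ N : ℕ → Subgroup G, N = fun i => if i ≤ L1 then (A i).map K.subtype else
    (B (i - L1)).comap (QuotientGroup.mk' K) := ⟨_, rfl⟩
  have hA : ∀ i, i ≤ L1 → N i = (A i).map K.subtype := by
    intro i hi
    rw [hN]
    exact if_pos hi
  have hAK : N L1 = K := by
    rw [hA L1 le_rfl, a2, ← MonoidHom.range_eq_map, Subgroup.range_subtype]
  have hB : ∀ j, N (L1 + j) = (B j).comap (QuotientGroup.mk' K) := by
    intro j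
    by_cases hj : j = 0
    · subst hj
      rw [add_zero, hAK, b1, MonoidHom.comap_bot, QuotientGroup.ker_mk']
    · rw [hN]
      beta_reduce
      rw [if_neg (by omega), Nat.add_sub_cancel_left]
  refine ⟨N, ?_, ?_, fun i => ?_, fun i hi => ?_⟩
  · rw [hA 0 (Nat.zero_le _), a1, Subgroup.map_bot]
  · rw [hB, b2, Subgroup.comap_top]
  · by_cases hi : i < L1
    · rw [hA i hi.le, hA (i + 1) hi]
      refine ⟨char_iff.2 ?_, Subgroup.map_mono (a3 i).2⟩
      rintro φ _ ⟨x, hx, rfl⟩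
      obtain ⟨ψ, hψ⟩ := exists_restrict hK φ
      exact ⟨ψ x, char_iff.1 (a3 i).1 ψ x hx, hψ x⟩
    · obtain ⟨j, rfl⟩ : ∃ j, i = L1 + j := ⟨i - L1, by omega⟩
      rw [add_assoc, hB, hB]
      refine ⟨char_iff.2 ?_, Subgroup.comap_mono (b3 j).2⟩
      intro φ x hx
      obtain ⟨ψ, hψ⟩ := exists_quot hK φ
      have h3 := char_iff.1 (b3 j).1 ψ _ hx
      change ψ (x : G ⧸ K) ∈ B j at h3
      rw [hψ] at h3
      exact h3
  · by_cases hi1 : i < L1
    · rw [hA i hi1.le, hA (i + 1) hi1]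
      obtain ⟨e, he, h3⟩ := a4 i hi1
      refine ⟨e, he, ?_⟩
      rintro _ ⟨x, hx, rfl⟩
      exact ⟨x ^ e, h3 x hx, map_pow _ _ _⟩
    · obtain ⟨j, rfl⟩ : ∃ j, i = L1 + j := ⟨i - L1, by omega⟩
      rw [add_assoc, hB, hB]
      obtain ⟨e, he, h3⟩ := b4 j (by omega)
      exact ⟨e, he, fun x hx => h3 _ hx⟩

/-- exponent `m`, finite soluble `d`-generator subgroups -/
structure SolU (d m : ℕ) (G : Type u) [Group G] : Prop where
  exp : ∀ x : G, x ^ m = 1
  gen : ∀ v : Fin d → G, Finite (Subgroup.closure (Set.range v)) ∧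
    Group.IsSolvable (Subgroup.closure (Set.range v))

theorem SolU.inv {d P M : ℕ} {G : Type u} [Group G] (h : SolU d (P * M) G) :
    InvU d True P M G :=
  ⟨h.exp, fun v => ⟨(h.gen v).1, psepU_of_solvable _ (h.gen v).2 (exp_sub h.exp _),
    fun _ => (h.gen v).2⟩⟩

theorem InvU.sub {d P M m : ℕ} {G : Type u} [Group G] (h : InvU d True P M G) {H : Type u}
    [Group H] (f : H →* G) (hf : Function.Injective f) (hm : ∀ x : H, x ^ m = 1) : SolU d m H :=
  ⟨hm, fun v => ⟨((h.transfer f hf).gen v).1, ((h.transfer f hf).gen v).2.2 trivial⟩⟩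

/-- the inductive step -/
theorem cs_step {d p m L : ℕ} (hp : p.Prime) (hpm : ¬ p ∣ m) {a : ℕ}
    (K : ∀ α, 1 ≤ α → α ≤ a → Key d True p α m) (hE : ∀ α, α ≤ a → E (p ^ α))
    (IH : ∀ (G : Type u) [Group G], SolU d m G → CS E L G) :
    ∀ α ≤ a, ∀ (G : Type u) [Group G], InvU d True (p ^ α) m G → CS E ((α + 1) * L + α) G := by
  have hcop := (Nat.Prime.coprime_iff_not_dvd hp).2 hpm
  intro α
  induction α with
  | zero =>
    intro _ G _ I
    have h := IH G (I.sub (MonoidHom.id G) (fun _ _ h => h) fun x => by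
      have h1 := I.exp x
      rwa [pow_zero, one_mul] at h1)
    simpa using h
  | succ α ih =>
    intro hα G _ I
    have hab : Nat.Coprime m (p ^ (α + 1)) := (Nat.Coprime.pow_left _ hcop).symm
    have hexp : ∀ x : G, x ^ (m * p ^ (α + 1)) = 1 := fun x => by rw [mul_comm]; exact I.exp x
    have J := (I.quot (Rad m G)).next hp hpm (K (α + 1) (by omega) hα) (rad_quot hab hexp)
    have h1 := ih (by omega) _ J
    have h2 : CS E (1 + ((α + 1) * L + α)) (G ⧸ Rad m G) := by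
      refine CS.ext (Rad (p ^ (α + 1)) (G ⧸ Rad m G)) (rad_char _) ?_ h1
      exact CS.one (hE (α + 1) hα) fun x => Subtype.ext (rad_pow x.2)
    have h3 : CS E (L + (1 + ((α + 1) * L + α))) G := by
      refine CS.ext (Rad m G) (rad_char _) ?_ h2
      exact IH _ (I.sub (Rad m G).subtype (Rad m G).subtype_injective fun x =>
        Subtype.ext (rad_pow x.2))
    have h4 : L + (1 + ((α + 1) * L + α)) = (α + 1 + 1) * L + (α + 1) := by ring
    rwa [h4] at h3

/-- the product of the prime powers -/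
def prodL : List (ℕ × ℕ) → ℕ
  | [] => 1
  | (p, a) :: t => p ^ a * prodL t

/-- a condition on all tails -/
def Cond (C : ℕ → ℕ → ℕ → Prop) : List (ℕ × ℕ) → Prop
  | [] => True
  | (p, a) :: t => p.Prime ∧ ¬ p ∣ prodL t ∧ C p a (prodL t) ∧ Cond C t

/-- the length of the series -/
def len (l : List (ℕ × ℕ)) : ℕ := 2 * (l.dropLast.map fun x => x.2 + 1).prod - 1

theorem len_cons (p a : ℕ) (y : ℕ × ℕ) (t : List (ℕ × ℕ)) :
    len ((p, a) :: y :: t) = (a + 1) * len (y :: t) + a := by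
  unfold len
  rw [List.dropLast_cons_of_ne_nil (by simp), List.map_cons, List.prod_cons]
  obtain ⟨P, hP⟩ : ∃ P, P = (((y :: t).dropLast).map fun x => x.2 + 1).prod := ⟨_, rfl⟩
  have h1 : 1 ≤ P := by
    rw [hP]
    refine Nat.one_le_iff_ne_zero.2 (List.prod_ne_zero fun h => ?_)
    obtain ⟨x, -, hx⟩ := List.mem_map.1 h
    exact Nat.succ_ne_zero _ hx
  rw [← hP]
  obtain ⟨c, rfl⟩ : ∃ c, P = c + 1 := ⟨P - 1, by omega⟩
  have h2 : 2 * (c + 1) - 1 = 2 * c + 1 := by omega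
  have h3 : 2 * ((a + 1) * (c + 1)) = (a + 1) * (2 * c + 1) + a + 1 := by ring
  rw [h2]
  change 2 * ((a + 1) * (c + 1)) - 1 = _
  rw [h3]
  rfl

/-- exponents dividing `n` which are prime powers -/
def PP (n e : ℕ) : Prop := ∃ p k : ℕ, p.Prime ∧ p ^ k ∣ n ∧ e = p ^ k

theorem cs_list {d : ℕ} {C : ℕ → ℕ → ℕ → Prop}
    (hC : ∀ p a m, p.Prime → ¬ p ∣ m → C p a m → ∀ α, 1 ≤ α → α ≤ a → Key d True p α m) :
    ∀ l : List (ℕ × ℕ), Cond C l → ∀ (G : Type u) [Group G], SolU d (prodL l) G →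
      CS (PP (prodL l)) (len l) G := by
  intro l
  induction l with
  | nil =>
    intro _ G _ S
    refine CS.one (e := 1) ⟨2, 0, Nat.prime_two, one_dvd _, rfl⟩ fun x => ?_
    exact S.exp x
  | cons y t ih =>
    obtain ⟨p, a⟩ := y
    intro hl G _ S
    obtain ⟨hp, hpm, hc, ht⟩ := hl
    match t, ih, ht, hpm, hc, S with
    | [], _, _, _, _, S =>
      refine CS.one (e := p ^ a) ⟨p, a, hp, dvd_mul_right _ _, rfl⟩ fun x => ?_
      have := S.exp x
      change x ^ (p ^ a * 1) = 1 at this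
      rwa [mul_one] at this
    | z :: t, ih, ht, hpm, hc, S =>
      rw [len_cons]
      refine cs_step hp hpm (hC p a _ hp hpm hc) (fun α hα => ?_) (fun G _ h => ?_) a le_rfl G
        S.inv
      · exact ⟨p, α, hp, (pow_dvd_pow p hα).trans (dvd_mul_right _ _), rfl⟩
      · refine (ih ht G h).mono ?_
        rintro e ⟨q, k, hq, hk, rfl⟩
        exact ⟨q, k, hq, hk.trans (dvd_mul_left _ _), rfl⟩

theorem key_three_odd {p a m : ℕ} (hp : p.Prime) (hpm : ¬ p ∣ m) (hodd : ¬ 2 ∣ p ^ a * m)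
    (α : ℕ) (hα : 1 ≤ α) (hαa : α ≤ a) : Key 3 True p α m := by
  refine key_three hp hpm hα (odd_hex hodd (Dvd.intro_left _ rfl) fun h => hodd ?_)
  exact (h.trans (dvd_pow_self p (by omega))).trans (dvd_mul_right _ _)

/-- odd exponents, three generators -/
theorem cs_odd {q b : ℕ} (hq : q.Prime) (f : ℕ → ℕ) (S : Finset ℕ) :
    (∀ p ∈ S, p.Prime ∧ p ≠ q) → ¬ 2 ∣ (∏ p ∈ S, p ^ f p) * q ^ b →
    ∀ (G : Type u) [Group G], SolU 3 ((∏ p ∈ S, p ^ f p) * q ^ b) G →
      CS (PP ((∏ p ∈ S, p ^ f p) * q ^ b)) (2 * (∏ p ∈ S, (f p + 1)) - 1) G := by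
  classical
  induction S using Finset.induction_on with
  | empty =>
    intro _ _ G _ h
    have h1 := h.exp
    simp only [Finset.prod_empty, one_mul, mul_one] at h1 ⊢
    exact CS.one (e := q ^ b) ⟨q, b, hq, dvd_rfl, rfl⟩ h1
  | insert p S hpS ih =>
    intro hS hodd G _ h
    rw [Finset.prod_insert hpS] at hodd h ⊢
    rw [Finset.prod_insert hpS]
    obtain ⟨m, hm⟩ : ∃ m, m = (∏ p ∈ S, p ^ f p) * q ^ b := ⟨_, rfl⟩
    obtain ⟨hp, hpq⟩ := hS p (Finset.mem_insert_self _ _)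
    rw [mul_assoc, ← hm] at hodd h ⊢
    have hpm : ¬ p ∣ m := by
      rw [hm]
      intro h1
      rcases hp.dvd_mul.1 h1 with h1 | h1
      · obtain ⟨r, hr, h2⟩ := (Prime.dvd_finsetProd_iff hp.prime _).1 h1
        have h3 := (Nat.prime_dvd_prime_iff_eq hp (hS r (Finset.mem_insert_of_mem hr)).1).1
          (hp.dvd_of_dvd_pow h2)
        exact hpS (h3 ▸ hr)
      · exact hpq ((Nat.prime_dvd_prime_iff_eq hp hq).1 (hp.dvd_of_dvd_pow h1))
    have IH := ih (fun r hr => hS r (Finset.mem_insert_of_mem hr)) (by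
      rw [← hm]
      exact fun h => hodd (h.trans (dvd_mul_left _ _)))
    rw [← hm] at IH
    have h4 := cs_step (E := PP (p ^ f p * m)) hp hpm (a := f p) (key_three_odd hp hpm hodd)
      (fun α hα => ⟨p, α, hp, (pow_dvd_pow p hα).trans (dvd_mul_right _ _), rfl⟩)
      (fun G _ h => (IH G h).mono (by
        rintro e ⟨q, k, hq, hk, rfl⟩
        exact ⟨q, k, hq, hk.trans (dvd_mul_left _ _), rfl⟩)) (f p) le_rfl G h.inv
    have h5 : (f p + 1) * (2 * (∏ p ∈ S, (f p + 1)) - 1) + f p =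
        2 * ((f p + 1) * ∏ p ∈ S, (f p + 1)) - 1 := by
      have h6 : 1 ≤ ∏ p ∈ S, (f p + 1) :=
        Nat.one_le_iff_ne_zero.2 (Finset.prod_ne_zero_iff.2 fun _ _ => by omega)
      obtain ⟨c, hc⟩ : ∃ c, ∏ p ∈ S, (f p + 1) = c + 1 := ⟨∏ p ∈ S, (f p + 1) - 1, by omega⟩
      rw [hc]
      have h2 : 2 * (c + 1) - 1 = 2 * c + 1 := by omega
      have h3 : 2 * ((f p + 1) * (c + 1)) = (f p + 1) * (2 * c + 1) + f p + 1 := by ring
      rw [h2, h3]
      rfl
    rwa [h5] at h4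

end Pool.Agent.V1110.Bt
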