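import Mathlib
import Pool.Agent.V1110.BtF

set_option autoImplicit false

/-!
# Characteristic series of explicit length: solubility and free Burnside groups
-/

namespace Pool.Agent.V1110.Bt

open Pool.Agent.H32BU Pool.Agent.W629 Pool.Agent.TH69.Mtn Pool.Agent.TH69.Od Pool.Agent.TH69

universe u v

/-- Burnside's theorem, all universes -/
theorem solv_u {G : Type u} [Group G] [Finite G] {p q a b : ℕ} (hp : p.Prime) (hq : q.Prime)
    (hG : ∀ x : G, x ^ (p ^ a * q ^ b) = 1) : Group.IsSolvable G := by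
  have hsm : Small.{0} G := inferInstance
  let e : Shrink.{0} G ≃* G := Shrink.mulEquiv
  have hfin : Finite (Shrink.{0} G) := Finite.of_equiv G e.symm.toEquiv
  have h1 : Group.IsSolvable (Shrink.{0} G) :=
    solv_of_exp p q a b hp hq fun x => e.injective (by rw [map_pow, map_one, hG])
  exact Group.isSolvable_of_isSolvable_injective (f := e.symm.toMonoidHom) e.symm.injective

theorem Cond.prime {C : ℕ → ℕ → ℕ → Prop} {p a : ℕ} {t : List (ℕ × ℕ)}
    (h : Cond C ((p, a) :: t)) : p.Prime := h.1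

/-- at most two primes -/
theorem solv_list {C : ℕ → ℕ → ℕ → Prop} {l : List (ℕ × ℕ)} (hl : Cond C l) (h2 : l.length ≤ 2)
    {G : Type u} [Group G] [Finite G] (hG : ∀ x : G, x ^ prodL l = 1) : Group.IsSolvable G := by
  match l, hl, h2, hG with
  | [], _, _, hG =>
    refine solv_u (p := 2) (q := 2) (a := 0) (b := 0) Nat.prime_two Nat.prime_two fun x => ?_
    exact hG x
  | [(p, a)], hl, _, hG =>
    exact solv_u (q := 2) (b := 0) hl.1 Nat.prime_two hG
  | [(p, a), (q, b)], hl, _, hG =>
    refine solv_u (a := a) (b := b) hl.1 hl.2.2.2.1 fun x => ?_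
    have h1 : p ^ a * (q ^ b * 1) = p ^ a * q ^ b := by rw [mul_one]
    rw [← h1]
    exact hG x
  | _ :: _ :: _ :: _, _, h2, _ =>
    simp only [List.length_cons] at h2
    omega

theorem solv_card {n : ℕ} (hn : n ≠ 0) (h2 : n.primeFactors.card ≤ 2) {G : Type u} [Group G]
    [Finite G] (hG : ∀ x : G, x ^ n = 1) : Group.IsSolvable G := by
  have h1 := Nat.prod_factorization_pow_eq_self hn
  rw [Finsupp.prod, Nat.support_factorization] at h1
  have h3 : n.primeFactors.card = 0 ∨ n.primeFactors.card = 1 ∨ n.primeFactors.card = 2 := by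
    omega
  rcases h3 with h3 | h3 | h3
  · rw [Finset.card_eq_zero] at h3
    rw [h3, Finset.prod_empty] at h1
    refine solv_u (p := 2) (q := 2) (a := 0) (b := 0) Nat.prime_two Nat.prime_two fun x => ?_
    have := hG x
    rwa [← h1] at this
  · obtain ⟨p, hp⟩ := Finset.card_eq_one.1 h3
    have hpp : p.Prime := Nat.prime_of_mem_primeFactors (n := n) (by rw [hp]; simp)
    rw [hp, Finset.prod_singleton] at h1
    refine solv_u (p := p) (q := 2) (a := n.factorization p) (b := 0) hpp Nat.prime_two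
      fun x => ?_
    rw [pow_zero, mul_one, h1]
    exact hG x
  · obtain ⟨p, q, hpq, hp⟩ := Finset.card_eq_two.1 h3
    have hpp : p.Prime := Nat.prime_of_mem_primeFactors (n := n) (by rw [hp]; simp)
    have hqq : q.Prime := Nat.prime_of_mem_primeFactors (n := n) (by rw [hp]; simp)
    rw [hp, Finset.prod_pair hpq] at h1
    refine solv_u (p := p) (q := q) (a := n.factorization p) (b := n.factorization q) hpp hqq
      fun x => ?_
    rw [h1]
    exact hG x

theorem solU_of_bu {d n : ℕ} (hf : Finite (Bu d n)) (hs : Group.IsSolvable (Bu d n))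
    {G : Type u} [Group G] (hG : ∀ x : G, x ^ n = 1) : SolU d n G := by
  refine ⟨hG, fun w => ?_⟩
  obtain ⟨f, hfr⟩ := bud hG w
  rw [← hfr]
  refine ⟨Finite.of_surjective f.rangeRestrict f.rangeRestrict_surjective, ?_⟩
  exact Group.isSolvable_of_surjective f.rangeRestrict_surjective

theorem bu_dvd {d n m : ℕ} (h : m ∣ n) (hf : Finite (Bu d n)) (hs : Group.IsSolvable (Bu d n)) :
    Finite (Bu d m) ∧ Group.IsSolvable (Bu d m) := by
  have h1 : ∀ x : Bu d m, x ^ n = 1 := by
    intro x
    obtain ⟨c, rfl⟩ := h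
    rw [pow_mul, bu_exp, one_pow]
  let w : Fin d → Bu d m := fun i => (QuotientGroup.mk (FreeGroup.of i) : Bu d m)
  have hgen : Subgroup.closure (Set.range w) = ⊤ := by
    rw [eq_top_iff]
    rintro x -
    obtain ⟨y, rfl⟩ := QuotientGroup.mk_surjective x
    induction y using FreeGroup.induction_on with
    | C1 => exact one_mem _
    | of i => exact Subgroup.subset_closure ⟨i, rfl⟩
    | inv_of i hi =>
      have := inv_mem hi
      exact this
    | mul a b ha hb =>
      have := mul_mem ha hb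
      exact this
  have S := solU_of_bu hf hs h1
  obtain ⟨h2, h3⟩ := S.gen w
  rw [hgen] at h2 h3
  exact ⟨Finite.of_equiv _ (Subgroup.topEquiv (G := Bu d m)).toEquiv,
    Group.isSolvable_of_isSolvable_injective (f := (Subgroup.topEquiv (G := Bu d m)).symm.toMonoidHom)
      (Subgroup.topEquiv (G := Bu d m)).symm.injective⟩

/-- membership in `L` -/
theorem inL_list {d : ℕ} {C : ℕ → ℕ → ℕ → Prop}
    (hC : ∀ p a m, p.Prime → ¬ p ∣ m → C p a m → ∀ α, 1 ≤ α → α ≤ a → Key d True p α m) :
    ∀ l : List (ℕ × ℕ), Cond C l → Finite (Bu d (prodL l)) →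
      Group.IsSolvable (Bu d (prodL l)) → (∀ x ∈ l, InL.{u} (x.1 ^ x.2)) → InL.{u} (prodL l) := by
  intro l
  induction l with
  | nil =>
    intro _ _ _ _ G _ hG S hS
    have h1 : ∀ x : G, x = 1 := fun x => by
      have := hG x
      change x ^ 1 = 1 at this
      rwa [pow_one] at this
    have : Subsingleton G := ⟨fun a b => by rw [h1 a, h1 b]⟩
    infer_instance
  | cons y t ih =>
    obtain ⟨p, a⟩ := y
    rintro ⟨hp, hpm, hc, ht⟩ hf hs h
    obtain ⟨h1, h2⟩ := bu_dvd (m := prodL t) (n := prodL ((p, a) :: t)) (dvd_mul_left _ _) hf hs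
    have h3 := ih ht h1 h2 fun x hx => h x (List.mem_cons_of_mem _ hx)
    exact (((main.{u} hp hpm (hC p a _ hp hpm hc)).2 hf (psepU_of_solvable _ hs bu_exp)
      fun _ => hs).2).2 ⟨h (p, a) (by simp), h3⟩

end Pool.Agent.V1110.Bt
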