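import Mathlib
import Pool.Agent.TH69.OkE
import Pool.Agent.TH69.OkF

set_option autoImplicit false

/-!
# Groups of exponent `n` with finite soluble two-generator subgroups: more primes whose squares
# divide `n`

The proof of `trivX` is that of `Pool.Agent.TH69.Ok.trivK`, with a weaker condition on the primes.
-/

namespace Pool.Agent.V1110.Bs

open Pool.Agent.H32BU Pool.Agent.W629 Pool.Agent.TH69.Mtn Pool.Agent.TH69.Od Pool.Agent.TH69.Og
open Pool.Agent.TH69.Oh Pool.Agent.TH69.Ok Pool.Agent.TH69.Pq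

/-- the conditions on the exponent -/
structure Cx (n : ℕ) : Prop where
  two : ∀ m, 2 ≤ m → ¬ 2 ^ m * (2 ^ m - 1) ^ 2 ∣ n
  sq : ∀ T : Finset ℕ, T.Nonempty → (∀ s ∈ T, s.Prime ∧ s ≠ 2 ∧ s ^ 2 ∣ n) →
    ∃ p ∈ T, ∃ q ∈ T, ∀ s ∈ T, s ≠ p → s ≠ q → p ∣ s - 1 ∧ q ∣ s - 1

theorem Cx.of_dvd {n m : ℕ} (C : Cx n) (h : m ∣ n) : Cx m :=
  ⟨fun k hk h1 => C.two k hk (h1.trans h),
    fun T hT h1 => C.sq T hT fun s hs => ⟨(h1 s hs).1, (h1 s hs).2.1, (h1 s hs).2.2.trans h⟩⟩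

variable {G : Type} [Group G]

/-- the main theorem for groups without normal subgroups of prime power exponent (the proof is that
of `Ok.trivK`, with more primes) -/
theorem trivX : ∀ n : ℕ, Cx n → ∀ {G : Type} [Group G], Sg n G →
    (∀ p : ℕ, p.Prime → Rad (qp p n) G = ⊥) → ∀ x : G, x = 1 := by
  intro n
  induction n using Nat.strong_induction_on with
  | _ n ih =>
  intro C G _ S hR
  -- dropping the exponent
  have drop : ∀ m : ℕ, m ∣ n → m < n → (∀ x : G, x ^ m = 1) → ∀ x : G, x = 1 := by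
    intro m hmn hm hexp x
    obtain ⟨h1, h2⟩ := step hmn S hR ⊤ inferInstance fun x _ => hexp x
    have h3 := ih m hm (C.of_dvd hmn) h1 h2 ⟨x, Subgroup.mem_top x⟩
    exact congrArg Subtype.val h3
  -- the hypotheses for a prime
  have hpr : ∀ q : ℕ, q.Prime → q ∣ n → ∃ α M, 1 ≤ α ∧ Nat.Coprime q M ∧ q ^ α * M = n ∧
      qp q n = q ^ α ∧ Pr n (q ^ α) M G := by
    intro q hq hqn
    obtain ⟨M, h1, h2⟩ := qp_fac S.hn hq
    have hα : 1 ≤ n.factorization q := (hq.dvd_iff_one_le_factorization S.hn).1 hqn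
    have hMn : M ∣ n := Dvd.intro_left _ h2
    have hM0 : 0 < M := Nat.pos_of_ne_zero fun h => S.hn (by rw [← h2, h, mul_zero])
    have hlt : M < n := by
      rw [← h2]
      exact lt_mul_of_one_lt_left hM0 (Nat.one_lt_pow (by omega) hq.one_lt)
    refine ⟨n.factorization q, M, hα, h1, h2, rfl, S, Nat.Coprime.pow_left _ h1,
      ⟨qp q n, (Nat.Coprime.pow_left _ h1).symm, by rw [mul_comm]; exact h2⟩, ?_⟩
    obtain ⟨h3, h4⟩ := step hMn S hR (Rad M G) (rad_normal M) fun x hx => rad_pow hx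
    have h5 := ih M hlt (C.of_dvd hMn) h3 h4
    rw [eq_bot_iff]
    intro x hx
    exact congrArg Subtype.val (h5 ⟨x, hx⟩)
  -- powers of elements of maximal order
  have hmax : ∀ q : ℕ, q.Prime → (q = 2 ∨ ¬ 2 ∣ n) → ∀ α M, 1 ≤ α → Nat.Coprime q M →
      q ^ α * M = n → ∀ x : G, x ^ q ^ α = 1 → SG (q ^ α) M (x ^ q ^ (α - 1)) := by
    intro q hq h2 α M hα hqM hM x hx
    by_cases h12 : q = 2
    · subst h12
      have h2M := (Nat.Prime.coprime_iff_not_dvd hq).1 hqM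
      refine ss_of_max2 S hα h2M hM (fun s hs hsM => ?_) hx
      have hs2 : s ≠ 2 := by
        rintro rfl
        exact h2M hsM
      by_cases hex : ∀ μ, 1 ≤ μ → μ ≤ α → ∀ r, 1 ≤ r → s ^ r ≠ 2 ^ μ - 1
      · exact noC_of_hex hs hs2 hα h2M hex
      push Not at hex
      obtain ⟨μ, hμ1, hμ2, r, hr, h⟩ := hex
      obtain ⟨h3, h4⟩ := mersenne hs hr h
      obtain ⟨γ, M3, hγ, h3M, hM3, -, hP3⟩ := hpr s hs (hsM.trans (Dvd.intro_left _ hM))
      have hγ1 : γ = 1 := by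
        by_contra h
        apply C.two μ h4
        have h5 : 2 ^ μ ∣ n := by
          rw [← hM]
          exact (pow_dvd_pow 2 hμ2).trans (dvd_mul_right _ _)
        have h6 : s ^ 2 ∣ n := by
          rw [← hM3]
          exact (pow_dvd_pow s (by omega)).trans (dvd_mul_right _ _)
        rw [← h3]
        exact Nat.Coprime.mul_dvd_of_dvd_of_dvd
          (Nat.Coprime.pow _ _ ((Nat.coprime_primes hq hs).2 hs2.symm)) h5 h6
      subst hγ1
      have h7 : M3 * s = n := by rw [mul_comm, ← hM3, pow_one]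
      by_cases hμ : μ = 2
      · have h8 : s = 3 := by
          rw [h3, hμ]
          norm_num
        subst h8
        exact noC_three S h3M.symm h7 hP3.rad hα h2M hM
      · refine noC_once S hs hs2 h3M.symm h7 hP3.rad ?_ hα h2M hM
        intro t ht _ k hk h8
        obtain ⟨ν, rfl⟩ : ∃ ν, μ = ν + 3 := ⟨μ - 3, by omega⟩
        obtain ⟨j, rfl⟩ : ∃ j, k = j + 1 := ⟨k - 1, by omega⟩
        have h9 : 2 ^ (ν + 3) = 8 * 2 ^ ν := by ring
        have h10 : 0 < 2 ^ ν := Nat.pow_pos (by norm_num)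
        have h11 : 2 ∣ t ^ (j + 1) := by
          rw [h8, h3, h9]
          omega
        have h12 : t = 2 :=
          ((Nat.prime_dvd_prime_iff_eq Nat.prime_two ht).1 (Nat.prime_two.dvd_of_dvd_pow h11)).symm
        rw [h12, h3, h9, pow_succ] at h8
        obtain ⟨i, rfl | rfl⟩ : ∃ i, j = 0 ∨ j = i + 1 := by
          rcases j with _ | j
          · exact ⟨0, Or.inl rfl⟩
          · exact ⟨j, Or.inr rfl⟩
        · omega
        · rw [pow_succ] at h8
          omega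
    · refine ss_of_maxG S hq ((Nat.Prime.coprime_iff_not_dvd hq).1 hqM) hM hα ?_ hx
      intro s hs hsM μ hμ1 hμ2 r hr h
      rcases h2 with rfl | h2
      · exact h12 rfl
      · have hs2 : s ≠ 2 := by
          rintro rfl
          exact h2 (hsM.trans (Dvd.intro_left _ hM))
        have hq2 : q ≠ 2 := by
          rintro rfl
          apply h2
          rw [← hM]
          exact (dvd_pow_self 2 (by omega)).trans (dvd_mul_right _ _)
        have h3 := (hq.odd_of_ne_two hq2).pow (n := μ)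
        have h4 := (hs.odd_of_ne_two hs2).pow (n := r)
        have h5 : 0 < q ^ μ := h3.pos
        obtain ⟨c, hc⟩ := h3
        obtain ⟨d, hd⟩ := h4
        omega
  -- there are elements of order `q` in `SG`
  have hdrop : ∀ q : ℕ, q.Prime → (q = 2 ∨ ¬ 2 ∣ n) → ∀ α M, 1 ≤ α → Nat.Coprime q M →
      q ^ α * M = n → (∀ z : G, SG (q ^ α) M z → z ^ q = 1 → z = 1) → ∀ x : G, x = 1 := by
    intro q hq h2 α M hα hqM hM hz
    have hM0 : 0 < M := Nat.pos_of_ne_zero fun h => S.hn (by rw [← hM, h, mul_zero])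
    refine drop (q ^ (α - 1) * M) ?_ ?_ fun x => ?_
    · rw [← hM]
      exact Nat.mul_dvd_mul (pow_dvd_pow q (by omega)) dvd_rfl
    · rw [← hM]
      exact Nat.mul_lt_mul_of_pos_right (Nat.pow_lt_pow_right hq.one_lt (by omega)) hM0
    · have h3 : (x ^ M) ^ q ^ α = 1 := by rw [← pow_mul, mul_comm, hM, S.exp]
      have h4 := hmax q hq h2 α M hα hqM hM _ h3
      have h5 := hz _ h4 (by
        rw [← pow_mul, ← pow_succ, Nat.sub_add_cancel hα, h3])
      rw [mul_comm, pow_mul]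
      exact h5
  by_cases h2n : 2 ∣ n
  · -- the even case
    obtain ⟨α, M, hα, hqM, hM, hqp, hP⟩ := hpr 2 Nat.prime_two h2n
    refine hdrop 2 Nat.prime_two (Or.inl rfl) α M hα hqM hM fun z hz hz2 => ?_
    refine rad_of_no_arrG S Nat.prime_two hqM hM (by rw [← hqp]; exact hR 2 Nat.prime_two) hz
      fun s hs hs2 U A => ?_
    refine no_arrG hP (Nat.pow_pos (by norm_num)) hs (qp_dvd_M Nat.prime_two hs hs2 hM) ?_ hz hz2 A
    have h3 := hs.eq_two_or_odd.resolve_left hs2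
    have h4 := hs.two_le
    omega
  -- the odd case
  by_contra hcon
  -- every prime divisor has an element with a minimal subgroup
  have key : ∀ q : ℕ, q.Prime → q ∣ n → ∃ α M, 1 ≤ α ∧ Nat.Coprime q M ∧ q ^ α * M = n ∧
      qp q n = q ^ α ∧ Pr n (q ^ α) M G ∧ ∃ w : G, SG (q ^ α) M w ∧ w ^ q = 1 ∧ w ≠ 1 ∧
      ∃ s : ℕ, s.Prime ∧ s ≠ q ∧ ∃ U : Subgroup G, Arr n s w U := by
    intro q hq hqn
    obtain ⟨α, M, hα, hqM, hM, hqp, hP⟩ := hpr q hq hqn
    refine ⟨α, M, hα, hqM, hM, hqp, hP, ?_⟩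
    have h1 : ∃ w : G, SG (q ^ α) M w ∧ w ^ q = 1 ∧ w ≠ 1 := by
      by_contra h
      push Not at h
      exact hcon (hdrop q hq (Or.inr h2n) α M hα hqM hM h)
    obtain ⟨w, h3, h4, h5⟩ := h1
    refine ⟨w, h3, h4, h5, ?_⟩
    by_contra h
    push Not at h
    exact h5 (rad_of_no_arrG S hq hqM hM (by rw [← hqp]; exact hR q hq) h3
      fun s hs hsq U A => h s hs hsq U A)
  -- minimal subgroups are `s`-groups with `s ^ 2 ∣ n`
  have hsq : ∀ q α M : ℕ, q.Prime → Nat.Coprime q M → q ^ α * M = n → Pr n (q ^ α) M G →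
      ∀ w : G, SG (q ^ α) M w → ∀ s : ℕ, s.Prime → s ≠ q → ∀ U : Subgroup G, Arr n s w U →
      s ^ 2 ∣ n := by
    intro q α M hq hqM hM hP w hw s hs hsq U A
    by_contra hs2
    have hsn : s ∣ n := by
      by_contra hsn
      obtain ⟨u, hu, huw⟩ := A.nc
      have h1 : qp s n = 1 := by
        unfold qp
        rw [Nat.factorization_eq_zero_of_not_dvd hsn, pow_zero]
      have h3 := A.pow u hu
      rw [h1, pow_one] at h3
      rw [h3, mul_one, one_mul] at huw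
      exact huw rfl
    obtain ⟨γ, m, hγ, hsm, hm, hqps, -⟩ := hpr s hs hsn
    have hγ1 : γ = 1 := by
      by_contra h
      apply hs2
      rw [← hm]
      exact (pow_dvd_pow s (by omega)).trans (dvd_mul_right _ _)
    subst hγ1
    refine no_arr_small hP hq hqM hM hs hsq hsm (fun x hx => ?_) hw A
    have h1 := hmax s hs (Or.inr h2n) 1 m le_rfl hsm hm x (by rw [pow_one]; exact hx)
    rw [Nat.sub_self, pow_zero, pow_one, pow_one] at h1
    exact h1
  have hn1 : n ≠ 1 := by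
    rintro rfl
    exact hcon fun x => by rw [← S.exp x, pow_one]
  obtain ⟨q0, hq0, hq0n⟩ := Nat.exists_prime_and_dvd hn1
  obtain ⟨α0, M0, -, hqM0, hM0, -, hP0, w0, hw0, -, -, p0, hp0, hpq0, U0, A0⟩ := key q0 hq0 hq0n
  have hp02 := hsq q0 α0 M0 hq0 hqM0 hM0 hP0 w0 hw0 p0 hp0 hpq0 U0 A0
  have hodd : ∀ s : ℕ, s.Prime → s ^ 2 ∣ n → s ≠ 2 := by
    rintro s hs h rfl
    exact h2n ((dvd_pow_self 2 two_ne_zero).trans h)
  -- the set of the primes whose squares divide `n`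
  obtain ⟨T, hT⟩ : ∃ T : Finset ℕ, ∀ s, s ∈ T ↔ s.Prime ∧ s ^ 2 ∣ n := by
    refine ⟨n.primeFactors.filter fun s => s ^ 2 ∣ n, fun s => ?_⟩
    rw [Finset.mem_filter, Nat.mem_primeFactors]
    exact ⟨fun h => ⟨h.1.1, h.2⟩, fun h => ⟨⟨h.1, (dvd_pow_self s two_ne_zero).trans h.2, S.hn⟩, h.2⟩⟩
  obtain ⟨p, hpT, q, hqT, hTpq⟩ := C.sq T ⟨p0, (hT p0).2 ⟨hp0, hp02⟩⟩ fun s hs =>
    ⟨((hT s).1 hs).1, hodd s ((hT s).1 hs).1 ((hT s).1 hs).2, ((hT s).1 hs).2⟩
  obtain ⟨hp, hp2⟩ := (hT p).1 hpT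
  obtain ⟨hq, hq2⟩ := (hT q).1 hqT
  have hpn : p ∣ n := (dvd_pow_self p two_ne_zero).trans hp2
  have hqn : q ∣ n := (dvd_pow_self q two_ne_zero).trans hq2
  -- the primes on which elements of order `r` act
  have hnext : ∀ r α M : ℕ, r.Prime → Nat.Coprime r M → r ^ α * M = n → Pr n (r ^ α) M G →
      (∀ s ∈ T, s ≠ p → s ≠ q → r ∣ s - 1) → ∀ w : G, SG (r ^ α) M w → w ^ r = 1 →
      ∀ s : ℕ, s.Prime → s ≠ r → ∀ U : Subgroup G, Arr n s w U → s = p ∨ s = q := by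
    intro r α M hr hrM hM hP hr1 w hw hwr s hs hsr U A
    by_contra hcon'
    push Not at hcon'
    have h1 := hsq r α M hr hrM hM hP w hw s hs hsr U A
    exact no_arrG hP (Nat.pow_pos hr.pos) hs (qp_dvd_M hr hs hsr hM)
      (hr1 s ((hT s).2 ⟨hs, h1⟩) hcon'.1 hcon'.2) hw hwr A
  have hp1 : ∀ s ∈ T, s ≠ p → s ≠ q → p ∣ s - 1 := fun s hs h1 h2 => (hTpq s hs h1 h2).1
  have hq1 : ∀ s ∈ T, s ≠ p → s ≠ q → q ∣ s - 1 := fun s hs h1 h2 => (hTpq s hs h1 h2).2
  obtain ⟨α, Mp, hα, hpMp, hMp, hqpp, hPp, z0, hz0, hz0p, hz01, q', hq', hqp', U1, A1⟩ :=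
    key p hp hpn
  obtain rfl : q' = q :=
    (hnext p α Mp hp hpMp hMp hPp hp1 z0 hz0 hz0p q' hq' hqp' U1 A1).resolve_left hqp'
  have hqp : q' ≠ p := hqp'
  obtain ⟨β, Mq, hβ, hqMq, hMq, hqpq, hPq, w1, hw1, hw1q, hw11, p', hp', hpq', U2, A2⟩ :=
    key q' hq hqn
  obtain rfl : p' = p :=
    (hnext q' β Mq hq hqMq hMq hPq hq1 w1 hw1 hw1q p' hp' hpq' U2 A2).resolve_right hpq'
  have hSS1 : ∀ z : G, SG (p' ^ α) Mp z → z ^ p' = 1 → SG (p' ^ α) (q' ^ β) z := by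
    intro z hz hzp
    rw [← hqpq]
    refine ss_pair S hq hp hqp hpMp hMp hz fun s hs hsp hsq' U A => ?_
    rcases hnext p' α Mp hp hpMp hMp hPp hp1 z hz hzp s hs hsp U A with h | h
    · exact hsp h
    · exact hsq' h
  have hSS2 : ∀ w : G, SG (q' ^ β) Mq w → w ^ q' = 1 → SG (q' ^ β) (p' ^ α) w := by
    intro w hw hwq
    rw [← hqpp]
    refine ss_pair S hp hq hqp.symm hqMq hMq hw fun s hs hsq' hsp U A => ?_
    rcases hnext q' β Mq hq hqMq hMq hPq hq1 w hw hwq s hs hsq' U A with h | h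
    · exact hsp h
    · exact hsq' h
  have h3 : ¬ p' ∣ q' - 1 := fun h =>
    no_arrG hPp (Nat.pow_pos hp.pos) hq (qp_dvd_M hp hq hqp hMp) h hz0 hz0p A1
  have h4 : ¬ q' ∣ p' - 1 := fun h =>
    no_arrG hPq (Nat.pow_pos hq.pos) hp (qp_dvd_M hq hp hqp.symm hMq) h hw1 hw1q A2
  have SS' : St n p' q' α β G := ⟨S, hp, hq, hqp.symm, hqpp, hqpq, by rw [← hqpp]; exact hR p' hp,
    by rw [← hqpq]; exact hR q' hq⟩
  obtain ⟨A, hA⟩ : ∃ A : Subgroup G,
    A = Subgroup.closure {z | SG (p' ^ α) Mp z ∧ z ^ p' = 1} := ⟨_, rfl⟩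
  obtain ⟨B, hB⟩ : ∃ B : Subgroup G,
    B = Subgroup.closure {w | SG (q' ^ β) Mq w ∧ w ^ q' = 1} := ⟨_, rfl⟩
  have hAn : A.Normal := by
    refine ⟨fun x hx g => ?_⟩
    rw [hA] at hx ⊢
    refine closure_conj ?_ x hx
    rintro z ⟨h1, h2⟩
    exact Subgroup.subset_closure ⟨sg_conj h1 g, conj_pow_one h2⟩
  have hBn : B.Normal := by
    refine ⟨fun x hx g => ?_⟩
    rw [hB] at hx ⊢
    refine closure_conj ?_ x hx
    rintro z ⟨h1, h2⟩
    exact Subgroup.subset_closure ⟨sg_conj h1 g, conj_pow_one h2⟩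
  have hAB : ∀ a ∈ A, ∀ b ∈ B, a * b = b * a := by
    have h5 : A ≤ Subgroup.centralizer {w | SG (q' ^ β) Mq w ∧ w ^ q' = 1} := by
      rw [hA, Subgroup.closure_le]
      rintro z ⟨h1, h2⟩
      rw [SetLike.mem_coe, Subgroup.mem_centralizer_iff]
      rintro w ⟨h3', h4'⟩
      exact (comm_all SS' h3 h4 (hSS1 z h1 h2) h2 (hSS2 w h3' h4') h4').symm
    have h6 : B ≤ Subgroup.centralizer (A : Set G) := by
      rw [hB, Subgroup.closure_le]
      rintro w hw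
      rw [SetLike.mem_coe, Subgroup.mem_centralizer_iff]
      intro a ha
      exact ((Subgroup.mem_centralizer_iff.1 (h5 ha)) w hw).symm
    intro a ha b hb
    exact (Subgroup.mem_centralizer_iff.1 (h6 hb)) a ha
  have hexpq : ∀ x : G, x ^ (q' ^ β * Mq) = 1 := by rw [hMq]; exact S.exp
  have habq : Nat.Coprime (q' ^ β) Mq := Nat.Coprime.pow_left _ hqMq
  -- the exponent of `A`
  have hexpA : ∀ x ∈ A, x ^ (q' ^ (β - 1) * Mq) = 1 := by
    intro x hx
    have h5 : (x ^ Mq) ^ q' ^ β = 1 := by rw [← pow_mul, mul_comm, hMq, S.exp]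
    have h6 := hmax q' hq (Or.inr h2n) β Mq hβ hqMq hMq _ h5
    have h7 : ((x ^ Mq) ^ q' ^ (β - 1)) ^ q' = 1 := by
      rw [← pow_mul, ← pow_succ, Nat.sub_add_cancel hβ]
      exact h5
    have h8 : (x ^ Mq) ^ q' ^ (β - 1) ∈ A := pow_mem (pow_mem hx _) _
    have h9 : (x ^ Mq) ^ q' ^ (β - 1) ∈ B := by
      rw [hB]
      exact Subgroup.subset_closure ⟨h6, h7⟩
    rw [mul_comm, pow_mul]
    generalize (x ^ Mq) ^ q' ^ (β - 1) = w at h6 h7 h8 h9
    let D : Subgroup G :=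
      { carrier := {d | d ∈ A ∧ d ∈ B ∧ d ^ q' ^ β = 1}
        one_mem' := ⟨one_mem _, one_mem _, one_pow _⟩
        mul_mem' := by
          rintro a b ⟨ha, ha2, ha3⟩ ⟨hb, hb2, hb3⟩
          refine ⟨mul_mem ha hb, mul_mem ha2 hb2, ?_⟩
          have : Commute a b := hAB a ha b hb2
          rw [this.mul_pow, ha3, hb3, one_mul]
        inv_mem' := by
          rintro a ⟨ha, ha2, ha3⟩
          exact ⟨inv_mem ha, inv_mem ha2, by rw [inv_pow, ha3, inv_one]⟩ }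
    have hDn : D.Normal := by
      refine ⟨?_⟩
      rintro d ⟨h10, h11, h12⟩ g
      exact ⟨hAn.conj_mem d h10 g, hBn.conj_mem d h11 g, conj_pow_one h12⟩
    have h10 := le_rad habq hexpq D (fun d hd => hd.2.2)
    rw [SS'.rq] at h10
    exact h10 ⟨h8, h9, h6.1⟩
  have hMq0 : 0 < Mq := Nat.pos_of_ne_zero fun h => S.hn (by rw [← hMq, h, mul_zero])
  have hdvd : q' ^ (β - 1) * Mq ∣ n := by
    rw [← hMq]
    exact Nat.mul_dvd_mul (pow_dvd_pow q' (by omega)) dvd_rfl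
  have hlt : q' ^ (β - 1) * Mq < n := by
    rw [← hMq]
    exact Nat.mul_lt_mul_of_pos_right (Nat.pow_lt_pow_right hq.one_lt (by omega)) hMq0
  obtain ⟨h5, h6⟩ := step hdvd S hR A hAn hexpA
  have hz0A : z0 ∈ A := by
    rw [hA]
    exact Subgroup.subset_closure ⟨hz0, hz0p⟩
  have h7 := ih _ hlt (C.of_dvd hdvd) h5 h6 ⟨z0, hz0A⟩
  exact hz01 (congrArg Subtype.val h7)

theorem trSX {n : ℕ} (hn : n ≠ 0) (C : Cx n) : TrS n := by
  intro G _ hG h2 hs hR
  refine trivX n C ⟨hn, hG, h2, ?_⟩ hR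
  rcases hs with hs | hs
  · obtain ⟨p, q, a, b, hp, hq, e⟩ := two_primes n (Nat.pos_of_ne_zero hn) hs
    intro x y
    have := h2 x y
    refine solv_of_exp p q a b hp hq fun z => ?_
    rw [← e]
    exact exp_sub hG _ z
  · exact hs

end Pool.Agent.V1110.Bs
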