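import Mathlib

set_option autoImplicit false

/-!
# Digits of the multiples of a number, part A: good positions and the counting lemma
-/

namespace Pool.Agent.V1110.Ml

open Finset

/-- `x` is badly approximable with exponent `κ` and constant `c`. -/
def Bad (x κ c : ℝ) : Prop :=
  ∀ q : ℕ, 1 ≤ q → ∀ p : ℤ, c * (q : ℝ) ^ (-κ) ≤ |q * x - p|

/-- `θ` has a reduced approximation `p / q`, `q ≤ Q`, which is neither too good nor too bad -/
def Good (b Q : ℕ) (θ : ℝ) : Prop :=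
  ∃ (q : ℕ) (p : ℤ), 1 ≤ q ∧ q ≤ Q ∧ Int.gcd p q = 1 ∧ 1 / ((b : ℝ) * Q ^ 2) ≤ |q * θ - p| ∧
    |q * θ - p| < 1 / Q

/-- dividing by the common divisor -/
theorem good_of {b Q : ℕ} {θ : ℝ} (hQ : 1 ≤ Q) (hb : 1 ≤ b) {q : ℕ} {p : ℤ} (hq : 1 ≤ q)
    (hqQ : q ≤ Q) (h1 : 1 / ((b : ℝ) * Q) ≤ |q * θ - p|) (h2 : |q * θ - p| < 1 / Q) :
    Good b Q θ := by
  obtain ⟨g, hg⟩ : ∃ g : ℕ, g = Int.gcd p q := ⟨_, rfl⟩
  have hgpos : 0 < g := by
    rw [hg]
    exact Int.gcd_pos_of_ne_zero_right _ (by omega)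
  obtain ⟨p', hp'⟩ : (g : ℤ) ∣ p := by rw [hg]; exact Int.gcd_dvd_left _ _
  obtain ⟨q', hq'⟩ : g ∣ q := by
    have : (g : ℤ) ∣ (q : ℤ) := by rw [hg]; exact Int.gcd_dvd_right _ _
    exact_mod_cast this
  have hq'pos : 1 ≤ q' := by
    rcases Nat.eq_zero_or_pos q' with h | h
    · rw [h, mul_zero] at hq'
      omega
    · exact h
  have hgR : (1 : ℝ) ≤ g := by exact_mod_cast hgpos
  have hgR0 : (0 : ℝ) < g := by linarith
  have hQR : (1 : ℝ) ≤ Q := by exact_mod_cast hQ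
  have hbR : (1 : ℝ) ≤ b := by exact_mod_cast hb
  have e : (q : ℝ) * θ - p = g * (q' * θ - p') := by
    rw [hq', hp']
    push_cast
    ring
  have hgQ : g ≤ Q := (Nat.le_of_dvd (by omega) ⟨q', hq'⟩).trans hqQ
  have hgQR : (g : ℝ) ≤ Q := by exact_mod_cast hgQ
  rw [e, abs_mul, abs_of_pos hgR0] at h1 h2
  refine ⟨q', p', hq'pos, (Nat.le_of_dvd (by omega) ⟨g, by rw [hq', mul_comm]⟩).trans hqQ,
    ?_, ?_, ?_⟩
  · have h3 : Int.gcd p q = g * Int.gcd p' q' := by
      have h4 : (q : ℤ) = (g : ℤ) * q' := by exact_mod_cast hq'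
      rw [h4, hp', Int.gcd_mul_left, Int.natAbs_natCast]
    rw [← hg] at h3
    have h4 : g * Int.gcd p' q' = g * 1 := by rw [← h3, mul_one]
    exact Nat.eq_of_mul_eq_mul_left hgpos h4
  · have h5 : 1 / ((b : ℝ) * Q ^ 2) * g ≤ 1 / ((b : ℝ) * Q) := by
      rw [div_mul_eq_mul_div, one_mul, div_le_div_iff₀ (by positivity) (by positivity)]
      have : (g : ℝ) * (b * Q) ≤ Q * (b * Q) :=
        mul_le_mul_of_nonneg_right hgQR (by positivity)
      nlinarith
    have h6 := h5.trans h1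
    rw [mul_comm] at h6
    exact le_of_mul_le_mul_left h6 hgR0
  · have h7 : |(q' : ℝ) * θ - p'| ≤ g * |(q' : ℝ) * θ - p'| :=
      le_mul_of_one_le_left (abs_nonneg _) hgR
    exact h7.trans_lt h2

/-- good positions -/
theorem exists_good {x κ c : ℝ} (hκ : 0 < κ) (hc : 0 < c) (hx : Bad x κ c) {b Q : ℕ} (hb : 2 ≤ b)
    (hQ : 1 ≤ Q) (A : ℕ) : ∃ j : ℕ, A ≤ j ∧
      (j : ℝ) ≤ (1 + κ) * A + max 0 (κ * Real.log Q - Real.log c) / Real.log 2 ∧
      Good b Q ((b : ℝ) ^ j * x) := by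
  have hQR : (1 : ℝ) ≤ Q := by exact_mod_cast hQ
  have hbR : (2 : ℝ) ≤ b := by exact_mod_cast hb
  have hbR0 : (0 : ℝ) < b := by linarith
  obtain ⟨p, q, hq1, hq2, h1⟩ := Real.exists_int_int_abs_mul_sub_le ((b : ℝ) ^ A * x) (n := Q)
    (by omega)
  obtain ⟨q, rfl⟩ := Int.eq_ofNat_of_zero_le hq1.le
  have hq1' : 1 ≤ q := by exact_mod_cast hq1
  have hq2' : q ≤ Q := by exact_mod_cast hq2
  have hqR : (1 : ℝ) ≤ q := by exact_mod_cast hq1'
  obtain ⟨δ, hδ⟩ : ∃ δ, δ = |(q : ℝ) * ((b : ℝ) ^ A * x) - p| := ⟨_, rfl⟩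
  have hδ1 : δ ≤ 1 / (Q + 1) := by
    rw [hδ]
    exact_mod_cast h1
  have hδ2 : c * ((q : ℝ) * (b : ℝ) ^ A) ^ (-κ) ≤ δ := by
    have h := hx (q * b ^ A) (Nat.mul_pos hq1' (pow_pos (by omega) _)) p
    push_cast at h
    rw [hδ, ← mul_assoc]
    exact h
  have hqA : (0 : ℝ) < (q : ℝ) * (b : ℝ) ^ A := by positivity
  have hδ0 : 0 < δ := lt_of_lt_of_le (mul_pos hc (Real.rpow_pos_of_pos hqA _)) hδ2
  have hex : ∃ i : ℕ, 1 / (Q : ℝ) ≤ δ * (b : ℝ) ^ (i + 1) := by
    obtain ⟨n, hn⟩ := pow_unbounded_of_one_lt (1 / (Q : ℝ) / δ) (show (1 : ℝ) < b by linarith)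
    refine ⟨n, ?_⟩
    rw [div_lt_iff₀ hδ0, mul_comm] at hn
    refine hn.le.trans (mul_le_mul_of_nonneg_left ?_ hδ0.le)
    exact pow_le_pow_right₀ (by linarith) (Nat.le_succ n)
  obtain ⟨i, hi1, hi2⟩ : ∃ i : ℕ, 1 / (Q : ℝ) ≤ δ * (b : ℝ) ^ (i + 1) ∧
      δ * (b : ℝ) ^ i < 1 / Q := by
    classical
    refine ⟨Nat.find hex, Nat.find_spec hex, ?_⟩
    rcases Nat.eq_zero_or_pos (Nat.find hex) with h | h
    · rw [h, pow_zero, mul_one]
      refine hδ1.trans_lt ?_
      exact one_div_lt_one_div_of_lt (by linarith) (by linarith)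
    · have h2 := Nat.find_min hex (Nat.sub_lt h one_pos)
      have h3 : Nat.find hex - 1 + 1 = Nat.find hex := by omega
      rw [h3] at h2
      exact not_le.1 h2
  refine ⟨A + i, Nat.le_add_right _ _, ?_, ?_⟩
  · -- the size of `i`
    have h2 : (b : ℝ) ^ i < (q * (b : ℝ) ^ A) ^ κ / c := by
      have h3 : (b : ℝ) ^ i * δ < 1 := by
        rw [mul_comm]
        refine hi2.trans_le ?_
        rw [div_le_one (by linarith)]
        exact hQR
      have h4 : (b : ℝ) ^ i * (c * ((q : ℝ) * (b : ℝ) ^ A) ^ (-κ)) < 1 :=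
        (mul_le_mul_of_nonneg_left hδ2 (by positivity)).trans_lt h3
      rw [Real.rpow_neg hqA.le] at h4
      have h5 : (0 : ℝ) < ((q : ℝ) * (b : ℝ) ^ A) ^ κ := Real.rpow_pos_of_pos hqA _
      rw [lt_div_iff₀ hc]
      have h6 : (b : ℝ) ^ i * (c * (((q : ℝ) * (b : ℝ) ^ A) ^ κ)⁻¹) =
          (b : ℝ) ^ i * c / ((q : ℝ) * (b : ℝ) ^ A) ^ κ := by
        rw [div_eq_mul_inv, mul_assoc]
      rw [h6, div_lt_one h5] at h4
      exact h4
    have hlb : Real.log 2 ≤ Real.log b := Real.log_le_log (by norm_num) hbR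
    have hl2 : 0 < Real.log 2 := Real.log_pos (by norm_num)
    have h3 := Real.log_lt_log (by positivity) h2
    rw [Real.log_pow, Real.log_div (Real.rpow_pos_of_pos hqA _).ne' hc.ne',
      Real.log_rpow hqA, Real.log_mul (by positivity) (by positivity), Real.log_pow] at h3
    have h4 : Real.log q ≤ Real.log Q := Real.log_le_log (by linarith) (by exact_mod_cast hq2')
    have h5 : (i : ℝ) * Real.log b ≤ κ * A * Real.log b +
        max 0 (κ * Real.log Q - Real.log c) := by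
      have h6 := le_max_right (0 : ℝ) (κ * Real.log Q - Real.log c)
      have h7 := mul_le_mul_of_nonneg_left h4 hκ.le
      nlinarith
    have h8 : (i : ℝ) ≤ κ * A + max 0 (κ * Real.log Q - Real.log c) / Real.log 2 := by
      have h9 : (i : ℝ) ≤ κ * A + max 0 (κ * Real.log Q - Real.log c) / Real.log b := by
        rw [← sub_le_iff_le_add', le_div_iff₀ (by linarith)]
        linarith
      refine h9.trans ?_
      have := div_le_div_of_nonneg_left (le_max_left (0 : ℝ) (κ * Real.log Q - Real.log c)) hl2 hlb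
      linarith
    push_cast
    linarith
  · have e : |(q : ℝ) * ((b : ℝ) ^ (A + i) * x) - ((p * (b : ℤ) ^ i : ℤ) : ℝ)| =
        δ * (b : ℝ) ^ i := by
      have e2 : (q : ℝ) * ((b : ℝ) ^ (A + i) * x) - ((p * (b : ℤ) ^ i : ℤ) : ℝ) =
          (q * ((b : ℝ) ^ A * x) - p) * (b : ℝ) ^ i := by
        push_cast
        ring
      rw [e2, abs_mul, abs_of_pos (show (0 : ℝ) < (b : ℝ) ^ i by positivity), hδ]
    refine good_of hQ (by omega) hq1' hq2' (p := p * (b : ℤ) ^ i) ?_ ?_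
    · rw [e]
      rw [pow_succ, ← mul_assoc, ← div_le_iff₀ hbR0] at hi1
      rw [one_div, mul_inv, mul_comm, ← one_div, ← div_eq_mul_inv]
      exact hi1
    · rw [e]
      exact hi2

/-- separation of the multiples -/
theorem sep {b Q : ℕ} {θ : ℝ} (hQ : 1 ≤ Q) (hb : 1 ≤ b) (h : Good b Q θ) :
    ∃ σ : ℝ, 1 / ((b : ℝ) * Q ^ 2) ≤ σ ∧ σ < 1 / Q ∧
      ∀ d : ℕ, 1 ≤ d → 2 * d * σ ≤ 1 → ∀ m : ℤ, σ / 2 ≤ |d * θ - m| := by
  obtain ⟨q, p, hq1, hq2, hg, h1, h2⟩ := h
  have hQR : (1 : ℝ) ≤ Q := by exact_mod_cast hQ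
  have hbR : (1 : ℝ) ≤ b := by exact_mod_cast hb
  have hqR : (1 : ℝ) ≤ q := by exact_mod_cast hq1
  have hqQ : (q : ℝ) ≤ Q := by exact_mod_cast hq2
  obtain ⟨σ, hσ⟩ : ∃ σ, σ = |(q : ℝ) * θ - p| := ⟨_, rfl⟩
  rw [← hσ] at h1 h2
  have hσ0 : 0 < σ := lt_of_lt_of_le (by positivity) h1
  refine ⟨σ, h1, h2, fun d hd1 hd2 m => ?_⟩
  have hdR : (1 : ℝ) ≤ d := by exact_mod_cast hd1
  have e : (q : ℝ) * (d * θ - m) = d * (q * θ - p) + ((d * p - m * q : ℤ) : ℝ) := by
    push_cast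
    ring
  have e2 : (q : ℝ) * |d * θ - m| = |d * (q * θ - p) + ((d * p - m * q : ℤ) : ℝ)| := by
    rw [← e, abs_mul, abs_of_pos (by linarith : (0 : ℝ) < q)]
  have e3 : |(d : ℝ) * (q * θ - p)| = d * σ := by
    rw [abs_mul, abs_of_pos (by linarith : (0 : ℝ) < d), hσ]
  by_cases h0 : (d * p - m * q : ℤ) = 0
  · have hdvd : (q : ℤ) ∣ d := by
      have h3 : (q : ℤ) ∣ d * p := ⟨m, by linarith⟩
      have h4 : IsCoprime (q : ℤ) p := by
        rw [Int.isCoprime_iff_gcd_eq_one, Int.gcd_comm]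
        exact hg
      exact h4.dvd_of_dvd_mul_right h3
    have hle : q ≤ d := by
      have : q ∣ d := by exact_mod_cast hdvd
      exact Nat.le_of_dvd (by omega) this
    have hleR : (q : ℝ) ≤ d := by exact_mod_cast hle
    rw [h0, Int.cast_zero, add_zero, e3] at e2
    have h5 : (q : ℝ) * σ ≤ q * |d * θ - m| := by
      rw [e2]
      exact mul_le_mul_of_nonneg_right hleR hσ0.le
    have h6 := le_of_mul_le_mul_left h5 (by linarith)
    linarith
  · have h3 : (1 : ℝ) ≤ |((d * p - m * q : ℤ) : ℝ)| := by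
      rw [← Int.cast_abs]
      exact_mod_cast Int.one_le_abs h0
    have h4 : 1 - d * σ ≤ (q : ℝ) * |d * θ - m| := by
      rw [e2]
      have h5 := abs_sub_abs_le_abs_sub ((d * p - m * q : ℤ) : ℝ) (-((d : ℝ) * (q * θ - p)))
      rw [abs_neg, e3, sub_neg_eq_add, add_comm ((d * p - m * q : ℤ) : ℝ)] at h5
      linarith
    have h5 : (1 : ℝ) / 2 ≤ Q * |d * θ - m| := by
      have := mul_le_mul_of_nonneg_right hqQ (abs_nonneg (d * θ - m))
      linarith
    have h6 : σ * Q < 1 := by rwa [lt_div_iff₀ (by linarith)] at h2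
    have h7 : Q * (σ / 2) ≤ Q * |d * θ - m| := by nlinarith
    exact le_of_mul_le_mul_left h7 (by linarith)

/-- the counting lemma -/
theorem count {b Q : ℕ} {θ : ℝ} (hQ : 2 ≤ Q) (hb : 1 ≤ b) (h : Good b Q θ) (φ : ℝ) {M R : ℕ}
    (hM : 1 ≤ M) (hMQ : M ≤ Q) (hR : b * Q ^ 2 ≤ R) (u : ℕ) :
    (((range R).filter fun n : ℕ => ⌊(M : ℝ) * Int.fract (n * θ + φ)⌋₊ = u).card : ℝ) ≤
      24 * R / M := by
  obtain ⟨σ, h1, h2, h3⟩ := sep (by omega) hb h
  have hQR : (2 : ℝ) ≤ Q := by exact_mod_cast hQ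
  have hbR : (1 : ℝ) ≤ b := by exact_mod_cast hb
  have hMR : (1 : ℝ) ≤ M := by exact_mod_cast hM
  have hMQR : (M : ℝ) ≤ Q := by exact_mod_cast hMQ
  have hσ0 : 0 < σ := lt_of_lt_of_le (by positivity) h1
  have hσQ : σ * Q < 1 := by rwa [lt_div_iff₀ (by linarith)] at h2
  have hσM : σ * M < 1 := (mul_le_mul_of_nonneg_left hMQR hσ0.le).trans_lt hσQ
  have hσ2 : 1 ≤ 1 / (2 * σ) := by
    rw [le_div_iff₀ (by positivity)]
    nlinarith
  obtain ⟨B, hB⟩ : ∃ B, B = ⌊1 / (2 * σ)⌋₊ := ⟨_, rfl⟩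
  have hB1 : 1 ≤ B := by
    rw [hB]
    exact Nat.le_floor (by exact_mod_cast hσ2)
  have hB2 : (B : ℝ) ≤ 1 / (2 * σ) := by
    rw [hB]
    exact Nat.floor_le (by positivity)
  have hB3 : 1 / (4 * σ) ≤ B := by
    have h4 : 1 / (2 * σ) < B + 1 := by
      rw [hB]
      exact Nat.lt_floor_add_one _
    have h5 : (1 : ℝ) ≤ B := by exact_mod_cast hB1
    have h6 : 1 / (4 * σ) = (1 / (2 * σ)) / 2 := by
      field_simp
      norm_num
    rw [h6]
    linarith
  have hBR : (B : ℝ) ≤ R := by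
    have h4 : 1 / (2 * σ) ≤ R := by
      have h5 : 1 ≤ σ * ((b : ℝ) * Q ^ 2) := by rwa [div_le_iff₀ (by positivity)] at h1
      have h6 : ((b : ℝ) * Q ^ 2) ≤ R := by exact_mod_cast hR
      have h7 : 1 ≤ σ * R := h5.trans (mul_le_mul_of_nonneg_left h6 hσ0.le)
      rw [div_le_iff₀ (by positivity)]
      nlinarith
    exact hB2.trans h4
  -- the map
  obtain ⟨D, hD⟩ : ∃ D, D = ⌊2 / (M * σ)⌋₊ := ⟨_, rfl⟩
  have hcard : ((range R).filter fun n : ℕ => ⌊(M : ℝ) * Int.fract (n * θ + φ)⌋₊ = u).card ≤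
      (range (R / B + 1) ×ˢ range (D + 1)).card := by
    refine Finset.card_le_card_of_injOn
      (fun n : ℕ => (n / B, ⌊(Int.fract (n * θ + φ) - u / M) / (σ / 2)⌋₊)) ?_ ?_
    · intro n hn
      rw [Finset.mem_coe, mem_filter, mem_range] at hn
      obtain ⟨hn1, hn2⟩ := hn
      rw [Finset.mem_coe, mem_product, mem_range, mem_range]
      refine ⟨Nat.lt_succ_of_le (Nat.div_le_div_right hn1.le), Nat.lt_succ_of_le ?_⟩
      change ⌊(Int.fract (n * θ + φ) - u / M) / (σ / 2)⌋₊ ≤ D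
      rw [hD]
      refine Nat.floor_le_floor ?_
      have h4 : (M : ℝ) * Int.fract (n * θ + φ) < u + 1 := by
        rw [← hn2]
        exact Nat.lt_floor_add_one _
      rw [div_le_div_iff₀ (by positivity) (by positivity)]
      have h5 : (Int.fract (n * θ + φ) - u / M) * M ≤ 1 := by
        rw [sub_mul, div_mul_cancel₀ _ (by positivity)]
        linarith
      calc (Int.fract (n * θ + φ) - u / M) * (M * σ) = ((Int.fract (n * θ + φ) - u / M) * M) * σ := by
            ring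
        _ ≤ 1 * σ := mul_le_mul_of_nonneg_right h5 hσ0.le
        _ = 2 * (σ / 2) := by ring
    · -- injectivity
      have key : ∀ n n' : ℕ, n < n' → ⌊(M : ℝ) * Int.fract (n * θ + φ)⌋₊ = u →
          ⌊(M : ℝ) * Int.fract (n' * θ + φ)⌋₊ = u → n / B = n' / B →
          ⌊(Int.fract (n * θ + φ) - u / M) / (σ / 2)⌋₊ =
            ⌊(Int.fract (n' * θ + φ) - u / M) / (σ / 2)⌋₊ → False := by
        intro n n' hnn hn hn' hd hf
        have hlow : ∀ n : ℕ, ⌊(M : ℝ) * Int.fract (n * θ + φ)⌋₊ = u →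
            0 ≤ (Int.fract (n * θ + φ) - u / M) / (σ / 2) := by
          intro n hn
          have h4 : (u : ℝ) ≤ (M : ℝ) * Int.fract (n * θ + φ) := by
            rw [← hn]
            exact Nat.floor_le (mul_nonneg (by positivity) (Int.fract_nonneg _))
          refine div_nonneg ?_ (by positivity)
          rw [sub_nonneg, div_le_iff₀ (by positivity), mul_comm]
          exact h4
        have h5 : |(Int.fract (n' * θ + φ) - u / M) / (σ / 2) -
            (Int.fract (n * θ + φ) - u / M) / (σ / 2)| < 1 := by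
          have a1 := Nat.floor_le (hlow n hn)
          have a2 := Nat.lt_floor_add_one ((Int.fract (n * θ + φ) - u / M) / (σ / 2))
          have a3 := Nat.floor_le (hlow n' hn')
          have a4 := Nat.lt_floor_add_one ((Int.fract (n' * θ + φ) - u / M) / (σ / 2))
          rw [← hf] at a3 a4
          rw [abs_lt]
          constructor <;> linarith
        have h6 : |Int.fract (n' * θ + φ) - Int.fract (n * θ + φ)| < σ / 2 := by
          have e : (Int.fract (n' * θ + φ) - u / M) / (σ / 2) -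
              (Int.fract (n * θ + φ) - u / M) / (σ / 2) =
              (Int.fract (n' * θ + φ) - Int.fract (n * θ + φ)) / (σ / 2) := by
            ring
          rw [e, abs_div, abs_of_pos (show (0 : ℝ) < σ / 2 by positivity),
            div_lt_one (by positivity)] at h5
          exact h5
        have hd1 : 1 ≤ n' - n := by omega
        have hd2 : n' - n < B := by
          have a1 := Nat.div_add_mod n B
          have a2 := Nat.div_add_mod n' B
          have a3 := Nat.mod_lt n (show 0 < B by omega)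
          have a4 := Nat.mod_lt n' (show 0 < B by omega)
          rw [← hd] at a2
          omega
        have hd3 : 2 * ((n' - n : ℕ) : ℝ) * σ ≤ 1 := by
          have a1 : ((n' - n : ℕ) : ℝ) ≤ B := by exact_mod_cast hd2.le
          have a2 := a1.trans hB2
          rw [le_div_iff₀ (by positivity)] at a2
          linarith
        have h7 := h3 (n' - n) hd1 hd3 (⌊(n' : ℝ) * θ + φ⌋ - ⌊(n : ℝ) * θ + φ⌋)
        have e : ((n' - n : ℕ) : ℝ) * θ - ((⌊(n' : ℝ) * θ + φ⌋ - ⌊(n : ℝ) * θ + φ⌋ : ℤ) : ℝ) =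
            Int.fract (n' * θ + φ) - Int.fract (n * θ + φ) := by
          rw [Nat.cast_sub hnn.le]
          unfold Int.fract
          push_cast
          ring
        rw [e] at h7
        linarith
      intro n hn n' hn' hnn
      rw [Finset.mem_coe, mem_filter] at hn hn'
      rw [Prod.mk.injEq] at hnn
      by_contra hne
      rcases lt_or_gt_of_ne hne with h | h
      · exact key n n' h hn.2 hn'.2 hnn.1 hnn.2
      · exact key n' n h hn'.2 hn.2 hnn.1.symm hnn.2.symm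
  rw [card_product, card_range, card_range] at hcard
  have hcard' : (((range R).filter fun n : ℕ => ⌊(M : ℝ) * Int.fract (n * θ + φ)⌋₊ = u).card : ℝ)
      ≤ ((R / B : ℕ) + 1) * (D + 1) := by exact_mod_cast hcard
  refine hcard'.trans ?_
  have hD1 : (D : ℝ) ≤ 2 / (M * σ) := by
    rw [hD]
    exact Nat.floor_le (by positivity)
  have hMσ : (1 : ℝ) ≤ 1 / (M * σ) := by
    rw [le_div_iff₀ (by positivity)]
    linarith
  have h4 : (D : ℝ) + 1 ≤ 3 / (M * σ) := by
    have : (3 : ℝ) / (M * σ) = 2 / (M * σ) + 1 / (M * σ) := by ring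
    linarith
  have hB0 : (0 : ℝ) < B := by exact_mod_cast hB1
  have h5 : ((R / B : ℕ) : ℝ) + 1 ≤ 2 * R / B := by
    have a1 : ((R / B : ℕ) : ℝ) ≤ R / B := Nat.cast_div_le
    have a2 : (1 : ℝ) ≤ R / B := by rwa [le_div_iff₀ hB0, one_mul]
    have a3 : 2 * (R : ℝ) / B = R / B + R / B := by ring
    linarith
  have h6 : 2 * (R : ℝ) / B ≤ 8 * R * σ := by
    rw [div_le_iff₀ hB0]
    rw [div_le_iff₀ (by positivity)] at hB3
    have hR0 : (0 : ℝ) ≤ R := Nat.cast_nonneg _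
    nlinarith
  calc (((R / B : ℕ) : ℝ) + 1) * (D + 1) ≤ (8 * R * σ) * (3 / (M * σ)) := by
        refine mul_le_mul (h5.trans h6) h4 (by positivity) (by positivity)
    _ = 24 * R / M := by
        field_simp
        ring

end Pool.Agent.V1110.Ml
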