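import Mathlib
import Pool.Agent.V1110.MlA

set_option autoImplicit false

/-!
# Digits of the multiples of a number, part B: words
-/

namespace Pool.Agent.V1110.Ml

open Finset

theorem count_set {b Q : ℕ} {θ : ℝ} (hQ : 2 ≤ Q) (hb : 1 ≤ b) (h : Good b Q θ) (φ : ℝ) {M R : ℕ}
    (hM : 1 ≤ M) (hMQ : M ≤ Q) (hR : b * Q ^ 2 ≤ R) (S : Finset ℕ) :
    (((range R).filter fun n : ℕ => ⌊(M : ℝ) * Int.fract (n * θ + φ)⌋₊ ∈ S).card : ℝ) ≤
      S.card * (24 * R / M) := by
  classical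
  have h1 : ((range R).filter fun n : ℕ => ⌊(M : ℝ) * Int.fract (n * θ + φ)⌋₊ ∈ S).card ≤
      ∑ u ∈ S, ((range R).filter fun n : ℕ => ⌊(M : ℝ) * Int.fract (n * θ + φ)⌋₊ = u).card := by
    have e : ((range R).filter fun n : ℕ => ⌊(M : ℝ) * Int.fract (n * θ + φ)⌋₊ ∈ S) =
        S.biUnion fun u => (range R).filter fun n : ℕ => ⌊(M : ℝ) * Int.fract (n * θ + φ)⌋₊ = u := by
      ext n
      simp only [mem_filter, mem_biUnion]
      constructor
      · rintro ⟨h1, h2⟩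
        exact ⟨_, h2, h1, rfl⟩
      · rintro ⟨u, hu, h1, h2⟩
        exact ⟨h1, by rw [h2]; exact hu⟩
    rw [e]
    exact card_biUnion_le
  have h2 : (((range R).filter fun n : ℕ => ⌊(M : ℝ) * Int.fract (n * θ + φ)⌋₊ ∈ S).card : ℝ) ≤
      ∑ u ∈ S, (((range R).filter fun n : ℕ => ⌊(M : ℝ) * Int.fract (n * θ + φ)⌋₊ = u).card : ℝ) :=
    by exact_mod_cast h1
  refine h2.trans ?_
  rw [← nsmul_eq_mul]
  exact Finset.sum_le_card_nsmul _ _ _ fun u _ => count hQ hb h φ hM hMQ hR u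

/-- functions which avoid a value on a set -/
theorem card_avoid {β N : ℕ} (T : Finset (Fin N)) (W : Fin β) :
    ((univ : Finset (Fin N → Fin β)).filter fun f => ∀ t ∈ T, f t ≠ W).card =
      (β - 1) ^ T.card * β ^ (N - T.card) := by
  classical
  have e : ((univ : Finset (Fin N → Fin β)).filter fun f => ∀ t ∈ T, f t ≠ W) =
      Fintype.piFinset fun t => if t ∈ T then univ.erase W else univ := by
    ext f
    rw [mem_filter, Fintype.mem_piFinset]
    constructor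
    · rintro ⟨-, h⟩ t
      by_cases ht : t ∈ T
      · rw [if_pos ht]
        exact mem_erase.2 ⟨h t ht, mem_univ _⟩
      · rw [if_neg ht]
        exact mem_univ _
    · intro h
      refine ⟨mem_univ _, fun t ht => ?_⟩
      have := h t
      rw [if_pos ht] at this
      exact (mem_erase.1 this).1
  rw [e, Fintype.card_piFinset]
  have h1 : ∀ t : Fin N, (if t ∈ T then (univ : Finset (Fin β)).erase W else univ).card =
      if t ∈ T then β - 1 else β := by
    intro t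
    by_cases ht : t ∈ T
    · rw [if_pos ht, if_pos ht, card_erase_of_mem (mem_univ _), card_univ, Fintype.card_fin]
    · rw [if_neg ht, if_neg ht, card_univ, Fintype.card_fin]
  rw [prod_congr rfl fun t _ => h1 t, prod_ite, prod_const, prod_const, filter_mem_eq_inter,
    univ_inter]
  congr 2
  have h2 := card_compl T
  rw [Fintype.card_fin] at h2
  rw [← h2]
  congr 1
  ext t
  simp

/-- the words of `H * m` digits in base `β` one of whose `H` parts of `m` digits lacks a digit -/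
def bad (β H m : ℕ) : Finset ℕ :=
  ((univ : Finset (Fin β × Fin H)).biUnion fun a =>
    (univ : Finset (Fin (β ^ (H * m)))).filter fun v =>
      ∀ i : Fin m, (finFunctionFinEquiv.symm v : Fin (H * m) → Fin β)
        (finProdFinEquiv (a.2, i)) ≠ a.1).map Fin.valEmbedding

theorem card_bad (β H m : ℕ) :
    (bad β H m).card ≤ β * H * ((β - 1) ^ m * β ^ (H * m - m)) := by
  classical
  unfold bad
  rw [card_map]
  refine card_biUnion_le.trans ?_
  have h1 : ∀ a ∈ (univ : Finset (Fin β × Fin H)),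
      ((univ : Finset (Fin (β ^ (H * m)))).filter fun v =>
      ∀ i : Fin m, (finFunctionFinEquiv.symm v : Fin (H * m) → Fin β)
        (finProdFinEquiv (a.2, i)) ≠ a.1).card ≤ (β - 1) ^ m * β ^ (H * m - m) := by
    intro a _
    have hT : ((univ : Finset (Fin m)).image fun i => finProdFinEquiv (a.2, i)).card = m := by
      rw [card_image_of_injective, card_univ, Fintype.card_fin]
      intro i j hij
      exact (Prod.mk.inj (finProdFinEquiv.injective hij)).2
    have h2 := card_avoid (β := β) ((univ : Finset (Fin m)).image fun i => finProdFinEquiv (a.2, i))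
      a.1
    rw [hT] at h2
    rw [← h2]
    refine card_le_card_of_injOn (fun v => finFunctionFinEquiv.symm v) ?_
      (finFunctionFinEquiv.symm.injective.injOn)
    intro v hv
    rw [mem_coe, mem_filter] at hv ⊢
    refine ⟨mem_univ _, fun t ht => ?_⟩
    obtain ⟨i, -, rfl⟩ := mem_image.1 ht
    exact hv.2 i
  refine (sum_le_card_nsmul _ _ _ h1).trans (le_of_eq ?_)
  rw [card_univ, Fintype.card_prod, Fintype.card_fin, Fintype.card_fin, smul_eq_mul]

/-- words outside the bad set -/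
theorem not_bad {β H m v : ℕ} (hv : v < β ^ (H * m)) (h : v ∉ bad β H m) {W : ℕ} (hW : W < β)
    {h' : ℕ} (hh : h' < H) : ∃ i < m, v / β ^ (i + m * h') % β = W := by
  by_contra hcon
  push Not at hcon
  apply h
  unfold bad
  rw [mem_map]
  refine ⟨⟨v, hv⟩, ?_, rfl⟩
  rw [mem_biUnion]
  refine ⟨(⟨W, hW⟩, ⟨h', hh⟩), mem_univ _, ?_⟩
  rw [mem_filter]
  refine ⟨mem_univ _, fun i hi => ?_⟩
  have h1 := congrArg Fin.val hi
  exact hcon i i.2 h1

/-- the digits -/
theorem digit_eq {b k : ℕ} (hb : 2 ≤ b) (y : ℝ) (j : ℕ) {N t : ℕ} (ht : t < N) :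
    ⌊(b : ℝ) ^ (j + k * (N - 1 - t) + k) * y⌋ % ((b : ℤ) ^ k) =
      ((⌊(((b ^ k) ^ N : ℕ) : ℝ) * Int.fract ((b : ℝ) ^ j * y)⌋₊ / (b ^ k) ^ t % b ^ k : ℕ) : ℤ) := by
  obtain ⟨β, hβ⟩ : ∃ β, β = b ^ k := ⟨_, rfl⟩
  have hβ0 : 0 < β := by
    rw [hβ]
    exact pow_pos (by omega) _
  have hβR : (0 : ℝ) < β := by exact_mod_cast hβ0
  have hbβ : ((b : ℝ) ^ k) = β := by
    rw [hβ]
    push_cast
    rfl
  have hbβ' : ((b : ℤ) ^ k) = β := by
    rw [hβ]
    push_cast
    rfl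
  obtain ⟨Y, hY⟩ : ∃ Y, Y = (b : ℝ) ^ j * y := ⟨_, rfl⟩
  rw [← hβ, ← hY, hbβ']
  have e1 : (b : ℝ) ^ (j + k * (N - 1 - t) + k) * y = (β : ℝ) ^ (N - t) * Y := by
    have h1 : j + k * (N - 1 - t) + k = k * (N - t) + j := by
      have h2 : N - t = (N - 1 - t) + 1 := by omega
      rw [h2]
      ring
    rw [h1, pow_add, pow_mul, hbβ, hY]
    ring
  rw [e1]
  have e2 : (β : ℝ) ^ (N - t) * Y = ((β : ℤ) * ((β : ℤ) ^ (N - t - 1) * ⌊Y⌋) : ℤ) +
      (β : ℝ) ^ (N - t) * Int.fract Y := by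
    have h1 : N - t = (N - t - 1) + 1 := by omega
    have h2 : (β : ℝ) ^ (N - t) = (β : ℝ) * (β : ℝ) ^ (N - t - 1) := by
      rw [← pow_succ', ← h1]
    push_cast
    rw [h2]
    have h3 := Int.floor_add_fract Y
    calc (β : ℝ) * (β : ℝ) ^ (N - t - 1) * Y =
        (β : ℝ) * (β : ℝ) ^ (N - t - 1) * (⌊Y⌋ + Int.fract Y) := by rw [h3]
      _ = _ := by ring
  rw [e2, Int.floor_intCast_add, Int.mul_add_emod_self_left]
  have e3 : (β : ℝ) ^ (N - t) * Int.fract Y =
      ((β ^ N : ℕ) : ℝ) * Int.fract Y / ((β ^ t : ℕ) : ℝ) := by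
    have h1 : N = (N - t) + t := by omega
    have h2 : (β : ℝ) ^ N = (β : ℝ) ^ (N - t) * (β : ℝ) ^ t := by rw [← pow_add, ← h1]
    push_cast
    rw [h2]
    field_simp
  rw [e3, Int.floor_div_natCast]
  have h5 : (0 : ℝ) ≤ ((β ^ N : ℕ) : ℝ) * Int.fract Y :=
    mul_nonneg (Nat.cast_nonneg _) (Int.fract_nonneg _)
  rw [← Int.natCast_floor_eq_floor h5]
  push_cast
  rfl

/-- many occurrences of all words -/
theorem occ {b k : ℕ} (hb : 2 ≤ b) (hk : 1 ≤ k) (y : ℝ) (j : ℕ) {H m : ℕ}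
    (h : ⌊(((b ^ k) ^ (H * m) : ℕ) : ℝ) * Int.fract ((b : ℝ) ^ j * y)⌋₊ ∉ bad (b ^ k) H m) {W : ℕ}
    (hW : W < b ^ k) : H ≤ ((Ico j (j + k * (H * m))).filter fun i : ℕ =>
      ⌊(b : ℝ) ^ (i + k) * y⌋ % ((b : ℤ) ^ k) = (W : ℤ)).card := by
  classical
  obtain ⟨v, hv⟩ : ∃ v, v = ⌊(((b ^ k) ^ (H * m) : ℕ) : ℝ) * Int.fract ((b : ℝ) ^ j * y)⌋₊ :=
    ⟨_, rfl⟩
  have hM0 : (0 : ℝ) < (((b ^ k) ^ (H * m) : ℕ) : ℝ) := by
    have : 0 < (b ^ k) ^ (H * m) := pow_pos (pow_pos (by omega) _) _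
    exact_mod_cast this
  have hvlt : v < (b ^ k) ^ (H * m) := by
    rw [hv, Nat.floor_lt (mul_nonneg hM0.le (Int.fract_nonneg _))]
    have := mul_lt_mul_of_pos_left (Int.fract_lt_one ((b : ℝ) ^ j * y)) hM0
    rwa [mul_one] at this
  rw [← hv] at h
  have hex : ∀ h' : Fin H, ∃ i < m, v / (b ^ k) ^ (i + m * h') % b ^ k = W := fun h' =>
    not_bad hvlt h hW h'.2
  choose f hf1 hf2 using hex
  have hlt : ∀ h' : Fin H, f h' + m * h' < H * m := by
    intro h'
    have h1 : (h' : ℕ) + 1 ≤ H := h'.2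
    have h2 : m * ((h' : ℕ) + 1) ≤ m * H := Nat.mul_le_mul_left m h1
    have := hf1 h'
    rw [mul_comm H m]
    rw [mul_add, mul_one] at h2
    omega
  have hinj : ∀ h1 h2 : Fin H, f h1 + m * h1 = f h2 + m * h2 → h1 = h2 := by
    intro h1 h2 e
    have hm : 0 < m := lt_of_le_of_lt (Nat.zero_le _) (hf1 h1)
    have e1 : (f h1 + m * h1) / m = h1 := by
      rw [Nat.add_mul_div_left _ _ hm, Nat.div_eq_of_lt (hf1 h1), zero_add]
    have e2 : (f h2 + m * h2) / m = h2 := by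
      rw [Nat.add_mul_div_left _ _ hm, Nat.div_eq_of_lt (hf1 h2), zero_add]
    apply Fin.ext
    rw [← e1, ← e2, e]
  have hcard : (univ : Finset (Fin H)).card ≤ ((Ico j (j + k * (H * m))).filter fun i : ℕ =>
      ⌊(b : ℝ) ^ (i + k) * y⌋ % ((b : ℤ) ^ k) = (W : ℤ)).card := by
    refine card_le_card_of_injOn (fun h' : Fin H => j + k * (H * m - 1 - (f h' + m * h'))) ?_ ?_
    · intro h' _
      rw [mem_coe, mem_filter, mem_Ico]
      have h1 := hlt h'
      refine ⟨⟨Nat.le_add_right _ _, ?_⟩, ?_⟩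
      · have h2 : H * m - 1 - (f h' + m * h') < H * m := by omega
        have h3 := Nat.mul_lt_mul_of_pos_left h2 hk
        exact Nat.add_lt_add_left h3 j
      · rw [digit_eq hb y j h1, ← hv, hf2 h']
    · intro h1 _ h2 _ e
      have a1 := hlt h1
      have a2 := hlt h2
      have e' : k * (H * m - 1 - (f h1 + m * h1)) = k * (H * m - 1 - (f h2 + m * h2)) :=
        Nat.add_left_cancel e
      have e'' := Nat.eq_of_mul_eq_mul_left hk e'
      exact hinj h1 h2 (by omega)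
  rwa [card_univ, Fintype.card_fin] at hcard

end Pool.Agent.V1110.Ml
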