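import Mathlib
import Pool.Agent.V1110.MlB

set_option autoImplicit false

/-!
# Digits of the multiples of a number, part C: windows and the main theorem
-/

namespace Pool.Agent.V1110.Ml

open Finset

/-- choice of the length of the parts -/
theorem exists_m {β H : ℕ} (hβ : 2 ≤ β) (hH : 1 ≤ H) {δ : ℝ} (hδ : 0 < δ) :
    ∃ m : ℕ, 1 ≤ m ∧ ∀ R : ℕ,
      ((bad β H m).card : ℝ) * (24 * R / ((β ^ (H * m) : ℕ) : ℝ)) ≤ δ / 2 * R := by
  have hβR : (2 : ℝ) ≤ β := by exact_mod_cast hβ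
  have hHR : (1 : ℝ) ≤ H := by exact_mod_cast hH
  have hβ0 : (0 : ℝ) < β := by linarith
  have hH0 : (0 : ℝ) < H := by linarith
  obtain ⟨r, hr⟩ : ∃ r : ℝ, r = (β - 1) / β := ⟨_, rfl⟩
  have hr0 : 0 ≤ r := by
    rw [hr]
    exact div_nonneg (by linarith) hβ0.le
  have hr1 : r < 1 := by
    rw [hr, div_lt_one hβ0]
    linarith
  obtain ⟨m0, hm0⟩ := exists_pow_lt_of_lt_one (show (0 : ℝ) < δ / (48 * β * H) by positivity) hr1
  have hm1 : r ^ (m0 + 1) ≤ δ / (48 * β * H) := by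
    rw [pow_succ]
    exact (mul_le_of_le_one_right (pow_nonneg hr0 _) hr1.le).trans hm0.le
  refine ⟨m0 + 1, Nat.succ_le_succ (Nat.zero_le _), fun R => ?_⟩
  obtain ⟨m, hm⟩ : ∃ m, m = m0 + 1 := ⟨_, rfl⟩
  rw [← hm] at hm1 ⊢
  have hR0 : (0 : ℝ) ≤ R := Nat.cast_nonneg _
  have hcard : ((bad β H m).card : ℝ) ≤ β * H * ((β - 1) ^ m * β ^ (H * m - m)) := by
    have h := card_bad β H m
    have h2 : ((bad β H m).card : ℝ) ≤ ((β * H * ((β - 1) ^ m * β ^ (H * m - m)) : ℕ) : ℝ) := by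
      exact_mod_cast h
    refine h2.trans (le_of_eq ?_)
    push_cast
    rw [Nat.cast_sub (by omega)]
    push_cast
    ring
  have hpow : (β : ℝ) ^ (H * m) = β ^ m * β ^ (H * m - m) := by
    rw [← pow_add]
    congr 1
    have : m ≤ H * m := Nat.le_mul_of_pos_left m hH
    omega
  have hβm : (β - 1 : ℝ) ^ m = r ^ m * β ^ m := by
    rw [hr, div_pow, div_mul_cancel₀ _ (by positivity)]
  have h1 : ((bad β H m).card : ℝ) * (24 * R / ((β ^ (H * m) : ℕ) : ℝ)) ≤
      (β * H * ((β - 1) ^ m * β ^ (H * m - m))) * (24 * R / ((β ^ (H * m) : ℕ) : ℝ)) :=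
    mul_le_mul_of_nonneg_right hcard (by positivity)
  refine h1.trans ?_
  have h2 : ((β : ℝ) * H * ((β - 1) ^ m * β ^ (H * m - m))) * (24 * R / ((β ^ (H * m) : ℕ) : ℝ)) =
      24 * β * H * R * r ^ m := by
    push_cast
    rw [hpow, hβm]
    field_simp
  rw [h2]
  have h3 : 24 * (β : ℝ) * H * R * r ^ m ≤ 24 * β * H * R * (δ / (48 * β * H)) :=
    mul_le_mul_of_nonneg_left hm1 (by positivity)
  refine h3.trans (le_of_eq ?_)
  field_simp
  ring

/-- one window -/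
theorem window {b k H m : ℕ} (hb : 2 ≤ b) (hk : 1 ≤ k) (hH : 1 ≤ H) (hm : 1 ≤ m) {x κ c δ : ℝ}
    (hκ : 0 < κ) (hc : 0 < c) (hx : Bad x κ c)
    (hmδ : ∀ R : ℕ, ((bad (b ^ k) H m).card : ℝ) *
      (24 * R / (((b ^ k) ^ (H * m) : ℕ) : ℝ)) ≤ δ / 2 * R) (A : ℕ) :
    ∃ j : ℕ, A ≤ j ∧ (j : ℝ) ≤ (1 + κ) * A +
        max 0 (κ * Real.log (((b ^ k) ^ (H * m) : ℕ) : ℝ) - Real.log c) / Real.log 2 ∧
      ∀ R : ℕ, b * ((b ^ k) ^ (H * m)) ^ 2 ≤ R → ∀ y : ℝ,
        (((range R).filter fun n : ℕ => ⌊(((b ^ k) ^ (H * m) : ℕ) : ℝ) *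
          Int.fract ((b : ℝ) ^ j * (n * x + y))⌋₊ ∈ bad (b ^ k) H m).card : ℝ) ≤ δ / 2 * R := by
  have hβ : 2 ≤ b ^ k := by
    calc 2 ≤ b := hb
      _ = b ^ 1 := (pow_one b).symm
      _ ≤ b ^ k := Nat.pow_le_pow_right (by omega) hk
  have hQ : 2 ≤ (b ^ k) ^ (H * m) := by
    calc 2 ≤ b ^ k := hβ
      _ = (b ^ k) ^ 1 := (pow_one _).symm
      _ ≤ (b ^ k) ^ (H * m) := Nat.pow_le_pow_right (by omega) (Nat.mul_pos hH hm)
  obtain ⟨j, hj1, hj2, hj3⟩ := exists_good hκ hc hx hb (show 1 ≤ (b ^ k) ^ (H * m) by omega) A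
  refine ⟨j, hj1, hj2, fun R hR y => ?_⟩
  have h := count_set hQ (by omega) hj3 ((b : ℝ) ^ j * y) (show 1 ≤ (b ^ k) ^ (H * m) by omega)
    le_rfl hR (bad (b ^ k) H m)
  refine le_trans (le_of_eq ?_) (h.trans (hmδ R))
  congr 2
  ext n
  have e : (n : ℝ) * ((b : ℝ) ^ j * x) + (b : ℝ) ^ j * y = (b : ℝ) ^ j * (n * x + y) := by ring
  simp only [mem_filter]
  rw [e]

/-- the ends of the windows -/
noncomputable def ends (κ C : ℝ) (L : ℕ) : ℕ → ℕ
  | 0 => 0
  | t + 1 => ⌈(1 + κ) * (ends κ C L t) + C⌉₊ + L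

theorem ends_le {κ C : ℝ} (hκ : 0 < κ) (hC : 0 ≤ C) (L t : ℕ) :
    (ends κ C L t : ℝ) ≤ (C + L + 1) / κ * ((1 + κ) ^ t - 1) := by
  induction t with
  | zero => simp [ends]
  | succ t ih =>
    have h1 : (0 : ℝ) ≤ (1 + κ) * (ends κ C L t) + C := by positivity
    have h2 : (ends κ C L (t + 1) : ℝ) ≤ (1 + κ) * (ends κ C L t) + C + 1 + L := by
      have h3 := (Nat.ceil_lt_add_one h1).le
      rw [ends]
      push_cast
      linarith
    refine h2.trans ?_
    have h3 : (1 + κ) * (ends κ C L t : ℝ) ≤ (1 + κ) * ((C + L + 1) / κ * ((1 + κ) ^ t - 1)) :=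
      mul_le_mul_of_nonneg_left ih (by linarith)
    have h4 : (C + L + 1) / κ * ((1 + κ) ^ (t + 1) - 1) =
        (1 + κ) * ((C + L + 1) / κ * ((1 + κ) ^ t - 1)) + (C + L + 1) := by
      field_simp
      ring
    linarith

theorem ends_mono {κ C : ℝ} (hκ : 0 < κ) (hC : 0 ≤ C) (L : ℕ) : Monotone (ends κ C L) := by
  refine monotone_nat_of_le_succ fun t => ?_
  rw [ends]
  have h1 : ends κ C L t ≤ ⌈(1 + κ) * (ends κ C L t) + C⌉₊ := by
    have h2 : (ends κ C L t : ℝ) ≤ (1 + κ) * (ends κ C L t) + C := by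
      have : (0 : ℝ) ≤ κ * (ends κ C L t) := by positivity
      linarith
    exact_mod_cast h2.trans (Nat.le_ceil _)
  omega

/-- occurrences in disjoint blocks -/
theorem blocks {E j : ℕ → ℕ} {L H T : ℕ} (hE : Monotone E) (h1 : ∀ t, E t ≤ j t)
    (h2 : ∀ t, j t + L ≤ E (t + 1)) (P : ℕ → Prop) [DecidablePred P] (G : Finset ℕ)
    (hG : G ⊆ range T) (h3 : ∀ t ∈ G, H ≤ ((Ico (j t) (j t + L)).filter P).card) {N : ℕ}
    (hN : E T ≤ N) : G.card * H ≤ ((range N).filter P).card := by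
  classical
  have hdis : (G : Set ℕ).PairwiseDisjoint fun t => (Ico (j t) (j t + L)).filter P := by
    have key : ∀ s t : ℕ, s < t → Disjoint ((Ico (j s) (j s + L)).filter P)
        ((Ico (j t) (j t + L)).filter P) := by
      intro s t hst
      rw [Finset.disjoint_left]
      intro i hi hi'
      rw [mem_filter, mem_Ico] at hi hi'
      have a1 := h2 s
      have a2 := hE (Nat.succ_le_of_lt hst)
      have a3 := h1 t
      have a4 : E (s + 1) ≤ E t := a2
      omega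
    intro s _ t _ hst
    rcases lt_or_gt_of_ne hst with h | h
    · exact key s t h
    · exact (key t s h).symm
  have hc : (G.biUnion fun t => (Ico (j t) (j t + L)).filter P).card =
      ∑ t ∈ G, ((Ico (j t) (j t + L)).filter P).card := card_biUnion hdis
  have hs : (G.biUnion fun t => (Ico (j t) (j t + L)).filter P) ⊆ (range N).filter P := by
    intro i hi
    rw [mem_biUnion] at hi
    obtain ⟨t, ht, hi⟩ := hi
    rw [mem_filter, mem_Ico] at hi
    rw [mem_filter, mem_range]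
    refine ⟨?_, hi.2⟩
    have a1 := h2 t
    have a2 : t + 1 ≤ T := mem_range.1 (hG ht)
    have a3 := hE a2
    omega
  calc G.card * H = G.card • H := (smul_eq_mul _ _).symm
    _ ≤ ∑ t ∈ G, ((Ico (j t) (j t + L)).filter P).card := card_nsmul_le_sum _ _ _ h3
    _ = _ := hc.symm
    _ ≤ _ := card_le_card hs

/-- Markov's inequality for bad windows -/
theorem markov {R T : ℕ} (hT : 1 ≤ T) {δ : ℝ} (P : ℕ → ℕ → Prop)
    [∀ t, DecidablePred (P t)] (h : ∀ t < T, (((range R).filter (P t)).card : ℝ) ≤ δ / 2 * R) :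
    (((range R).filter fun n => T ≤ 2 * ((range T).filter fun t => P t n).card).card : ℝ) ≤
      δ * R := by
  classical
  have e : ∑ n ∈ range R, ((range T).filter fun t => P t n).card =
      ∑ t ∈ range T, ((range R).filter (P t)).card := by
    simp only [card_filter]
    exact sum_comm
  have h1 : ((range R).filter fun n => T ≤ 2 * ((range T).filter fun t => P t n).card).card * T ≤
      2 * ∑ n ∈ range R, ((range T).filter fun t => P t n).card := by
    rw [← smul_eq_mul, mul_sum]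
    refine (card_nsmul_le_sum _ (fun n => 2 * ((range T).filter fun t => P t n).card) _
      fun n hn => (mem_filter.1 hn).2).trans ?_
    exact sum_le_sum_of_subset (filter_subset _ _)
  rw [e] at h1
  have h2 : (∑ t ∈ range T, (((range R).filter (P t)).card : ℝ)) ≤ T * (δ / 2 * R) := by
    have := sum_le_card_nsmul (range T) (fun t => (((range R).filter (P t)).card : ℝ)) (δ / 2 * R)
      fun t ht => h t (mem_range.1 ht)
    rwa [card_range, nsmul_eq_mul] at this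
  have h3 : (((range R).filter fun n => T ≤ 2 * ((range T).filter fun t => P t n).card).card : ℝ) *
      T ≤ 2 * ∑ t ∈ range T, (((range R).filter (P t)).card : ℝ) := by exact_mod_cast h1
  have hT0 : (0 : ℝ) < T := by exact_mod_cast hT
  have h4 : (((range R).filter fun n => T ≤ 2 * ((range T).filter fun t => P t n).card).card : ℝ) *
      T ≤ (δ * R) * T := by
    refine h3.trans ?_
    linarith
  exact le_of_mul_le_mul_right h4 hT0

/-- **Digits of the multiples of a number which is not too well approximable.** -/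
theorem main {κ : ℝ} (hκ : 0 < κ) {b k : ℕ} (hb : 2 ≤ b) (hk : 1 ≤ k) (H₀ : ℝ) {δ : ℝ}
    (hδ : 0 < δ) : ∃ R₀ : ℕ, ∀ c : ℝ, 0 < c → ∃ N₀ : ℕ, ∀ x : ℝ, Bad x κ c →
      ∀ R : ℕ, R₀ ≤ R → ∀ N : ℕ, N₀ ≤ N → ∀ y : ℝ,
        (((range R).filter fun n : ℕ => ∃ W < b ^ k, (((range N).filter fun i : ℕ =>
          ⌊(b : ℝ) ^ (i + k) * (n * x + y)⌋ % ((b : ℤ) ^ k) = (W : ℤ)).card : ℝ) <
            H₀ * Real.log N).card : ℝ) ≤ δ * R := by
  classical
  have hl : 0 < Real.log (1 + κ) := Real.log_pos (by linarith)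
  obtain ⟨H, hH⟩ : ∃ H : ℕ, H = ⌈4 * Real.log (1 + κ) * H₀⌉₊ + 1 := ⟨_, rfl⟩
  have hH1 : 1 ≤ H := by omega
  have hHR : 4 * Real.log (1 + κ) * H₀ ≤ H := by
    rw [hH]
    push_cast
    linarith [Nat.le_ceil (4 * Real.log (1 + κ) * H₀)]
  have hβ : 2 ≤ b ^ k := by
    calc 2 ≤ b := hb
      _ = b ^ 1 := (pow_one b).symm
      _ ≤ b ^ k := Nat.pow_le_pow_right (by omega) hk
  obtain ⟨m, hm, hmδ⟩ := exists_m hβ hH1 hδ
  refine ⟨b * ((b ^ k) ^ (H * m)) ^ 2, fun c hc => ?_⟩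
  obtain ⟨C, hC⟩ : ∃ C, C = max 0 (κ * Real.log (((b ^ k) ^ (H * m) : ℕ) : ℝ) - Real.log c) /
    Real.log 2 := ⟨_, rfl⟩
  have hC0 : 0 ≤ C := by
    rw [hC]
    exact div_nonneg (le_max_left _ _) (Real.log_nonneg (by norm_num))
  obtain ⟨L, hL⟩ : ∃ L, L = k * (H * m) := ⟨_, rfl⟩
  obtain ⟨D, hD⟩ : ∃ D : ℝ, D = (C + L + 1) / κ * (1 + κ) := ⟨_, rfl⟩
  have hD0 : 0 < D := by
    rw [hD]
    positivity
  refine ⟨⌈D ^ 2⌉₊ + 2, fun x hx R hR N hN y => ?_⟩
  have hN2 : 2 ≤ N := by omega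
  have hNR : (2 : ℝ) ≤ N := by exact_mod_cast hN2
  have hN0 : (0 : ℝ) < N := by linarith
  have hND : D ^ 2 ≤ N := by
    refine (Nat.le_ceil _).trans ?_
    have : ⌈D ^ 2⌉₊ ≤ N := by omega
    exact_mod_cast this
  have hlN : 0 < Real.log N := Real.log_pos (by linarith)
  obtain ⟨T, hT⟩ : ∃ T, T = ⌈Real.log N / (2 * Real.log (1 + κ))⌉₊ := ⟨_, rfl⟩
  have hT1 : 1 ≤ T := by
    rw [hT]
    exact Nat.one_le_ceil_iff.2 (by positivity)
  have hTlow : Real.log N / (2 * Real.log (1 + κ)) ≤ T := by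
    rw [hT]
    exact Nat.le_ceil _
  have hTup : (T : ℝ) ≤ Real.log N / (2 * Real.log (1 + κ)) + 1 := by
    rw [hT]
    exact (Nat.ceil_lt_add_one (by positivity)).le
  -- the windows
  have hw := fun t => window hb hk hH1 hm hκ hc hx hmδ (ends κ C L t)
  rw [← hC] at hw
  choose j hj1 hj2 hj3 using hw
  have hj2' : ∀ t, j t + L ≤ ends κ C L (t + 1) := by
    intro t
    rw [ends]
    have : j t ≤ ⌈(1 + κ) * (ends κ C L t) + C⌉₊ := by
      exact_mod_cast (hj2 t).trans (Nat.le_ceil _)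
    omega
  have hET : ends κ C L T ≤ N := by
    have h1 := ends_le hκ hC0 L T
    have h2 : (1 + κ) ^ T ≤ (1 + κ) * Real.sqrt N := by
      rw [← Real.log_le_log_iff (by positivity) (by positivity), Real.log_pow,
        Real.log_mul (by positivity) (Real.sqrt_pos.2 hN0).ne', Real.log_sqrt hN0.le]
      have h3 := mul_le_mul_of_nonneg_right hTup hl.le
      have h4 : (Real.log N / (2 * Real.log (1 + κ)) + 1) * Real.log (1 + κ) =
          Real.log (1 + κ) + Real.log N / 2 := by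
        field_simp
        ring
      linarith
    have h3 : D ≤ Real.sqrt N := Real.le_sqrt_of_sq_le hND
    have h4 : (ends κ C L T : ℝ) ≤ N := by
      calc (ends κ C L T : ℝ) ≤ (C + L + 1) / κ * ((1 + κ) ^ T - 1) := h1
        _ ≤ (C + L + 1) / κ * ((1 + κ) ^ T) := by
            refine mul_le_mul_of_nonneg_left (by linarith) (by positivity)
        _ ≤ (C + L + 1) / κ * ((1 + κ) * Real.sqrt N) :=
            mul_le_mul_of_nonneg_left h2 (by positivity)
        _ = D * Real.sqrt N := by rw [hD]; ring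
        _ ≤ Real.sqrt N * Real.sqrt N := mul_le_mul_of_nonneg_right h3 (Real.sqrt_nonneg _)
        _ = N := Real.mul_self_sqrt hN0.le
    exact_mod_cast h4
  -- bad windows
  have hmk := markov (R := R) hT1 (δ := δ) (fun t n => ⌊(((b ^ k) ^ (H * m) : ℕ) : ℝ) *
    Int.fract ((b : ℝ) ^ (j t) * (n * x + y))⌋₊ ∈ bad (b ^ k) H m) (fun t _ => hj3 t R hR y)
  refine le_trans ?_ hmk
  have hsub : ((range R).filter fun n : ℕ => ∃ W < b ^ k, (((range N).filter fun i : ℕ =>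
          ⌊(b : ℝ) ^ (i + k) * (n * x + y)⌋ % ((b : ℤ) ^ k) = (W : ℤ)).card : ℝ) <
            H₀ * Real.log N) ⊆
      ((range R).filter fun n => T ≤ 2 * ((range T).filter fun t =>
        ⌊(((b ^ k) ^ (H * m) : ℕ) : ℝ) * Int.fract ((b : ℝ) ^ (j t) * (n * x + y))⌋₊ ∈
          bad (b ^ k) H m).card) := by
    intro n hn
    rw [mem_filter] at hn ⊢
    refine ⟨hn.1, ?_⟩
    by_contra hcon
    obtain ⟨W, hW, hlt⟩ := hn.2
    obtain ⟨G, hG⟩ : ∃ G, G = (range T).filter fun t =>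
      ¬ (⌊(((b ^ k) ^ (H * m) : ℕ) : ℝ) * Int.fract ((b : ℝ) ^ (j t) * (n * x + y))⌋₊ ∈
          bad (b ^ k) H m) := ⟨_, rfl⟩
    have hcard := card_filter_add_card_filter_not (s := range T) (fun t =>
      ⌊(((b ^ k) ^ (H * m) : ℕ) : ℝ) * Int.fract ((b : ℝ) ^ (j t) * (n * x + y))⌋₊ ∈
          bad (b ^ k) H m)
    rw [← hG, card_range] at hcard
    have hG2 : T ≤ 2 * G.card := by omega
    have hbl := blocks (E := ends κ C L) (j := j) (L := L) (H := H) (T := T)
      (ends_mono hκ hC0 L) hj1 hj2' (fun i : ℕ =>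
        ⌊(b : ℝ) ^ (i + k) * (n * x + y)⌋ % ((b : ℤ) ^ k) = (W : ℤ)) G
      (by rw [hG]; exact filter_subset _ _)
      (by
        intro t ht
        rw [hG, mem_filter] at ht
        rw [hL]
        exact occ hb hk (n * x + y) (j t) ht.2 hW) hET
    have hblR : (G.card : ℝ) * H ≤ (((range N).filter fun i : ℕ =>
        ⌊(b : ℝ) ^ (i + k) * (n * x + y)⌋ % ((b : ℤ) ^ k) = (W : ℤ)).card : ℝ) := by
      exact_mod_cast hbl
    have hG2R : (T : ℝ) ≤ 2 * G.card := by exact_mod_cast hG2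
    have hH0 : (0 : ℝ) < H := by exact_mod_cast hH1
    have h5 : Real.log N ≤ (2 * Real.log (1 + κ)) * (2 * G.card) := by
      have h6 := hTlow.trans hG2R
      rw [div_le_iff₀ (by positivity)] at h6
      linarith
    have h7 : H₀ * Real.log N ≤ G.card * H := by
      rcases le_or_gt H₀ 0 with hneg | hpos
      · exact (mul_nonpos_of_nonpos_of_nonneg hneg hlN.le).trans (by positivity)
      · calc H₀ * Real.log N ≤ H₀ * ((2 * Real.log (1 + κ)) * (2 * G.card)) :=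
              mul_le_mul_of_nonneg_left h5 hpos.le
          _ = (4 * Real.log (1 + κ) * H₀) * G.card := by ring
          _ ≤ H * G.card := mul_le_mul_of_nonneg_right hHR (Nat.cast_nonneg _)
          _ = G.card * H := mul_comm _ _
    linarith
  exact_mod_cast card_le_card hsub

end Pool.Agent.V1110.Ml
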