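import Mathlib
import Pool.Agent.V1110.MlC

set_option autoImplicit false

/-!
# Digits of the multiples of a number, part D: good positions near the failures of periodicity
-/

namespace Pool.Agent.V1110.Ml

open Finset

/-- the powers of `b` modulo `q ≤ Q` -/
theorem dvd_of_le {b Q q : ℕ} (hb : 1 ≤ b) (hq : 1 ≤ q) (hqQ : q ≤ Q) :
    q ∣ b ^ Q * (b ^ Q.factorial - 1) := by
  have : NeZero q := ⟨by omega⟩
  have key : ∀ i j : ℕ, i < j → j ≤ Q → ((b ^ i : ℕ) : ZMod q) = ((b ^ j : ℕ) : ZMod q) →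
      q ∣ b ^ Q * (b ^ Q.factorial - 1) := by
    intro i j hij hj he
    rw [ZMod.natCast_eq_natCast_iff] at he
    have h1 : q ∣ b ^ j - b ^ i := (Nat.modEq_iff_dvd' (Nat.pow_le_pow_right hb hij.le)).1 he
    have h2 : b ^ j - b ^ i = b ^ i * (b ^ (j - i) - 1) := by
      rw [Nat.mul_sub, mul_one, ← pow_add]
      congr 2
      omega
    rw [h2] at h1
    have h3 : b ^ (j - i) - 1 ∣ b ^ Q.factorial - 1 := by
      obtain ⟨t, ht⟩ := Nat.dvd_factorial (show 0 < j - i by omega) (show j - i ≤ Q by omega)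
      rw [ht, pow_mul]
      have := Nat.sub_dvd_pow_sub_pow (b ^ (j - i)) 1 t
      rwa [one_pow] at this
    exact h1.trans (Nat.mul_dvd_mul (pow_dvd_pow b (by omega)) h3)
  obtain ⟨i, j, hij, he⟩ := Fintype.exists_ne_map_eq_of_card_lt
    (fun i : Fin (Q + 1) => ((b ^ (i : ℕ) : ℕ) : ZMod q)) (by
      rw [ZMod.card, Fintype.card_fin]
      omega)
  rcases lt_or_gt_of_ne (fun h => hij (Fin.ext h) : (i : ℕ) ≠ (j : ℕ)) with h | h
  · exact key i j h (by omega) he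
  · exact key j i h (by omega) he.symm

theorem dvd_of_le' {b Q q : ℕ} (hb : 1 ≤ b) (hq : 1 ≤ q) (hqQ : q ≤ Q) :
    (q : ℤ) ∣ (b : ℤ) ^ Q * ((b : ℤ) ^ Q.factorial - 1) := by
  have h3 : ((b ^ Q * (b ^ Q.factorial - 1) : ℕ) : ℤ) =
      (b : ℤ) ^ Q * ((b : ℤ) ^ Q.factorial - 1) := by
    rw [Nat.cast_mul, Nat.cast_sub (Nat.one_le_pow _ _ hb)]
    push_cast
    ring
  rw [← h3]
  exact_mod_cast dvd_of_le hb hq hqQ

theorem dvd_of_pow {b Q q : ℕ} (hb : 1 ≤ b) (hq : 1 ≤ q) (hqQ : q ≤ Q) {p : ℤ} {i : ℕ}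
    (h : (q : ℤ) ∣ p * (b : ℤ) ^ i) : (q : ℤ) ∣ p * (b : ℤ) ^ Q := by
  have h1 : ∀ t : ℕ, (q : ℤ) ∣ (b : ℤ) ^ (Q + t * Q.factorial) - (b : ℤ) ^ Q := by
    intro t
    induction t with
    | zero => simp
    | succ t ih =>
      have e : (b : ℤ) ^ (Q + (t + 1) * Q.factorial) - (b : ℤ) ^ Q =
          (b : ℤ) ^ (t * Q.factorial) * ((b : ℤ) ^ Q * ((b : ℤ) ^ Q.factorial - 1)) +
          ((b : ℤ) ^ (Q + t * Q.factorial) - (b : ℤ) ^ Q) := by
        rw [show Q + (t + 1) * Q.factorial = Q + t * Q.factorial + Q.factorial by ring, pow_add,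
          pow_add]
        ring
      rw [e]
      exact dvd_add (Dvd.dvd.mul_left (dvd_of_le' hb hq hqQ) _) ih
  have hP : 1 ≤ Q.factorial := Nat.factorial_pos Q
  have hi : i ≤ Q + i * Q.factorial := by
    have : i * 1 ≤ i * Q.factorial := Nat.mul_le_mul_left i hP
    omega
  have h2 : (q : ℤ) ∣ p * (b : ℤ) ^ (Q + i * Q.factorial) := by
    refine h.trans (mul_dvd_mul_left p (pow_dvd_pow _ hi))
  have h3 : (q : ℤ) ∣ p * ((b : ℤ) ^ (Q + i * Q.factorial) - (b : ℤ) ^ Q) :=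
    Dvd.dvd.mul_left (h1 i) p
  have e : p * (b : ℤ) ^ Q = p * (b : ℤ) ^ (Q + i * Q.factorial) -
      p * ((b : ℤ) ^ (Q + i * Q.factorial) - (b : ℤ) ^ Q) := by ring
  rw [e]
  exact dvd_sub h2 h3

/-- a failure of `a_(κ+P) = a_κ`, `P = Q!`, has a good position in its neighbourhood -/
theorem near {b Q : ℕ} (hb : 2 ≤ b) (hQ : 1 ≤ Q) (x : ℝ) (κ : ℕ) (hκ : Q + 1 ≤ κ)
    (hfail : ⌊(b : ℝ) ^ (κ + Q.factorial) * x⌋ % (b : ℤ) ≠ ⌊(b : ℝ) ^ κ * x⌋ % (b : ℤ)) :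
    ∃ j : ℕ, κ ≤ j + (Q + 1) ∧ j ≤ κ + (Q.factorial + Q + 2) ∧
      Good b Q ((b : ℝ) ^ j * x) := by
  by_contra hcon
  push Not at hcon
  apply hfail
  obtain ⟨A, hA⟩ : ∃ A, κ = A + (Q + 1) := ⟨κ - (Q + 1), by omega⟩
  obtain ⟨P, hP⟩ : ∃ P, P = Q.factorial := ⟨_, rfl⟩
  rw [← hP] at hcon ⊢
  obtain ⟨y, hy⟩ : ∃ y, y = (b : ℝ) ^ A * x := ⟨_, rfl⟩
  have hQR : (1 : ℝ) ≤ Q := by exact_mod_cast hQ
  have hQR0 : (0 : ℝ) < Q := by linarith
  have hbR : (2 : ℝ) ≤ b := by exact_mod_cast hb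
  have hbR0 : (0 : ℝ) < b := by linarith
  have hbR1 : (1 : ℝ) ≤ b := by linarith
  obtain ⟨p, q, hq1, hq2, h1⟩ := Real.exists_int_int_abs_mul_sub_le y (n := Q) (by omega)
  obtain ⟨q, rfl⟩ := Int.eq_ofNat_of_zero_le hq1.le
  have hq1' : 1 ≤ q := by exact_mod_cast hq1
  have hq2' : q ≤ Q := by exact_mod_cast hq2
  have hqR : (1 : ℝ) ≤ q := by exact_mod_cast hq1'
  have hqR0 : (0 : ℝ) < q := by linarith
  have hqQR : (q : ℝ) ≤ Q := by exact_mod_cast hq2'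
  have h1' : |(q : ℝ) * y - p| ≤ 1 / (Q + 1) := by exact_mod_cast h1
  have hsmall : ∀ i ≤ P + 2 * Q + 4, |(q : ℝ) * y - p| * (b : ℝ) ^ i < 1 / Q := by
    intro i
    induction i with
    | zero =>
      intro _
      rw [pow_zero, mul_one]
      exact h1'.trans_lt (one_div_lt_one_div_of_lt (by linarith) (by linarith))
    | succ i ih =>
      intro hi
      by_contra hc
      have h2 := ih (by omega)
      refine hcon (A + i) (by omega) (by omega) ?_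
      have e : |(q : ℝ) * ((b : ℝ) ^ (A + i) * x) - ((p * (b : ℤ) ^ i : ℤ) : ℝ)| =
          |(q : ℝ) * y - p| * (b : ℝ) ^ i := by
        have e2 : (q : ℝ) * ((b : ℝ) ^ (A + i) * x) - ((p * (b : ℤ) ^ i : ℤ) : ℝ) =
            (q * y - p) * (b : ℝ) ^ i := by
          rw [hy]
          push_cast
          ring
        rw [e2, abs_mul, abs_of_pos (show (0 : ℝ) < (b : ℝ) ^ i by positivity)]
      refine good_of hQ (by omega) hq1' hq2' (p := p * (b : ℤ) ^ i) ?_ ?_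
      · rw [e]
        have h3 := not_lt.1 hc
        rw [pow_succ, ← mul_assoc, ← div_le_iff₀ hbR0] at h3
        rw [one_div, mul_inv, mul_comm, ← one_div, ← div_eq_mul_inv]
        exact h3
      · rw [e]
        exact h2
  -- the point `z`
  obtain ⟨z, hz⟩ : ∃ z, z = (b : ℝ) ^ κ * x := ⟨_, rfl⟩
  obtain ⟨E, hE⟩ : ∃ E, E = (q : ℝ) * z - p * (b : ℝ) ^ (Q + 1) := ⟨_, rfl⟩
  have hE1 : |E| = |(q : ℝ) * y - p| * (b : ℝ) ^ (Q + 1) := by
    have e2 : E = (q * y - p) * (b : ℝ) ^ (Q + 1) := by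
      rw [hE, hz, hy, hA, pow_add]
      ring
    rw [e2, abs_mul, abs_of_pos (show (0 : ℝ) < (b : ℝ) ^ (Q + 1) by positivity)]
  have hE2 : |E| * (b : ℝ) ^ (P + Q + 3) < 1 / Q := by
    rw [hE1, mul_assoc, ← pow_add]
    have := hsmall (P + 2 * Q + 4) le_rfl
    rwa [show Q + 1 + (P + Q + 3) = P + 2 * Q + 4 by ring]
  have e1 : (b : ℝ) ^ (κ + P) * x = (b : ℝ) ^ P * z := by
    rw [hz, pow_add]
    ring
  rw [e1, ← hz]
  obtain ⟨M, hM⟩ := dvd_of_le' (b := b) (by omega) hq1' hq2'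
  rw [← hP] at hM
  have hMR : (b : ℝ) ^ Q * ((b : ℝ) ^ P - 1) = q * M := by exact_mod_cast hM
  obtain ⟨ε, hε⟩ : ∃ ε, ε = ((b : ℝ) ^ P - 1) * E / q := ⟨_, rfl⟩
  have hbP : (1 : ℝ) ≤ (b : ℝ) ^ P := one_le_pow₀ hbR1
  have e2 : (b : ℝ) ^ P * z = (z + ε) + (((b : ℤ) * (M * p) : ℤ) : ℝ) := by
    have h2 : (q : ℝ) * ((b : ℝ) ^ P * z) = q * ((z + ε) + (((b : ℤ) * (M * p) : ℤ) : ℝ)) := by
      have h3 : (q : ℝ) * ε = ((b : ℝ) ^ P - 1) * E := by
        rw [hε]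
        field_simp
      have h4 : (q : ℝ) * z = E + p * (b : ℝ) ^ (Q + 1) := by
        rw [hE]
        ring
      push_cast
      calc (q : ℝ) * ((b : ℝ) ^ P * z) = q * z + ((b : ℝ) ^ P - 1) * (q * z) := by ring
        _ = q * z + ((b : ℝ) ^ P - 1) * (E + p * (b : ℝ) ^ (Q + 1)) := by rw [h4]
        _ = q * z + ((b : ℝ) ^ P - 1) * E +
            b * p * ((b : ℝ) ^ Q * ((b : ℝ) ^ P - 1)) := by ring
        _ = q * z + q * ε + b * p * (q * M) := by rw [hMR, h3]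
        _ = q * (z + ε + b * (M * p)) := by ring
    exact mul_left_cancel₀ hqR0.ne' h2
  have hε1 : |ε| ≤ |E| * (b : ℝ) ^ P := by
    rw [hε, abs_div, abs_mul, abs_of_pos hqR0, abs_of_nonneg (by linarith : (0 : ℝ) ≤ (b : ℝ) ^ P - 1),
      div_le_iff₀ hqR0]
    have h2 : ((b : ℝ) ^ P - 1) * |E| ≤ |E| * (b : ℝ) ^ P := by
      have := abs_nonneg E
      nlinarith
    refine h2.trans ?_
    exact le_mul_of_one_le_right (mul_nonneg (abs_nonneg _) (by linarith)) hqR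
  have hb3 : (8 : ℝ) ≤ (b : ℝ) ^ (Q + 3) := by
    calc (8 : ℝ) = 2 ^ 3 := by norm_num
      _ ≤ (b : ℝ) ^ 3 := pow_le_pow_left₀ (by norm_num) hbR 3
      _ ≤ (b : ℝ) ^ (Q + 3) := pow_le_pow_right₀ hbR1 (by omega)
  have hEP : |E| * (b : ℝ) ^ P * (8 * Q) < 1 := by
    have h2 : |E| * (b : ℝ) ^ (P + Q + 3) * Q < 1 := by
      rwa [lt_div_iff₀ hQR0] at hE2
    have h3 : |E| * (b : ℝ) ^ P * (8 * Q) ≤ |E| * (b : ℝ) ^ (P + Q + 3) * Q := by
      have e3 : (b : ℝ) ^ (P + Q + 3) = (b : ℝ) ^ P * (b : ℝ) ^ (Q + 3) := by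
        rw [← pow_add]
        congr 1
      rw [e3]
      have h4 : |E| * (b : ℝ) ^ P * Q * 8 ≤ |E| * (b : ℝ) ^ P * Q * (b : ℝ) ^ (Q + 3) :=
        mul_le_mul_of_nonneg_left hb3 (by positivity)
      linarith
    exact h3.trans_lt h2
  by_cases hfl : ⌊z + ε⌋ = ⌊z⌋
  · rw [e2, Int.floor_add_intCast, hfl, Int.add_mul_emod_self_left]
  · -- an integer near `z`
    have hm : ∃ m : ℤ, |z - m| ≤ |ε| := by
      rcases lt_or_gt_of_ne hfl with h | h
      · refine ⟨⌊z⌋, ?_⟩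
        have h2 : z + ε < ⌊z⌋ := Int.floor_lt.1 h
        have h3 := Int.floor_le z
        rw [abs_of_nonneg (by linarith)]
        have := neg_abs_le ε
        linarith
      · refine ⟨⌊z⌋ + 1, ?_⟩
        have h2 : ((⌊z⌋ + 1 : ℤ) : ℝ) ≤ z + ε := Int.le_floor.1 h
        have h3 := Int.lt_floor_add_one z
        rw [abs_of_nonpos (by push_cast; linarith)]
        have := le_abs_self ε
        linarith
    obtain ⟨m, hm⟩ := hm
    have hEle : |E| ≤ |E| * (b : ℝ) ^ P := le_mul_of_one_le_right (abs_nonneg _) hbP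
    have hX : |E| * (b : ℝ) ^ P * Q < 1 / 8 := by linarith
    have hX1 : |E| * (b : ℝ) ^ P ≤ |E| * (b : ℝ) ^ P * Q :=
      le_mul_of_one_le_right (by positivity) hQR
    have hqm : (q : ℤ) * m - p * (b : ℤ) ^ (Q + 1) = 0 := by
      have h2 : |(((q : ℤ) * m - p * (b : ℤ) ^ (Q + 1) : ℤ) : ℝ)| < 1 := by
        have e3 : (((q : ℤ) * m - p * (b : ℤ) ^ (Q + 1) : ℤ) : ℝ) = E - q * (z - m) := by
          rw [hE]
          push_cast
          ring
        rw [e3]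
        have h3 : |(q : ℝ) * (z - m)| ≤ |E| * (b : ℝ) ^ P * Q := by
          rw [abs_mul, abs_of_pos hqR0]
          calc (q : ℝ) * |z - m| ≤ Q * (|E| * (b : ℝ) ^ P) :=
                mul_le_mul hqQR (hm.trans hε1) (abs_nonneg _) hQR0.le
            _ = _ := by ring
        have h4 := abs_sub E (q * (z - m))
        linarith
      have h3 : |(q : ℤ) * m - p * (b : ℤ) ^ (Q + 1)| < 1 := by exact_mod_cast h2
      exact Int.abs_lt_one_iff.1 h3
    have hdvd : (q : ℤ) ∣ p * (b : ℤ) ^ (Q + 1) := ⟨m, by linarith⟩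
    obtain ⟨m', hm'⟩ := dvd_of_pow (b := b) (by omega) hq1' hq2' hdvd
    have hq0Z : (q : ℤ) ≠ 0 := by
      have : q ≠ 0 := by omega
      exact_mod_cast this
    have hmm : m = b * m' := by
      have h2 : (q : ℤ) * m = q * (b * m') := by
        calc (q : ℤ) * m = p * (b : ℤ) ^ (Q + 1) := by linarith
          _ = (p * (b : ℤ) ^ Q) * b := by rw [pow_succ]; ring
          _ = (q * m') * b := by rw [hm']
          _ = q * (b * m') := by ring
      exact mul_left_cancel₀ hq0Z h2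
    have hqmR : (q : ℝ) * m = p * (b : ℝ) ^ (Q + 1) := by
      have h2 : (q : ℤ) * m = p * (b : ℤ) ^ (Q + 1) := by linarith
      exact_mod_cast h2
    obtain ⟨η, hη⟩ : ∃ η, η = E / q := ⟨_, rfl⟩
    have hzη : z = η + m := by
      have h2 : (q : ℝ) * z = q * (η + m) := by
        have h3 : (q : ℝ) * η = E := by
          rw [hη]
          field_simp
        rw [mul_add, h3, hqmR, hE]
        ring
      exact mul_left_cancel₀ hqR0.ne' h2
    have hη1 : |η| ≤ |E| := by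
      rw [hη, abs_div, abs_of_pos hqR0]
      exact div_le_self (abs_nonneg _) hqR
    have hη2 : |(b : ℝ) ^ P * η| < 1 := by
      rw [abs_mul, abs_of_pos (by linarith : (0 : ℝ) < (b : ℝ) ^ P)]
      have h2 : (b : ℝ) ^ P * |η| ≤ |E| * (b : ℝ) ^ P := by
        rw [mul_comm]
        exact mul_le_mul_of_nonneg_right hη1 (by linarith)
      linarith
    have hη3 : |η| < 1 := by linarith
    have e4 : (b : ℝ) ^ P * z = (b : ℝ) ^ P * η + (((b : ℤ) * ((b : ℤ) ^ P * m') : ℤ) : ℝ) := by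
      rw [hzη, hmm]
      push_cast
      ring
    have e5 : z = η + (((b : ℤ) * m' : ℤ) : ℝ) := by rw [hzη, hmm]
    rw [e4, Int.floor_add_intCast, Int.add_mul_emod_self_left]
    conv_rhs => rw [e5]
    rw [Int.floor_add_intCast, Int.add_mul_emod_self_left]
    congr 1
    rcases le_or_gt 0 η with h | h
    · have h2 : ⌊η⌋ = 0 := Int.floor_eq_zero_iff.2 ⟨h, (abs_lt.1 hη3).2⟩
      have h3 : ⌊(b : ℝ) ^ P * η⌋ = 0 :=
        Int.floor_eq_zero_iff.2 ⟨mul_nonneg (by linarith) h, (abs_lt.1 hη2).2⟩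
      rw [h2, h3]
    · have h2 : ⌊η⌋ = -1 := by
        rw [Int.floor_eq_iff]
        push_cast
        exact ⟨(abs_lt.1 hη3).1.le, by linarith⟩
      have h3 : ⌊(b : ℝ) ^ P * η⌋ = -1 := by
        rw [Int.floor_eq_iff]
        push_cast
        refine ⟨(abs_lt.1 hη2).1.le, ?_⟩
        have : (b : ℝ) ^ P * η < 0 := mul_neg_of_pos_of_neg (by linarith) h
        linarith
      rw [h2, h3]

end Pool.Agent.V1110.Ml
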