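import Mathlib
import Pool.Agent.V1110.MlD

set_option autoImplicit false

/-!
# Digits of the multiples of a number, part E: counting by the failures of periodicity
-/

namespace Pool.Agent.V1110.Ml

open Finset

/-- the number of the failures of `a_(κ+P) = a_κ`, `1 ≤ κ ≤ N`, for the base-`b` digits of `x` -/
noncomputable def fails (b P : ℕ) (x : ℝ) (N : ℕ) : ℕ :=
  ((Icc 1 N).filter fun κ : ℕ =>
    ⌊(b : ℝ) ^ (κ + P) * x⌋ % (b : ℤ) ≠ ⌊(b : ℝ) ^ κ * x⌋ % (b : ℤ)).card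

/-- good positions are frequent if the failures of periodicity are -/
theorem fails_le {b Q : ℕ} (hb : 2 ≤ b) (hQ : 1 ≤ Q) (x : ℝ) (N L : ℕ) (J : Finset ℕ)
    (hJ : ∀ j, j < N - L → Good b Q ((b : ℝ) ^ j * x) → j ∈ J) :
    fails b Q.factorial x N ≤ (L + Q.factorial + 2 * Q + 3) + (Q.factorial + 2 * Q + 4) * J.card := by
  classical
  obtain ⟨P, hP⟩ : ∃ P, P = Q.factorial := ⟨_, rfl⟩
  unfold fails
  rw [← hP]
  obtain ⟨F, hF⟩ : ∃ F, F = (Icc 1 N).filter fun κ : ℕ =>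
    ⌊(b : ℝ) ^ (κ + P) * x⌋ % (b : ℤ) ≠ ⌊(b : ℝ) ^ κ * x⌋ % (b : ℤ) := ⟨_, rfl⟩
  rw [← hF]
  obtain ⟨F1, hF1⟩ : ∃ F1, F1 = F.filter fun κ => Q + 1 ≤ κ ∧ κ + (P + Q + 2) < N - L := ⟨_, rfl⟩
  have hsub : F ⊆ (Icc 1 Q ∪ Ioc (N - (L + P + Q + 3)) N) ∪ F1 := by
    intro κ hκ
    rw [mem_union, mem_union, mem_Icc, mem_Ioc]
    by_cases h : Q + 1 ≤ κ ∧ κ + (P + Q + 2) < N - L
    · right
      rw [hF1, mem_filter]
      exact ⟨hκ, h⟩
    · left
      rw [hF, mem_filter, mem_Icc] at hκ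
      have := hκ.1
      omega
  have hcF1 : F1.card ≤ (P + 2 * Q + 4) * J.card := by
    have hex : ∀ κ : ℕ, κ ∈ F1 → ∃ j : ℕ, κ ≤ j + (Q + 1) ∧ j ≤ κ + (P + Q + 2) ∧ j ∈ J := by
      intro κ hκ
      rw [hF1, mem_filter, hF, mem_filter] at hκ
      obtain ⟨⟨h1, h2⟩, h3, h4⟩ := hκ
      rw [hP] at h2
      obtain ⟨j, hj1, hj2, hj3⟩ := near hb hQ x κ h3 h2
      rw [← hP] at hj2
      exact ⟨j, hj1, hj2, hJ j (by omega) hj3⟩
    obtain ⟨f, hf⟩ : ∃ f : ℕ → ℕ, ∀ κ ∈ F1, κ ≤ f κ + (Q + 1) ∧ f κ ≤ κ + (P + Q + 2) ∧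
        f κ ∈ J := by
      refine ⟨fun κ => if h : κ ∈ F1 then (hex κ h).choose else 0, fun κ hκ => ?_⟩
      simp only [hκ, dif_pos]
      exact (hex κ hκ).choose_spec
    refine card_le_mul_card_image_of_maps_to (f := f) (t := J) (fun κ hκ => (hf κ hκ).2.2) _ ?_
    intro j _
    have hs : (F1.filter fun κ => f κ = j) ⊆ Icc (j - (P + Q + 2)) (j + (Q + 1)) := by
      intro κ hκ
      rw [mem_filter] at hκ
      have h1 := hf κ hκ.1
      rw [hκ.2] at h1
      rw [mem_Icc]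
      omega
    refine (card_le_card hs).trans ?_
    rw [Nat.card_Icc]
    omega
  calc F.card ≤ ((Icc 1 Q ∪ Ioc (N - (L + P + Q + 3)) N) ∪ F1).card := card_le_card hsub
    _ ≤ (Icc 1 Q ∪ Ioc (N - (L + P + Q + 3)) N).card + F1.card := card_union_le _ _
    _ ≤ ((Icc 1 Q).card + (Ioc (N - (L + P + Q + 3)) N).card) + F1.card :=
        Nat.add_le_add_right (card_union_le _ _) _
    _ ≤ (Q + (L + P + Q + 3)) + (P + 2 * Q + 4) * J.card := by
        rw [Nat.card_Icc, Nat.card_Ioc]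
        omega
    _ = _ := by ring

/-- Markov's inequality for the bad windows, second form -/
theorem markov' {R : ℕ} {δ : ℝ} (J : Finset ℕ) (hJ : J.Nonempty) (P : ℕ → ℕ → Prop)
    [∀ t, DecidablePred (P t)] (h : ∀ t ∈ J, (((range R).filter (P t)).card : ℝ) ≤ δ / 2 * R) :
    (((range R).filter fun n => J.card ≤ 2 * (J.filter fun t => P t n).card).card : ℝ) ≤
      δ * R := by
  classical
  have e : ∑ n ∈ range R, (J.filter fun t => P t n).card =
      ∑ t ∈ J, ((range R).filter (P t)).card := by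
    simp only [card_filter]
    exact sum_comm
  have h1 : ((range R).filter fun n => J.card ≤ 2 * (J.filter fun t => P t n).card).card *
      J.card ≤ 2 * ∑ n ∈ range R, (J.filter fun t => P t n).card := by
    rw [← smul_eq_mul, mul_sum]
    refine (card_nsmul_le_sum _ (fun n => 2 * (J.filter fun t => P t n).card) _
      fun n hn => (mem_filter.1 hn).2).trans ?_
    exact sum_le_sum_of_subset (filter_subset _ _)
  rw [e] at h1
  have h2 : (∑ t ∈ J, (((range R).filter (P t)).card : ℝ)) ≤ J.card * (δ / 2 * R) := by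
    have := sum_le_card_nsmul J (fun t => (((range R).filter (P t)).card : ℝ)) (δ / 2 * R)
      fun t ht => h t ht
    rwa [nsmul_eq_mul] at this
  have h3 : (((range R).filter fun n => J.card ≤ 2 * (J.filter fun t => P t n).card).card : ℝ) *
      J.card ≤ 2 * ∑ t ∈ J, (((range R).filter (P t)).card : ℝ) := by exact_mod_cast h1
  have hT0 : (0 : ℝ) < J.card := by exact_mod_cast hJ.card_pos
  have h4 : (((range R).filter fun n => J.card ≤ 2 * (J.filter fun t => P t n).card).card : ℝ) *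
      J.card ≤ (δ * R) * J.card := by
    refine h3.trans ?_
    linarith
  exact le_of_mul_le_mul_right h4 hT0

/-- **Words in almost all multiples and failures of periodicity.** -/
theorem main2 {b k : ℕ} (hb : 2 ≤ b) (hk : 1 ≤ k) {δ : ℝ} (hδ : 0 < δ) :
    ∃ R₀ P C : ℕ, 1 ≤ P ∧ 1 ≤ C ∧ ∀ (x y : ℝ) (N R : ℕ), R₀ ≤ R →
      (((range R).filter fun n : ℕ => ∃ W < b ^ k, C * (((range N).filter fun i : ℕ =>
        ⌊(b : ℝ) ^ (i + k) * (n * x + y)⌋ % ((b : ℤ) ^ k) = (W : ℤ)).card + 1) <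
          fails b P x N).card : ℝ) ≤ δ * R := by
  classical
  have hβ : 2 ≤ b ^ k := by
    calc 2 ≤ b := hb
      _ = b ^ 1 := (pow_one b).symm
      _ ≤ b ^ k := Nat.pow_le_pow_right (by omega) hk
  obtain ⟨m, hm, hmδ⟩ := exists_m hβ (le_refl 1) hδ
  obtain ⟨Q, hQ⟩ : ∃ Q, Q = (b ^ k) ^ (1 * m) := ⟨_, rfl⟩
  have hQ2 : 2 ≤ Q := by
    rw [hQ]
    calc 2 ≤ b ^ k := hβ
      _ = (b ^ k) ^ 1 := (pow_one _).symm
      _ ≤ (b ^ k) ^ (1 * m) := Nat.pow_le_pow_right (by omega) (by omega)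
  obtain ⟨L, hL⟩ : ∃ L, L = k * (1 * m) := ⟨_, rfl⟩
  have hL1 : 1 ≤ L := by
    rw [hL, one_mul]
    exact Nat.mul_pos hk hm
  obtain ⟨C1, hC1⟩ : ∃ C1, C1 = L + Q.factorial + 2 * Q + 3 := ⟨_, rfl⟩
  obtain ⟨C2, hC2⟩ : ∃ C2, C2 = Q.factorial + 2 * Q + 4 := ⟨_, rfl⟩
  refine ⟨b * Q ^ 2, Q.factorial, C1 + 2 * C2 * L, Nat.factorial_pos Q, by omega,
    fun x y N R hR => ?_⟩
  obtain ⟨J, hJ⟩ : ∃ J, J = (range (N - L)).filter fun j => Good b Q ((b : ℝ) ^ j * x) := ⟨_, rfl⟩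
  have hfail := fails_le hb (show 1 ≤ Q by omega) x N L J (fun j hj hg => by
    rw [hJ, mem_filter, mem_range]
    exact ⟨hj, hg⟩)
  rw [← hC1, ← hC2] at hfail
  rcases J.eq_empty_or_nonempty with hempty | hne
  · have h0 : ((range R).filter fun n : ℕ => ∃ W < b ^ k,
        (C1 + 2 * C2 * L) * (((range N).filter fun i : ℕ =>
        ⌊(b : ℝ) ^ (i + k) * (n * x + y)⌋ % ((b : ℤ) ^ k) = (W : ℤ)).card + 1) <
          fails b Q.factorial x N) = ∅ := by
      rw [filter_eq_empty_iff]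
      rintro n _ ⟨W, _, hlt⟩
      rw [hempty, card_empty, mul_zero, add_zero] at hfail
      have h1 : C1 ≤ (C1 + 2 * C2 * L) * (((range N).filter fun i : ℕ =>
        ⌊(b : ℝ) ^ (i + k) * (n * x + y)⌋ % ((b : ℤ) ^ k) = (W : ℤ)).card + 1) := by
        calc C1 ≤ C1 + 2 * C2 * L := Nat.le_add_right _ _
          _ = (C1 + 2 * C2 * L) * 1 := (mul_one _).symm
          _ ≤ _ := Nat.mul_le_mul_left _ (Nat.le_add_left _ _)
      omega
    rw [h0, card_empty, Nat.cast_zero]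
    positivity
  · have hwin : ∀ j ∈ J, (((range R).filter fun n : ℕ => ⌊((Q : ℕ) : ℝ) *
        Int.fract ((b : ℝ) ^ j * (n * x + y))⌋₊ ∈ bad (b ^ k) 1 m).card : ℝ) ≤ δ / 2 * R := by
      intro j hj
      rw [hJ, mem_filter] at hj
      have h := count_set hQ2 (by omega) hj.2 ((b : ℝ) ^ j * y) (show 1 ≤ Q by omega)
        le_rfl hR (bad (b ^ k) 1 m)
      have h2 := hmδ R
      rw [← hQ] at h2
      refine le_trans (le_of_eq ?_) (h.trans h2)
      congr 2
      ext n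
      have e : (n : ℝ) * ((b : ℝ) ^ j * x) + (b : ℝ) ^ j * y = (b : ℝ) ^ j * (n * x + y) := by ring
      simp only [mem_filter]
      rw [e]
    have hmk := markov' (R := R) (δ := δ) J hne (fun j n => ⌊((Q : ℕ) : ℝ) *
      Int.fract ((b : ℝ) ^ j * (n * x + y))⌋₊ ∈ bad (b ^ k) 1 m) hwin
    refine le_trans ?_ hmk
    have hsub : ((range R).filter fun n : ℕ => ∃ W < b ^ k,
        (C1 + 2 * C2 * L) * (((range N).filter fun i : ℕ =>
        ⌊(b : ℝ) ^ (i + k) * (n * x + y)⌋ % ((b : ℤ) ^ k) = (W : ℤ)).card + 1) <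
          fails b Q.factorial x N) ⊆
        ((range R).filter fun n => J.card ≤ 2 * (J.filter fun j => ⌊((Q : ℕ) : ℝ) *
          Int.fract ((b : ℝ) ^ j * (n * x + y))⌋₊ ∈ bad (b ^ k) 1 m).card) := by
      intro n hn
      rw [mem_filter] at hn ⊢
      refine ⟨hn.1, ?_⟩
      by_contra hcon
      obtain ⟨W, hW, hlt⟩ := hn.2
      obtain ⟨G, hG⟩ : ∃ G, G = J.filter fun j => ¬ (⌊((Q : ℕ) : ℝ) *
          Int.fract ((b : ℝ) ^ j * (n * x + y))⌋₊ ∈ bad (b ^ k) 1 m) := ⟨_, rfl⟩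
      have hcard := card_filter_add_card_filter_not (s := J) (fun j => ⌊((Q : ℕ) : ℝ) *
          Int.fract ((b : ℝ) ^ j * (n * x + y))⌋₊ ∈ bad (b ^ k) 1 m)
      rw [← hG] at hcard
      have hG2 : J.card ≤ 2 * G.card := by omega
      obtain ⟨O, hO⟩ : ∃ O, O = (range N).filter fun i : ℕ =>
        ⌊(b : ℝ) ^ (i + k) * (n * x + y)⌋ % ((b : ℤ) ^ k) = (W : ℤ) := ⟨_, rfl⟩
      rw [← hO] at hlt
      have hex : ∀ j : ℕ, j ∈ G → ∃ i ∈ O, j ≤ i ∧ i < j + L := by
        intro j hj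
        rw [hG, mem_filter, hJ, mem_filter, mem_range] at hj
        obtain ⟨⟨h1, -⟩, h3⟩ := hj
        rw [hQ] at h3
        have h4 := occ hb hk (n * x + y) j h3 hW
        obtain ⟨i, hi⟩ := card_pos.1 (lt_of_lt_of_le Nat.one_pos h4)
        rw [mem_filter, mem_Ico, ← hL] at hi
        refine ⟨i, ?_, hi.1.1, hi.1.2⟩
        rw [hO, mem_filter, mem_range]
        exact ⟨by omega, hi.2⟩
      obtain ⟨f, hf⟩ : ∃ f : ℕ → ℕ, ∀ j ∈ G, f j ∈ O ∧ j ≤ f j ∧ f j < j + L := by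
        refine ⟨fun j => if h : j ∈ G then (hex j h).choose else 0, fun j hj => ?_⟩
        simp only [hj, dif_pos]
        exact (hex j hj).choose_spec
      have hGO : G.card ≤ L * O.card := by
        refine card_le_mul_card_image_of_maps_to (f := f) (t := O) (fun j hj => (hf j hj).1) _ ?_
        intro i _
        have hs' : (G.filter fun j => f j = i) ⊆ Icc (i + 1 - L) i := by
          intro j hj
          rw [mem_filter] at hj
          have h1 := hf j hj.1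
          rw [hj.2] at h1
          rw [mem_Icc]
          omega
        refine (card_le_card hs').trans ?_
        rw [Nat.card_Icc]
        omega
      have h5 : C1 + C2 * J.card ≤ (C1 + 2 * C2 * L) * (O.card + 1) := by
        calc C1 + C2 * J.card ≤ C1 + C2 * (2 * (L * O.card)) :=
              Nat.add_le_add_left (Nat.mul_le_mul_left _
                (hG2.trans (Nat.mul_le_mul_left 2 hGO))) _
          _ ≤ (C1 + C2 * (2 * (L * O.card))) + (C1 * O.card + 2 * C2 * L) :=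
              Nat.le_add_right _ _
          _ = (C1 + 2 * C2 * L) * (O.card + 1) := by ring
      omega
    exact_mod_cast card_le_card hsub

end Pool.Agent.V1110.Ml
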