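import Mathlib
import Pool.Agent.V1110.MlE
import Pool.Agent.Results.MP_b08cb4_nt.WindowRelations

set_option autoImplicit false

/-!
# Digits of the multiples of `p ^ n`
-/

namespace Pool.Agent.V1110.Ml

open Finset
open Pool.Agent.Results.MP_b08cb4_nt.WindowRelations

theorem floor_nat {q : ℕ} (hq : 1 ≤ q) (a D h : ℕ) (hh : h ≤ D) :
    ⌊(q : ℝ) ^ h * ((a : ℝ) / (q : ℝ) ^ D)⌋ = ((a / q ^ (D - h) : ℕ) : ℤ) := by
  have hqR : (0 : ℝ) < q := by exact_mod_cast hq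
  have e : (q : ℝ) ^ h * ((a : ℝ) / (q : ℝ) ^ D) = (a : ℝ) / ((q ^ (D - h) : ℕ) : ℝ) := by
    have h1 : (q : ℝ) ^ D = (q : ℝ) ^ h * (q : ℝ) ^ (D - h) := by
      rw [← pow_add]
      congr 1
      omega
    rw [h1]
    push_cast
    field_simp
  rw [e, Int.floor_div_natCast, Int.floor_natCast]
  push_cast
  rfl

/-- failures of periodicity in long windows of the digits of `p ^ n` -/
theorem exists_failure {p q : ℕ} (hp : 2 ≤ p) (hq : 2 ≤ q) (hpq : p.Coprime q) {P : ℕ}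
    (hP : 1 ≤ P) {ε : ℝ} (hε : 0 < ε) :
    ∃ C : ℝ, 0 ≤ C ∧ ∀ n D u l : ℕ, D = Nat.log q (p ^ n) + 1 → u + l ≤ D → ε * n + C < l →
      ∃ κ : ℕ, u < κ ∧ κ + P ≤ u + l ∧
        ⌊(q : ℝ) ^ (κ + P) * (((p ^ n : ℕ) : ℝ) / (q : ℝ) ^ D)⌋ % (q : ℤ) ≠
          ⌊(q : ℝ) ^ κ * (((p ^ n : ℕ) : ℝ) / (q : ℝ) ^ D)⌋ % (q : ℤ) := by
  obtain ⟨C, hC, h⟩ := lower p q 1 hp hq hpq le_rfl (ε / 2) (by positivity)
  refine ⟨2 * C + 2 * P, by positivity, fun n D u l hD hul hl => ?_⟩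
  by_contra hcon
  push Not at hcon
  have hw : IsWindows q (1 * p ^ n) 1 (fun _ => D - u) l := by
    refine ⟨fun _ => ?_, fun i j hij => absurd (Subsingleton.elim i j) hij⟩
    rw [one_mul, ← hD]
    omega
  have h1 := h n 1 le_rfl (fun _ => D - u) l hw
  have hrel : HasRelation q (1 * p ^ n) 1 (fun _ => D - u) l P := by
    refine ⟨fun j => if j = 0 then -1 else if j = P then 1 else 0, ⟨0, Nat.zero_le _, by norm_num⟩,
      fun _ i hi1 hi2 => ?_⟩
    have h2 := hcon (u + i) (by omega) (by omega)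
    rw [floor_nat (by omega) _ _ _ (by omega), floor_nat (by omega) _ _ _ (by omega)] at h2
    have h3 : digit q (1 * p ^ n) (D - u - (i + P)) = digit q (1 * p ^ n) (D - u - i) := by
      unfold digit
      rw [one_mul]
      have e1 : D - u - (i + P) = D - (u + i + P) := by omega
      have e2 : D - u - i = D - (u + i) := by omega
      rw [e1, e2]
      exact_mod_cast h2
    show ∑ j ∈ range (P + 1), (if j = 0 then (-1 : ℚ) else if j = P then 1 else 0) *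
      (digit q (1 * p ^ n) (D - u - (i + j)) : ℚ) = 0
    rw [sum_range_succ, if_neg (show ¬ P = 0 by omega), if_pos rfl, one_mul,
      sum_eq_single_of_mem 0 (mem_range.2 hP)]
    · rw [one_mul] at h3
      rw [if_pos rfl, Nat.add_zero, h3]
      ring
    · intro j hj hj0
      rw [mem_range] at hj
      rw [if_neg hj0, if_neg (show ¬ j = P by omega), zero_mul]
  have h2 : jointOrder q (1 * p ^ n) 1 (fun _ => D - u) l ≤ P := Nat.sInf_le hrel
  have h3 : (jointOrder q (1 * p ^ n) 1 (fun _ => D - u) l : ℝ) ≤ P := by exact_mod_cast h2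
  rw [Nat.cast_one, Real.log_one] at h1
  linarith

/-- the number of digits -/
theorem digits_bounds {p q : ℕ} (hp : 2 ≤ p) (hq : 2 ≤ q) (n : ℕ) :
    Real.log p / Real.log q * n ≤ ((Nat.log q (p ^ n) + 1 : ℕ) : ℝ) ∧
      ((Nat.log q (p ^ n) + 1 : ℕ) : ℝ) ≤ Real.log p / Real.log q * n + 1 := by
  have hqR : (2 : ℝ) ≤ q := by exact_mod_cast hq
  have hpR : (2 : ℝ) ≤ p := by exact_mod_cast hp
  have hlq : 0 < Real.log q := Real.log_pos (by linarith)
  have hpn : 0 < p ^ n := pow_pos (by omega) n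
  constructor
  · have h1 : p ^ n < q ^ (Nat.log q (p ^ n) + 1) := Nat.lt_pow_succ_log_self (by omega) _
    have h2 : (p : ℝ) ^ n < (q : ℝ) ^ (Nat.log q (p ^ n) + 1) := by exact_mod_cast h1
    have h3 := Real.log_lt_log (by positivity) h2
    rw [Real.log_pow, Real.log_pow] at h3
    rw [div_mul_eq_mul_div, div_le_iff₀ hlq]
    linarith
  · have h1 : q ^ (Nat.log q (p ^ n)) ≤ p ^ n := Nat.pow_log_le_self _ hpn.ne'
    have h2 : (q : ℝ) ^ (Nat.log q (p ^ n)) ≤ (p : ℝ) ^ n := by exact_mod_cast h1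
    have h3 := Real.log_le_log (by positivity) h2
    rw [Real.log_pow, Real.log_pow] at h3
    push_cast
    have h4 : (Nat.log q (p ^ n) : ℝ) ≤ Real.log p / Real.log q * n := by
      rw [div_mul_eq_mul_div, le_div_iff₀ hlq]
      linarith
    linarith

/-- the number of the failures tends to infinity -/
theorem fails_large {p q : ℕ} (hp : 2 ≤ p) (hq : 2 ≤ q) (hpq : p.Coprime q) {P : ℕ}
    (hP : 1 ≤ P) (K : ℕ) : ∃ n₀ : ℕ, ∀ n : ℕ, n₀ ≤ n →
      K ≤ fails q P (((p ^ n : ℕ) : ℝ) / (q : ℝ) ^ (Nat.log q (p ^ n) + 1))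
        (Nat.log q (p ^ n) + 1) := by
  classical
  have hqR : (2 : ℝ) ≤ q := by exact_mod_cast hq
  have hpR : (2 : ℝ) ≤ p := by exact_mod_cast hp
  have hlq : 0 < Real.log q := Real.log_pos (by linarith)
  have hlp : 0 < Real.log p := Real.log_pos (by linarith)
  obtain ⟨lam, hlam⟩ : ∃ lam, lam = Real.log p / Real.log q := ⟨_, rfl⟩
  have hlam0 : 0 < lam := by rw [hlam]; positivity
  obtain ⟨C, hC, hfail⟩ := exists_failure hp hq hpq hP
    (show (0 : ℝ) < lam / (2 * ((K : ℝ) + 1)) by positivity)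
  refine ⟨⌈2 * ((K : ℝ) + 1) * (C + 1) / lam⌉₊, fun n hn => ?_⟩
  have hn' : 2 * ((K : ℝ) + 1) * (C + 1) / lam ≤ n :=
    (Nat.le_ceil _).trans (by exact_mod_cast hn)
  rw [div_le_iff₀ hlam0] at hn'
  obtain ⟨D, hD⟩ : ∃ D, D = Nat.log q (p ^ n) + 1 := ⟨_, rfl⟩
  obtain ⟨hD1, -⟩ := digits_bounds hp hq n
  rw [← hD, ← hlam] at hD1
  rw [← hD]
  obtain ⟨l, hl⟩ : ∃ l, l = ⌊lam / (2 * ((K : ℝ) + 1)) * n + C⌋₊ + 1 := ⟨_, rfl⟩
  have hl1 : lam / (2 * ((K : ℝ) + 1)) * n + C < l := by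
    rw [hl]
    push_cast
    exact Nat.lt_floor_add_one _
  have hl2 : (l : ℝ) ≤ lam / (2 * ((K : ℝ) + 1)) * n + C + 1 := by
    rw [hl]
    push_cast
    have := Nat.floor_le (show 0 ≤ lam / (2 * ((K : ℝ) + 1)) * n + C by positivity)
    linarith
  have hKl : (K + 1) * l ≤ D := by
    have h1 : ((K : ℝ) + 1) * l ≤ D := by
      calc ((K : ℝ) + 1) * l ≤ ((K : ℝ) + 1) * (lam / (2 * ((K : ℝ) + 1)) * n + C + 1) :=
            mul_le_mul_of_nonneg_left hl2 (by positivity)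
        _ = lam * n / 2 + ((K : ℝ) + 1) * (C + 1) := by
            field_simp
            ring
        _ ≤ lam * n := by linarith
        _ ≤ D := hD1
    exact_mod_cast h1
  have hex : ∀ t : ℕ, t < K → ∃ κ : ℕ, t * l < κ ∧ κ + P ≤ t * l + l ∧
        ⌊(q : ℝ) ^ (κ + P) * (((p ^ n : ℕ) : ℝ) / (q : ℝ) ^ D)⌋ % (q : ℤ) ≠
          ⌊(q : ℝ) ^ κ * (((p ^ n : ℕ) : ℝ) / (q : ℝ) ^ D)⌋ % (q : ℤ) := by
    intro t ht
    refine hfail n D (t * l) l hD ?_ hl1
    calc t * l + l = (t + 1) * l := by ring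
      _ ≤ (K + 1) * l := Nat.mul_le_mul_right _ (by omega)
      _ ≤ D := hKl
  obtain ⟨f, hf⟩ : ∃ f : ℕ → ℕ, ∀ t < K, t * l < f t ∧ f t + P ≤ t * l + l ∧
        ⌊(q : ℝ) ^ (f t + P) * (((p ^ n : ℕ) : ℝ) / (q : ℝ) ^ D)⌋ % (q : ℤ) ≠
          ⌊(q : ℝ) ^ (f t) * (((p ^ n : ℕ) : ℝ) / (q : ℝ) ^ D)⌋ % (q : ℤ) := by
    refine ⟨fun t => if h : t < K then (hex t h).choose else 0, fun t ht => ?_⟩
    simp only [ht, dif_pos]
    exact (hex t ht).choose_spec
  unfold fails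
  calc K = (range K).card := (card_range K).symm
    _ ≤ _ := by
      refine card_le_card_of_injOn f ?_ ?_
      · intro t ht
        rw [mem_coe, mem_range] at ht
        obtain ⟨h1, h2, h3⟩ := hf t ht
        rw [mem_coe, mem_filter, mem_Icc]
        refine ⟨⟨by omega, ?_⟩, h3⟩
        have h4 : t * l + l ≤ (K + 1) * l := by
          calc t * l + l = (t + 1) * l := by ring
            _ ≤ (K + 1) * l := Nat.mul_le_mul_right _ (by omega)
        omega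
      · intro t ht t' ht' he
        rw [mem_coe, mem_range] at ht ht'
        obtain ⟨h1, h2, -⟩ := hf t ht
        obtain ⟨h1', h2', -⟩ := hf t' ht'
        rw [← he] at h1' h2'
        by_contra hne
        rcases lt_or_gt_of_ne hne with h | h
        · have h3 : t * l + l ≤ t' * l := by
            calc t * l + l = (t + 1) * l := by ring
              _ ≤ t' * l := Nat.mul_le_mul_right _ (by omega)
          omega
        · have h3 : t' * l + l ≤ t * l := by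
            calc t' * l + l = (t' + 1) * l := by ring
              _ ≤ t * l := Nat.mul_le_mul_right _ (by omega)
          omega

/-- many occurrences of all words in almost all multiples -/
theorem partA {p q k : ℕ} (hp : 2 ≤ p) (hq : 2 ≤ q) (hpq : p.Coprime q) (hk : 1 ≤ k) {δ : ℝ}
    (hδ : 0 < δ) : ∃ R₀ : ℕ, ∀ K : ℕ, ∃ n₀ : ℕ, ∀ n : ℕ, n₀ ≤ n → ∀ R : ℕ, R₀ ≤ R → ∀ y : ℕ,
      (((range R).filter fun m : ℕ => ∃ W < q ^ k,
        ((range (Nat.log q (p ^ n) + 2)).filter fun h : ℕ => h + k ≤ Nat.log q (p ^ n) + 1 ∧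
          (m * p ^ n + y) / q ^ h % q ^ k = W).card < K).card : ℝ) ≤ δ * R := by
  classical
  obtain ⟨R₀, P, C, hP, hC, h⟩ := main2 hq hk hδ
  refine ⟨R₀, fun K => ?_⟩
  obtain ⟨n₀, hn₀⟩ := fails_large hp hq hpq hP (C * (K + k) + 1)
  refine ⟨n₀, fun n hn R hR y => ?_⟩
  obtain ⟨D, hD⟩ : ∃ D, D = Nat.log q (p ^ n) + 1 := ⟨_, rfl⟩
  have hfl := hn₀ n hn
  rw [← hD] at hfl
  have e2 : Nat.log q (p ^ n) + 2 = D + 1 := by omega
  rw [e2, ← hD]
  refine le_trans ?_ (h (((p ^ n : ℕ) : ℝ) / (q : ℝ) ^ D) ((y : ℝ) / (q : ℝ) ^ D) D R hR)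
  have hsub : ((range R).filter fun m : ℕ => ∃ W < q ^ k,
        ((range (D + 1)).filter fun h : ℕ => h + k ≤ D ∧
          (m * p ^ n + y) / q ^ h % q ^ k = W).card < K) ⊆
      ((range R).filter fun m : ℕ => ∃ W < q ^ k, C * (((range D).filter fun i : ℕ =>
        ⌊(q : ℝ) ^ (i + k) * (m * (((p ^ n : ℕ) : ℝ) / (q : ℝ) ^ D) + (y : ℝ) / (q : ℝ) ^ D)⌋ %
          ((q : ℤ) ^ k) = (W : ℤ)).card + 1) < fails q P (((p ^ n : ℕ) : ℝ) / (q : ℝ) ^ D) D) := by
    intro m hm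
    rw [mem_filter] at hm ⊢
    obtain ⟨hmR, W, hW, hlt⟩ := hm
    refine ⟨hmR, W, hW, ?_⟩
    have hocc : ((range D).filter fun i : ℕ =>
        ⌊(q : ℝ) ^ (i + k) * (m * (((p ^ n : ℕ) : ℝ) / (q : ℝ) ^ D) + (y : ℝ) / (q : ℝ) ^ D)⌋ %
          ((q : ℤ) ^ k) = (W : ℤ)).card ≤ ((range (D + 1)).filter fun h : ℕ => h + k ≤ D ∧
          (m * p ^ n + y) / q ^ h % q ^ k = W).card + k := by
      have hs : ((range D).filter fun i : ℕ =>
        ⌊(q : ℝ) ^ (i + k) * (m * (((p ^ n : ℕ) : ℝ) / (q : ℝ) ^ D) + (y : ℝ) / (q : ℝ) ^ D)⌋ %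
          ((q : ℤ) ^ k) = (W : ℤ)) ⊆ (((range (D + 1)).filter fun h : ℕ => h + k ≤ D ∧
          (m * p ^ n + y) / q ^ h % q ^ k = W).image fun h => D - (h + k)) ∪ Ico (D - k) D := by
        intro i hi
        rw [mem_filter, mem_range] at hi
        obtain ⟨hi1, hi2⟩ := hi
        rw [mem_union, mem_image, mem_Ico]
        by_cases hik : i + k ≤ D
        · left
          refine ⟨D - (i + k), ?_, by omega⟩
          rw [mem_filter, mem_range]
          refine ⟨by omega, by omega, ?_⟩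
          have e1 : (m : ℝ) * (((p ^ n : ℕ) : ℝ) / (q : ℝ) ^ D) + (y : ℝ) / (q : ℝ) ^ D =
              ((m * p ^ n + y : ℕ) : ℝ) / (q : ℝ) ^ D := by
            push_cast
            ring
          rw [e1, floor_nat (by omega) _ _ _ hik] at hi2
          exact_mod_cast hi2
        · right
          omega
      refine (card_le_card hs).trans ((card_union_le _ _).trans ?_)
      refine Nat.add_le_add card_image_le ?_
      rw [Nat.card_Ico]
      omega
    have h5 : C * (((range D).filter fun i : ℕ =>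
        ⌊(q : ℝ) ^ (i + k) * (m * (((p ^ n : ℕ) : ℝ) / (q : ℝ) ^ D) + (y : ℝ) / (q : ℝ) ^ D)⌋ %
          ((q : ℤ) ^ k) = (W : ℤ)).card + 1) ≤ C * (K + k) := Nat.mul_le_mul_left _ (by omega)
    omega
  exact_mod_cast card_le_card hsub

open Classical in
/-- all words in all long windows of almost all multiples -/
theorem partB {p q k : ℕ} (hp : 2 ≤ p) (hq : 2 ≤ q) (hpq : p.Coprime q) (hk : 1 ≤ k) {ε δ : ℝ}
    (hε : 0 < ε) (hδ : 0 < δ) : ∃ R₀ n₀ : ℕ, ∀ n : ℕ, n₀ ≤ n → ∀ R : ℕ, R₀ ≤ R → ∀ y : ℕ,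
      (((range R).filter fun m : ℕ => ∃ u l : ℕ, u + l ≤ Nat.log q (p ^ n) + 1 ∧ ε * n ≤ l ∧
        ∃ W < q ^ k, ∀ i : ℕ, u ≤ i → i + k ≤ u + l →
          (m * p ^ n + y) / q ^ i % q ^ k ≠ W).card : ℝ) ≤ δ * R := by
  classical
  have hqR : (2 : ℝ) ≤ q := by exact_mod_cast hq
  have hpR : (2 : ℝ) ≤ p := by exact_mod_cast hp
  have hlq : 0 < Real.log q := Real.log_pos (by linarith)
  have hlp : 0 < Real.log p := Real.log_pos (by linarith)
  obtain ⟨lam, hlam⟩ : ∃ lam, lam = Real.log p / Real.log q := ⟨_, rfl⟩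
  have hlam0 : 0 < lam := by rw [hlam]; positivity
  obtain ⟨T, hT⟩ : ∃ T : ℕ, T = ⌈4 * (lam + 1) / ε⌉₊ + 1 := ⟨_, rfl⟩
  have hT1 : 1 ≤ T := by omega
  have hTR : (1 : ℝ) ≤ T := by exact_mod_cast hT1
  have hT2 : 4 * (lam + 1) / ε ≤ T := by
    rw [hT]
    push_cast
    linarith [Nat.le_ceil (4 * (lam + 1) / ε)]
  have hβ : 2 ≤ q ^ k := by
    calc 2 ≤ q := hq
      _ = q ^ 1 := (pow_one q).symm
      _ ≤ q ^ k := Nat.pow_le_pow_right (by omega) hk
  obtain ⟨m0, hm0, hmδ⟩ := exists_m hβ (le_refl 1) (show (0 : ℝ) < 2 * δ / T by positivity)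
  obtain ⟨Q, hQ⟩ : ∃ Q, Q = (q ^ k) ^ (1 * m0) := ⟨_, rfl⟩
  have hQ2 : 2 ≤ Q := by
    rw [hQ]
    calc 2 ≤ q ^ k := hβ
      _ = (q ^ k) ^ 1 := (pow_one _).symm
      _ ≤ (q ^ k) ^ (1 * m0) := Nat.pow_le_pow_right (by omega) (by omega)
  obtain ⟨L, hL⟩ : ∃ L, L = k * (1 * m0) := ⟨_, rfl⟩
  obtain ⟨P, hP⟩ : ∃ P, P = Q.factorial := ⟨_, rfl⟩
  have hP1 : 1 ≤ P := by rw [hP]; exact Nat.factorial_pos Q
  obtain ⟨C, hC, hfail⟩ := exists_failure hp hq hpq hP1 (show (0 : ℝ) < ε / 8 by positivity)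
  refine ⟨q * Q ^ 2, ⌈4 / ε⌉₊ + ⌈8 * (C + (2 * Q + L + k + 2 + 1)) / ε⌉₊ + 1,
    fun n hn R hR y => ?_⟩
  have hn1 : (1 : ℝ) ≤ n := by
    have : 1 ≤ n := by omega
    exact_mod_cast this
  have hn2 : 4 / ε ≤ n := by
    refine (Nat.le_ceil _).trans ?_
    have : ⌈4 / ε⌉₊ ≤ n := by omega
    exact_mod_cast this
  have hn3 : 8 * (C + (2 * Q + L + k + 2 + 1)) / ε ≤ n := by
    refine (Nat.le_ceil _).trans ?_
    have : ⌈8 * (C + (2 * Q + L + k + 2 + 1)) / ε⌉₊ ≤ n := by omega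
    exact_mod_cast this
  rw [div_le_iff₀ hε] at hn2 hn3
  obtain ⟨D, hD⟩ : ∃ D, D = Nat.log q (p ^ n) + 1 := ⟨_, rfl⟩
  obtain ⟨-, hD2⟩ := digits_bounds hp hq n
  rw [← hD, ← hlam] at hD2
  rw [← hD]
  obtain ⟨s, hs⟩ : ∃ s, s = ⌊ε * n / 2⌋₊ := ⟨_, rfl⟩
  have hs1 : (s : ℝ) ≤ ε * n / 2 := by
    rw [hs]
    exact Nat.floor_le (by positivity)
  have hs2 : ε * n / 2 - 1 < s := by
    rw [hs]
    exact Nat.sub_one_lt_floor _
  have hs3 : ε * n / 4 ≤ s := by linarith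
  have hs4 : 1 ≤ s := by
    have h1 : (0 : ℝ) < s := by linarith
    have h2 : 0 < s := by exact_mod_cast h1
    omega
  have hDT : D ≤ T * s := by
    have h1 : (D : ℝ) ≤ T * s := by
      calc (D : ℝ) ≤ lam * n + 1 := hD2
        _ ≤ (lam + 1) * n := by linarith
        _ = (4 * (lam + 1) / ε) * (ε * n / 4) := by
            field_simp
        _ ≤ T * (ε * n / 4) := mul_le_mul_of_nonneg_right hT2 (by positivity)
        _ ≤ T * s := mul_le_mul_of_nonneg_left hs3 (by linarith)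
    exact_mod_cast h1
  have hsc : 2 * Q + L + k + 2 ≤ s := by
    have h1 : ((2 * Q + L + k + 2 : ℕ) : ℝ) ≤ s := by
      push_cast
      linarith
    exact_mod_cast h1
  -- a good position in every cell
  have hex : ∀ c : ℕ, (c + 1) * s ≤ D → ∃ j : ℕ, D ≤ j + (c + 1) * s ∧ j + L + k + c * s ≤ D ∧
      Good q Q ((q : ℝ) ^ j * (((p ^ n : ℕ) : ℝ) / (q : ℝ) ^ D)) := by
    intro c hc
    obtain ⟨κ, hκ1, hκ2, hκ3⟩ := hfail n D (D - (c + 1) * s + Q) (s - (2 * Q + L + k + 2)) hD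
      (by
        have h1 : (c + 1) * s = c * s + s := by ring
        omega)
      (by
        rw [Nat.cast_sub hsc]
        push_cast
        linarith)
    rw [hP] at hκ3
    obtain ⟨j, hj1, hj2, hj3⟩ := near hq (show 1 ≤ Q by omega) _ κ (by omega) hκ3
    rw [← hP] at hj2
    refine ⟨j, by omega, ?_, hj3⟩
    have h1 : (c + 1) * s = c * s + s := by ring
    omega
  obtain ⟨f, hf⟩ : ∃ f : ℕ → ℕ, ∀ c : ℕ, (c + 1) * s ≤ D → D ≤ f c + (c + 1) * s ∧
      f c + L + k + c * s ≤ D ∧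
      Good q Q ((q : ℝ) ^ (f c) * (((p ^ n : ℕ) : ℝ) / (q : ℝ) ^ D)) := by
    refine ⟨fun c => if h : (c + 1) * s ≤ D then (hex c h).choose else 0, fun c hc => ?_⟩
    simp only [hc, dif_pos]
    exact (hex c hc).choose_spec
  -- the bad multiples
  obtain ⟨B, hB⟩ : ∃ B : ℕ → Finset ℕ, ∀ c, B c = (range R).filter fun m : ℕ =>
      (c + 1) * s ≤ D ∧ ⌊((Q : ℕ) : ℝ) * Int.fract ((q : ℝ) ^ (f c) *
        (m * (((p ^ n : ℕ) : ℝ) / (q : ℝ) ^ D) + (y : ℝ) / (q : ℝ) ^ D))⌋₊ ∈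
          Ml.bad (q ^ k) 1 m0 := ⟨fun c => _, fun c => rfl⟩
  have hBc : ∀ c, ((B c).card : ℝ) ≤ δ / T * R := by
    intro c
    by_cases hc : (c + 1) * s ≤ D
    · have h := count_set hQ2 (by omega) (hf c hc).2.2 ((q : ℝ) ^ (f c) * ((y : ℝ) / (q : ℝ) ^ D))
        (show 1 ≤ Q by omega) le_rfl hR (Ml.bad (q ^ k) 1 m0)
      have h2 := hmδ R
      rw [← hQ] at h2
      have e3 : 2 * δ / T / 2 * R = δ / T * R := by ring
      rw [e3] at h2
      refine le_trans (le_of_eq ?_) (h.trans h2)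
      rw [hB]
      congr 2
      ext m
      have e : (m : ℝ) * ((q : ℝ) ^ (f c) * (((p ^ n : ℕ) : ℝ) / (q : ℝ) ^ D)) +
          (q : ℝ) ^ (f c) * ((y : ℝ) / (q : ℝ) ^ D) = (q : ℝ) ^ (f c) *
            (m * (((p ^ n : ℕ) : ℝ) / (q : ℝ) ^ D) + (y : ℝ) / (q : ℝ) ^ D) := by ring
      simp only [mem_filter]
      rw [e]
      simp only [hc, true_and]
    · have h0 : B c = ∅ := by
        rw [hB, filter_eq_empty_iff]
        rintro m _ ⟨h1, -⟩
        exact hc h1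
      rw [h0, card_empty, Nat.cast_zero]
      positivity
  have hU : (((range T).biUnion B).card : ℝ) ≤ δ * R := by
    have h1 : (((range T).biUnion B).card : ℝ) ≤ ∑ c ∈ range T, ((B c).card : ℝ) := by
      exact_mod_cast card_biUnion_le
    refine h1.trans ((sum_le_card_nsmul _ _ _ fun c _ => hBc c).trans (le_of_eq ?_))
    rw [card_range, nsmul_eq_mul]
    field_simp
  refine le_trans ?_ hU
  have hsub : ((range R).filter fun m : ℕ => ∃ u l : ℕ, u + l ≤ D ∧ ε * n ≤ l ∧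
        ∃ W < q ^ k, ∀ i : ℕ, u ≤ i → i + k ≤ u + l →
          (m * p ^ n + y) / q ^ i % q ^ k ≠ W) ⊆ (range T).biUnion B := by
    intro m hm
    rw [mem_filter] at hm
    obtain ⟨hmR, u, l, hul, hl, W, hW, hno⟩ := hm
    have h2s : 2 * s ≤ l := by
      have h1 : ((2 * s : ℕ) : ℝ) ≤ l := by
        push_cast
        linarith
      exact_mod_cast h1
    obtain ⟨c, hc⟩ : ∃ c, c = (u + s - 1) / s := ⟨_, rfl⟩
    have hc1 : c * s ≤ u + s - 1 := by
      rw [hc]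
      exact Nat.div_mul_le_self _ _
    have hc2 : u ≤ c * s := by
      have h1 := Nat.div_add_mod (u + s - 1) s
      have h2 := Nat.mod_lt (u + s - 1) (show 0 < s by omega)
      rw [← hc] at h1
      rw [mul_comm] at h1
      omega
    have e1 : (c + 1) * s = c * s + s := by ring
    have hcD : (c + 1) * s ≤ D := by omega
    have hcT : c < T := by
      by_contra hge
      have h1 : T * s ≤ c * s := Nat.mul_le_mul_right _ (not_lt.1 hge)
      omega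
    rw [mem_biUnion]
    refine ⟨c, mem_range.2 hcT, ?_⟩
    rw [hB, mem_filter]
    refine ⟨hmR, hcD, ?_⟩
    by_contra hgood
    obtain ⟨hf1, hf2, -⟩ := hf c hcD
    rw [hQ] at hgood
    have h4 := occ hq hk (m * (((p ^ n : ℕ) : ℝ) / (q : ℝ) ^ D) + (y : ℝ) / (q : ℝ) ^ D) (f c)
      hgood hW
    obtain ⟨i, hi⟩ := card_pos.1 (lt_of_lt_of_le Nat.one_pos h4)
    rw [mem_filter, mem_Ico, ← hL] at hi
    obtain ⟨⟨hi1, hi2⟩, hi3⟩ := hi
    have e2 : (m : ℝ) * (((p ^ n : ℕ) : ℝ) / (q : ℝ) ^ D) + (y : ℝ) / (q : ℝ) ^ D =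
        ((m * p ^ n + y : ℕ) : ℝ) / (q : ℝ) ^ D := by
      push_cast
      ring
    rw [e2, floor_nat (by omega) _ _ _ (by omega)] at hi3
    refine hno (D - (i + k)) (by omega) (by omega) ?_
    exact_mod_cast hi3
  exact_mod_cast card_le_card hsub

end Pool.Agent.V1110.Ml
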