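import Mathlib
import Pool.Agent.V1110.Pld

set_option autoImplicit false

/-!
# The `p`-length of `p`-soluble subgroups of `GL(n, F)`, `F` of characteristic `p`
-/

namespace Pool.Agent.V1110.Pl

open Pool.Agent.W629 Filter Topology

theorem nilp_pow {F : Type} [Field F] {n : ℕ} (M : Matrix (Fin n) (Fin n) F)
    (h : IsNilpotent M) : M ^ n = 0 := by
  have h1 := Matrix.isNilpotent_charpoly_sub_pow_of_isNilpotent h
  have h2 : M.charpoly = Polynomial.X ^ n := by
    have h3 := h1.eq_zero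
    rw [Fintype.card_fin] at h3
    exact sub_eq_zero.1 h3
  have h4 := Matrix.aeval_self_charpoly M
  rw [h2, map_pow, Polynomial.aeval_X] at h4
  exact h4

theorem gl_pow {F : Type} [Field F] {p : ℕ} (hp : p.Prime) [CharP F p] {n : ℕ} (hn : 1 ≤ n)
    (x : GL (Fin n) F) {k : ℕ} (hx : x ^ p ^ k = 1) : x ^ p ^ Nat.clog p n = 1 := by
  have : Fact p.Prime := ⟨hp⟩
  have : Nonempty (Fin n) := ⟨⟨0, hn⟩⟩
  have hM : (x : Matrix (Fin n) (Fin n) F) ^ p ^ k = 1 := by
    have := congrArg Units.val hx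
    rwa [Units.val_pow_eq_pow_val, Units.val_one] at this
  have h1 : ((x : Matrix (Fin n) (Fin n) F) - 1) ^ p ^ k = 0 := by
    rw [sub_pow_char_pow_of_commute _ _ (Commute.one_right _), hM, one_pow, sub_self]
  have h2 := nilp_pow _ ⟨_, h1⟩
  have h3 : ((x : Matrix (Fin n) (Fin n) F) - 1) ^ p ^ Nat.clog p n = 0 :=
    pow_eq_zero_of_le (Nat.le_pow_clog hp.one_lt n) h2
  rw [sub_pow_char_pow_of_commute _ _ (Commute.one_right _), one_pow, sub_eq_zero] at h3
  apply Units.ext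
  rw [Units.val_pow_eq_pow_val, Units.val_one]
  exact h3

theorem not_exceptional {p : ℕ} (hp : p.Prime) (hF : ∀ k : ℕ, p ≠ 2 ^ k + 1) {q : ℕ}
    (hq : q.Prime) {μ : ℕ} (hμ : 1 ≤ μ) {r : ℕ} : q ^ r ≠ p ^ μ - 1 := by
  intro h
  have hp2 : p ≠ 2 := fun h => hF 0 (by rw [h]; norm_num)
  have hp1 : p - 1 ≠ 0 := by have := hp.two_le; omega
  -- `q = 2`
  have hodd : p % 2 = 1 := by
    rcases hp.eq_two_or_odd with h | h
    · exact absurd h hp2
    · exact h
  have hd : p - 1 ∣ p ^ μ - 1 := by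
    have := Nat.sub_dvd_pow_sub_pow p 1 μ
    rwa [one_pow] at this
  have h2 : 2 ∣ q ^ r := by
    rw [h]
    exact (show 2 ∣ p - 1 by omega).trans hd
  have hq2 : q = 2 := ((Nat.prime_dvd_prime_iff_eq Nat.prime_two hq).1
    (Nat.prime_two.dvd_of_dvd_pow h2)).symm
  subst hq2
  apply hF (p - 1).primeFactorsList.length
  have h3 := Nat.eq_prime_pow_of_unique_prime_dvd (n := p - 1) (p := 2) hp1 (by
    intro d hd1 hd2
    have h4 : d ∣ 2 ^ r := by
      rw [h]
      exact hd2.trans hd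
    exact (Nat.prime_dvd_prime_iff_eq hd1 Nat.prime_two).1 (hd1.dvd_of_dvd_pow h4))
  have := hp.one_lt
  omega

theorem maxLength_le {p : ℕ} (hp : p.Prime) (hF : ∀ k : ℕ, p ≠ 2 ^ k + 1) (F : Type) [Field F]
    [Finite F] [CharP F p] {n : ℕ} (hn : 1 ≤ n) : maxLength p F n ≤ Nat.clog p n := by
  refine csSup_le' ?_
  rintro l ⟨H, hH, rfl⟩
  obtain ⟨s, m, hpm, hs⟩ :=
    Nat.exists_eq_pow_mul_and_not_dvd (n := Nat.card H) Nat.card_pos.ne' p hp.ne_one
  have hm : m ≠ 0 := fun h => hpm (h ▸ dvd_zero p)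
  have hexp : ∀ x : H, x ^ (p ^ Nat.clog p n * m) = 1 := by
    intro x
    have h1 : x ^ Nat.card H = 1 := pow_card_eq_one'
    rw [hs, mul_comm, pow_mul] at h1
    have h2 : ((x : GL (Fin n) F) ^ m) ^ p ^ s = 1 := by
      have := congrArg Subtype.val h1
      simpa using this
    have h3 := gl_pow hp hn _ h2
    apply Subtype.ext
    rw [mul_comm, pow_mul]
    simpa using h3
  exact (thmA hp hpm hm (fun q hq _ μ hμ r _ => not_exceptional hp hF hq hμ) _ H hexp
    (hH.psep hp hpm _ H le_rfl hexp)).le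

theorem log_lt {p : ℕ} (hp : p.Prime) (hF : ∀ k : ℕ, p ≠ 2 ^ k + 1) :
    Real.log 2 / Real.log p < 1 := by
  have hp2 : p ≠ 2 := fun h => hF 0 (by rw [h]; norm_num)
  have h2 : 2 < p := lt_of_le_of_ne hp.two_le (Ne.symm hp2)
  have h3 : (2 : ℝ) < p := by exact_mod_cast h2
  rw [div_lt_one (Real.log_pos (by linarith))]
  exact Real.log_lt_log (by norm_num) h3

theorem ratio_lt {p : ℕ} (hp : p.Prime) (hF : ∀ k : ℕ, p ≠ 2 ^ k + 1) (F : Type) [Field F]
    [Finite F] [CharP F p] {c : ℝ} (hc : Real.log 2 / Real.log p < c) :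
    ∀ᶠ n : ℕ in atTop, (maxLength p F n : ℝ) / Real.logb 2 n < c := by
  have hp1 : (1 : ℝ) < p := by exact_mod_cast hp.one_lt
  have hlp : 0 < Real.log p := Real.log_pos hp1
  have hl2 : 0 < Real.log 2 := Real.log_pos (by norm_num)
  have hlim : Tendsto (fun n : ℕ => Real.log 2 / Real.log p + Real.log 2 / Real.log n) atTop
      (𝓝 (Real.log 2 / Real.log p + 0)) := by
    refine tendsto_const_nhds.add ?_
    exact Tendsto.div_atTop tendsto_const_nhds
      (Real.tendsto_log_atTop.comp tendsto_natCast_atTop_atTop)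
  rw [add_zero] at hlim
  filter_upwards [hlim.eventually (gt_mem_nhds hc), eventually_ge_atTop 2] with n h1 hn
  refine lt_of_le_of_lt ?_ h1
  have hn1 : (1 : ℝ) < n := by exact_mod_cast (show 1 < n by omega)
  have hln : 0 < Real.log n := Real.log_pos hn1
  have h2 : (maxLength p F n : ℝ) ≤ Real.log n / Real.log p + 1 := by
    have h3 : (maxLength p F n : ℝ) ≤ Nat.clog p n := by
      exact_mod_cast maxLength_le hp hF F (show 1 ≤ n by omega)
    refine h3.trans ?_
    rw [← Real.natCeil_logb_natCast]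
    exact (Nat.ceil_lt_add_one (Real.logb_nonneg hp1 hn1.le)).le
  have h4 : Real.logb 2 n = Real.log n / Real.log 2 := rfl
  rw [h4, div_le_iff₀ (div_pos hln hl2)]
  refine h2.trans (le_of_eq ?_)
  field_simp

end Pool.Agent.V1110.Pl
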