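import Pool.Agent.V1110.CoreC

/-!
# The syzygies of the trivial module and the tensor powers
-/

set_option autoImplicit false

namespace Pool.Agent.V1110.Core

open CategoryTheory CategoryTheory.MonoidalCategory CategoryTheory.Limits Module LinearMap

section Families

/-- Functions on `Fin n`. -/
abbrev Fn (n : ℕ) : Type := Fin n → kk

/-- Drop the first coordinate. -/
def dropF (n : ℕ) : Fn (n + 1) →ₗ[kk] Fn n where
  toFun u := fun j => u j.succ
  map_add' _ _ := rfl
  map_smul' _ _ := rfl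

/-- Drop the last coordinate. -/
def dropL (n : ℕ) : Fn (n + 1) →ₗ[kk] Fn n where
  toFun u := fun j => u j.castSucc
  map_add' _ _ := rfl
  map_smul' _ _ := rfl

/-- Put a zero in front. -/
def consZ (n : ℕ) : Fn n →ₗ[kk] Fn (n + 1) where
  toFun p := Fin.cons 0 p
  map_add' a b := by
    funext j
    refine Fin.cases ?_ (fun i => ?_) j
    · simp
    · simp
  map_smul' c a := by
    funext j
    refine Fin.cases ?_ (fun i => ?_) j
    · simp
    · simp

/-- Put a zero at the end. -/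
def snocZ (n : ℕ) : Fn n →ₗ[kk] Fn (n + 1) where
  toFun p := Fin.snoc (α := fun _ => kk) p 0
  map_add' a b := by
    funext j
    refine Fin.lastCases ?_ (fun i => ?_) j
    · simp
    · simp
  map_smul' c a := by
    funext j
    refine Fin.lastCases ?_ (fun i => ?_) j
    · simp
    · simp

/-- An operator from the first to the second component. -/
def up {V W : Type} [AddCommGroup V] [Module kk V] [AddCommGroup W] [Module kk W]
    (f : V →ₗ[kk] W) : End kk (V × W) where
  toFun v := (0, f v.1)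
  map_add' _ _ := by simp
  map_smul' _ _ := by simp

theorem up_mul {V W : Type} [AddCommGroup V] [Module kk V] [AddCommGroup W] [Module kk W]
    (f g : V →ₗ[kk] W) : up f * up g = 0 := by
  refine LinearMap.ext fun v => ?_
  show ((0 : V), f 0) = 0
  rw [map_zero]
  rfl

/-- A representation of Kronecker type. -/
noncomputable def kron {V W : Type} [AddCommGroup V] [Module kk V] [AddCommGroup W] [Module kk W]
    (f g : V →ₗ[kk] W) : RR :=
  mkRep (up f) (up g) (up_mul _ _) (up_mul _ _) (by rw [up_mul, up_mul])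

theorem opX_kron {V W : Type} [AddCommGroup V] [Module kk V] [AddCommGroup W] [Module kk W]
    (f g : V →ₗ[kk] W) : opX (kron f g) = up f := opX_mkRep _ _ _ _ _

theorem opY_kron {V W : Type} [AddCommGroup V] [Module kk V] [AddCommGroup W] [Module kk W]
    (f g : V →ₗ[kk] W) : opY (kron f g) = up g := opY_mkRep _ _ _ _ _

/-- The syzygies of the trivial module. -/
noncomputable def WW (n : ℕ) : RR := kron (dropF n) (dropL n)

/-- The cosyzygies of the trivial module. -/
noncomputable def VV (n : ℕ) : RR := kron (consZ n) (snocZ n)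

theorem opX_WW (n : ℕ) : opX (WW n) = up (dropF n) := opX_kron _ _

theorem opY_WW (n : ℕ) : opY (WW n) = up (dropL n) := opY_kron _ _

theorem opX_VV (n : ℕ) : opX (VV n) = up (consZ n) := opX_kron _ _

theorem opY_VV (n : ℕ) : opY (VV n) = up (snocZ n) := opY_kron _ _

instance (n : ℕ) : FiniteDimensional kk (WW n).V :=
  inferInstanceAs (FiniteDimensional kk (Fn (n + 1) × Fn n))

instance (n : ℕ) : FiniteDimensional kk (VV n).V :=
  inferInstanceAs (FiniteDimensional kk (Fn n × Fn (n + 1)))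

theorem finrank_WW (n : ℕ) : finrank kk (WW n).V = 2 * n + 1 := by
  show finrank kk (Fn (n + 1) × Fn n) = _
  rw [Module.finrank_prod, Module.finrank_fintype_fun_eq_card,
    Module.finrank_fintype_fun_eq_card, Fintype.card_fin, Fintype.card_fin]
  ring

theorem finrank_VV (n : ℕ) : finrank kk (VV n).V = 2 * n + 1 := by
  show finrank kk (Fn n × Fn (n + 1)) = _
  rw [Module.finrank_prod, Module.finrank_fintype_fun_eq_card,
    Module.finrank_fintype_fun_eq_card, Fintype.card_fin, Fintype.card_fin]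
  ring

theorem dlt_kron {V W : Type} [AddCommGroup V] [Module kk V] [AddCommGroup W] [Module kk W]
    (f g : V →ₗ[kk] W) : dlt (kron f g) = finrank kk (kron f g).V := by
  rw [dlt, opX_kron, opY_kron]
  have h : range (up f * up g) = ⊥ := by
    rw [up_mul, LinearMap.range_zero]
  have h2 : finrank kk (range (up f * up g)) = 0 := by
    rw [h]
    exact finrank_bot kk _
  have h3 : (finrank kk ↥(range (up f * up g)) : ℤ) = 0 := by exact_mod_cast h2
  show (finrank kk (kron f g).V : ℤ) - 4 * (finrank kk ↥(range (up f * up g)) : ℤ) = _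
  rw [h3]
  ring

theorem dlt_WW (n : ℕ) : dlt (WW n) = 2 * n + 1 := by
  rw [WW, dlt_kron]
  have := finrank_WW n
  rw [WW] at this
  rw [this]
  push_cast
  ring

theorem dlt_VV (n : ℕ) : dlt (VV n) = 2 * n + 1 := by
  rw [VV, dlt_kron]
  have := finrank_VV n
  rw [VV] at this
  rw [this]
  push_cast
  ring

/-- The inclusion of a syzygy. -/
def iW (n : ℕ) : (Fn (n + 2) × Fn (n + 1)) →ₗ[kk]
    (Fn (n + 1) × Fn (n + 1) × Fn (n + 1) × Fn (n + 1)) where
  toFun v := (0, dropL _ v.1, dropF _ v.1, v.2)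
  map_add' _ _ := by simp
  map_smul' _ _ := by simp

/-- The projection to a syzygy. -/
def qW (n : ℕ) : (Fn (n + 1) × Fn (n + 1) × Fn (n + 1) × Fn (n + 1)) →ₗ[kk]
    (Fn (n + 1) × Fn n) where
  toFun v := (v.1, dropF _ v.2.1 + dropL _ v.2.2.1)
  map_add' a b := by
    refine Prod.ext rfl ?_
    simp only [Prod.snd_add, Prod.fst_add, map_add]
    abel
  map_smul' c a := by
    refine Prod.ext rfl ?_
    simp only [Prod.smul_snd, Prod.smul_fst, map_smul, smul_add, RingHom.id_apply]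

theorem link_WW (n : ℕ) : Link (WW (n + 1)) (WW n) := by
  refine ⟨Fr (Fn (n + 1)), mkHom (WW (n + 1)) (Fr (Fn (n + 1))) (iW n) ?_ ?_,
    mkHom (Fr (Fn (n + 1))) (WW n) (qW n) ?_ ?_, fr_good, inferInstance, ?_, ?_, ?_, ?_⟩
  · rw [opX_WW, opX_Fr]
    refine LinearMap.ext fun v => ?_
    show ((0, dropL _ (0 : Fn (n + 2)), dropF _ (0 : Fn (n + 2)), dropF (n + 1) v.1) :
      Fn (n + 1) × Fn (n + 1) × Fn (n + 1) × Fn (n + 1)) = (0, 0, 0, dropF (n + 1) v.1)
    rw [map_zero, map_zero]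
  · rw [opY_WW, opY_Fr]
    refine LinearMap.ext fun v => ?_
    show ((0, dropL _ (0 : Fn (n + 2)), dropF _ (0 : Fn (n + 2)), dropL (n + 1) v.1) :
      Fn (n + 1) × Fn (n + 1) × Fn (n + 1) × Fn (n + 1)) = (0, 0, 0, dropL (n + 1) v.1)
    rw [map_zero, map_zero]
  · rw [opX_WW, opX_Fr]
    refine LinearMap.ext fun v => ?_
    show ((0, dropF n v.1 + dropL n 0) : Fn (n + 1) × Fn n) = (0, dropF n v.1)
    rw [map_zero, add_zero]
  · rw [opY_WW, opY_Fr]
    refine LinearMap.ext fun v => ?_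
    show ((0, dropF n 0 + dropL n v.1) : Fn (n + 1) × Fn n) = (0, dropL n v.1)
    rw [map_zero, zero_add]
  · rw [lin_mkHom, injective_iff_map_eq_zero]
    intro v hv
    obtain ⟨u, w⟩ := (v : Fn (n + 2) × Fn (n + 1))
    have h1 : dropL (n + 1) u = 0 := congrArg (fun x => x.2.1) hv
    have h2 : dropF (n + 1) u = 0 := congrArg (fun x => x.2.2.1) hv
    have h3 : w = 0 := congrArg (fun x => x.2.2.2) hv
    have h4 : u = 0 := by
      funext j
      refine Fin.cases ?_ (fun i => ?_) j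
      · exact congrFun h1 0
      · exact congrFun h2 i
    rw [h3, h4]
    rfl
  · rw [lin_mkHom]
    intro v
    obtain ⟨u, w⟩ := (v : Fn (n + 1) × Fn n)
    refine ⟨((u, 0, snocZ n w, 0) : Fn (n + 1) × Fn (n + 1) × Fn (n + 1) × Fn (n + 1)), ?_⟩
    show ((u, dropF n 0 + dropL n (snocZ n w)) : Fn (n + 1) × Fn n) = (u, w)
    rw [map_zero, zero_add]
    refine Prod.ext rfl ?_
    funext j
    show (Fin.snoc (α := fun _ => kk) w 0 : Fn (n + 1)) j.castSucc = w j
    rw [Fin.snoc_castSucc]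
  · rw [lin_mkHom, lin_mkHom]
    refine LinearMap.ext fun v => ?_
    obtain ⟨u, w⟩ := (v : Fn (n + 2) × Fn (n + 1))
    show ((0, dropF n (dropL (n + 1) u) + dropL n (dropF (n + 1) u)) : Fn (n + 1) × Fn n) = 0
    refine Prod.ext rfl ?_
    funext j
    show u (j.succ.castSucc) + u (j.castSucc.succ) = 0
    rw [Fin.succ_castSucc]
    exact add_self_zero _
  · rw [finrank_WW, finrank_WW, fr_finrank, Module.finrank_fintype_fun_eq_card, Fintype.card_fin]
    ring

/-- The inclusion of a cosyzygy. -/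
def iV (n : ℕ) : (Fn n × Fn (n + 1)) →ₗ[kk]
    (Fn (n + 1) × Fn (n + 1) × Fn (n + 1) × Fn (n + 1)) where
  toFun v := (0, snocZ _ v.1, consZ _ v.1, v.2)
  map_add' _ _ := by simp
  map_smul' _ _ := by simp

/-- The projection to a cosyzygy. -/
def qV (n : ℕ) : (Fn (n + 1) × Fn (n + 1) × Fn (n + 1) × Fn (n + 1)) →ₗ[kk]
    (Fn (n + 1) × Fn (n + 2)) where
  toFun v := (v.1, consZ _ v.2.1 + snocZ _ v.2.2.1)
  map_add' a b := by
    refine Prod.ext rfl ?_
    simp only [Prod.snd_add, Prod.fst_add, map_add]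
    abel
  map_smul' c a := by
    refine Prod.ext rfl ?_
    simp only [Prod.smul_snd, Prod.smul_fst, map_smul, smul_add, RingHom.id_apply]

theorem link_VV (n : ℕ) : Link (VV n) (VV (n + 1)) := by
  refine ⟨Fr (Fn (n + 1)), mkHom (VV n) (Fr (Fn (n + 1))) (iV n) ?_ ?_,
    mkHom (Fr (Fn (n + 1))) (VV (n + 1)) (qV n) ?_ ?_, fr_good, inferInstance, ?_, ?_, ?_, ?_⟩
  · rw [opX_VV, opX_Fr]
    refine LinearMap.ext fun v => ?_
    show ((0, snocZ _ (0 : Fn n), consZ _ (0 : Fn n), consZ n v.1) :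
      Fn (n + 1) × Fn (n + 1) × Fn (n + 1) × Fn (n + 1)) = (0, 0, 0, consZ n v.1)
    rw [map_zero, map_zero]
  · rw [opY_VV, opY_Fr]
    refine LinearMap.ext fun v => ?_
    show ((0, snocZ _ (0 : Fn n), consZ _ (0 : Fn n), snocZ n v.1) :
      Fn (n + 1) × Fn (n + 1) × Fn (n + 1) × Fn (n + 1)) = (0, 0, 0, snocZ n v.1)
    rw [map_zero, map_zero]
  · rw [opX_VV, opX_Fr]
    refine LinearMap.ext fun v => ?_
    show ((0, consZ _ v.1 + snocZ _ (0 : Fn (n + 1))) : Fn (n + 1) × Fn (n + 2)) =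
      (0, consZ _ v.1)
    rw [map_zero, add_zero]
  · rw [opY_VV, opY_Fr]
    refine LinearMap.ext fun v => ?_
    show ((0, consZ _ (0 : Fn (n + 1)) + snocZ _ v.1) : Fn (n + 1) × Fn (n + 2)) =
      (0, snocZ _ v.1)
    rw [map_zero, zero_add]
  · rw [lin_mkHom, injective_iff_map_eq_zero]
    intro v hv
    obtain ⟨u, w⟩ := (v : Fn n × Fn (n + 1))
    have h1 : snocZ n u = 0 := congrArg (fun x => x.2.1) hv
    have h3 : w = 0 := congrArg (fun x => x.2.2.2) hv
    have h4 : u = 0 := by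
      funext j
      have h5 : (Fin.snoc (α := fun _ => kk) u 0 : Fn (n + 1)) j.castSucc = 0 :=
        congrFun h1 j.castSucc
      rw [Fin.snoc_castSucc] at h5
      exact h5
    rw [h3, h4]
    rfl
  · rw [lin_mkHom]
    intro v
    obtain ⟨u, w⟩ := (v : Fn (n + 1) × Fn (n + 2))
    refine ⟨((u, dropF _ w, Pi.single 0 (w 0), 0) :
      Fn (n + 1) × Fn (n + 1) × Fn (n + 1) × Fn (n + 1)), ?_⟩
    show ((u, consZ _ (dropF _ w) + snocZ _ (Pi.single 0 (w 0))) : Fn (n + 1) × Fn (n + 2)) =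
      (u, w)
    refine Prod.ext rfl ?_
    funext j
    refine Fin.cases ?_ (fun i => ?_) j
    · show (Fin.cons 0 (dropF _ w) : Fn (n + 2)) 0 +
        (Fin.snoc (α := fun _ => kk) (Pi.single 0 (w 0)) 0 : Fn (n + 2)) 0 = w 0
      rw [Fin.cons_zero, zero_add]
      have : (0 : Fin (n + 2)) = Fin.castSucc 0 := rfl
      rw [this, Fin.snoc_castSucc, Pi.single_eq_same]
    · show (Fin.cons 0 (dropF _ w) : Fn (n + 2)) i.succ +
        (Fin.snoc (α := fun _ => kk) (Pi.single 0 (w 0)) 0 : Fn (n + 2)) i.succ = w i.succ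
      rw [Fin.cons_succ]
      have h0 : (Fin.snoc (α := fun _ => kk) (Pi.single 0 (w 0)) 0 : Fn (n + 2)) i.succ = 0 := by
        refine Fin.lastCases ?_ (fun i => ?_) i
        · rw [Fin.succ_last, Fin.snoc_last]
        · rw [Fin.succ_castSucc, Fin.snoc_castSucc, Pi.single_eq_of_ne (Fin.succ_ne_zero i)]
      rw [h0, add_zero]
      rfl
  · rw [lin_mkHom, lin_mkHom]
    refine LinearMap.ext fun v => ?_
    obtain ⟨u, w⟩ := (v : Fn n × Fn (n + 1))
    show ((0, consZ _ (snocZ _ u) + snocZ _ (consZ _ u)) : Fn (n + 1) × Fn (n + 2)) = 0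
    refine Prod.ext rfl ?_
    have h : consZ (n + 1) (snocZ n u) = snocZ (n + 1) (consZ n u) := by
      show (Fin.cons 0 (Fin.snoc (α := fun _ => kk) u 0) : Fn (n + 2)) =
        Fin.snoc (α := fun _ => kk) (Fin.cons 0 u) 0
      exact Fin.cons_snoc_eq_snoc_cons _ _ _
    show consZ (n + 1) (snocZ n u) + snocZ (n + 1) (consZ n u) = 0
    rw [h]
    exact add_self_zero _
  · rw [finrank_VV, finrank_VV, fr_finrank, Module.finrank_fintype_fun_eq_card, Fintype.card_fin]
    ring

/-- A one-dimensional module with trivial action is the unit object. -/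
noncomputable def trivIso (A : RR) (e : A.V ≃ₗ[kk] kk) (hx : opX A = 0) (hy : opY A = 0) :
    A ≅ 𝟙_ RR where
  hom := mkHom A (𝟙_ RR) (e : A.V →ₗ[kk] kk)
    (by
      have h : opX (𝟙_ RR) = 0 := add_self_end (1 : End kk kk)
      rw [hx, h, LinearMap.comp_zero, LinearMap.zero_comp])
    (by
      have h : opY (𝟙_ RR) = 0 := add_self_end (1 : End kk kk)
      rw [hy, h, LinearMap.comp_zero, LinearMap.zero_comp])
  inv := mkHom (𝟙_ RR) A (e.symm : kk →ₗ[kk] A.V)
    (by
      have h : opX (𝟙_ RR) = 0 := add_self_end (1 : End kk kk)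
      rw [hx, h, LinearMap.comp_zero, LinearMap.zero_comp])
    (by
      have h : opY (𝟙_ RR) = 0 := add_self_end (1 : End kk kk)
      rw [hy, h, LinearMap.comp_zero, LinearMap.zero_comp])
  hom_inv_id := hom_eq (LinearMap.ext fun v => e.symm_apply_apply v)
  inv_hom_id := hom_eq (LinearMap.ext fun v => e.apply_symm_apply v)

theorem up_zero {V W : Type} [AddCommGroup V] [Module kk V] [AddCommGroup W] [Module kk W]
    (f : V →ₗ[kk] W) (h : f = 0) : up f = 0 := by
  rw [h]
  rfl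

/-- The zeroth syzygy is trivial. -/
noncomputable def isoW : WW 0 ≅ 𝟙_ RR :=
  trivIso (WW 0) ((LinearEquiv.ofFinrankEq (WW 0).V kk (by
    rw [finrank_WW, Module.finrank_self])))
    (by
      rw [opX_WW]
      exact up_zero _ (LinearMap.ext fun v => funext fun j => j.elim0))
    (by
      rw [opY_WW]
      exact up_zero _ (LinearMap.ext fun v => funext fun j => j.elim0))

/-- The zeroth cosyzygy is trivial. -/
noncomputable def isoV : VV 0 ≅ 𝟙_ RR :=
  trivIso (VV 0) ((LinearEquiv.ofFinrankEq (VV 0).V kk (by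
    rw [finrank_VV, Module.finrank_self])))
    (by
      rw [opX_VV]
      refine up_zero _ (LinearMap.ext fun v => ?_)
      rw [Subsingleton.elim v 0, map_zero, map_zero])
    (by
      rw [opY_VV]
      refine up_zero _ (LinearMap.ext fun v => ?_)
      rw [Subsingleton.elim v 0, map_zero, map_zero])

/-- All syzygies. -/
noncomputable def UU : ℤ → RR
  | Int.ofNat n => WW n
  | Int.negSucc n => VV (n + 1)

instance fd_UU (m : ℤ) : FiniteDimensional kk (UU m).V := by
  cases m with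
  | ofNat n => exact inferInstanceAs (FiniteDimensional kk (WW n).V)
  | negSucc n => exact inferInstanceAs (FiniteDimensional kk (VV (n + 1)).V)

theorem link_UU (m : ℤ) : Link (UU (m + 1)) (UU m) := by
  cases m with
  | ofNat n => exact link_WW n
  | negSucc n =>
    cases n with
    | zero => exact link_iso_left (isoV ≪≫ isoW.symm) (link_VV 0)
    | succ n => exact link_VV (n + 1)

theorem dlt_UU (m : ℤ) : dlt (UU m) = 2 * |m| + 1 := by
  cases m with
  | ofNat n =>
    show dlt (WW n) = _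
    rw [dlt_WW]
    simp
  | negSucc n =>
    show dlt (VV (n + 1)) = _
    rw [dlt_VV, abs_of_neg (Int.negSucc_lt_zero n), Int.neg_negSucc]

end Families

section Powers

/-- The module of the counterexample. -/
noncomputable def MM : RR := WW 1 ⊞ VV 1

instance fd_biprod (A B : RR) [FiniteDimensional kk A.V] [FiniteDimensional kk B.V] :
    FiniteDimensional kk (A ⊞ B : RR).V := by
  let f : (A ⊞ B : RR).V →ₗ[kk] A.V × B.V := (lin biprod.fst).prod (lin biprod.snd)
  refine Module.Finite.of_injective f ?_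
  rw [injective_iff_map_eq_zero]
  intro v hv
  have h1 : lin (biprod.fst : A ⊞ B ⟶ A) v = 0 := congrArg Prod.fst hv
  have h2 : lin (biprod.snd : A ⊞ B ⟶ B) v = 0 := congrArg Prod.snd hv
  have h3 : lin (biprod.fst ≫ biprod.inl + biprod.snd ≫ biprod.inr : A ⊞ B ⟶ A ⊞ B) v = v := by
    rw [biprod.total]
    rfl
  rw [← h3]
  show lin biprod.inl (lin biprod.fst v) + lin biprod.inr (lin biprod.snd v) = 0
  rw [h1, h2, map_zero, map_zero, add_zero]

instance fd_MM : FiniteDimensional kk MM.V :=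
  inferInstanceAs (FiniteDimensional kk (WW 1 ⊞ VV 1 : RR).V)

theorem dlt_biprod_tensor (A B D : RR) [FiniteDimensional kk A.V] [FiniteDimensional kk B.V]
    [FiniteDimensional kk D.V] : dlt ((A ⊞ B) ⊗ D) = dlt (A ⊗ D) + dlt (B ⊗ D) := by
  refine (finrank_data (A := A ⊗ D) (B := B ⊗ D) (C := (A ⊞ B) ⊗ D) (biprod.inl ▷ D)
    (biprod.inr ▷ D) (biprod.fst ▷ D) (biprod.snd ▷ D) ?_ ?_ ?_ ?_ ?_).2
  · rw [← comp_whiskerRight, biprod.inl_fst, id_whiskerRight]
  · rw [← comp_whiskerRight, biprod.inr_snd, id_whiskerRight]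
  · rw [← comp_whiskerRight, biprod.inl_snd, MonoidalPreadditive.zero_whiskerRight]
  · rw [← comp_whiskerRight, biprod.inr_fst, MonoidalPreadditive.zero_whiskerRight]
  · rw [← comp_whiskerRight, ← comp_whiskerRight, ← MonoidalPreadditive.add_whiskerRight,
      biprod.total, id_whiskerRight]

theorem dlt_W1 (D E : RR) [FiniteDimensional kk D.V] [FiniteDimensional kk E.V]
    (h : Link E D) : dlt (WW 1 ⊗ D) = dlt E := by
  have h1 := (link_dlt (link_tensor D (link_WW 0))).1
  rw [h1, (link_dlt h).1]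
  exact tt_iso ((MonoidalCategory.whiskerRightIso isoW D) ≪≫ (λ_ D))

theorem dlt_V1 (D E : RR) [FiniteDimensional kk D.V] [FiniteDimensional kk E.V]
    (h : Link D E) : dlt (VV 1 ⊗ D) = dlt E := by
  have h1 := (link_dlt (link_tensor D (link_VV 0))).2
  rw [h1, (link_dlt h).2]
  exact ss_iso ((MonoidalCategory.whiskerRightIso isoV D) ≪≫ (λ_ D))

/-- The function attached to a module. -/
noncomputable def phi (C : RR) (m : ℤ) : ℤ := dlt (UU m ⊗ C)

/-- The shift operator. -/
def LL (f : ℤ → ℤ) : ℤ → ℤ := fun m => f (m + 1) + f (m - 1)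

theorem phi_MM (C : RR) [FiniteDimensional kk C.V] : phi (MM ⊗ C) = LL (phi C) := by
  funext m
  have e : UU m ⊗ (MM ⊗ C) ≅ MM ⊗ (UU m ⊗ C) :=
    (α_ (UU m) MM C).symm ≪≫ whiskerRightIso (β_ (UU m) MM) C ≪≫ α_ MM (UU m) C
  show dlt (UU m ⊗ (MM ⊗ C)) = dlt (UU (m + 1) ⊗ C) + dlt (UU (m - 1) ⊗ C)
  rw [dlt_iso e]
  have h1 : dlt (MM ⊗ (UU m ⊗ C)) = dlt (WW 1 ⊗ (UU m ⊗ C)) + dlt (VV 1 ⊗ (UU m ⊗ C)) :=
    dlt_biprod_tensor _ _ _
  have h2 : dlt (WW 1 ⊗ (UU m ⊗ C)) = dlt (UU (m + 1) ⊗ C) :=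
    dlt_W1 _ _ (link_tensor C (link_UU m))
  have h3 : dlt (VV 1 ⊗ (UU m ⊗ C)) = dlt (UU (m - 1) ⊗ C) := by
    have h4 := link_UU (m - 1)
    rw [sub_add_cancel] at h4
    exact dlt_V1 _ _ (link_tensor C h4)
  rw [h1, h2, h3]

/-- The tensor powers. -/
noncomputable def XX (n : ℕ) : RR := (fun X : RR => X ⊗ MM)^[n] (𝟙_ RR)

theorem XX_succ (n : ℕ) : XX (n + 1) = XX n ⊗ MM := Function.iterate_succ_apply' _ _ _

instance fd_XX (n : ℕ) : FiniteDimensional kk (XX n).V := by
  induction n with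
  | zero => exact inferInstanceAs (FiniteDimensional kk kk)
  | succ n ih =>
    rw [XX_succ]
    infer_instance

theorem dlt_XX (n : ℕ) : ∀ (C : RR) [FiniteDimensional kk C.V],
    dlt (XX n ⊗ C) = (LL^[n] (phi C)) 0 := by
  induction n with
  | zero =>
    intro C _
    show dlt (𝟙_ RR ⊗ C) = dlt (WW 0 ⊗ C)
    exact dlt_iso (whiskerRightIso isoW.symm C)
  | succ n ih =>
    intro C _
    rw [XX_succ, dlt_iso (α_ (XX n) MM C), ih (MM ⊗ C), phi_MM]
    rfl

theorem dlt_XX' (n : ℕ) : dlt (XX n) = (LL^[n] (fun m => 2 * |m| + 1)) 0 := by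
  have h1 := dlt_XX n (𝟙_ RR)
  have h2 : phi (𝟙_ RR) = fun m => 2 * |m| + 1 := by
    funext m
    show dlt (UU m ⊗ 𝟙_ RR) = _
    rw [dlt_iso (ρ_ (UU m)), dlt_UU]
  rw [h2, dlt_iso (ρ_ (XX n))] at h1
  exact h1

end Powers

end Pool.Agent.V1110.Core
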