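import Mathlib

/-!
# Non-rationality of the series of core dimensions
-/

set_option autoImplicit false

namespace Pool.Agent.V1110.CoreE

open Polynomial

/-- The shift operator. -/
def LL (f : ℤ → ℤ) : ℤ → ℤ := fun m => f (m + 1) + f (m - 1)

/-- The core dimensions. -/
def cc (n : ℕ) : ℤ := (LL^[n] (fun m => 2 * |m| + 1)) 0

/-- The number of closed walks. -/
def ww (n : ℕ) : ℤ := (LL^[n] (fun m => if m = 0 then 1 else 0)) 0

theorem LL_iter_add (n : ℕ) : ∀ f g : ℤ → ℤ, LL^[n] (fun m => 2 * f m + 4 * g m) =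
    fun m => 2 * (LL^[n] f) m + 4 * (LL^[n] g) m := by
  induction n with
  | zero => intro f g; rfl
  | succ n ih =>
    intro f g
    rw [Function.iterate_succ_apply, Function.iterate_succ_apply, Function.iterate_succ_apply,
      ← ih]
    congr 1
    funext m
    simp only [LL]
    ring

theorem LL_abs : LL (fun m => 2 * |m| + 1) =
    fun m => 2 * (2 * |m| + 1) + 4 * (if m = 0 then 1 else 0) := by
  funext m
  simp only [LL]
  rcases lt_trichotomy m 0 with h | h | h
  · rw [abs_of_nonpos (by omega : m + 1 ≤ 0), abs_of_neg (by omega : m - 1 < 0), abs_of_neg h,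
      if_neg (by omega)]
    ring
  · subst h
    simp
  · rw [abs_of_pos (by omega : 0 < m + 1), abs_of_nonneg (by omega : 0 ≤ m - 1), abs_of_pos h,
      if_neg (by omega)]
    ring

theorem cc_zero : cc 0 = 1 := by simp [cc]

theorem cc_succ (n : ℕ) : cc (n + 1) = 2 * cc n + 4 * ww n := by
  rw [cc, Function.iterate_succ_apply, LL_abs, LL_iter_add]
  rfl

section ModThree

/-- The coefficient field. -/
abbrev F3 : Type := ZMod 3

instance : Fact (Nat.Prime 3) := ⟨Nat.prime_three⟩

/-- The space of functions. -/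
abbrev Fu : Type := ℤ → F3

/-- Shift up. -/
def sh (a : ℤ) : Module.End F3 Fu where
  toFun f := fun m => f (m + a)
  map_add' _ _ := rfl
  map_smul' _ _ := rfl

theorem sh_mul (a b : ℤ) : sh a * sh b = sh (a + b) := by
  refine LinearMap.ext fun f => funext fun m => ?_
  show f (m + a + b) = f (m + (a + b))
  rw [add_assoc]

theorem sh_zero : sh 0 = 1 := by
  refine LinearMap.ext fun f => funext fun m => ?_
  show f (m + 0) = f m
  rw [add_zero]

theorem sh_pow (a : ℤ) (n : ℕ) : sh a ^ n = sh (n * a) := by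
  induction n with
  | zero => rw [pow_zero, Nat.cast_zero, zero_mul, sh_zero]
  | succ n ih =>
    rw [pow_succ, ih, sh_mul]
    congr 1
    push_cast
    ring

/-- The operator modulo three. -/
def L3 : Module.End F3 Fu := sh 1 + sh (-1)

instance : CharP (Module.End F3 Fu) 3 :=
  charP_of_injective_algebraMap (algebraMap F3 (Module.End F3 Fu)).injective 3

theorem L3_pow (k : ℕ) : L3 ^ 3 ^ k = sh ((3 ^ k : ℕ) : ℤ) + sh (-((3 ^ k : ℕ) : ℤ)) := by
  have h : Commute (sh 1) (sh (-1)) := by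
    show sh 1 * sh (-1) = sh (-1) * sh 1
    rw [sh_mul, sh_mul]
    rfl
  rw [L3, add_pow_char_pow_of_commute (p := 3) (n := k) h, sh_pow, sh_pow, mul_one, mul_neg_one]

/-- The delta function. -/
def de : Fu := fun m => if m = 0 then 1 else 0

/-- The number of closed walks modulo three. -/
def w3 (n : ℕ) : F3 := (L3 ^ n) de 0

theorem ww_cast (n : ℕ) : ((ww n : ℤ) : F3) = w3 n := by
  have h : ∀ (n : ℕ) (f : ℤ → ℤ), (fun m => (((LL^[n] f) m : ℤ) : F3)) =
      (L3 ^ n) (fun m => ((f m : ℤ) : F3)) := by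
    intro n
    induction n with
    | zero => intro f; rfl
    | succ n ih =>
      intro f
      rw [Function.iterate_succ_apply, ih, pow_succ]
      show (L3 ^ n) _ = (L3 ^ n) (L3 _)
      congr 1
      funext m
      show (((f (m + 1) + f (m - 1) : ℤ)) : F3) = ((f (m + 1) : ℤ) : F3) + ((f (m + -1) : ℤ) : F3)
      push_cast
      rfl
  have h1 := congrFun (h n (fun m => if m = 0 then 1 else 0)) 0
  show _ = (L3 ^ n) de 0
  have h2 : (fun m : ℤ => (((if m = 0 then 1 else 0 : ℤ)) : F3)) = de := by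
    funext m
    rw [de]
    split <;> simp
  rw [h2] at h1
  exact h1

theorem support_L3 (r : ℕ) : ∀ m : ℤ, (r : ℤ) < |m| → (L3 ^ r) de m = 0 := by
  induction r with
  | zero =>
    intro m hm
    show de m = 0
    rw [de, if_neg]
    intro h
    subst h
    simp at hm
  | succ r ih =>
    intro m hm
    rw [pow_succ']
    show (L3 ^ r) de (m + 1) + (L3 ^ r) de (m + -1) = 0
    rw [ih, ih, add_zero]
    · have := abs_sub_abs_le_abs_sub m (-(-1))
      push_cast at hm
      have h1 : |m| - |(1 : ℤ)| ≤ |m - 1| := abs_sub_abs_le_abs_sub m 1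
      rw [abs_one] at h1
      have h2 : m + -1 = m - 1 := by ring
      rw [h2]
      omega
    · push_cast at hm
      have h1 : |m| - |(-1 : ℤ)| ≤ |m - (-1)| := abs_sub_abs_le_abs_sub m (-1)
      rw [abs_neg, abs_one, sub_neg_eq_add] at h1
      omega

theorem w3_zero_run (k r : ℕ) (hr : r < 2 * 3 ^ k) : w3 (4 * 3 ^ k + r) = 0 := by
  set N : ℤ := ((3 ^ k : ℕ) : ℤ) with hN
  have h1 : L3 ^ (4 * 3 ^ k) = sh (4 * N) + sh (2 * N) + sh (-(2 * N)) + sh (-(4 * N)) := by
    rw [mul_comm, pow_mul, L3_pow, ← hN]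
    have h2 : (sh N + sh (-N)) ^ 2 = sh (2 * N) + (1 + 1) + sh (-(2 * N)) := by
      rw [pow_two, mul_add, add_mul, add_mul, sh_mul, sh_mul, sh_mul, sh_mul]
      have e1 : N + N = 2 * N := by ring
      have e2 : -N + -N = -(2 * N) := by ring
      rw [e1, e2, neg_add_cancel, add_neg_cancel, sh_zero]
      abel
    have h3 : (sh N + sh (-N)) ^ 4 = ((sh N + sh (-N)) ^ 2) ^ 2 := by rw [← pow_mul]
    rw [h3, h2, pow_two]
    have e3 : (sh (2 * N) + (1 + 1) + sh (-(2 * N))) * (sh (2 * N) + (1 + 1) + sh (-(2 * N))) =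
        sh (2 * N) * sh (2 * N) + (sh (2 * N) + sh (2 * N) + sh (2 * N) + sh (2 * N)) +
        sh (2 * N) * sh (-(2 * N)) + sh (-(2 * N)) * sh (2 * N) + (1 + 1 + 1 + 1) +
        (sh (-(2 * N)) + sh (-(2 * N)) + sh (-(2 * N)) + sh (-(2 * N))) +
        sh (-(2 * N)) * sh (-(2 * N)) := by noncomm_ring
    have h3 : ∀ x : Module.End F3 Fu, x + x + x = 0 := by
      intro x
      have : x + x + x = (3 : ℕ) • x := by rw [succ_nsmul, two_nsmul]
      rw [this, ← Nat.cast_smul_eq_nsmul F3]
      have h4 : ((3 : ℕ) : F3) = 0 := by decide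
      rw [h4, zero_smul]
    have e4 : 2 * N + 2 * N = 4 * N := by ring
    have e5 : -(2 * N) + -(2 * N) = -(4 * N) := by ring
    rw [e3, sh_mul, sh_mul, sh_mul, sh_mul, neg_add_cancel, add_neg_cancel, sh_zero, e4, e5]
    have h4 := h3 (sh (2 * N))
    have h5 := h3 (sh (-(2 * N)))
    have h6 := h3 1
    set a := sh (2 * N)
    set b := sh (-(2 * N))
    set c := sh (4 * N)
    set d := sh (-(4 * N))
    have e6 : c + (a + a + a + a) + 1 + 1 + (1 + 1 + 1 + 1) + (b + b + b + b) + d =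
        c + a + b + d + (a + a + a) + (b + b + b) + (1 + 1 + 1) + (1 + 1 + 1) := by
      abel
    rw [e6, h4, h5, h6, add_zero, add_zero, add_zero, add_zero]
  have hN0 : (0 : ℤ) ≤ N := by positivity
  have hr' : (r : ℤ) < 2 * N := by
    rw [hN]
    exact_mod_cast hr
  rw [w3, pow_add, h1]
  show (L3 ^ r) de (0 + 4 * N) + (L3 ^ r) de (0 + 2 * N) + (L3 ^ r) de (0 + -(2 * N)) +
    (L3 ^ r) de (0 + -(4 * N)) = 0
  rw [support_L3, support_L3, support_L3, support_L3]
  · simp
  all_goals
    simp only [zero_add, abs_neg]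
    rw [abs_of_nonneg (by positivity)]
    omega

theorem w3_ne_zero (k : ℕ) : w3 (6 * 3 ^ k) ≠ 0 := by
  have e : 6 * 3 ^ k = 3 ^ (k + 1) * 2 := by ring
  rw [w3, e, pow_mul, L3_pow]
  set N : ℤ := ((3 ^ (k + 1) : ℕ) : ℤ) with hN
  have hN0 : (0 : ℤ) < N := by positivity
  rw [pow_two, mul_add, add_mul, add_mul, sh_mul, sh_mul, sh_mul, sh_mul]
  show de (0 + (N + N)) + de (0 + (-N + N)) + (de (0 + (N + -N)) + de (0 + (-N + -N))) ≠ 0
  have d1 : de (0 + (N + N)) = 0 := by
    rw [de, if_neg]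
    omega
  have d2 : de (0 + (-N + N)) = 1 := by
    rw [de, if_pos]
    omega
  have d3 : de (0 + (N + -N)) = 1 := by
    rw [de, if_pos]
    omega
  have d4 : de (0 + (-N + -N)) = 0 := by
    rw [de, if_neg]
    omega
  rw [d1, d2, d3, d4]
  decide

end ModThree

section Rational

theorem no_recurrence (H : F3[X]) (hH : H ≠ 0) (N : ℕ) :
    ∃ n, N < n ∧ PowerSeries.coeff n ((H : PowerSeries F3) * PowerSeries.mk w3) ≠ 0 := by
  set D := H.natDegree
  set l := H.natTrailingDegree
  obtain ⟨k, hk⟩ : ∃ k : ℕ, N + D < 3 ^ k :=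
    ⟨N + D, Nat.lt_pow_self (by norm_num)⟩
  refine ⟨6 * 3 ^ k + l, by omega, ?_⟩
  rw [PowerSeries.coeff_mul]
  have hl : H.coeff l ≠ 0 := Polynomial.coeff_natTrailingDegree_eq_zero.not.2 hH
  have hlD : l ≤ D := Polynomial.natTrailingDegree_le_natDegree H
  rw [Finset.sum_eq_single (l, 6 * 3 ^ k)]
  · rw [Polynomial.coeff_coe, PowerSeries.coeff_mk]
    exact mul_ne_zero hl (w3_ne_zero k)
  · rintro ⟨i, j⟩ hij hne
    rw [Finset.HasAntidiagonal.mem_antidiagonal] at hij
    simp only at hij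
    rw [Polynomial.coeff_coe, PowerSeries.coeff_mk]
    rcases lt_trichotomy i l with h | h | h
    · rw [Polynomial.coeff_eq_zero_of_lt_natTrailingDegree h, zero_mul]
    · exfalso
      apply hne
      rw [Prod.mk.injEq]
      omega
    · by_cases hD : i ≤ D
      · obtain ⟨r, hr⟩ : ∃ r, j = 4 * 3 ^ k + r := ⟨j - 4 * 3 ^ k, by omega⟩
        rw [hr, w3_zero_run k r (by omega), mul_zero]
      · rw [Polynomial.coeff_eq_zero_of_natDegree_lt (by omega), zero_mul]
  · intro h
    exfalso
    apply h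
    rw [Finset.HasAntidiagonal.mem_antidiagonal]
    simp only
    omega

/-- The integral generating function. -/
noncomputable def FF : PowerSeries ℤ := PowerSeries.mk cc

theorem FF_eq : FF * (1 - 2 * PowerSeries.X) = 1 + 4 * (PowerSeries.X * PowerSeries.mk ww) := by
  ext n
  have e1 : FF * (1 - 2 * PowerSeries.X) = FF - 2 • (FF * PowerSeries.X) := by
    rw [nsmul_eq_mul]
    push_cast
    ring
  have e2 : (1 : PowerSeries ℤ) + 4 * (PowerSeries.X * PowerSeries.mk ww) =
      1 + 4 • (PowerSeries.mk ww * PowerSeries.X) := by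
    rw [nsmul_eq_mul]
    push_cast
    ring
  rw [e1, e2, map_sub, map_nsmul, map_add, map_nsmul]
  cases n with
  | zero =>
    rw [PowerSeries.coeff_zero_mul_X, PowerSeries.coeff_zero_mul_X, FF, PowerSeries.coeff_mk,
      cc_zero]
    simp
  | succ n =>
    rw [PowerSeries.coeff_succ_mul_X, PowerSeries.coeff_succ_mul_X, FF, PowerSeries.coeff_mk,
      PowerSeries.coeff_mk, PowerSeries.coeff_mk, cc_succ, PowerSeries.coeff_one]
    simp

theorem not_rational (P Q : ℚ[X]) (hQ : Q ≠ 0) :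
    (Q : PowerSeries ℚ) * PowerSeries.mk (fun n => ((cc n : ℤ) : ℚ)) ≠ (P : PowerSeries ℚ) := by
  intro h
  obtain ⟨b, hb⟩ := IsLocalization.integerNormalization_map_to_map (nonZeroDivisors ℤ) Q
  set Q1 := IsLocalization.integerNormalization (nonZeroDivisors ℤ) Q
  have hb0 : (b : ℤ) ≠ 0 := nonZeroDivisors.coe_ne_zero b
  have hQ1 : Q1 ≠ 0 := by
    intro h0
    rw [h0, Polynomial.map_zero] at hb
    have h1 : ((b : ℤ) : ℚ) • Q = 0 := by
      rw [Int.cast_smul_eq_zsmul]
      exact hb.symm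
    rw [smul_eq_zero] at h1
    rcases h1 with h1 | h1
    · exact hb0 (by exact_mod_cast h1)
    · exact hQ h1
  set Q2 := Q1.primPart
  have hprim : Q2.IsPrimitive := Polynomial.isPrimitive_primPart Q1
  have hc : Q1.content ≠ 0 := by rwa [Ne, Polynomial.content_eq_zero_iff]
  -- the product with the integral power series is a polynomial beyond some degree
  have h2 : ∃ N, ∀ n, N < n → PowerSeries.coeff n ((Q2 : PowerSeries ℤ) * FF) = 0 := by
    refine ⟨P.natDegree, fun n hn => ?_⟩
    have h3 : ((Q1 : PowerSeries ℤ) * FF).map (algebraMap ℤ ℚ) =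
        ((b : ℤ) : ℚ) • (P : PowerSeries ℚ) := by
      rw [map_mul, ← Polynomial.polynomial_map_coe, hb]
      have h4 : PowerSeries.map (algebraMap ℤ ℚ) FF =
          PowerSeries.mk (fun n => ((cc n : ℤ) : ℚ)) := by
        ext n
        simp [FF]
      rw [h4, ← h]
      have h5 : ((((b : ℤ) • Q : ℚ[X])) : PowerSeries ℚ) =
          ((b : ℤ) : ℚ) • (Q : PowerSeries ℚ) := by
        rw [← Int.cast_smul_eq_zsmul ℚ]
        ext n
        simp
      rw [h5, smul_mul_assoc]
    have h7 := congrArg (PowerSeries.coeff n) h3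
    rw [PowerSeries.coeff_map, PowerSeries.coeff_smul, Polynomial.coeff_coe,
      Polynomial.coeff_eq_zero_of_natDegree_lt hn, smul_zero] at h7
    have h8 : PowerSeries.coeff n ((Q1 : PowerSeries ℤ) * FF) = 0 := by
      rw [eq_intCast] at h7
      exact_mod_cast h7
    have h9 : (Q1 : PowerSeries ℤ) = PowerSeries.C Q1.content * (Q2 : PowerSeries ℤ) := by
      conv_lhs => rw [Polynomial.eq_C_content_mul_primPart Q1]
      rw [Polynomial.coe_mul, Polynomial.coe_C]
    rw [h9, mul_assoc, PowerSeries.coeff_C_mul] at h8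
    exact (mul_eq_zero.1 h8).resolve_left hc
  obtain ⟨N, hN⟩ := h2
  -- reduce modulo three
  let ψ : ℤ →+* F3 := Int.castRingHom F3
  let Q3 : F3[X] := Q2.map ψ
  have hQ3 : Q3 ≠ 0 := by
    intro h0
    have h1 : (C 3 : ℤ[X]) ∣ Q2 := by
      rw [Polynomial.C_dvd_iff_dvd_coeff]
      intro i
      have h2 := congrArg (fun p => Polynomial.coeff p i) h0
      simp only [Q3, Polynomial.coeff_map, Polynomial.coeff_zero] at h2
      exact (ZMod.intCast_zmod_eq_zero_iff_dvd _ 3).1 h2
    have h2 := hprim 3 h1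
    rw [Int.isUnit_iff] at h2
    omega
  let G3 : PowerSeries F3 := FF.map ψ
  have hG3 : ∀ n, N < n → PowerSeries.coeff n ((Q3 : PowerSeries F3) * G3) = 0 := by
    intro n hn
    have h1 : (Q3 : PowerSeries F3) * G3 = ((Q2 : PowerSeries ℤ) * FF).map ψ := by
      rw [map_mul, ← Polynomial.polynomial_map_coe]
    rw [h1, PowerSeries.coeff_map, hN n hn, map_zero]
  have hG : G3 * (1 - 2 * PowerSeries.X) = 1 + PowerSeries.X * PowerSeries.mk w3 := by
    have h1 := congrArg (PowerSeries.map ψ) FF_eq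
    rw [map_mul, map_sub, map_mul, map_one, PowerSeries.map_X, map_add, map_mul, map_mul,
      PowerSeries.map_X, map_one, map_ofNat, map_ofNat] at h1
    have h2 : PowerSeries.map ψ (PowerSeries.mk ww) = PowerSeries.mk w3 := by
      ext n
      rw [PowerSeries.coeff_map, PowerSeries.coeff_mk, PowerSeries.coeff_mk]
      exact ww_cast n
    have h4 : (4 : PowerSeries F3) = 1 := by
      have h5 : (4 : F3) = 1 := by decide
      have h6 := congrArg (PowerSeries.C (R := F3)) h5
      rwa [map_ofNat, map_one] at h6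
    rw [h2, h4, one_mul] at h1
    exact h1
  obtain ⟨n, hn, hne⟩ := no_recurrence (Q3 * X) (mul_ne_zero hQ3 X_ne_zero)
    (N + 1 + Q3.natDegree)
  apply hne
  have h1 : ((Q3 * X : F3[X]) : PowerSeries F3) * PowerSeries.mk w3 =
      (Q3 : PowerSeries F3) * G3 - 2 • ((Q3 : PowerSeries F3) * G3 * PowerSeries.X) -
        (Q3 : PowerSeries F3) := by
    rw [Polynomial.coe_mul, Polynomial.coe_X, nsmul_eq_mul]
    push_cast
    linear_combination (-(Q3 : PowerSeries F3)) * hG
  rw [h1, map_sub, map_sub, map_nsmul, Polynomial.coeff_coe,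
    Polynomial.coeff_eq_zero_of_natDegree_lt (by omega), sub_zero, hG3 n (by omega)]
  obtain ⟨m, rfl⟩ : ∃ m, n = m + 1 := ⟨n - 1, by omega⟩
  rw [PowerSeries.coeff_succ_mul_X, hG3 m (by omega)]
  simp

end Rational

end Pool.Agent.V1110.CoreE
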