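import Mathlib

/-!
# Linear algebra for pairs of commuting square zero operators
-/

set_option autoImplicit false

namespace Pool.Agent.V1110.Core

open Module LinearMap

section Lin

variable {k V : Type} [Field k] [AddCommGroup V] [Module k V] [FiniteDimensional k V]

theorem finrank_map_le_half (X : End k V) (hX : X * X = 0) :
    2 * finrank k (range X) ≤ finrank k V := by
  have h1 := finrank_range_add_finrank_ker X
  have h2 : range X ≤ ker X := by
    rintro _ ⟨v, rfl⟩
    exact LinearMap.congr_fun hX v
  have h3 := Submodule.finrank_mono h2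
  omega

theorem four_rank_le (X Y : End k V) (hX : X * X = 0) (hY : Y * Y = 0) (hXY : X * Y = Y * X) :
    4 * finrank k (range (X * Y)) ≤ finrank k V := by
  have h1 := finrank_map_le_half X hX
  -- Y acts on range X
  have hst : ∀ v ∈ range X, Y v ∈ range X := by
    rintro _ ⟨v, rfl⟩
    exact ⟨Y v, LinearMap.congr_fun hXY v⟩
  have h2 := finrank_map_le_half (Y.restrict hst) (by
    refine LinearMap.ext fun v => ?_
    apply Subtype.ext
    exact LinearMap.congr_fun hY (v : V))
  have h3 : finrank k (range (X * Y)) = finrank k (range (Y.restrict hst)) := by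
    have h4 : (range (Y.restrict hst)).map (range X).subtype = range (X * Y) := by
      ext v
      constructor
      · rintro ⟨_, ⟨⟨_, w, rfl⟩, rfl⟩, rfl⟩
        exact ⟨w, LinearMap.congr_fun hXY w⟩
      · rintro ⟨w, rfl⟩
        exact ⟨Y.restrict hst ⟨X w, w, rfl⟩, ⟨_, rfl⟩, (LinearMap.congr_fun hXY w).symm⟩
    rw [← h4]
    exact (LinearEquiv.finrank_eq (Submodule.equivMapOfInjective _
      (range X).injective_subtype _)).symm
  omega

theorem finrank_le_four_top (X Y : End k V) (hX : X * X = 0) (hY : Y * Y = 0)
    (hXY : X * Y = Y * X) :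
    finrank k V + 4 * finrank k ↥(range X ⊔ range Y) ≤ 4 * finrank k V := by
  -- pass to the quotient by range X
  have h1 := finrank_map_le_half X hX
  have hst : range X ≤ (range X).comap Y := by
    rintro _ ⟨v, rfl⟩
    exact ⟨Y v, LinearMap.congr_fun hXY v⟩
  let Y' : End k (V ⧸ range X) := (range X).mapQ (range X) Y hst
  have h2 := finrank_map_le_half Y' (by
    refine LinearMap.ext fun v => ?_
    induction v using Submodule.Quotient.induction_on with
    | H v =>
      show Submodule.Quotient.mk (Y (Y v)) = 0
      have : Y (Y v) = 0 := LinearMap.congr_fun hY v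
      rw [this]
      rfl)
  have h3 := Submodule.finrank_quotient_add_finrank (range X)
  have h4 : range Y' = (range X ⊔ range Y).map (range X).mkQ := by
    ext v
    constructor
    · rintro ⟨w, rfl⟩
      induction w using Submodule.Quotient.induction_on with
      | H w => exact ⟨Y w, Submodule.mem_sup_right ⟨w, rfl⟩, rfl⟩
    · rintro ⟨w, hw, rfl⟩
      obtain ⟨_, ⟨a, rfl⟩, _, ⟨b, rfl⟩, rfl⟩ := Submodule.mem_sup.1 hw
      refine ⟨Submodule.Quotient.mk b, ?_⟩
      show Submodule.Quotient.mk (Y b) = Submodule.Quotient.mk (X a + Y b)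
      rw [Submodule.Quotient.mk_add,
        (Submodule.Quotient.mk_eq_zero (range X)).2 (LinearMap.mem_range_self X a), zero_add]
  have h5 : finrank k ↥((range X ⊔ range Y).map (range X).mkQ) + finrank k (range X) =
      finrank k ↥(range X ⊔ range Y) := by
    have h6 := finrank_range_add_finrank_ker ((range X).mkQ.domRestrict (range X ⊔ range Y))
    rw [LinearMap.range_domRestrict] at h6
    have h7 : finrank k (ker ((range X).mkQ.domRestrict (range X ⊔ range Y))) =
        finrank k (range X) := by
      rw [LinearMap.ker_domRestrict, Submodule.ker_mkQ]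
      exact LinearEquiv.finrank_eq (Submodule.comapSubtypeEquivOfLe le_sup_left)
    omega
  rw [h4] at h2
  omega

theorem finrank_comap_of_injective {W : Type} [AddCommGroup W] [Module k W]
    [FiniteDimensional k W] (i : V →ₗ[k] W) (hi : Function.Injective i) (S : Submodule k W) :
    finrank k (S.comap i) = finrank k ↥(S ⊓ range i) := by
  have h : (S.comap i).map i = S ⊓ range i := by
    rw [Submodule.map_comap_eq, inf_comm]
  rw [← h]
  exact LinearEquiv.finrank_eq (Submodule.equivMapOfInjective _ hi _)

theorem finrank_map_add {W : Type} [AddCommGroup W] [Module k W]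
    (q : V →ₗ[k] W) (S : Submodule k V) :
    finrank k (S.map q) + finrank k ↥(S ⊓ ker q) = finrank k S := by
  have h6 := finrank_range_add_finrank_ker (q.domRestrict S)
  rw [LinearMap.range_domRestrict] at h6
  have h7 : finrank k (ker (q.domRestrict S)) = finrank k ↥(S ⊓ ker q) := by
    rw [LinearMap.ker_domRestrict]
    have h8 : ((ker q).comap S.subtype).map S.subtype = S ⊓ ker q := by
      rw [Submodule.map_comap_subtype]
    rw [← h8]
    exact LinearEquiv.finrank_eq (Submodule.equivMapOfInjective _ S.injective_subtype _)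
  omega

end Lin

section Link

variable {k A F B : Type} [Field k] [AddCommGroup A] [Module k A] [FiniteDimensional k A]
  [AddCommGroup F] [Module k F] [FiniteDimensional k F] [AddCommGroup B] [Module k B]
  [FiniteDimensional k B]

theorem range_eq_ker (i : A →ₗ[k] F) (q : F →ₗ[k] B) (hi : Function.Injective i)
    (hq : Function.Surjective q) (hqi : q ∘ₗ i = 0)
    (hdim : finrank k A + finrank k B = finrank k F) : range i = ker q := by
  have h1 : range i ≤ ker q := by
    rintro _ ⟨a, rfl⟩
    exact LinearMap.congr_fun hqi a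
  refine Submodule.eq_of_le_of_finrank_eq h1 ?_
  have h2 := finrank_range_add_finrank_ker q
  rw [LinearMap.range_eq_top.2 hq, finrank_top] at h2
  have h3 := LinearMap.finrank_range_of_inj hi
  omega

theorem link_one (XA YA : End k A) (XF YF : End k F) (XB YB : End k B)
    (i : A →ₗ[k] F) (q : F →ₗ[k] B) (hi : Function.Injective i)
    (hq : Function.Surjective q) (hqi : q ∘ₗ i = 0)
    (hdim : finrank k A + finrank k B = finrank k F)
    (hiX : i ∘ₗ XA = XF ∘ₗ i) (hiY : i ∘ₗ YA = YF ∘ₗ i)
    (hqX : q ∘ₗ XF = XB ∘ₗ q) (hqY : q ∘ₗ YF = YB ∘ₗ q)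
    (ha : ker (XF * YF) = range XF ⊔ range YF)
    (hb : finrank k F = 4 * finrank k (range (XF * YF))) :
    (finrank k A : ℤ) - 4 * finrank k (range (XA * YA)) =
      4 * (finrank k B - finrank k ↥(range XB ⊔ range YB)) - finrank k B := by
  have hrk := range_eq_ker i q hi hq hqi hdim
  -- rank of the norm on A
  have h1 : i ∘ₗ (XA * YA) = (XF * YF) ∘ₗ i := by
    rw [Module.End.mul_eq_comp, Module.End.mul_eq_comp, ← LinearMap.comp_assoc, hiX,
      LinearMap.comp_assoc, hiY, LinearMap.comp_assoc]
  have h2 : ker (XA * YA) = (range XF ⊔ range YF).comap i := by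
    rw [← ha]
    ext v
    rw [LinearMap.mem_ker, Submodule.mem_comap, LinearMap.mem_ker]
    have h3 := LinearMap.congr_fun h1 v
    rw [LinearMap.comp_apply, LinearMap.comp_apply] at h3
    rw [← h3, map_eq_zero_iff i hi]
  have h3 := finrank_range_add_finrank_ker (XA * YA)
  rw [h2, finrank_comap_of_injective i hi, hrk] at h3
  -- top of B
  have h4 : range XB ⊔ range YB = (range XF ⊔ range YF).map q := by
    rw [Submodule.map_sup, ← LinearMap.range_comp, ← LinearMap.range_comp, hqX, hqY,
      LinearMap.range_comp_of_range_eq_top _ (LinearMap.range_eq_top.2 hq),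
      LinearMap.range_comp_of_range_eq_top _ (LinearMap.range_eq_top.2 hq)]
  have h5 := finrank_map_add q (range XF ⊔ range YF)
  rw [← h4] at h5
  have h6 := finrank_range_add_finrank_ker (XF * YF)
  rw [ha] at h6
  omega

theorem link_two (XA YA : End k A) (XF YF : End k F) (XB YB : End k B)
    (i : A →ₗ[k] F) (q : F →ₗ[k] B) (hi : Function.Injective i)
    (hq : Function.Surjective q) (hqi : q ∘ₗ i = 0)
    (hdim : finrank k A + finrank k B = finrank k F)
    (hiX : i ∘ₗ XA = XF ∘ₗ i) (hiY : i ∘ₗ YA = YF ∘ₗ i)
    (hqX : q ∘ₗ XF = XB ∘ₗ q) (hqY : q ∘ₗ YF = YB ∘ₗ q)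
    (ha' : range (XF * YF) = ker XF ⊓ ker YF)
    (hb : finrank k F = 4 * finrank k (range (XF * YF))) :
    (finrank k B : ℤ) - 4 * finrank k (range (XB * YB)) =
      4 * finrank k ↥(ker XA ⊓ ker YA) - finrank k A := by
  have hrk := range_eq_ker i q hi hq hqi hdim
  have h1 : q ∘ₗ (XF * YF) = (XB * YB) ∘ₗ q := by
    rw [Module.End.mul_eq_comp, Module.End.mul_eq_comp, ← LinearMap.comp_assoc, hqX,
      LinearMap.comp_assoc, hqY, LinearMap.comp_assoc]
  have h2 : range (XB * YB) = (range (XF * YF)).map q := by
    rw [← LinearMap.range_comp, h1,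
      LinearMap.range_comp_of_range_eq_top _ (LinearMap.range_eq_top.2 hq)]
  have h3 := finrank_map_add q (range (XF * YF))
  rw [← h2, ← hrk] at h3
  have h4 : ker XA ⊓ ker YA = (range (XF * YF)).comap i := by
    rw [ha']
    ext v
    have hx := LinearMap.congr_fun hiX v
    have hy := LinearMap.congr_fun hiY v
    rw [LinearMap.comp_apply, LinearMap.comp_apply] at hx hy
    simp only [Submodule.mem_inf, LinearMap.mem_ker, Submodule.mem_comap]
    rw [← hx, ← hy, map_eq_zero_iff i hi, map_eq_zero_iff i hi]
  have h5 := finrank_comap_of_injective i hi (range (XF * YF))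
  rw [← h4] at h5
  omega

end Link

end Pool.Agent.V1110.Core
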