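import Pool.Agent.V1110.CoreA

/-!
# Representations of the Klein four group over the field with two elements
-/

set_option autoImplicit false

namespace Pool.Agent.V1110.Core

open CategoryTheory CategoryTheory.MonoidalCategory CategoryTheory.Limits Module LinearMap

/-- The field with two elements. -/
abbrev kk : Type := ZMod 2

/-- The Klein four group. -/
abbrev GG : Type := Multiplicative (ZMod 2) × Multiplicative (ZMod 2)

/-- The category of representations. -/
abbrev RR : Type 1 := Rep.{0} kk GG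

/-- The first generator. -/
def gx : GG := (Multiplicative.ofAdd 1, 1)

/-- The second generator. -/
def gy : GG := (1, Multiplicative.ofAdd 1)

theorem gx_sq : gx * gx = 1 := by decide

theorem gy_sq : gy * gy = 1 := by decide

theorem gxy : gx * gy = gy * gx := by decide

theorem gen_ind {P : GG → Prop} (h1 : P 1) (hx : P gx) (hy : P gy) (hxy : P (gx * gy)) (g : GG) :
    P g := by
  have h : ∀ g : GG, g = 1 ∨ g = gx ∨ g = gy ∨ g = gx * gy := by decide
  rcases h g with rfl | rfl | rfl | rfl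
  · exact h1
  · exact hx
  · exact hy
  · exact hxy

theorem add_self_zero {V : Type} [AddCommGroup V] [Module kk V] (v : V) : v + v = 0 := by
  rw [← two_smul kk v]
  have : (2 : kk) = 0 := by decide
  rw [this, zero_smul]

/-- The operator `gx - 1`. -/
noncomputable def opX (A : RR) : End kk A.V := A.ρ gx + 1

/-- The operator `gy - 1`. -/
noncomputable def opY (A : RR) : End kk A.V := A.ρ gy + 1

theorem add_self_end {V : Type} [AddCommGroup V] [Module kk V] (f : End kk V) : f + f = 0 :=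
  add_self_zero f

theorem sq_zero_of {V : Type} [AddCommGroup V] [Module kk V] (f : End kk V) (h : f * f = 1) :
    (f + 1) * (f + 1) = 0 := by
  have : (f + 1) * (f + 1) = f * f + (f + f) + 1 := by noncomm_ring
  rw [this, h, add_self_end, add_zero, add_self_end]

theorem rho_gx_sq (A : RR) : A.ρ gx * A.ρ gx = 1 := by
  rw [← map_mul, gx_sq, map_one]

theorem rho_gy_sq (A : RR) : A.ρ gy * A.ρ gy = 1 := by
  rw [← map_mul, gy_sq, map_one]

theorem opX_sq (A : RR) : opX A * opX A = 0 := sq_zero_of _ (rho_gx_sq A)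

theorem opY_sq (A : RR) : opY A * opY A = 0 := sq_zero_of _ (rho_gy_sq A)

theorem opXY (A : RR) : opX A * opY A = opY A * opX A := by
  have h : A.ρ gx * A.ρ gy = A.ρ gy * A.ρ gx := by rw [← map_mul, gxy, map_mul]
  simp only [opX, opY, mul_add, add_mul, h, mul_one, one_mul]
  abel

theorem rho_gx (A : RR) : A.ρ gx = opX A + 1 := by
  rw [opX, add_assoc, add_self_end, add_zero]

theorem rho_gy (A : RR) : A.ρ gy = opY A + 1 := by
  rw [opY, add_assoc, add_self_end, add_zero]

/-- The linear map underlying a morphism. -/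
abbrev lin {A B : RR} (f : A ⟶ B) : A.V →ₗ[kk] B.V := f.hom.toLinearMap

theorem lin_rho {A B : RR} (f : A ⟶ B) (g : GG) : lin f ∘ₗ A.ρ g = B.ρ g ∘ₗ lin f :=
  f.hom.isIntertwining' g

theorem lin_opX {A B : RR} (f : A ⟶ B) : lin f ∘ₗ opX A = opX B ∘ₗ lin f := by
  rw [opX, opX, LinearMap.comp_add, LinearMap.add_comp, lin_rho]
  rfl

theorem lin_opY {A B : RR} (f : A ⟶ B) : lin f ∘ₗ opY A = opY B ∘ₗ lin f := by
  rw [opY, opY, LinearMap.comp_add, LinearMap.add_comp, lin_rho]
  rfl

/-- A linear map commuting with the two operators is a morphism. -/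
noncomputable def mkHom (A B : RR) (f : A.V →ₗ[kk] B.V) (hx : f ∘ₗ opX A = opX B ∘ₗ f)
    (hy : f ∘ₗ opY A = opY B ∘ₗ f) : A ⟶ B :=
  Rep.ofHom ⟨f, by
    have h1 : f ∘ₗ A.ρ gx = B.ρ gx ∘ₗ f := by
      rw [rho_gx, rho_gx, LinearMap.comp_add, LinearMap.add_comp, hx]
      rfl
    have h2 : f ∘ₗ A.ρ gy = B.ρ gy ∘ₗ f := by
      rw [rho_gy, rho_gy, LinearMap.comp_add, LinearMap.add_comp, hy]
      rfl
    refine gen_ind ?_ h1 h2 ?_
    · rw [map_one, map_one]
      rfl
    · rw [map_mul, map_mul, Module.End.mul_eq_comp, Module.End.mul_eq_comp,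
        ← LinearMap.comp_assoc, h1, LinearMap.comp_assoc, h2, LinearMap.comp_assoc]⟩

theorem lin_mkHom (A B : RR) (f : A.V →ₗ[kk] B.V) (hx : f ∘ₗ opX A = opX B ∘ₗ f)
    (hy : f ∘ₗ opY A = opY B ∘ₗ f) : lin (mkHom A B f hx hy) = f := rfl

theorem hom_eq {A B : RR} {f g : A ⟶ B} (h : lin f = lin g) : f = g :=
  Rep.hom_ext (Representation.IntertwiningMap.ext h)

theorem lin_id (A : RR) : lin (𝟙 A) = LinearMap.id := rfl

theorem lin_comp {A B C : RR} (f : A ⟶ B) (g : B ⟶ C) : lin (f ≫ g) = lin g ∘ₗ lin f := rfl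

theorem lin_add {A B : RR} (f g : A ⟶ B) : lin (f + g) = lin f + lin g := rfl

theorem lin_zero {A B : RR} : lin (0 : A ⟶ B) = 0 := rfl

/-- Dimension minus four times the rank of the norm. -/
noncomputable def dlt (A : RR) : ℤ :=
  (finrank kk A.V : ℤ) - 4 * finrank kk (range (opX A * opY A))

/-- Four times the dimension of the top minus the dimension. -/
noncomputable def tt (A : RR) : ℤ :=
  4 * ((finrank kk A.V : ℤ) - finrank kk ↥(range (opX A) ⊔ range (opY A))) - finrank kk A.V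

/-- Four times the dimension of the socle minus the dimension. -/
noncomputable def ss (A : RR) : ℤ :=
  4 * (finrank kk ↥(ker (opX A) ⊓ ker (opY A)) : ℤ) - finrank kk A.V

/-- The linear equivalence underlying an isomorphism. -/
noncomputable def linEquiv {A B : RR} (e : A ≅ B) : A.V ≃ₗ[kk] B.V :=
  LinearEquiv.ofLinearMap (lin e.hom) (lin e.inv)
    (by rw [← lin_comp, e.inv_hom_id]; rfl) (by rw [← lin_comp, e.hom_inv_id]; rfl)

theorem range_conj {V W : Type} [AddCommGroup V] [Module kk V] [AddCommGroup W] [Module kk W]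
    (e : V ≃ₗ[kk] W) (f : End kk V) (g : End kk W)
    (h : (e : V →ₗ[kk] W) ∘ₗ f = g ∘ₗ (e : V →ₗ[kk] W)) :
    range g = (range f).map (e : V →ₗ[kk] W) := by
  rw [← LinearMap.range_comp, h, LinearMap.range_comp_of_range_eq_top _ (LinearEquiv.range e)]

theorem ker_conj {V W : Type} [AddCommGroup V] [Module kk V] [AddCommGroup W] [Module kk W]
    (e : V ≃ₗ[kk] W) (f : End kk V) (g : End kk W)
    (h : (e : V →ₗ[kk] W) ∘ₗ f = g ∘ₗ (e : V →ₗ[kk] W)) :
    ker f = (ker g).comap (e : V →ₗ[kk] W) := by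
  ext v
  have h1 := LinearMap.congr_fun h v
  rw [LinearMap.comp_apply, LinearMap.comp_apply] at h1
  rw [Submodule.mem_comap, LinearMap.mem_ker, LinearMap.mem_ker, ← h1]
  exact (LinearEquiv.map_eq_zero_iff e).symm

theorem dlt_iso {A B : RR} (e : A ≅ B) : dlt A = dlt B := by
  have h1 := range_conj (linEquiv e) (opX A * opY A) (opX B * opY B) (by
    show lin e.hom ∘ₗ (opX A * opY A) = (opX B * opY B) ∘ₗ lin e.hom
    rw [Module.End.mul_eq_comp, Module.End.mul_eq_comp, ← LinearMap.comp_assoc, lin_opX,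
      LinearMap.comp_assoc, lin_opY, LinearMap.comp_assoc])
  rw [dlt, dlt, LinearEquiv.finrank_eq (linEquiv e), h1, LinearEquiv.finrank_map_eq]

theorem tt_iso {A B : RR} (e : A ≅ B) : tt A = tt B := by
  have h1 := range_conj (linEquiv e) (opX A) (opX B) (lin_opX e.hom)
  have h2 := range_conj (linEquiv e) (opY A) (opY B) (lin_opY e.hom)
  rw [tt, tt, LinearEquiv.finrank_eq (linEquiv e), h1, h2, ← Submodule.map_sup,
    LinearEquiv.finrank_map_eq]

theorem ss_iso {A B : RR} (e : A ≅ B) : ss A = ss B := by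
  have h1 := ker_conj (linEquiv e) (opX A) (opX B) (lin_opX e.hom)
  have h2 := ker_conj (linEquiv e) (opY A) (opY B) (lin_opY e.hom)
  have h3 : (ker (opX A) ⊓ ker (opY A)) = (ker (opX B) ⊓ ker (opY B)).comap
      (linEquiv e : A.V →ₗ[kk] B.V) := by
    rw [h1, h2, Submodule.comap_inf]
  have h4 : finrank kk ↥((ker (opX B) ⊓ ker (opY B)).comap (linEquiv e : A.V →ₗ[kk] B.V)) =
      finrank kk ↥(ker (opX B) ⊓ ker (opY B)) := by
    rw [← LinearEquiv.finrank_map_eq (linEquiv e),
      Submodule.map_comap_eq_of_surjective (linEquiv e).surjective]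
  rw [ss, ss, LinearEquiv.finrank_eq (linEquiv e), h3, h4]

section Good

/-- Higman's criterion: the identity is the trace of a linear map. -/
def Good (A : RR) : Prop :=
  ∃ h : End kk A.V, ∑ g : GG, A.ρ g * h * A.ρ g⁻¹ = 1

theorem good_tensor (A C : RR) (hA : Good A) : Good (A ⊗ C) := by
  obtain ⟨h, hh⟩ := hA
  refine ⟨TensorProduct.map h LinearMap.id, ?_⟩
  have h1 : ∀ g : GG, (A ⊗ C).ρ g * TensorProduct.map h LinearMap.id * (A ⊗ C).ρ g⁻¹ =
      TensorProduct.map (A.ρ g * h * A.ρ g⁻¹) LinearMap.id := by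
    intro g
    have h2 : C.ρ g ∘ₗ LinearMap.id ∘ₗ C.ρ g⁻¹ = LinearMap.id := by
      rw [LinearMap.id_comp]
      have : C.ρ g * C.ρ g⁻¹ = 1 := by rw [← map_mul, mul_inv_cancel, map_one]
      exact this
    show TensorProduct.map (A.ρ g) (C.ρ g) ∘ₗ TensorProduct.map h LinearMap.id ∘ₗ
      TensorProduct.map (A.ρ g⁻¹) (C.ρ g⁻¹) = _
    rw [← TensorProduct.map_comp, ← TensorProduct.map_comp, h2]
    rfl
  rw [Finset.sum_congr rfl fun g _ => h1 g]
  have h3 : ∑ g : GG, TensorProduct.map (A.ρ g * h * A.ρ g⁻¹) (LinearMap.id : C.V →ₗ[kk] C.V) =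
      TensorProduct.map (∑ g : GG, A.ρ g * h * A.ρ g⁻¹) LinearMap.id := by
    ext v w
    simp [TensorProduct.sum_tmul, LinearMap.sum_apply]
  rw [h3, hh]
  exact TensorProduct.map_id

theorem good_retract (A B : RR) (hA : Good A) (i : B ⟶ A) (p : A ⟶ B) (hip : i ≫ p = 𝟙 B) :
    Good B := by
  obtain ⟨h, hh⟩ := hA
  refine ⟨lin p ∘ₗ h ∘ₗ lin i, ?_⟩
  have h1 : ∀ g : GG, B.ρ g * (lin p ∘ₗ h ∘ₗ lin i) * B.ρ g⁻¹ =
      lin p ∘ₗ (A.ρ g * h * A.ρ g⁻¹) ∘ₗ lin i := by
    intro g
    refine LinearMap.ext fun v => ?_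
    have h2 := LinearMap.congr_fun (lin_rho p g) (h (lin i (B.ρ g⁻¹ v)))
    have h3 := LinearMap.congr_fun (lin_rho i g⁻¹) v
    show B.ρ g (lin p (h (lin i (B.ρ g⁻¹ v)))) = lin p (A.ρ g (h (A.ρ g⁻¹ (lin i v))))
    rw [LinearMap.comp_apply, LinearMap.comp_apply] at h2 h3
    rw [← h2, h3]
  rw [Finset.sum_congr rfl fun g _ => h1 g]
  have h4 : ∑ g : GG, lin p ∘ₗ (A.ρ g * h * A.ρ g⁻¹) ∘ₗ lin i =
      lin p ∘ₗ (∑ g : GG, A.ρ g * h * A.ρ g⁻¹) ∘ₗ lin i := by
    refine LinearMap.ext fun v => ?_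
    simp [LinearMap.sum_apply]
  rw [h4, hh]
  have h5 : lin (i ≫ p) = LinearMap.id := by rw [hip]; rfl
  exact h5

theorem sum_GG {M : Type} [AddCommMonoid M] (f : GG → M) :
    ∑ g : GG, f g = f 1 + f gx + f gy + f (gx * gy) := by
  have h : (Finset.univ : Finset GG) = {1, gx, gy, gx * gy} := by decide
  rw [h, Finset.sum_insert (by decide), Finset.sum_insert (by decide),
    Finset.sum_insert (by decide), Finset.sum_singleton]
  simp only [add_assoc]

theorem inv_GG (g : GG) : g⁻¹ = g := by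
  revert g
  decide

theorem opXY_eq (A : RR) : opX A * opY A = ∑ g : GG, A.ρ g := by
  rw [sum_GG, map_one, map_mul, opX, opY]
  noncomm_ring

theorem sub_mem_rad (A : RR) (g : GG) (v : A.V) :
    A.ρ g v + v ∈ range (opX A) ⊔ range (opY A) := by
  revert v
  refine gen_ind (P := fun g => ∀ v, A.ρ g v + v ∈ range (opX A) ⊔ range (opY A)) ?_ ?_ ?_ ?_ g
  · intro v
    rw [map_one]
    show v + v ∈ _
    rw [add_self_zero]
    exact Submodule.zero_mem _
  · intro v
    exact Submodule.mem_sup_left ⟨v, rfl⟩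
  · intro v
    exact Submodule.mem_sup_right ⟨v, rfl⟩
  · intro v
    have h : A.ρ (gx * gy) v + v = opX A (A.ρ gy v) + opY A v := by
      rw [map_mul]
      show A.ρ gx (A.ρ gy v) + v = (A.ρ gx (A.ρ gy v) + A.ρ gy v) + (A.ρ gy v + v)
      have h1 := add_self_zero (A.ρ gy v)
      calc A.ρ gx (A.ρ gy v) + v = A.ρ gx (A.ρ gy v) + 0 + v := by rw [add_zero]
        _ = _ := by rw [← h1]; abel
    rw [h]
    exact Submodule.add_mem _ (Submodule.mem_sup_left ⟨_, rfl⟩) (Submodule.mem_sup_right ⟨_, rfl⟩)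

theorem rad_le_ker (A : RR) : range (opX A) ⊔ range (opY A) ≤ ker (opX A * opY A) := by
  rw [sup_le_iff]
  constructor
  · rintro _ ⟨v, rfl⟩
    rw [LinearMap.mem_ker, opXY]
    show opY A (opX A (opX A v)) = 0
    have : opX A (opX A v) = 0 := LinearMap.congr_fun (opX_sq A) v
    rw [this, map_zero]
  · rintro _ ⟨v, rfl⟩
    rw [LinearMap.mem_ker]
    show opX A (opY A (opY A v)) = 0
    have : opY A (opY A v) = 0 := LinearMap.congr_fun (opY_sq A) v
    rw [this, map_zero]

theorem good_ker (A : RR) (hA : Good A) :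
    ker (opX A * opY A) = range (opX A) ⊔ range (opY A) := by
  apply le_antisymm _ (rad_le_ker A)
  intro v hv
  obtain ⟨h, hh⟩ := hA
  have h1 : v = ∑ g : GG, A.ρ g (h (A.ρ g⁻¹ v)) := by
    have := LinearMap.congr_fun hh v
    rw [LinearMap.sum_apply] at this
    exact this.symm
  have h2 : ∑ g : GG, h (A.ρ g⁻¹ v) = 0 := by
    rw [← map_sum]
    have h3 : ∑ g : GG, A.ρ g⁻¹ v = (opX A * opY A) v := by
      rw [opXY_eq, LinearMap.sum_apply]
      exact Finset.sum_congr rfl fun g _ => by rw [inv_GG]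
    rw [h3, LinearMap.mem_ker.1 hv, map_zero]
  have h3 : v = ∑ g : GG, (A.ρ g (h (A.ρ g⁻¹ v)) + h (A.ρ g⁻¹ v)) := by
    rw [Finset.sum_add_distrib, h2, add_zero, ← h1]
  rw [h3]
  exact Submodule.sum_mem _ fun g _ => sub_mem_rad A g _

theorem good_range (A : RR) (hA : Good A) :
    range (opX A * opY A) = ker (opX A) ⊓ ker (opY A) := by
  apply le_antisymm
  · rintro _ ⟨v, rfl⟩
    refine ⟨?_, ?_⟩
    · exact LinearMap.congr_fun (opX_sq A) (opY A v)
    · rw [opXY]
      exact LinearMap.congr_fun (opY_sq A) (opX A v)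
  · rintro v ⟨hx, hy⟩
    obtain ⟨h, hh⟩ := hA
    have hfix : ∀ g : GG, A.ρ g v = v := by
      have h1 : A.ρ gx v = v := by
        rw [rho_gx]
        show opX A v + v = v
        have : opX A v = 0 := hx
        rw [this, zero_add]
      have h2 : A.ρ gy v = v := by
        rw [rho_gy]
        show opY A v + v = v
        have : opY A v = 0 := hy
        rw [this, zero_add]
      refine gen_ind ?_ h1 h2 ?_
      · rw [map_one]
        rfl
      · rw [map_mul]
        show A.ρ gx (A.ρ gy v) = v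
        rw [h2, h1]
    refine ⟨h v, ?_⟩
    have h1 : v = ∑ g : GG, A.ρ g (h (A.ρ g⁻¹ v)) := by
      have := LinearMap.congr_fun hh v
      rw [LinearMap.sum_apply] at this
      exact this.symm
    conv_rhs => rw [h1]
    rw [opXY_eq, LinearMap.sum_apply]
    exact Finset.sum_congr rfl fun g _ => by rw [hfix]

theorem good_dim (A : RR) [FiniteDimensional kk A.V] (hA : Good A) :
    finrank kk A.V = 4 * finrank kk (range (opX A * opY A)) := by
  have h1 := four_rank_le (opX A) (opY A) (opX_sq A) (opY_sq A) (opXY A)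
  have h2 := finrank_le_four_top (opX A) (opY A) (opX_sq A) (opY_sq A) (opXY A)
  have h3 := finrank_range_add_finrank_ker (opX A * opY A)
  rw [good_ker A hA] at h3
  omega

theorem dlt_good (A : RR) [FiniteDimensional kk A.V] (hA : Good A) : dlt A = 0 := by
  rw [dlt]
  have := good_dim A hA
  omega

end Good

end Pool.Agent.V1110.Core
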