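import Pool.Agent.V1110.CoreB

/-!
# Links, free modules and cores
-/

set_option autoImplicit false

namespace Pool.Agent.V1110.Core

open CategoryTheory CategoryTheory.MonoidalCategory CategoryTheory.Limits Module LinearMap

/-- `A` is a syzygy of `B`: there is a short exact sequence `0 → A → F → B → 0` with `F` good. -/
def Link (A B : RR) : Prop :=
  ∃ (F : RR) (i : A ⟶ F) (q : F ⟶ B), Good F ∧ FiniteDimensional kk F.V ∧
    Function.Injective (lin i) ∧ Function.Surjective (lin q) ∧ lin q ∘ₗ lin i = 0 ∧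
    finrank kk A.V + finrank kk B.V = finrank kk F.V

theorem link_dlt {A B : RR} [FiniteDimensional kk A.V] [FiniteDimensional kk B.V]
    (h : Link A B) : dlt A = tt B ∧ dlt B = ss A := by
  obtain ⟨F, i, q, hF, hfd, hi, hq, hqi, hdim⟩ := h
  exact ⟨link_one _ _ (opX F) (opY F) _ _ (lin i) (lin q) hi hq hqi hdim (lin_opX i) (lin_opY i)
      (lin_opX q) (lin_opY q) (good_ker F hF) (good_dim F hF),
    link_two _ _ (opX F) (opY F) _ _ (lin i) (lin q) hi hq hqi hdim (lin_opX i) (lin_opY i)
      (lin_opX q) (lin_opY q) (good_range F hF) (good_dim F hF)⟩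

instance fd_tensor (A C : RR) [FiniteDimensional kk A.V] [FiniteDimensional kk C.V] :
    FiniteDimensional kk (A ⊗ C : RR).V :=
  inferInstanceAs (FiniteDimensional kk (TensorProduct kk A.V C.V))

theorem finrank_tensor (A C : RR) :
    finrank kk (A ⊗ C : RR).V = finrank kk A.V * finrank kk C.V :=
  Module.finrank_tensorProduct

theorem link_tensor {A B : RR} (C : RR) [FiniteDimensional kk C.V] (h : Link A B) :
    Link (A ⊗ C) (B ⊗ C) := by
  obtain ⟨F, i, q, hF, hfd, hi, hq, hqi, hdim⟩ := h
  refine ⟨F ⊗ C, i ▷ C, q ▷ C, good_tensor F C hF, inferInstance, ?_, ?_, ?_, ?_⟩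
  · exact Module.Flat.rTensor_preserves_injective_linearMap (lin i) hi
  · exact LinearMap.rTensor_surjective C.V hq
  · show (lin q).rTensor C.V ∘ₗ (lin i).rTensor C.V = 0
    rw [← LinearMap.rTensor_comp, hqi, LinearMap.rTensor_zero]
  · rw [finrank_tensor, finrank_tensor, finrank_tensor, ← add_mul, hdim]

theorem link_iso_left {A A' B : RR} (e : A ≅ A') (h : Link A B) : Link A' B := by
  obtain ⟨F, i, q, hF, hfd, hi, hq, hqi, hdim⟩ := h
  refine ⟨F, e.inv ≫ i, q, hF, hfd, ?_, hq, ?_, ?_⟩
  · exact hi.comp (linEquiv e).symm.injective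
  · rw [lin_comp, ← LinearMap.comp_assoc, hqi, LinearMap.zero_comp]
  · rw [← LinearEquiv.finrank_eq (linEquiv e), hdim]

/-- The product of two submodules as a module. -/
def prodEq {V W : Type} [AddCommGroup V] [Module kk V] [AddCommGroup W] [Module kk W]
    (p : Submodule kk V) (q : Submodule kk W) : (p.prod q) ≃ₗ[kk] p × q where
  toFun x := (⟨x.1.1, x.2.1⟩, ⟨x.1.2, x.2.2⟩)
  invFun x := ⟨(x.1.1, x.2.1), x.1.2, x.2.2⟩
  left_inv _ := rfl
  right_inv _ := rfl
  map_add' _ _ := rfl
  map_smul' _ _ := rfl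

theorem finrank_data {A B C : RR} [FiniteDimensional kk A.V] [FiniteDimensional kk B.V]
    (i : A ⟶ C) (j : B ⟶ C) (p : C ⟶ A) (q : C ⟶ B)
    (hip : i ≫ p = 𝟙 A) (hjq : j ≫ q = 𝟙 B) (hiq : i ≫ q = 0) (hjp : j ≫ p = 0)
    (htot : p ≫ i + q ≫ j = 𝟙 C) :
    finrank kk C.V = finrank kk A.V + finrank kk B.V ∧ dlt C = dlt A + dlt B := by
  have h1 : lin p ∘ₗ lin i = LinearMap.id := by rw [← lin_comp, hip, lin_id]
  have h2 : lin q ∘ₗ lin j = LinearMap.id := by rw [← lin_comp, hjq, lin_id]
  have h3 : lin q ∘ₗ lin i = 0 := by rw [← lin_comp, hiq, lin_zero]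
  have h4 : lin p ∘ₗ lin j = 0 := by rw [← lin_comp, hjp, lin_zero]
  have h5 : lin i ∘ₗ lin p + lin j ∘ₗ lin q = LinearMap.id := by
    rw [← lin_comp, ← lin_comp, ← lin_add, htot, lin_id]
  let e : C.V ≃ₗ[kk] A.V × B.V :=
    LinearEquiv.ofLinearMap ((lin p).prod (lin q)) ((lin i).coprod (lin j))
      (by
        refine LinearMap.ext fun v => Prod.ext ?_ ?_
        · have k1 := LinearMap.congr_fun h1 v.1
          have k2 := LinearMap.congr_fun h4 v.2
          show lin p (lin i v.1 + lin j v.2) = v.1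
          rw [map_add]
          erw [k1, k2]
          exact add_zero _
        · have k1 := LinearMap.congr_fun h3 v.1
          have k2 := LinearMap.congr_fun h2 v.2
          show lin q (lin i v.1 + lin j v.2) = v.2
          rw [map_add]
          erw [k1, k2]
          exact zero_add _)
      (by
        refine LinearMap.ext fun v => ?_
        exact LinearMap.congr_fun h5 v)
  have hnu : (e : C.V →ₗ[kk] A.V × B.V) ∘ₗ (opX C * opY C) =
      ((opX A * opY A).prodMap (opX B * opY B)) ∘ₗ (e : C.V →ₗ[kk] A.V × B.V) := by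
    refine LinearMap.ext fun v => Prod.ext ?_ ?_
    · show lin p (opX C (opY C v)) = opX A (opY A (lin p v))
      have k1 := LinearMap.congr_fun (lin_opX p) (opY C v)
      have k2 := LinearMap.congr_fun (lin_opY p) v
      exact k1.trans (congrArg (opX A) k2)
    · show lin q (opX C (opY C v)) = opX B (opY B (lin q v))
      have k1 := LinearMap.congr_fun (lin_opX q) (opY C v)
      have k2 := LinearMap.congr_fun (lin_opY q) v
      exact k1.trans (congrArg (opX B) k2)
  have h6 := range_conj e _ _ hnu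
  have h7 : finrank kk (range (opX C * opY C)) = finrank kk (range (opX A * opY A)) +
      finrank kk (range (opX B * opY B)) := by
    rw [← LinearEquiv.finrank_map_eq e, ← h6, LinearMap.range_prodMap]
    rw [LinearEquiv.finrank_eq (prodEq _ _), Module.finrank_prod]
  have h8 : finrank kk C.V = finrank kk A.V + finrank kk B.V := by
    rw [LinearEquiv.finrank_eq e, Module.finrank_prod]
  refine ⟨h8, ?_⟩
  rw [dlt, dlt, dlt, h7, h8]
  push_cast
  ring

section MkRep

variable {V : Type} [AddCommGroup V] [Module kk V]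

/-- The homomorphism sending the generator to `1 + X`. -/
noncomputable def pw (X : End kk V) (hX : X * X = 0) :
    Multiplicative (ZMod 2) →* End kk V where
  toFun a := (X + 1) ^ (ZMod.val a.toAdd)
  map_one' := by simp
  map_mul' a b := by
    have h : (X + 1) ^ 2 = 1 := by
      have h1 : (X + 1) ^ 2 = X * X + (X + X) + 1 := by noncomm_ring
      rw [h1, hX, add_self_end, zero_add, zero_add]
    rw [toAdd_mul, ZMod.val_add, ← pow_add, ← pow_eq_pow_mod _ h]

theorem pw_commute (X Y : End kk V) (hX : X * X = 0) (hY : Y * Y = 0) (hXY : X * Y = Y * X)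
    (a b : Multiplicative (ZMod 2)) : Commute (pw X hX a) (pw Y hY b) := by
  have h : Commute (X + 1) (Y + 1) := by
    show (X + 1) * (Y + 1) = (Y + 1) * (X + 1)
    simp only [mul_add, add_mul, hXY, mul_one, one_mul]
    abel
  exact h.pow_pow _ _

/-- The representation given by two commuting operators of square zero. -/
noncomputable def mkRep (X Y : End kk V) (hX : X * X = 0) (hY : Y * Y = 0)
    (hXY : X * Y = Y * X) : RR :=
  Rep.of (MonoidHom.noncommCoprod (pw X hX) (pw Y hY) (pw_commute X Y hX hY hXY))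

theorem opX_mkRep (X Y : End kk V) (hX : X * X = 0) (hY : Y * Y = 0)
    (hXY : X * Y = Y * X) : opX (mkRep X Y hX hY hXY) = X := by
  show pw X hX (Multiplicative.ofAdd 1) * pw Y hY 1 + 1 = X
  rw [map_one (pw Y hY), mul_one]
  show (X + 1) ^ (ZMod.val (1 : ZMod 2)) + 1 = X
  have : ZMod.val (1 : ZMod 2) = 1 := rfl
  rw [this, pow_one, add_assoc, add_self_end, add_zero]

theorem opY_mkRep (X Y : End kk V) (hX : X * X = 0) (hY : Y * Y = 0)
    (hXY : X * Y = Y * X) : opY (mkRep X Y hX hY hXY) = Y := by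
  show pw X hX 1 * pw Y hY (Multiplicative.ofAdd 1) + 1 = Y
  rw [map_one (pw X hX), one_mul]
  show (Y + 1) ^ (ZMod.val (1 : ZMod 2)) + 1 = Y
  have : ZMod.val (1 : ZMod 2) = 1 := rfl
  rw [this, pow_one, add_assoc, add_self_end, add_zero]

end MkRep

section Free

variable (R : Type) [AddCommGroup R] [Module kk R]

/-- The operator `X` on the free module. -/
def frX : End kk (R × R × R × R) where
  toFun v := (0, v.1, 0, v.2.2.1)
  map_add' _ _ := by simp
  map_smul' _ _ := by simp

/-- The operator `Y` on the free module. -/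
def frY : End kk (R × R × R × R) where
  toFun v := (0, 0, v.1, v.2.1)
  map_add' _ _ := by simp
  map_smul' _ _ := by simp

/-- The free module on a vector space. -/
noncomputable def Fr : RR := mkRep (frX R) (frY R) rfl rfl rfl

theorem opX_Fr : opX (Fr R) = frX R := opX_mkRep _ _ _ _ _

theorem opY_Fr : opY (Fr R) = frY R := opY_mkRep _ _ _ _ _

variable {R}

/-- The linear map underlying the extension. -/
noncomputable def frLin (A : RR) (φ : R →ₗ[kk] A.V) : (R × R × R × R) →ₗ[kk] A.V where
  toFun v := φ v.1 + opX A (φ v.2.1) + opY A (φ v.2.2.1) + opX A (opY A (φ v.2.2.2))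
  map_add' a b := by
    simp only [Prod.fst_add, Prod.snd_add, map_add]
    abel
  map_smul' c a := by
    simp only [Prod.smul_fst, Prod.smul_snd, map_smul, RingHom.id_apply, smul_add]

/-- A linear map from `R` extends to the free module. -/
noncomputable def frLift (A : RR) (φ : R →ₗ[kk] A.V) : Fr R ⟶ A :=
  mkHom (Fr R) A (frLin A φ)
    (by
      rw [opX_Fr]
      refine LinearMap.ext fun v => ?_
      show φ 0 + opX A (φ v.1) + opY A (φ 0) + opX A (opY A (φ v.2.2.1)) =
        opX A (φ v.1 + opX A (φ v.2.1) + opY A (φ v.2.2.1) + opX A (opY A (φ v.2.2.2)))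
      have h1 : ∀ w, opX A (opX A w) = 0 := fun w => LinearMap.congr_fun (opX_sq A) w
      simp only [map_zero, map_add, h1]
      abel)
    (by
      rw [opY_Fr]
      refine LinearMap.ext fun v => ?_
      show φ 0 + opX A (φ 0) + opY A (φ v.1) + opX A (opY A (φ v.2.1)) =
        opY A (φ v.1 + opX A (φ v.2.1) + opY A (φ v.2.2.1) + opX A (opY A (φ v.2.2.2)))
      have h1 : ∀ w, opY A (opY A w) = 0 := fun w => LinearMap.congr_fun (opY_sq A) w
      have h2 : ∀ w, opY A (opX A w) = opX A (opY A w) := fun w =>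
        (LinearMap.congr_fun (opXY A) w).symm
      simp only [map_zero, map_add, h2, h1]
      abel)

theorem frLift_apply (A : RR) (φ : R →ₗ[kk] A.V) (v : R × R × R × R) :
    lin (frLift A φ) v = φ v.1 + opX A (φ v.2.1) + opY A (φ v.2.2.1) +
        opX A (opY A (φ v.2.2.2)) := rfl

/-- The inclusion of the generators. -/
def frInl : R →ₗ[kk] R × R × R × R where
  toFun a := (a, 0, 0, 0)
  map_add' _ _ := by simp
  map_smul' _ _ := by simp

theorem frLift_unique (A : RR) (f : Fr R ⟶ A) : f = frLift A (lin f ∘ₗ frInl) := by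
  apply hom_eq
  refine LinearMap.ext fun v => ?_
  obtain ⟨a, b, c, d⟩ := (v : R × R × R × R)
  rw [frLift_apply]
  have hx := fun w : R × R × R × R => LinearMap.congr_fun (lin_opX f) w
  have hy := fun w : R × R × R × R => LinearMap.congr_fun (lin_opY f) w
  rw [opX_Fr] at hx
  rw [opY_Fr] at hy
  have h1 : opX A (lin f (b, 0, 0, 0)) = lin f ((0, b, 0, 0) : R × R × R × R) :=
    (hx (b, 0, 0, 0)).symm
  have h2 : opY A (lin f (c, 0, 0, 0)) = lin f ((0, 0, c, 0) : R × R × R × R) :=
    (hy (c, 0, 0, 0)).symm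
  have h3 : opX A (opY A (lin f (d, 0, 0, 0))) = lin f ((0, 0, 0, d) : R × R × R × R) := by
    have h4 : opY A (lin f (d, 0, 0, 0)) = lin f ((0, 0, d, 0) : R × R × R × R) :=
      (hy (d, 0, 0, 0)).symm
    rw [h4]
    exact (hx (0, 0, d, 0)).symm
  show lin f (a, b, c, d) = lin f (a, 0, 0, 0) + opX A (lin f (b, 0, 0, 0)) +
    opY A (lin f (c, 0, 0, 0)) + opX A (opY A (lin f (d, 0, 0, 0)))
  rw [h1, h2, h3, ← map_add, ← map_add, ← map_add]
  have key : ((a, b, c, d) : R × R × R × R) = ((a, 0, 0, 0) : R × R × R × R) +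
      ((0, b, 0, 0) : R × R × R × R) + ((0, 0, c, 0) : R × R × R × R) +
      ((0, 0, 0, d) : R × R × R × R) := by simp
  exact congrArg (lin f) key

theorem fr_projective : Projective (Fr R) := by
  refine ⟨fun {E X} f e he => ?_⟩
  have hs : Function.Surjective (lin e) := (Rep.epi_iff_surjective e).1 he
  obtain ⟨φ, hφ⟩ := Module.projective_lifting_property (lin e) (lin f ∘ₗ frInl) hs
  refine ⟨frLift E φ, ?_⟩
  rw [frLift_unique X f]
  apply hom_eq
  refine LinearMap.ext fun v => ?_
  have h1 : ∀ r, lin e (φ r) = (lin f ∘ₗ frInl) r := fun r => LinearMap.congr_fun hφ r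
  have hx := fun w => LinearMap.congr_fun (lin_opX e) w
  have hy := fun w => LinearMap.congr_fun (lin_opY e) w
  simp only [LinearMap.comp_apply] at hx hy
  rw [frLift_apply, lin_comp, LinearMap.comp_apply, frLift_apply]
  simp only [map_add, hx, hy, h1]

/-- The trace operator. -/
def frH : End kk (R × R × R × R) where
  toFun v := (v.1 + v.2.1 + v.2.2.1 + v.2.2.2, 0, 0, 0)
  map_add' a b := by
    refine Prod.ext ?_ ?_
    · simp only [Prod.fst_add, Prod.snd_add]
      abel
    · simp
  map_smul' c a := by simp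

theorem fr_trace : (1 * frH * 1 + (frX R + 1) * frH * (frX R + 1) +
    (frY R + 1) * frH * (frY R + 1) +
      (frX R + 1) * (frY R + 1) * frH * ((frX R + 1) * (frY R + 1)) :
        End kk (R × R × R × R)) = 1 := by
  refine LinearMap.ext fun v => ?_
  obtain ⟨a, b, c, d⟩ := v
  have ha := add_self_zero a
  have hb := add_self_zero b
  have hc := add_self_zero c
  have hd := add_self_zero d
  simp only [LinearMap.add_apply, Module.End.mul_apply, Module.End.one_apply, frX, frY, frH,
    LinearMap.coe_mk, AddHom.coe_mk, Prod.mk_add_mk, Prod.mk.injEq]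
  refine ⟨?_, ?_, ?_, ?_⟩
  · linear_combination (norm := abel) (4 : ℤ) • ha + (3 : ℤ) • hb + (3 : ℤ) • hc + (2 : ℤ) • hd
  · linear_combination (norm := abel) (3 : ℤ) • ha + (1 : ℤ) • hb + (2 : ℤ) • hc + (1 : ℤ) • hd
  · linear_combination (norm := abel) (3 : ℤ) • ha + (2 : ℤ) • hb + (1 : ℤ) • hc + (1 : ℤ) • hd
  · linear_combination (norm := abel) (2 : ℤ) • ha + (1 : ℤ) • hb + (1 : ℤ) • hc

theorem fr_good : Good (Fr R) := by
  refine ⟨frH, ?_⟩
  rw [sum_GG, inv_GG, inv_GG, inv_GG, inv_GG, map_one, map_mul, rho_gx, rho_gy, opX_Fr, opY_Fr]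
  exact fr_trace

instance fr_fd [FiniteDimensional kk R] : FiniteDimensional kk (Fr R).V :=
  inferInstanceAs (FiniteDimensional kk (R × R × R × R))

theorem fr_finrank [FiniteDimensional kk R] : finrank kk (Fr R).V = 4 * finrank kk R := by
  show finrank kk (R × R × R × R) = _
  rw [Module.finrank_prod, Module.finrank_prod, Module.finrank_prod]
  ring

end Free

section Core

theorem projective_good (P : RR) (hP : Projective P) : Good P := by
  let e : Fr P.V ⟶ P := frLift P LinearMap.id
  have he : Epi e := by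
    rw [Rep.epi_iff_surjective]
    intro v
    refine ⟨((v, 0, 0, 0) : P.V × P.V × P.V × P.V), ?_⟩
    show LinearMap.id v + opX P (LinearMap.id 0) + opY P (LinearMap.id 0) +
      opX P (opY P (LinearMap.id 0)) = v
    simp
  exact good_retract (Fr P.V) P fr_good (Projective.factorThru (𝟙 P) e) e
    (Projective.factorThru_comp _ _)

theorem biprod_data (A B : RR) [FiniteDimensional kk A.V] [FiniteDimensional kk B.V] :
    finrank kk (A ⊞ B).V = finrank kk A.V + finrank kk B.V ∧ dlt (A ⊞ B) = dlt A + dlt B :=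
  finrank_data biprod.inl biprod.inr biprod.fst biprod.snd (by simp) (by simp) (by simp)
    (by simp) biprod.total

theorem fd_of_mono {A B : RR} (f : A ⟶ B) (hf : Function.Injective (lin f))
    [FiniteDimensional kk B.V] : FiniteDimensional kk A.V :=
  Module.Finite.of_injective (lin f) hf

theorem fd_of_split {A B : RR} (i : A ⟶ B) (p : B ⟶ A) (h : i ≫ p = 𝟙 A)
    [FiniteDimensional kk B.V] : FiniteDimensional kk A.V := by
  refine fd_of_mono i ?_
  intro a b hab
  have h1 : lin p ∘ₗ lin i = LinearMap.id := by rw [← lin_comp, h, lin_id]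
  have h2 := LinearMap.congr_fun h1 a
  have h3 := LinearMap.congr_fun h1 b
  rw [LinearMap.comp_apply] at h2 h3
  rw [hab] at h2
  exact h2.symm.trans h3

theorem dlt_le (A N P : RR) [FiniteDimensional kk A.V] (hP : Projective P) (e : A ≅ N ⊞ P) :
    dlt A ≤ finrank kk N.V := by
  have h1 : FiniteDimensional kk N.V :=
    fd_of_split (biprod.inl ≫ e.inv) (e.hom ≫ biprod.fst) (by simp)
  have h2 : FiniteDimensional kk P.V :=
    fd_of_split (biprod.inr ≫ e.inv) (e.hom ≫ biprod.snd) (by simp)
  have h3 := (biprod_data N P).2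
  rw [dlt_iso e, h3, dlt_good P (projective_good P hP), dlt]
  omega

theorem exists_core (A : RR) [FiniteDimensional kk A.V] :
    ∃ N P : RR, Projective P ∧ Nonempty (A ≅ N ⊞ P) ∧ (finrank kk N.V : ℤ) = dlt A := by
  let ν : End kk A.V := opX A * opY A
  let R : Submodule kk A.V := range ν
  obtain ⟨σ, hσ⟩ := ν.rangeRestrict.exists_rightInverse_of_surjective
    (LinearMap.range_rangeRestrict ν)
  obtain ⟨π, hπ⟩ := R.subtype.exists_leftInverse_of_injective R.ker_subtype
  have hσ' : ∀ r : R, opX A (opY A (σ r)) = r := fun r =>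
    congrArg Subtype.val (LinearMap.congr_fun hσ r)
  have hπ' : ∀ r : R, π r = r := fun r => LinearMap.congr_fun hπ r
  let a : Fr R ⟶ A := frLift A σ
  have hxx : ∀ w, opX A (opX A w) = 0 := fun w => LinearMap.congr_fun (opX_sq A) w
  have hyy : ∀ w, opY A (opY A w) = 0 := fun w => LinearMap.congr_fun (opY_sq A) w
  have hyx : ∀ w, opY A (opX A w) = opX A (opY A w) := fun w =>
    (LinearMap.congr_fun (opXY A) w).symm
  let bl : A.V →ₗ[kk] R × R × R × R :=
    (π ∘ₗ opX A ∘ₗ opY A).prod ((π ∘ₗ opY A).prod ((π ∘ₗ opX A).prod π))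
  let b : A ⟶ Fr R := mkHom A (Fr R) bl
    (by
      rw [opX_Fr]
      refine LinearMap.ext fun v => ?_
      show ((π (opX A (opY A (opX A v))), π (opY A (opX A v)), π (opX A (opX A v)),
        π (opX A v)) : R × R × R × R) = (0, π (opX A (opY A v)), 0, π (opX A v))
      rw [hyx, hxx, hxx, map_zero])
    (by
      rw [opY_Fr]
      refine LinearMap.ext fun v => ?_
      show ((π (opX A (opY A (opY A v))), π (opY A (opY A v)), π (opX A (opY A v)),
        π (opY A v)) : R × R × R × R) = (0, 0, π (opX A (opY A v)), π (opY A v))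
      rw [hyy, map_zero, map_zero])
  have ht : Function.Injective (lin (a ≫ b)) := by
    rw [injective_iff_map_eq_zero]
    intro v hv
    obtain ⟨r1, r2, r3, r4⟩ := (v : R × R × R × R)
    let m : A.V := σ r1 + opX A (σ r2) + opY A (σ r3) + opX A (opY A (σ r4))
    have hm : (bl m : R × R × R × R) = 0 := hv
    have e1 : π (opX A (opY A m)) = 0 := congrArg Prod.fst hm
    have e2 : π (opY A m) = 0 := congrArg (fun w => w.2.1) hm
    have e3 : π (opX A m) = 0 := congrArg (fun w => w.2.2.1) hm
    have e4 : π m = 0 := congrArg (fun w => w.2.2.2) hm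
    have hxr : ∀ r : R, opX A (r : A.V) = 0 := fun r => by rw [← hσ' r, hxx]
    have hyr : ∀ r : R, opY A (r : A.V) = 0 := fun r => by rw [← hσ' r, hyx, hyy, map_zero]
    have f1 : opX A (opY A m) = r1 := by
      simp only [m, map_add, hyx, hyy, map_zero, add_zero, hσ', hxr, hyr]
    have g1 : r1 = 0 := by
      rw [f1, hπ'] at e1
      exact e1
    have f2 : opY A m = r2 := by
      simp only [m, map_add, hyx, hyy, map_zero, add_zero, hσ', g1, zero_add, hyr]
    have g2 : r2 = 0 := by
      rw [f2, hπ'] at e2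
      exact e2
    have f3 : opX A m = r3 := by
      simp only [m, map_add, hxx, map_zero, add_zero, hσ', g1, zero_add, hxr]
    have g3 : r3 = 0 := by
      rw [f3, hπ'] at e3
      exact e3
    have f4 : m = r4 := by
      simp only [m, map_zero, g1, g2, g3, zero_add, hσ']
    have g4 : r4 = 0 := by
      rw [f4, hπ'] at e4
      exact e4
    rw [g1, g2, g3, g4]
    rfl
  have hmono : Mono (a ≫ b) := (Rep.mono_iff_injective _).2 ht
  have hepi : Epi (a ≫ b) :=
    (Rep.epi_iff_surjective _).2 (LinearMap.injective_iff_surjective.1 ht)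
  have hiso : IsIso (a ≫ b) := isIso_of_mono_of_epi _
  let i : Fr R ⟶ A := inv (a ≫ b) ≫ a
  have hib : i ≫ b = 𝟙 _ := by
    show (inv (a ≫ b) ≫ a) ≫ b = 𝟙 _
    rw [Category.assoc, IsIso.inv_hom_id]
  let j : kernel b ⟶ A := kernel.ι b
  let q : A ⟶ kernel b := kernel.lift b (𝟙 A - b ≫ i) (by
    rw [Preadditive.sub_comp, Category.assoc, hib, Category.comp_id, Category.id_comp, sub_self])
  have hq : q ≫ j = 𝟙 A - b ≫ i := kernel.lift_ι _ _ _
  have hjb : j ≫ b = 0 := kernel.condition b
  have hjq : j ≫ q = 𝟙 _ := by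
    rw [← cancel_mono j, Category.assoc, hq, Preadditive.comp_sub, Category.comp_id,
      ← Category.assoc, hjb, Limits.zero_comp, sub_zero, Category.id_comp]
  have hiq : i ≫ q = 0 := by
    rw [← cancel_mono j, Category.assoc, hq, Preadditive.comp_sub, Category.comp_id,
      ← Category.assoc, hib, Category.id_comp, sub_self, Limits.zero_comp]
  have htot : q ≫ j + b ≫ i = 𝟙 A := by
    rw [hq, sub_add_cancel]
  have hfd : FiniteDimensional kk (kernel b).V := fd_of_split j q hjq
  have hdata := finrank_data j i q b hjq hib hjb hiq htot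
  refine ⟨kernel b, Fr R, fr_projective, ⟨?_⟩, ?_⟩
  · exact {
      hom := biprod.lift q b
      inv := biprod.desc j i
      hom_inv_id := by rw [biprod.lift_desc, htot]
      inv_hom_id := by
        apply biprod.hom_ext'
        · apply biprod.hom_ext <;> simp [hjq, hjb]
        · apply biprod.hom_ext <;> simp [hiq, hib] }
  · have h1 := hdata.1
    rw [fr_finrank] at h1
    rw [dlt]
    have h2 : finrank kk R = finrank kk (range (opX A * opY A)) := rfl
    omega

theorem core_sInf (A : RR) [FiniteDimensional kk A.V] :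
    ((sInf {d : ℕ | ∃ N P' : RR, Projective P' ∧ Nonempty (A ≅ N ⊞ P') ∧
      finrank kk N.V = d} : ℕ) : ℤ) = dlt A := by
  obtain ⟨N, P, hP, he, hN⟩ := exists_core A
  have hmem : finrank kk N.V ∈ {d : ℕ | ∃ N P' : RR, Projective P' ∧ Nonempty (A ≅ N ⊞ P') ∧
      finrank kk N.V = d} := ⟨N, P, hP, he, rfl⟩
  have h1 := Nat.sInf_le hmem
  obtain ⟨N', P', hP', ⟨e'⟩, hN'⟩ := Nat.sInf_mem ⟨_, hmem⟩
  have h2 := dlt_le A N' P' hP' e'
  rw [hN'] at h2
  omega

end Core

end Pool.Agent.V1110.Core
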