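import Mathlib

/-!
Path algebras of finite quivers, and some computations in type D₄.
-/

set_option autoImplicit false

namespace Pool.Agent.V1110.He

universe u

/-- The relations of the path algebra of the quiver with vertices `Fin n`, arrows `Fin e` and source
and target maps `s` and `t`: the generators `Sum.inl i` are the trivial paths, the generators
`Sum.inr a` are the arrows. -/
inductive PRel (k : Type u) [Field k] {n e : ℕ} (s t : Fin e → Fin n) :
    FreeAlgebra k (Fin n ⊕ Fin e) → FreeAlgebra k (Fin n ⊕ Fin e) → Prop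
  | idem (i : Fin n) : PRel k s t
      (FreeAlgebra.ι k (Sum.inl i) * FreeAlgebra.ι k (Sum.inl i)) (FreeAlgebra.ι k (Sum.inl i))
  | orth (i j : Fin n) (h : i ≠ j) : PRel k s t
      (FreeAlgebra.ι k (Sum.inl i) * FreeAlgebra.ι k (Sum.inl j)) 0
  | one : PRel k s t (∑ i : Fin n, FreeAlgebra.ι k (Sum.inl i)) 1
  | src (a : Fin e) : PRel k s t
      (FreeAlgebra.ι k (Sum.inr a) * FreeAlgebra.ι k (Sum.inl (s a))) (FreeAlgebra.ι k (Sum.inr a))
  | tgt (a : Fin e) : PRel k s t
      (FreeAlgebra.ι k (Sum.inl (t a)) * FreeAlgebra.ι k (Sum.inr a)) (FreeAlgebra.ι k (Sum.inr a))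

/-- The path algebra. -/
def PathAlg (k : Type u) [Field k] {n e : ℕ} (s t : Fin e → Fin n) : Type u :=
  RingQuot (PRel k s t)

variable (k : Type u) [Field k] {n e : ℕ} (s t : Fin e → Fin n)

/-- Its ring structure. -/
noncomputable def paRing : Ring (PathAlg k s t) := RingQuot.instRing (PRel k s t)

noncomputable instance instRingPA : Ring (PathAlg k s t) := paRing k s t

/-- Its algebra structure. -/
noncomputable def paAlg : Algebra k (PathAlg k s t) := RingQuot.instAlgebra (PRel k s t)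

noncomputable instance instAlgPA : Algebra k (PathAlg k s t) := paAlg k s t

/-- The quotient map. -/
noncomputable def mkP : FreeAlgebra k (Fin n ⊕ Fin e) →ₐ[k] PathAlg k s t :=
  RingQuot.mkAlgHom k (PRel k s t)

/-- Trivial paths. -/
noncomputable def ep (i : Fin n) : PathAlg k s t := mkP k s t (FreeAlgebra.ι k (Sum.inl i))

/-- Arrows. -/
noncomputable def ar (a : Fin e) : PathAlg k s t := mkP k s t (FreeAlgebra.ι k (Sum.inr a))

theorem mkP_surj : Function.Surjective (mkP k s t) := RingQuot.mkAlgHom_surjective k (PRel k s t)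

theorem ep_mul_self (i : Fin n) : ep k s t i * ep k s t i = ep k s t i := by
  rw [ep, ← map_mul]
  exact RingQuot.mkAlgHom_rel k (PRel.idem (k := k) (s := s) (t := t) i)

theorem ep_mul_ne {i j : Fin n} (h : i ≠ j) : ep k s t i * ep k s t j = 0 := by
  rw [ep, ep, ← map_mul]
  have := RingQuot.mkAlgHom_rel k (PRel.orth (k := k) (s := s) (t := t) i j h)
  rw [map_zero] at this
  exact this

theorem ar_src (a : Fin e) : ar k s t a * ep k s t (s a) = ar k s t a := by
  rw [ar, ep, ← map_mul]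
  exact RingQuot.mkAlgHom_rel k (PRel.src (k := k) (s := s) (t := t) a)

theorem ar_tgt (a : Fin e) : ep k s t (t a) * ar k s t a = ar k s t a := by
  rw [ar, ep, ← map_mul]
  exact RingQuot.mkAlgHom_rel k (PRel.tgt (k := k) (s := s) (t := t) a)

/-- Induction principle. -/
theorem pind {C : PathAlg k s t → Prop} (h0 : ∀ c : k, C (algebraMap k _ c))
    (h1 : ∀ i, C (ep k s t i)) (h2 : ∀ a, C (ar k s t a))
    (hm : ∀ x y, C x → C y → C (x * y)) (ha : ∀ x y, C x → C y → C (x + y))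
    (z : PathAlg k s t) : C z := by
  obtain ⟨w, rfl⟩ := mkP_surj k s t z
  induction w using FreeAlgebra.induction with
  | grade0 r => rw [AlgHom.commutes]; exact h0 r
  | grade1 x =>
    cases x with
    | inl i => exact h1 i
    | inr a => exact h2 a
  | mul x y hx hy => rw [map_mul]; exact hm _ _ hx hy
  | add x y hx hy => rw [map_add]; exact ha _ _ hx hy

/-- Algebra homomorphisms out of the path algebra. -/
theorem exists_hom {B : Type*} [Ring B] [Algebra k B] (f : Fin n → B) (g : Fin e → B)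
    (h1 : ∀ i, f i * f i = f i) (h2 : ∀ i j, i ≠ j → f i * f j = 0) (h3 : ∑ i, f i = 1)
    (h4 : ∀ a, g a * f (s a) = g a) (h5 : ∀ a, f (t a) * g a = g a) :
    ∃ φ : PathAlg k s t →ₐ[k] B, (∀ i, φ (ep k s t i) = f i) ∧ ∀ a, φ (ar k s t a) = g a := by
  have H : ∀ ⦃x y⦄, PRel k s t x y →
      FreeAlgebra.lift k (Sum.elim f g) x = FreeAlgebra.lift k (Sum.elim f g) y := by
    intro x y h
    induction h with
    | idem i => simp only [map_mul, FreeAlgebra.lift_ι_apply, Sum.elim_inl, h1]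
    | orth i j h => simp only [map_mul, FreeAlgebra.lift_ι_apply, Sum.elim_inl, h2 i j h, map_zero]
    | one => simp only [map_sum, FreeAlgebra.lift_ι_apply, Sum.elim_inl, h3, map_one]
    | src a => simp only [map_mul, FreeAlgebra.lift_ι_apply, Sum.elim_inl, Sum.elim_inr, h4]
    | tgt a => simp only [map_mul, FreeAlgebra.lift_ι_apply, Sum.elim_inl, Sum.elim_inr, h5]
  refine ⟨RingQuot.liftAlgHom k ⟨FreeAlgebra.lift k (Sum.elim f g), H⟩, fun i => ?_, fun a => ?_⟩
  · have : RingQuot.liftAlgHom k ⟨FreeAlgebra.lift k (Sum.elim f g), H⟩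
        (mkP k s t (FreeAlgebra.ι k (Sum.inl i))) = FreeAlgebra.lift k (Sum.elim f g)
          (FreeAlgebra.ι k (Sum.inl i)) := RingQuot.liftAlgHom_mkAlgHom_apply k _ _ _
    rw [FreeAlgebra.lift_ι_apply, Sum.elim_inl] at this
    exact this
  · have : RingQuot.liftAlgHom k ⟨FreeAlgebra.lift k (Sum.elim f g), H⟩
        (mkP k s t (FreeAlgebra.ι k (Sum.inr a))) = FreeAlgebra.lift k (Sum.elim f g)
          (FreeAlgebra.ι k (Sum.inr a)) := RingQuot.liftAlgHom_mkAlgHom_apply k _ _ _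
    rw [FreeAlgebra.lift_ι_apply, Sum.elim_inr] at this
    exact this

/-- The quiver `1 → 0`, `0 → 2`, `0 → 3` of type `D₄`. -/
def sD : Fin 3 → Fin 4 := ![1, 0, 0]

/-- The targets. -/
def tD : Fin 3 → Fin 4 := ![0, 2, 3]

/-- The path algebra of type `D₄`. -/
abbrev AD : Type u := PathAlg k sD tD

/-- The trivial paths. -/
noncomputable abbrev eD (i : Fin 4) : AD k := ep k sD tD i

/-- The arrows. -/
noncomputable abbrev aD (i : Fin 3) : AD k := ar k sD tD i

/-- The unique path from `1` to `t`. -/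
noncomputable def ud : Fin 4 → AD k := ![aD k 0, eD k 1, aD k 1 * aD k 0, aD k 2 * aD k 0]

theorem a0_src : aD k 0 * eD k 1 = aD k 0 := ar_src k sD tD 0
theorem a1_src : aD k 1 * eD k 0 = aD k 1 := ar_src k sD tD 1
theorem a2_src : aD k 2 * eD k 0 = aD k 2 := ar_src k sD tD 2
theorem a0_tgt : eD k 0 * aD k 0 = aD k 0 := ar_tgt k sD tD 0
theorem a1_tgt : eD k 2 * aD k 1 = aD k 1 := ar_tgt k sD tD 1
theorem a2_tgt : eD k 3 * aD k 2 = aD k 2 := ar_tgt k sD tD 2

theorem e_ud_self (i : Fin 4) : eD k i * ud k i = ud k i := by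
  fin_cases i
  · exact a0_tgt k
  · exact ep_mul_self k sD tD 1
  · show eD k 2 * (aD k 1 * aD k 0) = aD k 1 * aD k 0
    rw [← mul_assoc, a1_tgt]
  · show eD k 3 * (aD k 2 * aD k 0) = aD k 2 * aD k 0
    rw [← mul_assoc, a2_tgt]

theorem ud_e (i : Fin 4) : ud k i * eD k 1 = ud k i := by
  fin_cases i
  · exact a0_src k
  · exact ep_mul_self k sD tD 1
  · show (aD k 1 * aD k 0) * eD k 1 = aD k 1 * aD k 0
    rw [mul_assoc, a0_src]
  · show (aD k 2 * aD k 0) * eD k 1 = aD k 2 * aD k 0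
    rw [mul_assoc, a0_src]

theorem e_ud_ne {i j : Fin 4} (h : i ≠ j) : eD k i * ud k j = 0 := by
  rw [← e_ud_self k j, ← mul_assoc, ep_mul_ne k sD tD h, zero_mul]

/-- The span of the paths starting at `1`. -/
noncomputable def Pd : Submodule k (AD k) := Submodule.span k (Set.range (ud k))

theorem ud_mem (i : Fin 4) : ud k i ∈ Pd k := Submodule.subset_span ⟨i, rfl⟩

theorem ar_ud (a : Fin 3) (j : Fin 4) : aD k a * ud k j ∈ Pd k := by
  by_cases h : sD a = j
  · subst h
    fin_cases a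
    · show aD k 0 * eD k 1 ∈ _
      rw [a0_src]
      exact ud_mem k 0
    · exact ud_mem k 2
    · exact ud_mem k 3
  · have : aD k a * ud k j = 0 := by
      have h1 : aD k a * eD k (sD a) = aD k a := ar_src k sD tD a
      rw [← h1, mul_assoc, e_ud_ne k h, mul_zero]
    rw [this]
    exact Submodule.zero_mem _

theorem mul_mem_Pd (z : AD k) : ∀ w ∈ Pd k, z * w ∈ Pd k := by
  induction z using pind with
  | h0 c =>
    intro w hw
    rw [← Algebra.smul_def]
    exact Submodule.smul_mem _ _ hw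
  | h1 i =>
    intro w hw
    have : Pd k ≤ (Pd k).comap (LinearMap.mulLeft k (eD k i)) := by
      refine Submodule.span_le.2 ?_
      rintro _ ⟨j, rfl⟩
      show eD k i * ud k j ∈ Pd k
      by_cases h : i = j
      · subst h; rw [e_ud_self]; exact ud_mem k i
      · rw [e_ud_ne k h]; exact Submodule.zero_mem _
    exact this hw
  | h2 a =>
    intro w hw
    have : Pd k ≤ (Pd k).comap (LinearMap.mulLeft k (aD k a)) := by
      refine Submodule.span_le.2 ?_
      rintro _ ⟨j, rfl⟩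
      exact ar_ud k a j
    exact this hw
  | hm x y hx hy =>
    intro w hw
    rw [mul_assoc]
    exact hx _ (hy _ hw)
  | ha x y hx hy =>
    intro w hw
    rw [add_mul]
    exact Submodule.add_mem _ (hx _ hw) (hy _ hw)

/-- `e_i A e_1` is spanned by the path `ud i`. -/
theorem corner (i : Fin 4) (z : AD k) : ∃ c : k, eD k i * z * eD k 1 = c • ud k i := by
  have h1 : z * eD k 1 ∈ Pd k := mul_mem_Pd k z _ (ud_mem k 1)
  have h2 : ∀ w ∈ Pd k, ∃ c : k, eD k i * w = c • ud k i := by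
    intro w hw
    induction hw using Submodule.span_induction with
    | mem x hx =>
      obtain ⟨j, rfl⟩ := hx
      by_cases h : i = j
      · subst h; exact ⟨1, by rw [e_ud_self, one_smul]⟩
      · exact ⟨0, by rw [e_ud_ne k h, zero_smul]⟩
    | zero => exact ⟨0, by rw [mul_zero, zero_smul]⟩
    | add x y _ _ hx hy =>
      obtain ⟨c, hc⟩ := hx
      obtain ⟨d, hd⟩ := hy
      exact ⟨c + d, by rw [mul_add, hc, hd, add_smul]⟩
    | smul a x _ hx =>
      obtain ⟨c, hc⟩ := hx
      exact ⟨a * c, by rw [mul_smul_comm, hc, mul_smul]⟩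
  obtain ⟨c, hc⟩ := h2 _ h1
  exact ⟨c, by rw [mul_assoc, hc]⟩

/-- The vertex at which the relation of the `i`-th module ends. -/
def vt : Fin 4 → Fin 4 := ![1, 2, 3, 0]

/-- The relation of the `i`-th module. -/
noncomputable def wd : Fin 4 → AD k := ![0, ud k 2, ud k 3, ud k 0]

/-- The left ideals. -/
noncomputable def Id (i : Fin 4) : Submodule (AD k) (AD k) :=
  Submodule.span (AD k) {1 - eD k 1, wd k i}

theorem wd_eq (i : Fin 4) : wd k i = 0 ∨ ∃ j, wd k i = ud k j := by
  fin_cases i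
  · exact Or.inl rfl
  · exact Or.inr ⟨2, rfl⟩
  · exact Or.inr ⟨3, rfl⟩
  · exact Or.inr ⟨0, rfl⟩

theorem one_sub_mem (i : Fin 4) : 1 - eD k 1 ∈ Id k i :=
  Submodule.subset_span (Set.mem_insert _ _)

theorem wd_mem (i : Fin 4) : wd k i ∈ Id k i :=
  Submodule.subset_span (Set.mem_insert_of_mem _ rfl)

theorem mul_mem_Id (i : Fin 4) (z w : AD k) (hw : w ∈ Id k i) : z * w ∈ Id k i :=
  (Id k i).smul_mem z hw

theorem Id_le {i : Fin 4} {J : Submodule (AD k) (AD k)} (h1 : 1 - eD k 1 ∈ J)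
    (h2 : wd k i ∈ J) : Id k i ≤ J := by
  refine Submodule.span_le.2 ?_
  rintro x (rfl | rfl)
  · exact h1
  · exact h2

/-- The thin representations. -/
theorem exists_rep (α β γ : k) : ∃ φ : AD k →ₐ[k] Matrix (Fin 4) (Fin 4) k,
    (∀ i, φ (eD k i) = Matrix.single i i 1) ∧ φ (aD k 0) = Matrix.single 0 1 α ∧
    φ (aD k 1) = Matrix.single 2 0 β ∧ φ (aD k 2) = Matrix.single 3 0 γ := by
  obtain ⟨φ, h1, h2⟩ := exists_hom k sD tD (B := Matrix (Fin 4) (Fin 4) k)
    (fun i => Matrix.single i i 1)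
    (![Matrix.single 0 1 α, Matrix.single 2 0 β, Matrix.single 3 0 γ])
    (fun i => by rw [Matrix.single_mul_single_same, one_mul])
    (fun i j h => by rw [Matrix.single_mul_single_of_ne _ _ _ _ h])
    (by
      ext i j
      rw [Matrix.sum_apply, Fin.sum_univ_four]
      simp only [Matrix.single_apply, Matrix.one_apply]
      revert i j
      intro i j
      fin_cases i <;> fin_cases j <;> simp)
    (fun a => by
      fin_cases a
      · show Matrix.single 0 1 α * Matrix.single 1 1 1 = Matrix.single 0 1 α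
        rw [Matrix.single_mul_single_same, mul_one]
      · show Matrix.single 2 0 β * Matrix.single 0 0 1 = Matrix.single 2 0 β
        rw [Matrix.single_mul_single_same, mul_one]
      · show Matrix.single 3 0 γ * Matrix.single 0 0 1 = Matrix.single 3 0 γ
        rw [Matrix.single_mul_single_same, mul_one])
    (fun a => by
      fin_cases a
      · show Matrix.single 0 0 1 * Matrix.single 0 1 α = Matrix.single 0 1 α
        rw [Matrix.single_mul_single_same, one_mul]
      · show Matrix.single 2 2 1 * Matrix.single 2 0 β = Matrix.single 2 0 β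
        rw [Matrix.single_mul_single_same, one_mul]
      · show Matrix.single 3 3 1 * Matrix.single 3 0 γ = Matrix.single 3 0 γ
        rw [Matrix.single_mul_single_same, one_mul])
  exact ⟨φ, h1, h2 0, h2 1, h2 2⟩

/-- A criterion for non-membership. -/
theorem not_mem_of_rep {i : Fin 4} (φ : AD k →ₐ[k] Matrix (Fin 4) (Fin 4) k)
    (h1 : φ (eD k 1) = Matrix.single 1 1 1) (h2 : ∀ l, φ (wd k i) l 1 = 0) {w : AD k}
    {l : Fin 4} (hw : φ w l 1 ≠ 0) : w ∉ Id k i := by
  intro hm
  let J : Submodule (AD k) (AD k) :=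
    { carrier := {z | ∀ l, φ z l 1 = 0}
      add_mem' := fun {x y} hx hy l => by rw [map_add, Matrix.add_apply, hx l, hy l, add_zero]
      zero_mem' := fun l => by rw [map_zero, Matrix.zero_apply]
      smul_mem' := fun z x hx l => by
        rw [smul_eq_mul, map_mul, Matrix.mul_apply]
        exact Finset.sum_eq_zero fun j _ => by rw [hx j, mul_zero] }
  have : Id k i ≤ J := Id_le k (fun l => by
    rw [map_sub, map_one, h1, Matrix.sub_apply, Matrix.single_apply, Matrix.one_apply]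
    by_cases hl : l = 1
    · subst hl; simp
    · rw [if_neg hl, if_neg (fun h => hl h.1.symm), sub_zero]) h2
  exact hw (this hm l)

theorem wd_not_mem {i j : Fin 4} (h : (i, j) ∈ ({(1, 0), (2, 0), (3, 0), (2, 1), (3, 1), (3, 2),
    (1, 2)} : Set (Fin 4 × Fin 4))) : wd k i ∉ Id k j := by
  simp only [Set.mem_insert_iff, Set.mem_singleton_iff, Prod.mk.injEq] at h
  rcases h with ⟨rfl, rfl⟩ | ⟨rfl, rfl⟩ | ⟨rfl, rfl⟩ | ⟨rfl, rfl⟩ | ⟨rfl, rfl⟩ | ⟨rfl, rfl⟩ |
    ⟨rfl, rfl⟩
  · obtain ⟨φ, h1, h2, h3, h4⟩ := exists_rep k 1 1 1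
    refine not_mem_of_rep k φ (h1 1) (fun l => ?_) (l := 2) ?_
    · show φ 0 l 1 = 0
      rw [map_zero]; rfl
    · show φ (aD k 1 * aD k 0) 2 1 ≠ 0
      rw [map_mul, h2, h3]; simp
  · obtain ⟨φ, h1, h2, h3, h4⟩ := exists_rep k 1 1 1
    refine not_mem_of_rep k φ (h1 1) (fun l => ?_) (l := 3) ?_
    · show φ 0 l 1 = 0
      rw [map_zero]; rfl
    · show φ (aD k 2 * aD k 0) 3 1 ≠ 0
      rw [map_mul, h2, h4]; simp
  · obtain ⟨φ, h1, h2, h3, h4⟩ := exists_rep k 1 1 1
    refine not_mem_of_rep k φ (h1 1) (fun l => ?_) (l := 0) ?_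
    · show φ 0 l 1 = 0
      rw [map_zero]; rfl
    · show φ (aD k 0) 0 1 ≠ 0
      rw [h2]; simp
  · obtain ⟨φ, h1, h2, h3, h4⟩ := exists_rep k 1 0 1
    refine not_mem_of_rep k φ (h1 1) (fun l => ?_) (l := 3) ?_
    · show φ (aD k 1 * aD k 0) l 1 = 0
      rw [map_mul, h2, h3]; simp
    · show φ (aD k 2 * aD k 0) 3 1 ≠ 0
      rw [map_mul, h2, h4]; simp
  · obtain ⟨φ, h1, h2, h3, h4⟩ := exists_rep k 1 0 1
    refine not_mem_of_rep k φ (h1 1) (fun l => ?_) (l := 0) ?_
    · show φ (aD k 1 * aD k 0) l 1 = 0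
      rw [map_mul, h2, h3]; simp
    · show φ (aD k 0) 0 1 ≠ 0
      rw [h2]; simp
  · obtain ⟨φ, h1, h2, h3, h4⟩ := exists_rep k 1 1 0
    refine not_mem_of_rep k φ (h1 1) (fun l => ?_) (l := 0) ?_
    · show φ (aD k 2 * aD k 0) l 1 = 0
      rw [map_mul, h2, h4]; simp
    · show φ (aD k 0) 0 1 ≠ 0
      rw [h2]; simp
  · obtain ⟨φ, h1, h2, h3, h4⟩ := exists_rep k 1 1 0
    refine not_mem_of_rep k φ (h1 1) (fun l => ?_) (l := 2) ?_
    · show φ (aD k 2 * aD k 0) l 1 = 0
      rw [map_mul, h2, h4]; simp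
    · show φ (aD k 1 * aD k 0) 2 1 ≠ 0
      rw [map_mul, h2, h3]; simp

theorem e1_not_mem (i : Fin 4) : eD k 1 ∉ Id k i := by
  obtain ⟨φ, h1, h2, h3, h4⟩ := exists_rep k 0 0 0
  refine not_mem_of_rep k φ (h1 1) (fun l => ?_) (l := 1) ?_
  · fin_cases i
    · show φ 0 l 1 = 0
      rw [map_zero]; rfl
    · show φ (aD k 1 * aD k 0) l 1 = 0
      rw [map_mul, h2, h3]; simp
    · show φ (aD k 2 * aD k 0) l 1 = 0
      rw [map_mul, h2, h4]; simp
    · show φ (aD k 0) l 1 = 0
      rw [h2]; simp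
  · rw [h1]; simp

theorem wd_mem_of {i j : Fin 4} (h : (i, j) ∈ ({(0, 1), (0, 2), (1, 3), (2, 3)} :
    Set (Fin 4 × Fin 4))) : wd k i ∈ Id k j := by
  simp only [Set.mem_insert_iff, Set.mem_singleton_iff, Prod.mk.injEq] at h
  rcases h with ⟨rfl, rfl⟩ | ⟨rfl, rfl⟩ | ⟨rfl, rfl⟩ | ⟨rfl, rfl⟩
  · exact Submodule.zero_mem _
  · exact Submodule.zero_mem _
  · exact mul_mem_Id k 3 (aD k 1) (aD k 0) (wd_mem k 3)
  · exact mul_mem_Id k 3 (aD k 2) (aD k 0) (wd_mem k 3)

end Pool.Agent.V1110.He
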