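import Pool.Agent.V1110.HeAlg

/-!
Hom-Ext quivers of families of objects of a linear abelian category.
-/

set_option autoImplicit false

namespace Pool.Agent.V1110.He

open CategoryTheory CategoryTheory.Limits CategoryTheory.Abelian

universe u v

section Defs

variable {C : Type v} [Category.{u} C] [Abelian C]

/-- The radical of the category: `f : X ⟶ Y` such that `1 - f ≫ g` is invertible for every
`g : Y ⟶ X`. -/
def radHom (X Y : C) : Set (X ⟶ Y) := {f | ∀ g : Y ⟶ X, IsIso (𝟙 X - f ≫ g)}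

variable [HasExt.{u} C]

/-- Exceptional objects: indecomposable with `Ext¹(X, X) = 0`. -/
def IsExceptional (X : C) : Prop := Indecomposable X ∧ Subsingleton (Ext.{u} X X 1)

/-- Exceptional sequences. -/
def IsExcSeq {m : ℕ} (X : Fin m → C) : Prop :=
  (∀ i, IsExceptional (X i)) ∧
    ∀ i j, j < i → Subsingleton (X i ⟶ X j) ∧ Subsingleton (Ext.{u} (X i) (X j) 1)

variable (k : Type u) [Field k] [Linear k C] {m : ℕ}

/-- Morphisms `X i ⟶ X j` which are sums of composites of two radical morphisms through members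
of the family. -/
noncomputable def radTwo (X : Fin m → C) (i j : Fin m) : Submodule k (X i ⟶ X j) :=
  Submodule.span k {h | ∃ (l : Fin m) (f : X i ⟶ X l) (g : X l ⟶ X j),
    f ∈ radHom (X i) (X l) ∧ g ∈ radHom (X l) (X j) ∧ h = f ≫ g}

/-- Extensions which are sums of composites of an extension and a radical morphism through members
of the family. -/
noncomputable def radExt (X : Fin m → C) (i j : Fin m) : Submodule k (Ext.{u} (X i) (X j) 1) :=
  Submodule.span k {h | (∃ (l : Fin m) (f : X i ⟶ X l) (e : Ext.{u} (X l) (X j) 1),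
      f ∈ radHom (X i) (X l) ∧ h = (Ext.mk₀ f).comp e (zero_add 1)) ∨
    ∃ (l : Fin m) (e : Ext.{u} (X i) (X l) 1) (g : X l ⟶ X j),
      g ∈ radHom (X l) (X j) ∧ h = e.comp (Ext.mk₀ g) (add_zero 1)}

/-- The arrows of the Hom-Ext quiver of the family `X`, with the morphisms and extensions they
stand for: the arrows `Hm i j` are a basis of `rad(X i, X j)` modulo `rad²`, the arrows `Ex i j` are
a basis of `Ext¹(X i, X j)` modulo `rad · Ext¹ + Ext¹ · rad`. -/
structure HomExt (X : Fin m → C) where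
  /-- arrows of the first kind -/
  Hm : Fin m → Fin m → Type u
  /-- extensions -/
  Ex : Fin m → Fin m → Type u
  /-- the morphisms -/
  f : ∀ i j, Hm i j → (X i ⟶ X j)
  /-- the extensions -/
  e : ∀ i j, Ex i j → Ext.{u} (X i) (X j) 1
  f_rad : ∀ i j (a : Hm i j), f i j a ∈ radHom (X i) (X j)
  f_ind : ∀ i j, LinearIndependent k (fun a : Hm i j => (radTwo k X i j).mkQ (f i j a))
  f_span : ∀ i j (x : X i ⟶ X j), x ∈ radHom (X i) (X j) →
    x ∈ Submodule.span k (Set.range (f i j)) ⊔ radTwo k X i j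
  e_ind : ∀ i j, LinearIndependent k (fun a : Ex i j => (radExt k X i j).mkQ (e i j a))
  e_span : ∀ i j (x : Ext.{u} (X i) (X j) 1),
    x ∈ Submodule.span k (Set.range (e i j)) ⊔ radExt k X i j

variable {k} {X : Fin m → C}

/-- The vertices of the Hom-Ext quiver. -/
def HomExt.Vx (_Γ : HomExt k X) : Type := Fin m

/-- The Hom-Ext quiver. -/
instance HomExt.quiv (Γ : HomExt k X) : Quiver Γ.Vx := ⟨fun i j => Γ.Hm i j ⊕ Γ.Ex i j⟩

/-- The part of `End(X ⊕ ΣX)` between the `i`-th and the `j`-th summand. -/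
abbrev HE (X : Fin m → C) (i j : Fin m) : Type u := (X i ⟶ X j) × Ext.{u} (X i) (X j) 1

/-- Composition in `End(X ⊕ ΣX)`. -/
noncomputable def mulHE {i j l : Fin m} (v : HE X i j) (w : HE X j l) : HE X i l :=
  (v.1 ≫ w.1,
    (Ext.mk₀ v.1).comp w.2 (zero_add 1) + v.2.comp (Ext.mk₀ w.1) (add_zero 1))

/-- The value of an arrow. -/
noncomputable def HomExt.val (Γ : HomExt k X) (i j : Fin m) (a : Γ.Hm i j ⊕ Γ.Ex i j) : HE X i j :=
  Sum.elim (fun a => (Γ.f i j a, 0)) (fun a => (0, Γ.e i j a)) a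

/-- The value of a path. -/
noncomputable def HomExt.ev (Γ : HomExt k X) (i j : Γ.Vx) (p : Quiver.Path i j) : HE X i j :=
  Quiver.Path.rec (motive := fun (l : Γ.Vx) (_ : Quiver.Path i l) => HE X i l) (𝟙 (X i), 0)
    (fun {b c} _ a v => mulHE v (Γ.val b c a)) p

/-- The component of the ideal `R` between the vertices `i` and `j`: the linear combinations of
paths whose value is zero. -/
noncomputable def HomExt.rel (Γ : HomExt k X) (i j : Γ.Vx) : Submodule k (Quiver.Path i j →₀ k) :=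
  LinearMap.ker (Finsupp.linearCombination k (fun p : Quiver.Path i j => Γ.ev i j p))

/-- The ideal `R` is generated by monomial relations, that is by a set `S` of paths of length at
least two. -/
def HomExt.MonomialGenerated (Γ : HomExt k X) : Prop :=
  ∃ S : ∀ i j : Γ.Vx, Set (Quiver.Path i j),
    (∀ (i j : Γ.Vx) (p : Quiver.Path i j), p ∈ S i j → 2 ≤ p.length) ∧
    ∀ i j : Γ.Vx, Γ.rel i j = Submodule.span k {x | ∃ (b c : Γ.Vx) (u : Quiver.Path i b)
      (s : Quiver.Path b c) (w : Quiver.Path c j), s ∈ S b c ∧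
      x = Finsupp.single ((u.comp s).comp w) 1}

end Defs

section General

variable {C : Type v} [Category.{u} C] [Abelian C] [HasExt.{u} C] (k : Type u) [Field k]
  [Linear k C] {m : ℕ}

theorem exists_basis {W : Type u} [AddCommGroup W] [Module k W] (U : Submodule k W) (S : Set W) :
    ∃ (B : Type u) (f : B → W), (∀ a, f a ∈ S) ∧ LinearIndependent k (fun a => U.mkQ (f a)) ∧
      ∀ x ∈ S, x ∈ Submodule.span k (Set.range f) ⊔ U := by
  obtain ⟨b, hb, hs, hl⟩ := exists_linearIndependent k (U.mkQ '' S)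
  choose f hf using fun a : b => hb a.2
  refine ⟨b, f, fun a => (hf a).1, ?_, fun x hx => ?_⟩
  · have : (fun a => U.mkQ (f a)) = (Subtype.val : b → W ⧸ U) := funext fun a => (hf a).2
    rw [this]; exact hl
  · have h1 : U.mkQ x ∈ Submodule.span k b := hs ▸ Submodule.subset_span ⟨x, hx, rfl⟩
    have h2 : b = U.mkQ '' Set.range f := by
      ext y
      constructor
      · intro hy
        exact ⟨f ⟨y, hy⟩, ⟨_, rfl⟩, (hf ⟨y, hy⟩).2⟩
      · rintro ⟨_, ⟨a, rfl⟩, rfl⟩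
        have : U.mkQ (f a) = a := (hf a).2
        rw [this]; exact a.2
    rw [h2, ← Submodule.map_span, ← Submodule.mem_comap, Submodule.comap_map_mkQ] at h1
    rwa [sup_comm]

/-- Every family of objects has a Hom-Ext quiver. -/
theorem nonempty_homExt (X : Fin m → C) : Nonempty (HomExt k X) := by
  choose Hm f h1 h2 h3 using fun i j => exists_basis k (radTwo k X i j) (radHom (X i) (X j))
  choose Ex e g1 g2 g3 using fun i j => exists_basis k (radExt k X i j) Set.univ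
  exact ⟨{ Hm := Hm, Ex := Ex, f := f, e := e, f_rad := h1, f_ind := h2, f_span := h3,
           e_ind := g2, e_span := fun i j x => g3 i j x (Set.mem_univ _) }⟩

variable {k}

theorem support_of_monomial {X : Fin m → C} {Γ : HomExt k X} (h : Γ.MonomialGenerated)
    {i j : Γ.Vx} {x : Quiver.Path i j →₀ k} (hx : x ∈ Γ.rel i j) {p : Quiver.Path i j}
    (hp : x p ≠ 0) : Γ.ev i j p = 0 := by
  classical
  obtain ⟨S, -, h2⟩ := h
  let T : Set (Quiver.Path i j) := {p | Finsupp.single p (1 : k) ∈ Γ.rel i j}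
  have h3 : Γ.rel i j ≤ Finsupp.supported k k T := by
    conv_lhs => rw [h2]
    refine Submodule.span_le.2 ?_
    rintro _ ⟨b, c, u, s, w, hs, rfl⟩
    have : (u.comp s).comp w ∈ T := by
      show Finsupp.single _ (1 : k) ∈ Γ.rel i j
      rw [h2]
      exact Submodule.subset_span ⟨b, c, u, s, w, hs, rfl⟩
    exact Finsupp.single_mem_supported k 1 this
  have h4 : p ∈ T := (Finsupp.mem_supported k x).1 (h3 hx) (Finsupp.mem_support_iff.2 hp)
  have h5 : Finsupp.single p (1 : k) ∈ Γ.rel i j := h4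
  rw [HomExt.rel, LinearMap.mem_ker, Finsupp.linearCombination_single, one_smul] at h5
  exact h5

theorem exists_arrow_gen {X : Fin m → C} (Γ : HomExt k X) {i j : Fin m} (π : X i ⟶ X j)
    (hπ : π ≠ 0) (hrad : π ∈ radHom (X i) (X j))
    (h2 : ∀ (l : Fin m) (f : X i ⟶ X l) (g : X l ⟶ X j), f ∈ radHom _ _ →
      g ∈ radHom _ _ → f ≫ g = 0) : ∃ a : Γ.Hm i j, Γ.f i j a ≠ 0 := by
  by_contra hc
  push Not at hc
  have h3 := Γ.f_span i j π hrad
  have h4 : radTwo k X i j = ⊥ := by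
    rw [radTwo, Submodule.span_eq_bot]
    rintro _ ⟨l, f, g, hf, hg, rfl⟩
    exact h2 l f g hf hg
  have h5 : Submodule.span k (Set.range (Γ.f i j)) = ⊥ := by
    rw [Submodule.span_eq_bot]
    rintro _ ⟨a, rfl⟩
    exact hc a
  rw [h4, h5, sup_bot_eq, Submodule.mem_bot] at h3
  exact hπ h3

theorem not_monomial_gen {X : Fin m → C} (Γ : HomExt k X) {y0 y1 y2 y3 : Fin m} (h12 : y1 ≠ y2)
    (a : Γ.Hm y0 y1) (c : Γ.Hm y1 y3) (b : Γ.Hm y0 y2) (d : Γ.Hm y2 y3)
    (h : Γ.f _ _ a ≫ Γ.f _ _ c ≠ 0) (r s : k) (hs : s ≠ 0)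
    (hrs : s • (Γ.f _ _ a ≫ Γ.f _ _ c) = r • (Γ.f _ _ b ≫ Γ.f _ _ d)) :
    ¬ Γ.MonomialGenerated := by
  intro hM
  let x0 : Γ.Vx := y0
  let x1 : Γ.Vx := y1
  let x2 : Γ.Vx := y2
  let x3 : Γ.Vx := y3
  let p : Quiver.Path x0 x3 :=
    (Quiver.Path.nil.cons (show x0 ⟶ x1 from Sum.inl a)).cons (show x1 ⟶ x3 from Sum.inl c)
  let q : Quiver.Path x0 x3 :=
    (Quiver.Path.nil.cons (show x0 ⟶ x2 from Sum.inl b)).cons (show x2 ⟶ x3 from Sum.inl d)
  have hpq : p ≠ q := fun h => h12 (show x1 = x2 from Quiver.Path.obj_eq_of_cons_eq_cons h)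
  have hp : Γ.ev x0 x3 p = (Γ.f _ _ a ≫ Γ.f _ _ c, 0) := by
    show mulHE (mulHE (𝟙 (X y0), 0) (Γ.f y0 y1 a, 0)) (Γ.f y1 y3 c, 0) = _
    simp [mulHE]
  have hq : Γ.ev x0 x3 q = (Γ.f _ _ b ≫ Γ.f _ _ d, 0) := by
    show mulHE (mulHE (𝟙 (X y0), 0) (Γ.f y0 y2 b, 0)) (Γ.f y2 y3 d, 0) = _
    simp [mulHE]
  let x : Quiver.Path x0 x3 →₀ k := Finsupp.single p s - Finsupp.single q r
  have hx : x ∈ Γ.rel x0 x3 := by
    rw [HomExt.rel, LinearMap.mem_ker, map_sub, Finsupp.linearCombination_single,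
      Finsupp.linearCombination_single, hp, hq, sub_eq_zero]
    refine Prod.ext hrs ?_
    show s • (0 : Ext.{u} (X y0) (X y3) 1) = r • 0
    rw [smul_zero, smul_zero]
  have hxp : x p ≠ 0 := by
    rw [Finsupp.sub_apply, Finsupp.single_eq_same, Finsupp.single_eq_of_ne hpq, sub_zero]
    exact hs
  have h0 := support_of_monomial hM hx hxp
  rw [hp] at h0
  exact h (congrArg Prod.fst h0)

variable (k) in
/-- Scalar multiplication of morphisms. -/
def sm {X Y : C} (c : k) (f : X ⟶ Y) : X ⟶ Y := c • f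

theorem rad_end_gen {X : C} (h1 : 𝟙 X ≠ 0) (h2 : ∀ f : X ⟶ X, ∃ c : k, f = sm k c (𝟙 X))
    {f : X ⟶ X} (hf : f ∈ radHom X X) : f = 0 := by
  obtain ⟨c, rfl⟩ := h2 f
  by_cases h0 : c = 0
  · rw [h0, sm, zero_smul]
  · exfalso
    have h3 := hf (sm k c⁻¹ (𝟙 X))
    have h4 : 𝟙 X - sm k c (𝟙 X) ≫ sm k c⁻¹ (𝟙 X) = 0 := by
      rw [sm, sm, Linear.smul_comp, Linear.comp_smul, smul_smul, mul_inv_cancel₀ h0, one_smul,
        Category.comp_id, sub_self]
    rw [h4] at h3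
    apply h1
    have h5 := IsIso.hom_inv_id (0 : X ⟶ X)
    rw [zero_comp] at h5
    exact h5.symm

theorem indec_gen {X : C} (h1 : 𝟙 X ≠ 0) (h2 : ∀ f : X ⟶ X, ∃ c : k, f = sm k c (𝟙 X)) :
    Indecomposable X := by
  refine ⟨fun h => h1 (h.eq_of_src _ _), fun Y Z e => ?_⟩
  obtain ⟨c, hc⟩ := h2 (e.hom ≫ (biprod.fst ≫ biprod.inl) ≫ e.inv)
  have h3 : (biprod.fst ≫ biprod.inl : Y ⊞ Z ⟶ Y ⊞ Z) = c • 𝟙 (Y ⊞ Z) := by
    have h4 : e.inv ≫ (e.hom ≫ (biprod.fst ≫ biprod.inl) ≫ e.inv) ≫ e.hom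
        = (biprod.fst ≫ biprod.inl : Y ⊞ Z ⟶ Y ⊞ Z) := by
      rw [Category.assoc, Category.assoc, e.inv_hom_id, Category.comp_id, e.inv_hom_id_assoc]
    rw [← h4, hc, sm, Linear.smul_comp, Linear.comp_smul, Category.id_comp, e.inv_hom_id]
  by_cases h0 : c = 0
  · left
    rw [h0, zero_smul] at h3
    rw [IsZero.iff_id_eq_zero]
    have h5 : (biprod.inl : Y ⟶ Y ⊞ Z) ≫ (biprod.fst ≫ biprod.inl : Y ⊞ Z ⟶ Y ⊞ Z) ≫
      (biprod.fst : Y ⊞ Z ⟶ Y) = 𝟙 Y := by simp
    rw [← h5, h3]; simp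
  · right
    rw [IsZero.iff_id_eq_zero]
    have h5 : (biprod.inr : Z ⟶ Y ⊞ Z) ≫ (biprod.fst ≫ biprod.inl : Y ⊞ Z ⟶ Y ⊞ Z) ≫
      (biprod.snd : Y ⊞ Z ⟶ Z) = 0 := by simp
    rw [h3] at h5
    have h6 : c • 𝟙 Z = 0 := by
      rw [← h5]; simp
    have h7 : c⁻¹ • (c • 𝟙 Z) = 0 := by rw [h6, smul_zero]
    rwa [smul_smul, inv_mul_cancel₀ h0, one_smul] at h7

end General

end Pool.Agent.V1110.He
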