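import Pool.Agent.V1110.HeDefs

/-!
The modules of type `D₄`.
-/

set_option autoImplicit false

namespace Pool.Agent.V1110.He

open CategoryTheory CategoryTheory.Limits CategoryTheory.Abelian

universe u

section Cyclic

variable {A : Type u} [Ring A] (I : Submodule A A)

/-- If every homomorphism from the left ideal `I` to `Y` extends to `A` then `Ext¹(A/I, Y) = 0`. -/
theorem ext_of_extend (Y : Type u) [AddCommGroup Y] [Module A Y]
    (h : ∀ φ : I →ₗ[A] Y, ∃ ψ : A →ₗ[A] Y, ∀ x : I, ψ x = φ x) :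
    Subsingleton (Ext.{u} (ModuleCat.of A (A ⧸ I)) (ModuleCat.of A Y) 1) := by
  let S : ShortComplex (ModuleCat.{u} A) :=
    ShortComplex.mk (ModuleCat.ofHom I.subtype) (ModuleCat.ofHom I.mkQ)
      (by
        rw [← ModuleCat.ofHom_comp]
        have : I.mkQ ∘ₗ I.subtype = 0 := by
          ext x
          simp
        rw [this]; rfl)
  have hS : S.ShortExact :=
    { exact := (ShortComplex.ShortExact.moduleCat_exact_iff_function_exact S).2
        (LinearMap.exact_subtype_mkQ I)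
      mono_f := (ModuleCat.mono_iff_injective _).2 I.injective_subtype
      epi_g := (ModuleCat.epi_iff_surjective _).2 I.mkQ_surjective }
  have : Projective S.X₂ := by
    show Projective (ModuleCat.of A A)
    rw [← IsProjective.iff_projective]
    infer_instance
  refine subsingleton_of_forall_eq 0 fun x => ?_
  obtain ⟨x₁, rfl⟩ := Ext.contravariant_sequence_exact₃ hS (ModuleCat.of A Y) x
    (Ext.eq_zero_of_projective _) (n₀ := 0) rfl
  obtain ⟨φ, rfl⟩ := (Ext.mk₀_bijective _ _).2 x₁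
  obtain ⟨ψ, hψ⟩ := h φ.hom
  have : φ = S.f ≫ ModuleCat.ofHom ψ := by
    ext z
    exact (hψ z).symm
  rw [this, ← Ext.mk₀_comp_mk₀]
  exact hS.extClass_comp_assoc _

end Cyclic

section D4

variable (k : Type u) [Field k]

/-- The four modules. -/
noncomputable abbrev XD (i : Fin 4) : ModuleCat.{u} (AD k) := ModuleCat.of (AD k) (AD k ⧸ Id k i)

/-- The generators. -/
noncomputable def gn (i : Fin 4) : AD k ⧸ Id k i := (Id k i).mkQ 1

theorem mkQ_eq (i : Fin 4) (z : AD k) : (Id k i).mkQ z = z • gn k i := by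
  rw [gn, ← map_smul, smul_eq_mul, mul_one]

theorem e1_gn (i : Fin 4) : eD k 1 • gn k i = gn k i := by
  have h : (Id k i).mkQ (1 - eD k 1) = 0 := (Submodule.Quotient.mk_eq_zero _).2 (one_sub_mem k i)
  rw [map_sub, mkQ_eq, mkQ_eq, one_smul, sub_eq_zero] at h
  exact h.symm

theorem wd_gn (i : Fin 4) : wd k i • gn k i = 0 := by
  rw [← mkQ_eq]
  exact (Submodule.Quotient.mk_eq_zero _).2 (wd_mem k i)

theorem smul_gn_eq_zero {i : Fin 4} {z : AD k} (h : z • gn k i = 0) : z ∈ Id k i := by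
  rw [← mkQ_eq] at h
  exact (Submodule.Quotient.mk_eq_zero _).1 h

theorem gn_ne (i : Fin 4) : gn k i ≠ 0 := by
  intro h
  exact e1_not_mem k i (smul_gn_eq_zero k (by rw [h, smul_zero]))

theorem exists_smul_gn (i : Fin 4) (y : AD k ⧸ Id k i) : ∃ z : AD k, y = z • gn k i := by
  obtain ⟨z, rfl⟩ := (Id k i).mkQ_surjective y
  exact ⟨z, mkQ_eq k i z⟩

/-- `e_i Y` is spanned by the path from `1` to `i` applied to the generator. -/
theorem corner_gn (i j : Fin 4) (y : AD k ⧸ Id k j) :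
    ∃ c : k, eD k i • y = ud k i • (algebraMap k (AD k) c • gn k j) := by
  obtain ⟨z, rfl⟩ := exists_smul_gn k j y
  obtain ⟨c, hc⟩ := corner k i z
  refine ⟨c, ?_⟩
  rw [← e1_gn, smul_smul, smul_smul, hc, smul_smul, smul_smul, Algebra.smul_def]
  congr 1
  rw [← Algebra.commutes, mul_assoc, ud_e]

theorem map_smul_eq {I : Submodule (AD k) (AD k)} {Y : Type u} [AddCommGroup Y] [Module (AD k) Y]
    (φ : I →ₗ[AD k] Y) (z x : AD k) (hx : x ∈ I) :
    z • φ ⟨x, hx⟩ = φ ⟨z * x, I.smul_mem z hx⟩ := by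
  rw [← map_smul]; rfl

theorem extend (i j : Fin 4) (φ : Id k i →ₗ[AD k] (AD k ⧸ Id k j)) :
    ∃ ψ : AD k →ₗ[AD k] (AD k ⧸ Id k j), ∀ x : Id k i, ψ x = φ x := by
  set p := φ ⟨1 - eD k 1, one_sub_mem k i⟩ with hp
  have hp1 : eD k 1 • p = 0 := by
    rw [hp, map_smul_eq]
    have : (⟨eD k 1 * (1 - eD k 1), (Id k i).smul_mem _ (one_sub_mem k i)⟩ : Id k i) = 0 := by
      refine Subtype.ext ?_
      show eD k 1 * (1 - eD k 1) = 0
      rw [mul_sub, mul_one, ep_mul_self, sub_self]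
    rw [this, map_zero]
  obtain ⟨w, hw1, hw2⟩ : ∃ w : AD k ⧸ Id k j, (1 - eD k 1) • w = p ∧
      wd k i • w = φ ⟨wd k i, wd_mem k i⟩ := by
    rcases wd_eq k i with h | ⟨t, ht⟩
    · refine ⟨p, by rw [sub_smul, one_smul, hp1, sub_zero], ?_⟩
      have : (⟨wd k i, wd_mem k i⟩ : Id k i) = 0 := Subtype.ext h
      rw [this, map_zero, h, zero_smul]
    · obtain ⟨c, hc⟩ := corner_gn k t j (φ ⟨wd k i, wd_mem k i⟩)
      refine ⟨p + algebraMap k (AD k) c • gn k j, ?_, ?_⟩
      · rw [smul_add, sub_smul, one_smul, hp1, sub_zero, sub_smul, one_smul, smul_smul,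
          ← Algebra.commutes, mul_smul, e1_gn, sub_self, add_zero]
      · rw [smul_add]
        have h1 : wd k i • p = 0 := by
          rw [ht, ← ud_e, mul_smul, hp1, smul_zero]
        have h2 : eD k t • φ ⟨wd k i, wd_mem k i⟩ = φ ⟨wd k i, wd_mem k i⟩ := by
          rw [map_smul_eq]
          congr 1
          refine Subtype.ext ?_
          show eD k t * wd k i = wd k i
          rw [ht, e_ud_self]
        rw [h1, zero_add, ← h2, hc, ht]
  refine ⟨LinearMap.toSpanSingleton _ _ w, ?_⟩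
  rintro ⟨x, hx⟩
  show x • w = φ ⟨x, hx⟩
  have key : ∀ (x : AD k) (hx : x ∈ Submodule.span (AD k) ({1 - eD k 1, wd k i} : Set (AD k))),
      x • w = φ ⟨x, hx⟩ := by
    intro x hx
    induction hx using Submodule.span_induction with
    | mem x h =>
      rcases h with rfl | rfl
      · exact hw1
      · exact hw2
    | zero => rw [zero_smul]; exact (map_zero φ).symm
    | add x y hx hy h1 h2 =>
      rw [add_smul, h1, h2, ← map_add]; rfl
    | smul a x hx h =>
      show (a * x) • w = _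
      rw [mul_smul, h]
      exact map_smul_eq k φ a x hx
  exact key x hx

theorem ext_vanish (i j : Fin 4) : Subsingleton (Ext.{u} (XD k i) (XD k j) 1) :=
  ext_of_extend (Id k i) (AD k ⧸ Id k j) (extend k i j)

/-- Morphisms are determined by a scalar. -/
theorem hom_scalar {i j : Fin 4} (f : XD k i ⟶ XD k j) :
    ∃ c : k, f.hom (gn k i) = algebraMap k (AD k) c • gn k j := by
  obtain ⟨c, hc⟩ := corner_gn k 1 j (f.hom (gn k i))
  refine ⟨c, ?_⟩
  have h1 : eD k 1 • f.hom (gn k i) = f.hom (gn k i) := by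
    have := f.hom.map_smul (eD k 1) (gn k i)
    rw [e1_gn] at this
    exact this.symm
  rw [h1] at hc
  rw [hc]
  show eD k 1 • _ = _
  rw [smul_smul, ← Algebra.commutes, mul_smul, e1_gn]

theorem hom_ext_gn {i j : Fin 4} {f g : XD k i ⟶ XD k j} (h : f.hom (gn k i) = g.hom (gn k i)) :
    f = g := by
  refine ModuleCat.hom_ext (LinearMap.ext fun y => ?_)
  obtain ⟨z, rfl⟩ := exists_smul_gn k i y
  have h1 := f.hom.map_smul z (gn k i)
  have h2 := g.hom.map_smul z (gn k i)
  exact h1.trans ((congrArg (fun y : AD k ⧸ Id k j => z • y) h).trans h2.symm)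

theorem scalar_ne {j : Fin 4} {c : k} (h : c ≠ 0) : algebraMap k (AD k) c • gn k j ≠ 0 := by
  intro h0
  apply gn_ne k j
  have : algebraMap k (AD k) c⁻¹ • (algebraMap k (AD k) c • gn k j) = 0 := by rw [h0, smul_zero]
  rwa [smul_smul, ← map_mul, inv_mul_cancel₀ h, map_one, one_smul] at this

theorem hom_eq_zero {i j : Fin 4} (h : wd k i ∉ Id k j) (f : XD k i ⟶ XD k j) : f = 0 := by
  obtain ⟨c, hc⟩ := hom_scalar k f
  by_cases h0 : c = 0
  · refine hom_ext_gn k ?_
    rw [hc, h0, map_zero, zero_smul]; rfl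
  · exfalso
    apply h
    apply smul_gn_eq_zero
    have h1 := f.hom.map_smul (wd k i) (gn k i)
    rw [wd_gn, hc, map_zero] at h1
    have h2 : algebraMap k (AD k) c⁻¹ • (wd k i • (algebraMap k (AD k) c • gn k j)) = 0 := by
      rw [← h1, smul_zero]
    rw [smul_smul, smul_smul] at h2
    have h3 : algebraMap k (AD k) c⁻¹ * (wd k i * algebraMap k (AD k) c) = wd k i := by
      rw [← Algebra.commutes, ← mul_assoc, ← map_mul, inv_mul_cancel₀ h0, map_one, one_mul]
    rwa [mul_assoc, h3] at h2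

/-- The projections. -/
theorem exists_proj {i j : Fin 4} (h : wd k i ∈ Id k j) :
    ∃ f : XD k i ⟶ XD k j, f.hom (gn k i) = gn k j := by
  have hle : Id k i ≤ Id k j := Id_le k (one_sub_mem k j) h
  refine ⟨ModuleCat.ofHom (Submodule.mapQ (Id k i) (Id k j) LinearMap.id hle), ?_⟩
  rfl

theorem sm_apply {i j : Fin 4} (c : k) (f : XD k i ⟶ XD k j) (y : AD k ⧸ Id k i) :
    (sm k c f).hom y = algebraMap k (AD k) c • f.hom y := rfl

theorem end_eq {i : Fin 4} (f : XD k i ⟶ XD k i) : ∃ c : k, f = sm k c (𝟙 (XD k i)) := by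
  obtain ⟨c, hc⟩ := hom_scalar k f
  refine ⟨c, hom_ext_gn k ?_⟩
  rw [hc, sm_apply]
  rfl

theorem id_ne_zero (i : Fin 4) : 𝟙 (XD k i) ≠ 0 := by
  intro h
  apply gn_ne k i
  have := congrArg (fun f : XD k i ⟶ XD k i => f.hom (gn k i)) h
  exact this

end D4

end Pool.Agent.V1110.He
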