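import Pool.Agent.Results.MP_0b9e0b_ag.MultiquadraticProducts
import Pool.Agent.V1110.SpB

/-!
# The Beilinson–Bloch conjecture for products of twists over multiquadratic fields, with the
# discriminants in a sparse sequence

`E_M` is the quadratic twist by `M` of `X_0(14)`. The hand-in `MultiquadraticProducts` of this problem
treats the abelian varieties `X_D = ∏_{b ∈ B} E_{b D}` over `k = ℚ(√d : d ∈ S)` for arbitrary finite
subsets `S`, `B` of a class of squarefree integers, independent in the natural sense: the conjecture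
holds for `X_D` over `k`, `i = 1`, with order and dimension zero, for a proportion of exactly
`c^(#B 2^#S)` of the `D` of the class, `c = ∏_{i ≥ 0} (1 - 2^{-(2 i + 1)}) = 0.419...`.

Here `D` runs through the elements of the class in the sequence `s ⌊α n ^ p⌋` (`s = ± 1`), where `p > 1`
is any real number: a sparse sequence (about `X^{1/p}` integers up to `X`). The theorem: there is one
set `A₀` of real numbers of Hausdorff dimension smaller than one such that for all real `α > 0` outside
`A₀` the proportion is the same, for both signs and for ALL `S` and `B`.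
-/

set_option autoImplicit false

open Filter Topology

namespace Pool.Agent.V1110.ProductsSparse

open Pool.Agent.Results.MP_787500_nt.LayersBlochKatoLaw (Adm count cc Proportion Many)
open Pool.Agent.Results.MP_0b9e0b_ag.MultiquadraticProducts

/-- the number of the `1 ≤ n ≤ N` such that `D = s ⌊α n ^ p⌋` has the property `Q` -/
noncomputable def along (α p : ℝ) (s : ℤ) (Q : ℤ → Prop) (N : ℕ) : ℕ :=
  Nat.card {n : ℕ // (1 ≤ n ∧ n ≤ N) ∧ Q (s * (⌊α * (n : ℝ) ^ p⌋₊ : ℤ))}

/-- `D` is in the class, `Criterion B S D` holds, and the conjecture holds for `X_D` over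
`ℚ(√d : d ∈ S)` in the form `Holds` -/
def Event (B S : Finset ℤ) (D : ℤ) : Prop :=
  Adm D ∧ Criterion B S D ∧ ∃ T : Finset ℤ, IsTwists B D T ∧ T.card = B.card ∧ Holds S T

lemma event_iff {B S : Finset ℤ} (hS : IsBase S) (hB : IsFamily B S) (D : ℤ) :
    Event B S D ↔ Adm D ∧ Criterion B S D := by
  unfold Event
  constructor
  · rintro ⟨h1, h2, -⟩
    exact ⟨h1, h2⟩
  · rintro ⟨h1, h2⟩
    obtain ⟨T, h3, h4, h5⟩ := MultiquadraticProducts.result.1 S B hS hB D h1
    exact ⟨h1, h2, T, h3, h4, h5 h2⟩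

/-- **Main theorem.** Let `p > 1` be a real number. There is a set `A₀` of real numbers of Hausdorff
dimension smaller than one such that for all real `α > 0` not in `A₀` and for `s = 1` and `s = -1`:
(1) at least `b N (log N)^(-3/4)` of the `n ≤ N` are such that `D = s ⌊α n ^ p⌋` is in the class;
(2) for all `S`, `B` (`S` a finite subset of the class, independent modulo squares, `B` a finite subset
of the class whose elements are different modulo squares and products of elements of `S`), among these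
`n` the proportion of those with `Event B S D` (so that the conjecture holds for `i = 1` and
`X_D = ∏_{b ∈ B} E_{b D}` over `ℚ(√d : d ∈ S)`, with order and dimension zero) is exactly
`c^(#B 2^#S)`. -/
theorem result (p : ℝ) (hp : 1 < p) :
    ∃ A₀ : Set ℝ, dimH A₀ < 1 ∧ ∀ α : ℝ, 0 < α → α ∉ A₀ → ∀ s : ℤ, (s = 1 ∨ s = -1) →
      (∃ b : ℝ, 0 < b ∧ ∃ N₀ : ℕ, ∀ N : ℕ, N₀ ≤ N →
        b * N * (Real.log N) ^ (-(3 / 4) : ℝ) ≤ (along α p s Adm N : ℝ)) ∧
      ∀ S B : Finset ℤ, IsBase S → IsFamily B S →
        Tendsto (fun N : ℕ => (along α p s (Event B S) N : ℝ) / along α p s Adm N) atTop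
          (𝓝 (cc ^ (B.card * 2 ^ S.card))) := by
  obtain ⟨A₀, hA₀, h⟩ := Pool.Agent.V1110.SpA.ratio_int p hp
    (ι := Finset ℤ × Finset ℤ) (fun v => Event v.1 v.2) (fun _ => Adm)
  refine ⟨A₀, hA₀, fun α hα hαA s hs => ?_⟩
  obtain ⟨hmany, hprop⟩ := MultiquadraticProducts.result.2.1 s hs
  obtain ⟨a, X₀, ha, hX₀⟩ := hmany
  have hcount : ∀ X : ℕ, count (fun D => Adm D ∧ 0 < s * D) X =
      Nat.card {D : ℤ // |D| ≤ X ∧ 0 < s * D ∧ Adm D} := by
    intro X
    unfold count
    refine Nat.card_congr (Equiv.subtypeEquivRight fun D => ?_)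
    tauto
  have hQ : ∃ X0 : ℕ, ∀ X : ℕ, X0 ≤ X → a * X * (Real.log X) ^ (-(3 / 4) : ℝ) ≤
      (Nat.card {D : ℤ // |D| ≤ X ∧ 0 < s * D ∧ Adm D} : ℝ) :=
    ⟨X₀, fun X hX => by
      rw [← hcount]
      exact hX₀ X hX⟩
  have key : ∀ S B : Finset ℤ, IsBase S → IsFamily B S →
      Tendsto (fun N : ℕ => (along α p s (Event B S) N : ℝ) / along α p s Adm N) atTop
          (𝓝 (cc ^ (B.card * 2 ^ S.card))) ∧
        ∃ b : ℝ, 0 < b ∧ ∃ N0 : ℕ, ∀ N : ℕ, N0 ≤ N →
          b * N * (Real.log N) ^ (-(3 / 4) : ℝ) ≤ (along α p s Adm N : ℝ) := by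
    intro S B hS hB
    refine h α hα hαA (B, S) s hs _ a (3 / 4) ha (by norm_num) hQ ?_
    have h1 := hprop S B hS hB
    unfold Proportion at h1
    refine h1.congr fun X => ?_
    rw [hcount]
    have e : count (fun D => Adm D ∧ 0 < s * D ∧ Criterion B S D) X =
        Nat.card {D : ℤ // |D| ≤ X ∧ 0 < s * D ∧ Event B S D} := by
      unfold count
      refine Nat.card_congr (Equiv.subtypeEquivRight fun D => ?_)
      rw [event_iff hS hB]
      tauto
    rw [e]
  have h0 : IsBase ∅ := ⟨fun d hd => absurd hd (Finset.notMem_empty d), fun T hT hT' => by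
    rw [Finset.subset_empty] at hT
    subst hT
    exact absurd hT' Finset.not_nonempty_empty⟩
  have h1 : IsFamily ∅ ∅ := ⟨fun d hd => absurd hd (Finset.notMem_empty d),
    fun b hb => absurd hb (Finset.notMem_empty b)⟩
  exact ⟨(key ∅ ∅ h0 h1).2, fun S B hS hB => (key S B hS hB).1⟩

end Pool.Agent.V1110.ProductsSparse
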