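import Pool.Agent.V1110.QciDescent

/-!
Quantum complete intersections as algebras and their modules.
-/

set_option autoImplicit false

namespace Pool.Agent.V1110.Qci

open Finset

universe u

/-- The relations of a quantum complete intersection: `x_i ^ a_i = 0` and
`x_i x_j + q_{i,j} x_j x_i = 0` for `i > j`. -/
inductive QRel (K : Type u) [Field K] {n : ℕ} (a : Fin n → ℕ) (q : Fin n → Fin n → K) :
    FreeAlgebra K (Fin n) → FreeAlgebra K (Fin n) → Prop
  | pow (i : Fin n) : QRel K a q (FreeAlgebra.ι K i ^ a i) 0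
  | comm (i j : Fin n) (h : j < i) : QRel K a q
      (FreeAlgebra.ι K i * FreeAlgebra.ι K j + q i j • (FreeAlgebra.ι K j * FreeAlgebra.ι K i)) 0

/-- The quantum complete intersection with exponents `a` and parameters `q`. -/
def QCI (K : Type u) [Field K] {n : ℕ} (a : Fin n → ℕ) (q : Fin n → Fin n → K) : Type u :=
  RingQuot (QRel K a q)

variable {K : Type u} [Field K] {n : ℕ} (a : Fin n → ℕ) (q : Fin n → Fin n → K)

/-- The ring structure of the quotient. -/
noncomputable def ringQ : Ring (QCI K a q) := RingQuot.instRing (QRel K a q)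

noncomputable instance instRingQ : Ring (QCI K a q) := ringQ a q

/-- The algebra structure of the quotient. -/
noncomputable def algQ : Algebra K (QCI K a q) := RingQuot.instAlgebra (QRel K a q)

noncomputable instance instAlgQ : Algebra K (QCI K a q) := algQ a q

/-- The quotient map. -/
noncomputable def mkQ : FreeAlgebra K (Fin n) →ₐ[K] QCI K a q :=
  RingQuot.mkAlgHom K (QRel K a q)

/-- The generators. -/
noncomputable def xg (i : Fin n) : QCI K a q := mkQ a q (FreeAlgebra.ι K i)

theorem mkQ_surj : Function.Surjective (mkQ a q) := RingQuot.mkAlgHom_surjective K (QRel K a q)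

theorem xg_pow (i : Fin n) : xg a q i ^ a i = 0 := by
  rw [xg, ← map_pow]
  have := RingQuot.mkAlgHom_rel K (QRel.pow (K := K) (a := a) (q := q) i)
  rw [map_zero] at this
  exact this

theorem xg_comm (i j : Fin n) (h : j < i) :
    xg a q i * xg a q j = (-q i j) • (xg a q j * xg a q i) := by
  have := RingQuot.mkAlgHom_rel K (QRel.comm (K := K) (a := a) (q := q) i j h)
  rw [map_zero, map_add, map_smul, map_mul, map_mul] at this
  have h' : xg a q i * xg a q j + q i j • (xg a q j * xg a q i) = 0 := this
  rw [eq_neg_of_add_eq_zero_left h', neg_smul]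

/-- Lift to an algebra. -/
noncomputable def liftQ {B : Type*} [Ring B] [Algebra K B] (f : Fin n → B)
    (h1 : ∀ i, f i ^ a i = 0) (h2 : ∀ i j, j < i → f i * f j + q i j • (f j * f i) = 0) :
    QCI K a q →ₐ[K] B :=
  RingQuot.liftAlgHom K ⟨FreeAlgebra.lift K f, by
    intro x y h
    induction h with
    | pow i => rw [map_pow, FreeAlgebra.lift_ι_apply, h1, map_zero]
    | comm i j h =>
      rw [map_add, map_smul, map_mul, map_mul, FreeAlgebra.lift_ι_apply,
        FreeAlgebra.lift_ι_apply, h2 i j h, map_zero]⟩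

theorem liftQ_xg {B : Type*} [Ring B] [Algebra K B] (f : Fin n → B)
    (h1 : ∀ i, f i ^ a i = 0) (h2 : ∀ i j, j < i → f i * f j + q i j • (f j * f i) = 0)
    (i : Fin n) : liftQ a q f h1 h2 (xg a q i) = f i := by
  have : liftQ a q f h1 h2 (mkQ a q (FreeAlgebra.ι K i)) = FreeAlgebra.lift K f (FreeAlgebra.ι K i) :=
    RingQuot.liftAlgHom_mkAlgHom_apply K _ _ _
  rw [xg, this, FreeAlgebra.lift_ι_apply]

/-- Induction principle for quantum complete intersections. -/
theorem qind {C : QCI K a q → Prop} (h0 : ∀ c : K, C (algebraMap K _ c)) (h1 : ∀ i, C (xg a q i))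
    (hm : ∀ x y, C x → C y → C (x * y)) (ha : ∀ x y, C x → C y → C (x + y)) (z : QCI K a q) :
    C z := by
  obtain ⟨w, rfl⟩ := mkQ_surj a q z
  induction w using FreeAlgebra.induction with
  | grade0 r => rw [AlgHom.commutes]; exact h0 r
  | grade1 x => exact h1 x
  | mul x y hx hy => rw [map_mul]; exact hm _ _ hx hy
  | add x y hx hy => rw [map_add]; exact ha _ _ hx hy

/-- The filtration by ordered monomials. -/
noncomputable def Wf : ℕ → Submodule K (QCI K a q)
  | 0 => Submodule.span K {1}
  | k + 1 => if h : k < n then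
      ⨆ s ∈ range (a ⟨k, h⟩), (Wf k).map (LinearMap.mulRight K (xg a q ⟨k, h⟩ ^ s)) else Wf k

theorem Wf_fg (k : ℕ) : (Wf a q k).FG := by
  induction k with
  | zero => exact ⟨{1}, by simp [Wf]⟩
  | succ k ih =>
    rw [Wf]
    split_ifs with h
    · exact Submodule.fg_biSup _ _ fun s _ => ih.map _
    · exact ih

theorem Wf_mem (ha : ∀ i, 0 < a i) (k : ℕ) : (1 : QCI K a q) ∈ Wf a q k := by
  induction k with
  | zero => exact Submodule.mem_span_singleton_self 1
  | succ k ih =>
    rw [Wf]
    split_ifs with h
    · refine Submodule.mem_iSup_of_mem 0 (Submodule.mem_iSup_of_mem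
        (Finset.mem_range.2 (ha _)) ⟨1, ih, ?_⟩)
      simp
    · exact ih

theorem skew_pow_right {A : Type*} [Ring A] [Algebra K A] {x y : A} {c : K}
    (h : x * y = c • (y * x)) (s : ℕ) : x ^ s * y = c ^ s • (y * x ^ s) := by
  induction s with
  | zero => simp
  | succ s ih =>
    rw [pow_succ, mul_assoc, h, mul_smul_comm, ← mul_assoc, ih, smul_mul_assoc, smul_smul,
      mul_assoc, pow_succ, mul_comm]

theorem Wf_mul (k : ℕ) : ∀ i : Fin n, i.val < k → ∀ w ∈ Wf a q k, w * xg a q i ∈ Wf a q k := by
  induction k with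
  | zero => intro i hi; omega
  | succ k ih =>
    intro i hi w hw
    rw [Wf] at hw ⊢
    by_cases h : k < n
    · rw [dif_pos h] at hw ⊢
      have key : (⨆ s ∈ range (a ⟨k, h⟩), (Wf a q k).map (LinearMap.mulRight K
          (xg a q ⟨k, h⟩ ^ s))) ≤ (⨆ s ∈ range (a ⟨k, h⟩), (Wf a q k).map (LinearMap.mulRight K
          (xg a q ⟨k, h⟩ ^ s))).comap (LinearMap.mulRight K (xg a q i)) := by
        refine iSup_le fun s => iSup_le fun hs => ?_
        rintro _ ⟨v, hv, rfl⟩
        simp only [Submodule.mem_comap, LinearMap.mulRight_apply]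
        by_cases hik : i.val < k
        · have hc := skew_pow_right (xg_comm a q ⟨k, h⟩ i hik) s
          rw [mul_assoc, hc, mul_smul_comm, ← mul_assoc]
          refine Submodule.smul_mem _ _ (Submodule.mem_iSup_of_mem s (Submodule.mem_iSup_of_mem hs
            ⟨v * xg a q i, ih i hik v hv, ?_⟩))
          simp
        · have hi' : i = ⟨k, h⟩ := Fin.ext (by show i.val = k; omega)
          subst hi'
          rw [mul_assoc, ← pow_succ]
          by_cases hs' : s + 1 < a ⟨k, h⟩
          · exact Submodule.mem_iSup_of_mem (s + 1) (Submodule.mem_iSup_of_mem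
              (Finset.mem_range.2 hs') ⟨v, hv, by simp⟩)
          · have : s + 1 = a ⟨k, h⟩ := by
              have := Finset.mem_range.1 hs; omega
            rw [this, xg_pow, mul_zero]
            exact Submodule.zero_mem _
      exact key hw
    · rw [dif_neg h] at hw ⊢
      exact ih i (by have := i.isLt; omega) w hw

theorem finiteQCI (ha : ∀ i, 0 < a i) : Module.Finite K (QCI K a q) := by
  have htop : Wf a q n = ⊤ := by
    rw [eq_top_iff]
    intro z _
    have : ∀ z : QCI K a q, ∀ w ∈ Wf a q n, w * z ∈ Wf a q n := by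
      intro z
      induction z using qind with
      | h0 c =>
        intro w hw
        rw [← Algebra.commutes, ← Algebra.smul_def]
        exact Submodule.smul_mem _ _ hw
      | h1 i => exact Wf_mul a q n i i.isLt
      | hm x y hx hy =>
        intro w hw
        rw [← mul_assoc]
        exact hy _ (hx _ hw)
      | ha x y hx hy =>
        intro w hw
        rw [mul_add]
        exact Submodule.add_mem _ (hx _ hw) (hy _ hw)
    have h1 := this z 1 (Wf_mem a q ha n)
    rwa [one_mul] at h1
  exact ⟨htop ▸ Wf_fg a q n⟩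

end Pool.Agent.V1110.Qci
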