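import Pool.Agent.V1110.QciTwist

/-!
Passage to the algebraic closure and back: over any field, a rigid tuple has a trace preimage of
the identity.
-/

set_option autoImplicit false

namespace Pool.Agent.V1110.Qci

open Polynomial Finset

section CocNat

variable {K F : Type*} [Field K] [Field F] {V W : Type*} [AddCommGroup V] [Module F V]
  [AddCommGroup W] [Module K W]
variable {n : ℕ} {a : Fin n → ℕ} {p : Fin n → Fin n → K}
  {l r : Fin n → Module.End F V} {l' r' : Fin n → Module.End K W}

theorem coc_nat (ρ : K →+* F) (Φ : V →+ W) (hs : ∀ (c : K) (v : V), Φ (ρ c • v) = c • Φ v)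
    (hL : ∀ i v, Φ (l i v) = l' i (Φ v)) (hR : ∀ i v, Φ (r i v) = r' i (Φ v)) (k : ℕ)
    (θ : Fin n → K) (f : Fin n → V)
    (hf : Coc a (fun i j => ρ (p i j)) l r k (fun i => ρ (θ i)) f) :
    Coc a p l' r' k θ (fun i => Φ (f i)) := by
  refine ⟨fun i hi => ?_, fun i j hi hj => ?_⟩
  · rw [← T_nat ρ Φ hs (l i) (r i) (l' i) (r' i) (hL i) (hR i), hf.1 i hi, map_zero]
  · have := congrArg Φ (hf.2 i j hi hj)
    simpa only [map_add, hs, hL, hR] using this

end CocNat

section Main

variable {K : Type*} [Field K] {n : ℕ} {a : Fin n → ℕ} {p : Fin n → Fin n → K}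
  {ι : Type*} [Fintype ι] [DecidableEq ι]

theorem exists_top (ha : ∀ i, 0 < a i) (X' : Fin n → Matrix ι ι K) (H : Skew a p X')
    (hE : PT1 a p (fun i => LinearMap.mulLeft K (X' i)) (fun i => LinearMap.mulRight K (X' i))) :
    ∃ h : Matrix ι ι K, top a p (fun i => LinearMap.mulLeft K (X' i))
      (fun i => LinearMap.mulRight K (X' i)) 0 h = 1 := by
  classical
  let F := AlgebraicClosure K
  let ρ : K →+* F := algebraMap K F
  let XF : Fin n → Matrix ι ι F := fun j => (X' j).map ρ
  have hXF : ∀ j, XF j = ρ.mapMatrix (X' j) := fun j => rfl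
  have HF : Skew a (fun i j => ρ (p i j)) XF :=
    { nil := fun i => by
        have := congrArg ρ.mapMatrix (H.nil i)
        rw [map_pow, map_zero] at this
        exact this
      comm := fun i j => by
        have := congrArg ρ.mapMatrix (H.comm i j)
        rw [map_mul] at this
        have e : ρ.mapMatrix (p i j • (X' j * X' i))
            = ρ (p i j) • (ρ.mapMatrix (X' j) * ρ.mapMatrix (X' i)) := by
          rw [← map_mul]
          refine Matrix.ext fun x y => ?_
          exact map_mul ρ _ _
        rw [e] at this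
        exact this
      pp := fun i j => by rw [← map_mul, H.pp, map_one]
      pi := fun i => by rw [H.pi, map_one] }
  -- entrywise application of a linear functional
  let Ψ : (F →ₗ[K] K) → Matrix ι ι F →+ Matrix ι ι K := fun g => g.toAddMonoidHom.mapMatrix
  have hΨ : ∀ g v x y, Ψ g v x y = g (v x y) := fun g v x y => rfl
  have hs : ∀ g (c : K) (v : Matrix ι ι F), Ψ g (ρ c • v) = c • Ψ g v := by
    intro g c v
    refine Matrix.ext fun x y => ?_
    rw [hΨ, Matrix.smul_apply, Matrix.smul_apply, hΨ, smul_eq_mul]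
    have : ρ c * v x y = c • v x y := (Algebra.smul_def c (v x y)).symm
    rw [this, map_smul]
  have hL : ∀ g i v, Ψ g (LinearMap.mulLeft F (XF i) v) = LinearMap.mulLeft K (X' i) (Ψ g v) := by
    intro g i v
    refine Matrix.ext fun x y => ?_
    rw [hΨ, LinearMap.mulLeft_apply, LinearMap.mulLeft_apply, Matrix.mul_apply, Matrix.mul_apply,
      map_sum]
    refine Finset.sum_congr rfl fun z _ => ?_
    have : XF i x z * v z y = X' i x z • v z y := (Algebra.smul_def (X' i x z) (v z y)).symm
    rw [this, map_smul, hΨ, smul_eq_mul]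
  have hR : ∀ g i v, Ψ g (LinearMap.mulRight F (XF i) v) = LinearMap.mulRight K (X' i) (Ψ g v) := by
    intro g i v
    refine Matrix.ext fun x y => ?_
    rw [hΨ, LinearMap.mulRight_apply, LinearMap.mulRight_apply, Matrix.mul_apply,
      Matrix.mul_apply, map_sum]
    refine Finset.sum_congr rfl fun z _ => ?_
    have : v x z * XF i z y = X' i z y • v x z := by
      rw [mul_comm]; exact (Algebra.smul_def (X' i z y) (v x z)).symm
    rw [this, map_smul, hΨ, smul_eq_mul, mul_comm]
  -- exactness over the closure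
  have hEF : PT1 a (fun i j => ρ (p i j)) (fun i => LinearMap.mulLeft F (XF i))
      (fun i => LinearMap.mulRight F (XF i)) := by
    intro f hf
    let b := Module.Basis.ofVectorSpace K F
    have hβ : ∀ β, ∃ h : Matrix ι ι K, ∀ i, LinearMap.mulRight K (X' i) h
        - LinearMap.mulLeft K (X' i) h = Ψ (b.coord β) (f i) := by
      intro β
      refine hE _ ?_
      refine coc_nat ρ (Ψ (b.coord β)) (hs _) (hL _) (hR _) 0 (fun _ => 1) f ?_
      simpa using hf
    choose h hh using hβ
    let S : Finset _ := Finset.univ.biUnion fun i : Fin n => Finset.univ.biUnion fun x : ι =>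
      Finset.univ.biUnion fun y : ι => (b.repr (f i x y)).support
    refine ⟨∑ β ∈ S, b β • (h β).map ρ, fun i => ?_⟩
    rw [map_sum, map_sum, ← Finset.sum_sub_distrib]
    have e1 : ∀ β, LinearMap.mulRight F (XF i) (b β • (h β).map ρ)
        - LinearMap.mulLeft F (XF i) (b β • (h β).map ρ)
        = b β • (Ψ (b.coord β) (f i)).map ρ := by
      intro β
      rw [map_smul, map_smul, ← smul_sub, ← hh β i]
      congr 1
      have e2 : ∀ v : Matrix ι ι K, v.map ρ = ρ.mapMatrix v := fun v => rfl
      rw [e2, e2, map_sub]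
      simp only [LinearMap.mulRight_apply, LinearMap.mulLeft_apply, map_mul, hXF]
    rw [Finset.sum_congr rfl fun β _ => e1 β]
    refine Matrix.ext fun x y => ?_
    rw [Matrix.sum_apply]
    have e3 : ∀ β, (b β • (Ψ (b.coord β) (f i)).map ρ) x y = b.repr (f i x y) β • b β := by
      intro β
      rw [Matrix.smul_apply, Matrix.map_apply, hΨ, smul_eq_mul, mul_comm]
      exact (Algebra.smul_def _ _).symm
    rw [Finset.sum_congr rfl fun β _ => e3 β]
    have e4 := b.linearCombination_repr (f i x y)
    rw [Finsupp.linearCombination_apply, Finsupp.sum] at e4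
    conv_rhs => rw [← e4]
    symm
    refine Finset.sum_subset ?_ ?_
    · intro β hβ
      simp only [S, Finset.mem_biUnion, Finset.mem_univ, true_and]
      exact ⟨i, x, y, hβ⟩
    · intro β _ hβ
      rw [Finsupp.notMem_support_iff.1 hβ, zero_smul]
  have hpte := pte_of_pt1 XF HF hEF
  obtain ⟨ψ, hψ⟩ := top_exists HF.qb (hasRoots a ha) ha hpte n 0 (by omega) 1 (fun i _ => by
    rw [th_zero, one_smul]; simp)
  obtain ⟨g, hg⟩ : ∃ g : F →ₗ[K] K, g 1 = 1 := by
    obtain ⟨g, hg⟩ := LinearMap.exists_leftInverse_of_injective (Algebra.linearMap K F)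
      (LinearMap.ker_eq_bot.2 (algebraMap K F).injective)
    refine ⟨g, ?_⟩
    have := congrArg (fun φ : K →ₗ[K] K => φ 1) hg
    simpa using this
  refine ⟨Ψ g ψ, ?_⟩
  rw [← top_nat (l := fun i => LinearMap.mulLeft F (XF i))
    (r := fun i => LinearMap.mulRight F (XF i)) ρ (Ψ g) (hs g) (hL g) (hR g) 0 ψ, hψ]
  refine Matrix.ext fun x y => ?_
  rw [hΨ, Matrix.one_apply, Matrix.one_apply]
  split_ifs
  · exact hg
  · exact map_zero g

end Main

end Pool.Agent.V1110.Qci
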