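import Pool.Agent.V1110.QciAlg

/-!
Modules over quantum complete intersections: if all self-extensions split, the module is projective.
-/

set_option autoImplicit false

namespace Pool.Agent.V1110.Qci

open Finset MulOpposite

universe u

variable {K : Type u} [Field K] {n : ℕ} (a : Fin n → ℕ) (q : Fin n → Fin n → K)

/-- The commutation parameters of the operators of right multiplication. -/
noncomputable def pq (i j : Fin n) : K :=
  if i < j then -q j i else if j < i then (-q i j)⁻¹ else 1

/-- All self-extensions split. -/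
def SelfSplit (R : Type u) [Ring R] (M : Type u) [AddCommGroup M] [Module R M] : Prop :=
  ∀ (N : Type u) [AddCommGroup N] [Module R N] (f : M →ₗ[R] N) (g : N →ₗ[R] M),
    Function.Injective f → Function.Surjective g → Function.Exact f g →
    ∃ s : M →ₗ[R] N, ∀ m, g (s m) = m

section Act

variable (M : Type u) [AddCommGroup M] [Module (QCI K a q)ᵐᵒᵖ M] [Module K M]
  [IsScalarTower K (QCI K a q)ᵐᵒᵖ M]

/-- The action of the generators. -/
noncomputable def Xa (i : Fin n) : Module.End K M :=
  Algebra.lsmul K K M (op (xg a q i) : (QCI K a q)ᵐᵒᵖ)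

theorem Xa_apply (i : Fin n) (m : M) :
    Xa a q M i m = (op (xg a q i) : (QCI K a q)ᵐᵒᵖ) • m := rfl

theorem skewXa (hq : ∀ i j, j < i → q i j ≠ 0) : Skew a (pq q) (Xa a q M) where
  nil i := by
    rw [Xa, ← map_pow, ← op_pow, xg_pow, op_zero, map_zero]
  comm i j := by
    rw [Xa, Xa, ← map_mul, ← map_mul, ← op_mul, ← op_mul, ← map_smul, ← op_smul, pq]
    congr 2
    split_ifs with h1 h2
    · exact xg_comm a q j i h1
    · rw [xg_comm a q i j h2, smul_smul, inv_mul_cancel₀ (neg_ne_zero.2 (hq i j h2)), one_smul]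
    · have : i = j := le_antisymm (not_lt.1 h2) (not_lt.1 h1)
      rw [this, one_smul]
  pp i j := by
    rw [pq, pq]
    rcases lt_trichotomy i j with h | h | h
    · rw [if_pos h, if_neg (lt_asymm h), if_pos h, mul_inv_cancel₀ (neg_ne_zero.2 (hq j i h))]
    · subst h; simp
    · rw [if_neg (lt_asymm h), if_pos h, if_pos h, inv_mul_cancel₀ (neg_ne_zero.2 (hq i j h))]
  pi i := by simp [pq]

end Act

/-- The module structure defined by a representation. -/
noncomputable def modOf {W : Type u} [AddCommGroup W] [Module K W]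
    (φ : QCI K a q →ₐ[K] (Module.End K W)ᵐᵒᵖ) : Module (QCI K a q)ᵐᵒᵖ W where
  smul z w := (φ z.unop).unop w
  one_smul w := by
    show (φ (1 : (QCI K a q)ᵐᵒᵖ).unop).unop w = w
    rw [unop_one, map_one]; rfl
  mul_smul x y w := by
    show (φ (x * y).unop).unop w = (φ x.unop).unop ((φ y.unop).unop w)
    rw [unop_mul, map_mul]; rfl
  smul_zero z := map_zero _
  smul_add z w w' := map_add _ _ _
  add_smul x y w := by
    show (φ (x + y).unop).unop w = (φ x.unop).unop w + (φ y.unop).unop w
    rw [unop_add, map_add]; rfl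
  zero_smul w := by
    show (φ (0 : (QCI K a q)ᵐᵒᵖ).unop).unop w = 0
    rw [unop_zero, map_zero]; rfl

/-- A copy of `M × M`. -/
def Tw (M : Type u) : Type u := M × M

instance (M : Type u) [AddCommGroup M] : AddCommGroup (Tw M) :=
  inferInstanceAs (AddCommGroup (M × M))

instance (M : Type u) [AddCommGroup M] [Module K M] : Module K (Tw M) :=
  inferInstanceAs (Module K (M × M))

section Ext

variable {M : Type u} [AddCommGroup M] [Module K M]

/-- The block triangular operator. -/
noncomputable def Xt (X f : Module.End K M) : Module.End K (Tw M) :=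
  (((X.comp (LinearMap.fst K M M) + f.comp (LinearMap.snd K M M)).prod
    (X.comp (LinearMap.snd K M M))) : M × M →ₗ[K] M × M)

theorem Xt_apply (X f : Module.End K M) (w : Tw M) : Xt X f w = ((X w.1 + f w.2, X w.2) : M × M) :=
  rfl

theorem Xt_pow (X f : Module.End K M) (t : ℕ) (w : Tw M) :
    (Xt X f ^ t) w
      = (((X ^ t) w.1 + (∑ s ∈ range t, X ^ s * f * X ^ (t - 1 - s)) w.2, (X ^ t) w.2) : M × M) := by
  induction t with
  | zero => simp
  | succ t ih =>
    rw [pow_succ', Module.End.mul_apply, ih, Xt_apply, Finset.sum_range_succ']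
    refine Prod.ext ?_ ?_
    · show X ((X ^ t) w.1 + (∑ s ∈ range t, X ^ s * f * X ^ (t - 1 - s)) w.2) + f ((X ^ t) w.2) = _
      have e1 : ∑ k ∈ range t, X ^ (k + 1) * f * X ^ (t + 1 - 1 - (k + 1))
          = X * ∑ s ∈ range t, X ^ s * f * X ^ (t - 1 - s) := by
        rw [Finset.mul_sum]
        refine Finset.sum_congr rfl fun s _ => ?_
        have : t + 1 - 1 - (s + 1) = t - 1 - s := by omega
        rw [this, pow_succ', mul_assoc, mul_assoc, mul_assoc]
      rw [e1, map_add, pow_succ' X]
      simp only [LinearMap.add_apply, Module.End.mul_apply, pow_zero, Module.End.one_apply,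
        Nat.add_sub_cancel, Nat.sub_zero]
      abel
    · show X ((X ^ t) w.2) = _
      rw [pow_succ' X]; rfl

end Ext

section Hom

variable {M N : Type u} [AddCommGroup M] [Module K M] [AddCommGroup N] [Module K N]

/-- Post-composition. -/
noncomputable def opL (Y : Module.End K N) : Module.End K (M →ₗ[K] N) := LinearMap.compRight K Y

/-- Pre-composition. -/
noncomputable def opR (X : Module.End K M) : Module.End K (M →ₗ[K] N) := LinearMap.lcomp K N X

theorem opL_apply (Y : Module.End K N) (σ : M →ₗ[K] N) : opL Y σ = Y.comp σ := rfl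

theorem opR_apply (X : Module.End K M) (σ : M →ₗ[K] N) : opR X σ = σ.comp X := rfl

theorem opL_pow (Y : Module.End K N) (t : ℕ) : (opL Y : Module.End K (M →ₗ[K] N)) ^ t = opL (Y ^ t) := by
  induction t with
  | zero => exact LinearMap.ext fun σ => rfl
  | succ t ih => rw [pow_succ', ih, pow_succ']; exact LinearMap.ext fun σ => rfl

theorem opR_pow (X : Module.End K M) (t : ℕ) : (opR X : Module.End K (M →ₗ[K] N)) ^ t = opR (X ^ t) := by
  induction t with
  | zero => exact LinearMap.ext fun σ => rfl
  | succ t ih => rw [pow_succ', ih, pow_succ]; exact LinearMap.ext fun σ => rfl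

variable {a} in
theorem QB_hom {p : Fin n → Fin n → K} {X : Fin n → Module.End K M} {Y : Fin n → Module.End K N}
    (HX : Skew a p X) (HY : Skew a p Y) :
    QB a p (fun i => (opL (Y i) : Module.End K (M →ₗ[K] N))) (fun i => opR (X i)) where
  lr i j := LinearMap.ext fun σ => rfl
  ll i j := LinearMap.ext fun σ => by
    have := HY.comm i j
    show (Y i * Y j).comp σ = p i j • ((Y j * Y i).comp σ)
    rw [this]; rfl
  rr i j := LinearMap.ext fun σ => by
    have := HX.comm i j
    show σ.comp (X i * X j) = p i j • (σ.comp (X j * X i))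
    rw [this, LinearMap.comp_smul]
  lp i := by rw [opL_pow, HY.nil]; exact LinearMap.ext fun σ => LinearMap.zero_comp _
  rp i := by rw [opR_pow, HX.nil]; exact LinearMap.ext fun σ => LinearMap.comp_zero _
  pp := HX.pp
  pi := HX.pi

end Hom

section PT

variable (M : Type u) [AddCommGroup M] [Module (QCI K a q)ᵐᵒᵖ M] [Module K M]
  [IsScalarTower K (QCI K a q)ᵐᵒᵖ M]

theorem pt1_of_split (hq : ∀ i j, j < i → q i j ≠ 0) (hS : SelfSplit (QCI K a q)ᵐᵒᵖ M) :
    PT1 a (pq q) (fun i => LinearMap.mulLeft K (Xa a q M i))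
      (fun i => LinearMap.mulRight K (Xa a q M i)) := by
  intro f hf
  have H := skewXa a q M hq
  have c1 : ∀ i, ∑ s ∈ range (a i), Xa a q M i ^ s * f i * Xa a q M i ^ (a i - 1 - s) = 0 := by
    intro i
    have := hf.1 i (Nat.zero_le _)
    rw [T_apply] at this
    rw [← this]
    refine Finset.sum_congr rfl fun s _ => ?_
    simp only [LinearMap.pow_mulLeft, LinearMap.pow_mulRight, LinearMap.mulLeft_apply,
      LinearMap.mulRight_apply, one_pow, one_smul, mul_assoc]
  have c2 : ∀ i j, f i * Xa a q M j + Xa a q M i * f j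
      = pq q i j • (f j * Xa a q M i + Xa a q M j * f i) := by
    intro i j
    have := hf.2 i j (Nat.zero_le _) (Nat.zero_le _)
    simpa only [LinearMap.mulLeft_apply, LinearMap.mulRight_apply, one_smul] using this
  have g1 : ∀ i, (op (Xt (Xa a q M i) (f i)) : (Module.End K (Tw M))ᵐᵒᵖ) ^ a i = 0 := by
    intro i
    rw [← op_pow]
    have : Xt (Xa a q M i) (f i) ^ a i = 0 := by
      refine LinearMap.ext fun w => ?_
      rw [Xt_pow, c1 i, H.nil i]
      simp
      rfl
    rw [this, op_zero]
  have g2 : ∀ i j, j < i → (op (Xt (Xa a q M i) (f i)) : (Module.End K (Tw M))ᵐᵒᵖ)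
      * op (Xt (Xa a q M j) (f j))
      + q i j • (op (Xt (Xa a q M j) (f j)) * op (Xt (Xa a q M i) (f i))) = 0 := by
    intro i j hij
    rw [← op_mul, ← op_mul, ← op_smul, ← op_add]
    have : Xt (Xa a q M j) (f j) * Xt (Xa a q M i) (f i)
        + q i j • (Xt (Xa a q M i) (f i) * Xt (Xa a q M j) (f j)) = 0 := by
      have hp : pq q j i = -q i j := by rw [pq, if_pos hij]
      have h1 := c2 j i
      have h2 := H.comm j i
      rw [hp] at h1 h2
      refine LinearMap.ext fun w => ?_
      have h1' := congrArg (fun A : Module.End K M => A w.2) h1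
      have h2' := congrArg (fun A : Module.End K M => A w.1) h2
      have h2'' := congrArg (fun A : Module.End K M => A w.2) h2
      simp only [LinearMap.add_apply, LinearMap.smul_apply, Module.End.mul_apply] at h1' h2' h2''
      refine Prod.ext ?_ ?_
      · show (Xa a q M j (Xa a q M i w.1 + f i w.2) + f j (Xa a q M i w.2))
          + q i j • (Xa a q M i (Xa a q M j w.1 + f j w.2) + f i (Xa a q M j w.2)) = 0
        rw [map_add, map_add]
        linear_combination (norm := module) h1' + h2'
      · show Xa a q M j (Xa a q M i w.2) + q i j • Xa a q M i (Xa a q M j w.2) = 0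
        linear_combination (norm := module) h2''
    rw [this, op_zero]
  let φ := liftQ a q (fun i => (op (Xt (Xa a q M i) (f i)) : (Module.End K (Tw M))ᵐᵒᵖ)) g1 g2
  have hφ : ∀ i, φ (xg a q i) = op (Xt (Xa a q M i) (f i)) := fun i => liftQ_xg a q _ g1 g2 i
  letI : Module (QCI K a q)ᵐᵒᵖ (Tw M) := modOf a q φ
  have hsm : ∀ (z : (QCI K a q)ᵐᵒᵖ) (w : Tw M), z • w = (φ z.unop).unop w := fun z w => rfl
  -- the action on the two components
  have hact : ∀ (z : QCI K a q), (∀ m : M, (φ z).unop ((m, 0) : M × M) = ((op z • m, 0) : M × M)) ∧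
      ∀ w : Tw M, ((φ z).unop w).2 = op z • w.2 := by
    intro z
    induction z using qind with
    | h0 c =>
      rw [AlgHom.commutes]
      have e : ∀ m : M, (op (algebraMap K (QCI K a q) c) : (QCI K a q)ᵐᵒᵖ) • m = c • m := fun m => by
        have : (op (algebraMap K (QCI K a q) c) : (QCI K a q)ᵐᵒᵖ)
          = algebraMap K (QCI K a q)ᵐᵒᵖ c := rfl
        rw [this, algebraMap_smul]
      refine ⟨fun m => ?_, fun w => ?_⟩
      · rw [e]
        show c • ((m, 0) : M × M) = _
        rw [Prod.smul_mk, smul_zero]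
      · rw [e]; rfl
    | h1 i =>
      rw [hφ, unop_op]
      refine ⟨fun m => ?_, fun w => ?_⟩
      · rw [Xt_apply]
        show ((Xa a q M i m + f i 0, Xa a q M i 0) : M × M) = _
        rw [map_zero, map_zero, add_zero]; rfl
      · rw [Xt_apply]; rfl
    | hm x y hx hy =>
      refine ⟨fun m => ?_, fun w => ?_⟩
      · rw [map_mul, unop_mul, Module.End.mul_apply, hx.1, hy.1, op_mul, mul_smul]
      · rw [map_mul, unop_mul, Module.End.mul_apply, hy.2, hx.2, op_mul, mul_smul]
    | ha x y hx hy =>
      refine ⟨fun m => ?_, fun w => ?_⟩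
      · rw [map_add, unop_add, LinearMap.add_apply, hx.1, hy.1, op_add, add_smul]
        exact Prod.ext rfl (add_zero (0 : M))
      · rw [map_add, unop_add, LinearMap.add_apply]
        show ((φ x).unop w).2 + ((φ y).unop w).2 = _
        rw [hx.2, hy.2, op_add, add_smul]
  let fI : M →ₗ[(QCI K a q)ᵐᵒᵖ] Tw M :=
    { toFun := fun m => ((m, 0) : M × M)
      map_add' := fun m m' => by
        exact Prod.ext rfl (add_zero (0 : M)).symm
      map_smul' := fun z m => by
        rw [RingHom.id_apply, hsm, (hact z.unop).1 m, op_unop] }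
  let gP : Tw M →ₗ[(QCI K a q)ᵐᵒᵖ] M :=
    { toFun := fun w => w.2
      map_add' := fun w w' => rfl
      map_smul' := fun z w => by
        rw [RingHom.id_apply, hsm, (hact z.unop).2 w, op_unop] }
  obtain ⟨s, hs⟩ := hS (Tw M) fI gP (fun m m' h => (Prod.ext_iff.1 h).1)
    (fun m => ⟨((0, m) : M × M), rfl⟩) (by
      intro w
      constructor
      · intro hw
        exact ⟨w.1, Prod.ext rfl hw.symm⟩
      · rintro ⟨m, rfl⟩; rfl)
  have hs2 : ∀ m, (s m).2 = m := hs
  let h : Module.End K M :=
    { toFun := fun m => (s m).1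
      map_add' := fun m m' => by rw [map_add]; rfl
      map_smul' := fun c m => by
        have e1 : c • m = algebraMap K (QCI K a q)ᵐᵒᵖ c • m := (algebraMap_smul _ c m).symm
        rw [e1, map_smul, hsm]
        have e2 : φ (algebraMap K (QCI K a q)ᵐᵒᵖ c).unop = algebraMap K _ c := φ.commutes c
        rw [e2]; rfl }
  refine ⟨h, fun i => ?_⟩
  refine LinearMap.ext fun m => ?_
  simp only [LinearMap.mulRight_apply, LinearMap.mulLeft_apply, LinearMap.sub_apply,
    Module.End.mul_apply]
  show (s (op (xg a q i) • m)).1 - Xa a q M i (s m).1 = f i m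
  rw [map_smul, hsm, unop_op, hφ, unop_op, Xt_apply, hs2]
  show (Xa a q M i (s m).1 + f i m) - Xa a q M i (s m).1 = f i m
  abel

theorem exists_top_end (ha : ∀ i, 0 < a i) (hq : ∀ i j, j < i → q i j ≠ 0) [Module.Finite K M]
    (hS : SelfSplit (QCI K a q)ᵐᵒᵖ M) :
    ∃ h : Module.End K M, top a (pq q) (fun i => LinearMap.mulLeft K (Xa a q M i))
      (fun i => LinearMap.mulRight K (Xa a q M i)) 0 h = 1 := by
  classical
  let b := Module.finBasis K M
  let e : Module.End K M ≃ₐ[K] Matrix (Fin (Module.finrank K M)) (Fin (Module.finrank K M)) K :=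
    LinearMap.toMatrixAlgEquiv b
  have H := skewXa a q M hq
  have HE : Skew a (pq q) (fun i => e (Xa a q M i)) :=
    { nil := fun i => by rw [← map_pow, H.nil, map_zero]
      comm := fun i j => by rw [← map_mul, ← map_mul, ← map_smul, H.comm]
      pp := H.pp
      pi := H.pi }
  have hPT := pt1_of_split a q M hq hS
  have hPE : PT1 a (pq q) (fun i => LinearMap.mulLeft K (e (Xa a q M i)))
      (fun i => LinearMap.mulRight K (e (Xa a q M i))) := by
    intro f hf
    have h1 := coc_map (l' := fun i => LinearMap.mulLeft K (Xa a q M i))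
      (r' := fun i => LinearMap.mulRight K (Xa a q M i)) (RingHom.id K)
      (e.symm.toLinearMap.toAddMonoidHom) (fun c v => e.symm.toLinearMap.map_smul c v)
      (fun i v => by
        show e.symm (e (Xa a q M i) * v) = Xa a q M i * e.symm v
        rw [map_mul, e.symm_apply_apply])
      (fun i v => by
        show e.symm (v * e (Xa a q M i)) = e.symm v * Xa a q M i
        rw [map_mul, e.symm_apply_apply]) 0 (fun _ => 1) f hf
    obtain ⟨h, hh⟩ := hPT _ h1
    refine ⟨e h, fun i => ?_⟩
    have := congrArg e (hh i)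
    simp only [LinearMap.mulRight_apply, LinearMap.mulLeft_apply, map_sub, map_mul] at this ⊢
    rw [this]
    exact e.apply_symm_apply (f i)
  obtain ⟨h, hh⟩ := exists_top ha _ HE hPE
  refine ⟨e.symm h, ?_⟩
  have := top_nat (a := a) (p := pq q) (l := fun i => LinearMap.mulLeft K (e (Xa a q M i)))
    (r := fun i => LinearMap.mulRight K (e (Xa a q M i)))
    (l' := fun i => LinearMap.mulLeft K (Xa a q M i))
    (r' := fun i => LinearMap.mulRight K (Xa a q M i)) (RingHom.id K)
    (e.symm.toLinearMap.toAddMonoidHom) (fun c v => e.symm.toLinearMap.map_smul c v)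
    (fun i v => by
      show e.symm (e (Xa a q M i) * v) = Xa a q M i * e.symm v
      rw [map_mul, e.symm_apply_apply])
    (fun i v => by
      show e.symm (v * e (Xa a q M i)) = e.symm v * Xa a q M i
      rw [map_mul, e.symm_apply_apply]) 0 h
  have e1 : (fun i j => (RingHom.id K) (pq q i j)) = pq q := rfl
  rw [e1, hh] at this
  rw [show e.symm h = e.symm.toLinearMap.toAddMonoidHom h from rfl, ← this]
  exact map_one e.symm

theorem projective_of_split (ha : ∀ i, 0 < a i) (hq : ∀ i j, j < i → q i j ≠ 0)
    [Module.Finite K M] (hS : SelfSplit (QCI K a q)ᵐᵒᵖ M) :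
    Module.Projective (QCI K a q)ᵐᵒᵖ M := by
  classical
  obtain ⟨h, hh⟩ := exists_top_end a q M ha hq hS
  have H := skewXa a q M hq
  let N := M →₀ (QCI K a q)ᵐᵒᵖ
  let g : N →ₗ[(QCI K a q)ᵐᵒᵖ] M := Finsupp.linearCombination _ id
  have hg : Function.Surjective g := Finsupp.linearCombination_id_surjective _ M
  let gK : N →ₗ[K] M := g.restrictScalars K
  obtain ⟨τ, hτ⟩ := LinearMap.exists_rightInverse_of_surjective gK (LinearMap.range_eq_top.2 hg)
  let Y : Fin n → Module.End K N := Xa a q N
  have HY : Skew a (pq q) Y := skewXa a q N hq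
  -- operators on `Hom_K (M, N)`
  let l' : Fin n → Module.End K (M →ₗ[K] N) := fun i => opL (Y i)
  let r' : Fin n → Module.End K (M →ₗ[K] N) := fun i => opR (Xa a q M i)
  have HQ := QB_hom H HY
  let σ : M →ₗ[K] N := top a (pq q) l' r' 0 (τ.comp h)
  have hσ : ∀ i m, σ (op (xg a q i) • m) = op (xg a q i) • σ m := by
    intro i m
    have := top_inv_zero HQ (τ.comp h) i
    exact congrArg (fun A : M →ₗ[K] N => A m) this
  have hgσ : gK.comp σ = 1 := by
    have hgY : ∀ i, gK.comp (Y i) = (Xa a q M i).comp gK := fun i => LinearMap.ext fun w =>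
      g.map_smul (op (xg a q i)) w
    have := top_nat (a := a) (p := pq q) (l := l') (r := r')
      (l' := fun i => LinearMap.mulLeft K (Xa a q M i))
      (r' := fun i => LinearMap.mulRight K (Xa a q M i)) (RingHom.id K)
      (LinearMap.compRight K gK : (M →ₗ[K] N) →ₗ[K] (M →ₗ[K] M)).toAddMonoidHom
      (fun c v => map_smul (LinearMap.compRight K gK : (M →ₗ[K] N) →ₗ[K] (M →ₗ[K] M)) c v)
      (fun i v => by
        show gK.comp ((Y i).comp v) = (Xa a q M i) * (gK.comp v)
        rw [← LinearMap.comp_assoc, hgY]; rfl)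
      (fun i v => rfl) 0 (τ.comp h)
    have e1 : (fun i j => (RingHom.id K) (pq q i j)) = pq q := rfl
    rw [e1] at this
    have e2 : gK.comp (τ.comp h) = h := by
      rw [← LinearMap.comp_assoc, hτ, LinearMap.id_comp]
    have e3 : gK.comp σ = top a (pq q) (fun i => LinearMap.mulLeft K (Xa a q M i))
      (fun i => LinearMap.mulRight K (Xa a q M i)) 0 (gK.comp (τ.comp h)) := this
    rw [e3, e2, hh]
  have hσR : ∀ (z : QCI K a q) (m : M), σ (op z • m) = op z • σ m := by
    intro z
    induction z using qind with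
    | h0 c =>
      intro m
      have : (op (algebraMap K (QCI K a q) c) : (QCI K a q)ᵐᵒᵖ)
          = algebraMap K (QCI K a q)ᵐᵒᵖ c := rfl
      rw [this, algebraMap_smul, algebraMap_smul, map_smul]
    | h1 i => exact hσ i
    | hm x y hx hy => intro m; rw [op_mul, mul_smul, hy, hx, mul_smul]
    | ha x y hx hy => intro m; rw [op_add, add_smul, map_add, hx, hy, add_smul]
  refine ⟨{ toFun := σ, map_add' := map_add σ, map_smul' := fun z m => hσR z.unop m }, fun m => ?_⟩
  exact congrArg (fun A : Module.End K M => A m) hgσ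

end PT

end Pool.Agent.V1110.Qci
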