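import Mathlib

/-!
Skew-commuting operators: the chain lemma used for quantum complete intersections.
-/

set_option autoImplicit false

namespace Pool.Agent.V1110.Qci

open Polynomial Finset

section Ev

variable {F : Type*} [CommRing F] {V : Type*} [AddCommGroup V] [Module F V]

theorem commute_aeval {L R : Module.End F V} (h : Commute L R) (p : F[X]) :
    Commute ((aeval L).toRingHom p) R := by
  induction p using Polynomial.induction_on' with
  | add p q hp hq => rw [map_add]; exact hp.add_left hq
  | monomial n c =>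
    have : (aeval L).toRingHom (monomial n c) = c • L ^ n := by
      simp [Polynomial.aeval_monomial, Algebra.smul_def]
    rw [this]
    exact (h.pow_left n).smul_left c

/-- Evaluation at two commuting operators: the inner variable goes to `L`, the outer to `R`. -/
noncomputable def ev (L R : Module.End F V) (h : Commute L R) : F[X][X] →+* Module.End F V :=
  eval₂RingHom' (aeval L).toRingHom R (fun p => commute_aeval h p)

/-- The linear form `Y - ξ X`. -/
noncomputable def lin (ξ : F) : F[X][X] := X - C (C ξ * X)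

theorem ev_X (L R : Module.End F V) (h : Commute L R) : ev L R h X = R := by
  simp [ev, eval₂RingHom']

theorem ev_C (L R : Module.End F V) (h : Commute L R) (p : F[X]) :
    ev L R h (C p) = aeval L p := by
  simp [ev, eval₂RingHom']

theorem ev_lin (L R : Module.End F V) (h : Commute L R) (ξ : F) :
    ev L R h (lin ξ) = R - ξ • L := by
  rw [lin, map_sub, ev_X, ev_C]
  simp [Algebra.smul_def]

/-- `T_ν = ∑ ν^s L^s R^(a-1-s)`. -/
noncomputable def T (a : ℕ) (ν : F) (L R : Module.End F V) : Module.End F V :=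
  ∑ s ∈ range a, ν ^ s • (L ^ s * R ^ (a - 1 - s))

theorem T_apply (a : ℕ) (ν : F) (L R : Module.End F V) (v : V) :
    T a ν L R v = ∑ s ∈ range a, ν ^ s • (L ^ s) ((R ^ (a - 1 - s)) v) := by
  simp [T, LinearMap.sum_apply]

/-- The polynomial of `T`. -/
noncomputable def Tpoly (a : ℕ) (ν : F) : F[X][X] :=
  ∑ s ∈ range a, (C (C ν * X)) ^ s * X ^ (a - 1 - s)

theorem ev_Tpoly (a : ℕ) (ν : F) (L R : Module.End F V) (h : Commute L R) :
    ev L R h (Tpoly a ν) = T a ν L R := by
  rw [Tpoly, T, map_sum]
  refine Finset.sum_congr rfl fun s _ => ?_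
  rw [map_mul, map_pow, map_pow, ev_X, ev_C]
  have : aeval L (C ν * X) = ν • L := by simp [Algebra.smul_def]
  rw [this, _root_.smul_pow, smul_mul_assoc]

theorem Tpoly_mul (a : ℕ) (ν : F) :
    Tpoly a ν * lin ν = X ^ a - (C (C ν * X)) ^ a := by
  have h := (Commute.all (C (C ν * X) : F[X][X]) X).geom_sum₂_mul a
  rw [Tpoly, lin]
  linear_combination -h

/-- `ξ` lists the `a`-th roots of one (with multiplicity). -/
structure Roots (a : ℕ) (ξ : ℕ → F) : Prop where
  prod : ∏ j ∈ range a, lin (ξ j) = X ^ a - C (X ^ a : F[X])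
  pow : ∀ j, j < a → ξ j ^ a = 1

theorem lin_ne_zero [IsDomain F] (ξ : F) : lin ξ ≠ 0 := by
  intro h
  have := congrArg (fun p : F[X][X] => p.coeff 1) h
  simp [lin] at this

theorem Roots.Tpoly_eq [IsDomain F] {a : ℕ} {ξ : ℕ → F} (h : Roots a ξ) {J : ℕ} (hJ : J < a) :
    Tpoly a (ξ J) = (∏ j ∈ range J, lin (ξ j)) * ∏ j ∈ Ico (J + 1) a, lin (ξ j) := by
  have h1 := Tpoly_mul a (ξ J)
  have h2 : (C (C (ξ J) * X) : F[X][X]) ^ a = C (X ^ a : F[X]) := by
    rw [← C_pow, mul_pow, ← C_pow, h.pow J hJ, C_1, one_mul]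
  rw [h2, ← h.prod] at h1
  refine mul_right_cancel₀ (lin_ne_zero (ξ J)) ?_
  rw [h1, ← Finset.prod_range_mul_prod_Ico (fun j => lin (ξ j)) (Nat.succ_le_of_lt hJ),
    Finset.prod_range_succ]
  ring

/-- Operators modelling left and right multiplication by skew-commuting nilpotent elements. -/
structure QB {n : ℕ} (a : Fin n → ℕ) (p : Fin n → Fin n → F) (l r : Fin n → Module.End F V) :
    Prop where
  lr : ∀ i j, Commute (l i) (r j)
  ll : ∀ i j, l i * l j = p i j • (l j * l i)
  rr : ∀ i j, r j * r i = p i j • (r i * r j)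
  lp : ∀ i, l i ^ a i = 0
  rp : ∀ i, r i ^ a i = 0
  pp : ∀ i j, p i j * p j i = 1
  pi : ∀ i, p i i = 1

theorem pow_skew {A B : Module.End F V} {c : F} (h : A * B = c • (B * A)) (s : ℕ) :
    A ^ s * B = c ^ s • (B * A ^ s) := by
  induction s with
  | zero => simp
  | succ s ih =>
    rw [pow_succ, mul_assoc, h, mul_smul_comm, ← mul_assoc, ih, smul_mul_assoc, smul_smul,
      mul_assoc, pow_succ, mul_comm]

/-- Cocycle conditions for the twist `θ` and the variables with index at least `k`. -/
def Coc {n : ℕ} (a : Fin n → ℕ) (p : Fin n → Fin n → F) (l r : Fin n → Module.End F V)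
    (k : ℕ) (θ : Fin n → F) (f : Fin n → V) : Prop :=
  (∀ i : Fin n, k ≤ i.val → T (a i) (θ i) (l i) (r i) (f i) = 0) ∧
    ∀ i j : Fin n, k ≤ i.val → k ≤ j.val →
      r j (f i) + θ i • l i (f j) = p i j • (r i (f j) + θ j • l j (f i))

/-- Exactness for all twists and the variables with index at least `k`. -/
def PTE {n : ℕ} (a : Fin n → ℕ) (p : Fin n → Fin n → F) (l r : Fin n → Module.End F V)
    (k : ℕ) : Prop :=
  ∀ θ : Fin n → F, (∀ i, θ i ≠ 0) → ∀ f : Fin n → V, Coc a p l r k θ f →
    ∃ h : V, ∀ i : Fin n, k ≤ i.val → r i h - θ i • l i h = f i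

variable {n : ℕ} {a : Fin n → ℕ} {p : Fin n → Fin n → F} {l r : Fin n → Module.End F V}

theorem QB.p_ne [IsDomain F] (H : QB a p l r) (i j : Fin n) : p i j ≠ 0 := by
  intro h
  have := H.pp i j
  rw [h, zero_mul] at this
  exact zero_ne_one this

theorem QB.coc_step (H : QB a p l r) (m : Fin n) (k : ℕ) (θ : Fin n → F) (f : Fin n → V)
    (c : F) (hf : Coc a p l r k θ f) :
    Coc a p l r k (fun i => p m i * θ i) (fun i => p m i • r m (f i) - c • l m (f i)) := by
  refine ⟨fun i hi => ?_, fun i j hi hj => ?_⟩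
  · have hT := hf.1 i hi
    have hR : ∀ t, r i ^ t * r m = (p m i) ^ t • (r m * r i ^ t) := fun t => pow_skew (H.rr m i) t
    have hL : ∀ t, (p m i) ^ t • (l i ^ t * l m) = l m * l i ^ t := fun t => by
      rw [pow_skew (H.ll i m) t, smul_smul, ← mul_pow, H.pp, one_pow, one_smul]
    have e1 : T (a i) (p m i * θ i) (l i) (r i) * r m
        = (p m i) ^ (a i - 1) • (r m * T (a i) (θ i) (l i) (r i)) := by
      rw [T, T, Finset.sum_mul, Finset.mul_sum, Finset.smul_sum]
      refine Finset.sum_congr rfl fun s hs => ?_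
      have hs' : s + (a i - 1 - s) = a i - 1 := by
        have := Finset.mem_range.1 hs; omega
      rw [smul_mul_assoc, mul_assoc, hR, mul_smul_comm, mul_smul_comm, smul_smul, smul_smul,
        mul_pow, ← mul_assoc, ((H.lr i m).pow_left s).eq, mul_assoc]
      congr 1
      conv_rhs => rw [← hs', pow_add]
      ring
    have e2 : T (a i) (p m i * θ i) (l i) (r i) * l m
        = l m * T (a i) (θ i) (l i) (r i) := by
      rw [T, T, Finset.sum_mul, Finset.mul_sum]
      refine Finset.sum_congr rfl fun s hs => ?_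
      rw [smul_mul_assoc, mul_assoc, (((H.lr m i).pow_right (a i - 1 - s)).eq).symm, ← mul_assoc,
        mul_pow, mul_comm (p m i ^ s), ← smul_smul, ← smul_mul_assoc (p m i ^ s), hL,
        mul_smul_comm, mul_assoc]
    have f1 := congrArg (fun A : Module.End F V => A (f i)) e1
    have f2 := congrArg (fun A : Module.End F V => A (f i)) e2
    simp only [Module.End.mul_apply, LinearMap.smul_apply] at f1 f2
    rw [map_sub, map_smul, map_smul, f1, f2, hT]
    simp
  · have h := hf.2 i j hi hj
    have cr : ∀ x y v, r x (r y v) = p y x • r y (r x v) := fun x y v => by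
      have := congrArg (fun A : Module.End F V => A v) (H.rr y x)
      simpa using this
    have cl : ∀ x y v, l x (l y v) = p x y • l y (l x v) := fun x y v => by
      have := congrArg (fun A : Module.End F V => A v) (H.ll x y)
      simpa using this
    have clr : ∀ x y v, l x (r y v) = r y (l x v) := fun x y v => by
      have := congrArg (fun A : Module.End F V => A v) (H.lr x y).eq
      simpa using this
    have h1 := congrArg (r m) h
    have h2 := congrArg (l m) h
    simp only [map_add, map_smul] at h1 h2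
    simp only [map_sub, map_smul]
    have a1 := cr j m (f i)
    have a2 := clr m j (f i)
    have a3 := clr i m (f j)
    have a4 := cl i m (f j)
    have a5 := cr i m (f j)
    have a6 := clr m i (f j)
    have a7 := clr j m (f i)
    have a8 := cl j m (f i)
    have p1 := H.pp m i
    have p2 := H.pp m j
    rw [a1, ← a2, a3, a4, a5, ← a6, a7, a8]
    linear_combination (norm := module) (p m i * p m j) • h1 - c • h2 - (c * θ i) • (p1 • l m (l i (f j)))
      + (p i j * c * θ j) • (p2 • l m (l j (f i)))

/-- The commuting pair used for the variable `m`. -/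
theorem QB.cm (H : QB a p l r) (m i : Fin n) (μ : F) : Commute (μ • l m) (p m i • r m) :=
  ((H.lr m m).smul_left μ).smul_right (p m i)

theorem QB.cm' (H : QB a p l r) (m : Fin n) (μ : F) : Commute (μ • l m) (r m) :=
  (H.lr m m).smul_left μ

/-- The iterated cocycle. -/
noncomputable def fs (H : QB a p l r) (m : Fin n) (μ : F) (ξ : ℕ → F) (f : Fin n → V) (J : ℕ)
    (i : Fin n) : V :=
  ev (μ • l m) (p m i • r m) (H.cm m i μ) (∏ j ∈ range J, lin (ξ j)) (f i)

theorem fs_zero (H : QB a p l r) (m : Fin n) (μ : F) (ξ : ℕ → F) (f : Fin n → V) (i : Fin n) :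
    fs H m μ ξ f 0 i = f i := by
  simp [fs]

theorem fs_succ (H : QB a p l r) (m : Fin n) (μ : F) (ξ : ℕ → F) (f : Fin n → V) (J : ℕ)
    (i : Fin n) :
    fs H m μ ξ f (J + 1) i
      = p m i • r m (fs H m μ ξ f J i) - (ξ J * μ) • l m (fs H m μ ξ f J i) := by
  rw [fs, Finset.prod_range_succ_comm, map_mul, ev_lin, Module.End.mul_apply, fs]
  simp [LinearMap.sub_apply, smul_smul]

theorem coc_fs (H : QB a p l r) (m : Fin n) (k : ℕ) (μ : F) (ξ : ℕ → F) (θ : Fin n → F)
    (f : Fin n → V) (hf : Coc a p l r k θ f) (J : ℕ) :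
    Coc a p l r k (fun i => p m i ^ J * θ i) (fs H m μ ξ f J) := by
  induction J with
  | zero =>
    have : fs H m μ ξ f 0 = f := funext fun i => fs_zero H m μ ξ f i
    simpa [this] using hf
  | succ J ih =>
    have h := H.coc_step m k _ _ (ξ J * μ) ih
    have e1 : (fun i => p m i ^ (J + 1) * θ i) = fun i => p m i * (p m i ^ J * θ i) := by
      funext i; ring
    have e2 : fs H m μ ξ f (J + 1) = fun i => p m i • r m (fs H m μ ξ f J i)
        - (ξ J * μ) • l m (fs H m μ ξ f J i) := funext fun i => fs_succ H m μ ξ f J i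
    rw [e1, e2]
    exact h

theorem T_smul (c : ℕ) (ν μ : F) (L R : Module.End F V) :
    T c (ν * μ) L R = T c ν (μ • L) R := by
  rw [T, T]
  refine Finset.sum_congr rfl fun s _ => ?_
  rw [_root_.smul_pow, smul_mul_assoc, smul_smul, mul_pow]

theorem chain [IsDomain F] (H : QB a p l r) (m : Fin n) (k : ℕ) (hm : m.val = k) (hP : PTE a p l r k)
    (μ : F) (hμ : μ ≠ 0) (ξ : ℕ → F) (hξ : Roots (a m) ξ) (hξ0 : ∀ j, j < a m → ξ j ≠ 0)
    (θ : Fin n → F) (hθ : ∀ i, θ i ≠ 0) (f : Fin n → V) (hf : Coc a p l r (k + 1) θ f) :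
    ∀ J, J ≤ a m → ∀ y : V,
      (∀ i : Fin n, k + 1 ≤ i.val → r i y - (p m i ^ J * θ i) • l i y = fs H m μ ξ f J i) →
      ev (μ • l m) (r m) (H.cm' m μ) (∏ j ∈ Ico J (a m), lin (ξ j)) y = 0 →
      ∃ z : V, (∀ i : Fin n, k + 1 ≤ i.val → r i z - θ i • l i z = f i) ∧
        ev (μ • l m) (r m) (H.cm' m μ) (∏ j ∈ range J, lin (ξ j)) z = y := by
  intro J
  induction J with
  | zero =>
    intro _ y hy _
    refine ⟨y, fun i hi => ?_, by simp⟩
    have := hy i hi
    rwa [fs_zero, pow_zero, one_mul] at this
  | succ J ih =>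
    intro hJ y hy hy0
    have hJ' : J < a m := hJ
    -- the cocycle
    let θ' : Fin n → F := fun i => if i = m then ξ J * μ else p m i ^ J * θ i
    let f' : Fin n → V := fun i => if i = m then y else fs H m μ ξ f J i
    have hθ' : ∀ i, θ' i ≠ 0 := by
      intro i
      by_cases hi : i = m
      · simp only [θ', hi, if_true]; exact mul_ne_zero (hξ0 J hJ') hμ
      · simp only [θ', hi, if_false]; exact mul_ne_zero (pow_ne_zero _ (H.p_ne m i)) (hθ i)
    have hC := coc_fs H m (k + 1) μ ξ θ f hf J
    have key : ∀ i : Fin n, k + 1 ≤ i.val →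
        r i y + (ξ J * μ) • l m (fs H m μ ξ f J i)
          = p m i • (r m (fs H m μ ξ f J i) + (p m i ^ J * θ i) • l i y) := by
      intro i hi
      have h1 := hy i hi
      rw [fs_succ] at h1
      linear_combination (norm := module) h1
    have hcoc : Coc a p l r k θ' f' := by
      refine ⟨fun i hi => ?_, fun i j hi hj => ?_⟩
      · by_cases him : i = m
        · subst him
          simp only [θ', f', if_true]
          rw [T_smul, ← ev_Tpoly (a i) (ξ J) (μ • l i) (r i) (H.cm' i μ), hξ.Tpoly_eq hJ', map_mul,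
            Module.End.mul_apply, hy0, map_zero]
        · have hi' : k + 1 ≤ i.val := by
            rcases Nat.lt_or_ge k i.val with h | h
            · exact h
            · exact absurd (Fin.ext (by omega)) him
          simp only [θ', f', him, if_false]
          exact hC.1 i hi'
      · by_cases him : i = m
        · by_cases hjm : j = m
          · subst him; subst hjm
            simp [H.pi]
          · have hj' : k + 1 ≤ j.val := by
              rcases Nat.lt_or_ge k j.val with h | h
              · exact h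
              · exact absurd (Fin.ext (by omega)) hjm
            subst him
            simp only [θ', f', if_true, hjm, if_false]
            exact key j hj'
        · have hi' : k + 1 ≤ i.val := by
            rcases Nat.lt_or_ge k i.val with h | h
            · exact h
            · exact absurd (Fin.ext (by omega)) him
          by_cases hjm : j = m
          · subst hjm
            simp only [θ', f', if_true, him, if_false]
            have h1 := key i hi'
            have h2 := congrArg (fun v => p i j • v) h1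
            simp only [smul_smul, H.pp, one_smul] at h2
            exact h2.symm
          · have hj' : k + 1 ≤ j.val := by
              rcases Nat.lt_or_ge k j.val with h | h
              · exact h
              · exact absurd (Fin.ext (by omega)) hjm
            simp only [θ', f', him, hjm, if_false]
            exact hC.2 i j hi' hj'
    obtain ⟨y', hy'⟩ := hP θ' hθ' f' hcoc
    have hym : r m y' - (ξ J * μ) • l m y' = y := by
      have := hy' m (le_of_eq hm.symm)
      simpa [θ', f'] using this
    have hyi : ∀ i : Fin n, k + 1 ≤ i.val →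
        r i y' - (p m i ^ J * θ i) • l i y' = fs H m μ ξ f J i := by
      intro i hi
      have him : i ≠ m := by rintro rfl; omega
      have := hy' i (by omega)
      simpa [θ', f', him] using this
    have hlin : ev (μ • l m) (r m) (H.cm' m μ) (lin (ξ J)) y' = y := by
      rw [ev_lin, LinearMap.sub_apply, smul_smul]
      exact hym
    have h0 : ev (μ • l m) (r m) (H.cm' m μ) (∏ j ∈ Ico J (a m), lin (ξ j)) y' = 0 := by
      rw [Finset.prod_eq_prod_Ico_succ_bot hJ', mul_comm, map_mul, Module.End.mul_apply, hlin]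
      exact hy0
    obtain ⟨z, hz1, hz2⟩ := ih (le_of_lt hJ') y' hyi h0
    refine ⟨z, hz1, ?_⟩
    rw [Finset.prod_range_succ_comm, map_mul, Module.End.mul_apply, hz2, hlin]

theorem pte_succ [IsDomain F] (H : QB a p l r) (m : Fin n) (k : ℕ) (hm : m.val = k) (hP : PTE a p l r k)
    (ξ : ℕ → F) (hξ : Roots (a m) ξ) (hξ0 : ∀ j, j < a m → ξ j ≠ 0) : PTE a p l r (k + 1) := by
  intro θ hθ f hf
  obtain ⟨z, hz, -⟩ := chain H m k hm hP 1 one_ne_zero ξ hξ hξ0 θ hθ f hf (a m) le_rfl 0
    (fun i _ => by
      rw [fs, hξ.prod, map_sub, map_pow, ev_X, ev_C, map_pow, aeval_X, one_smul, H.lp,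
        _root_.smul_pow, H.rp]
      simp)
    (by simp)
  exact ⟨z, hz⟩

theorem descend [IsDomain F] (H : QB a p l r) (m : Fin n) (k : ℕ) (hm : m.val = k) (hP : PTE a p l r k)
    (ha : 0 < a m) (ξ : ℕ → F) (hξ : Roots (a m) ξ) (hξ0 : ∀ j, j < a m → ξ j ≠ 0)
    (hξ1 : ξ (a m - 1) = 1) (θ : Fin n → F) (hθ : ∀ i, θ i ≠ 0) (φ : V)
    (hφ : ∀ i : Fin n, k ≤ i.val → r i φ = θ i • l i φ) :
    ∃ ψ : V, (∀ i : Fin n, k + 1 ≤ i.val → r i ψ = (p i m ^ (a m - 1) * θ i) • l i ψ) ∧
      T (a m) (θ m) (l m) (r m) ψ = φ := by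
  have hcan : ∀ i, p m i ^ (a m - 1) * (p i m ^ (a m - 1) * θ i) = θ i := fun i => by
    rw [← mul_assoc, ← mul_pow, H.pp, one_pow, one_mul]
  have hz : Coc a p l r (k + 1) (fun i => p i m ^ (a m - 1) * θ i) (fun _ => 0) :=
    ⟨fun i _ => by simp, fun i j _ _ => by simp⟩
  obtain ⟨z, hz1, hz2⟩ := chain H m k hm hP (θ m) (hθ m) ξ hξ hξ0
    (fun i => p i m ^ (a m - 1) * θ i)
    (fun i => mul_ne_zero (pow_ne_zero _ (H.p_ne i m)) (hθ i)) (fun _ => 0) hz (a m - 1)
    (Nat.sub_le _ _) φ
    (fun i hi => by
      rw [fs, map_zero, hcan, hφ i (by omega), sub_self])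
    (by
      have : a m = (a m - 1) + 1 := by omega
      conv_lhs => rw [this]
      simp only [Nat.add_sub_cancel]
      rw [Nat.Ico_succ_singleton, Finset.prod_singleton, ev_lin, hξ1, one_smul,
        LinearMap.sub_apply, LinearMap.smul_apply, hφ m (le_of_eq hm.symm), sub_self])
  refine ⟨z, fun i hi => sub_eq_zero.1 (hz1 i hi), ?_⟩
  have h1 := hξ.Tpoly_eq (J := a m - 1) (by omega)
  rw [hξ1] at h1
  have h2 : Ico (a m - 1 + 1) (a m) = ∅ := by
    rw [Finset.Ico_eq_empty_iff]; omega
  rw [h2, Finset.prod_empty, mul_one] at h1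
  have h3 : T (a m) (θ m) (l m) (r m) = T (a m) (1 * θ m) (l m) (r m) := by rw [one_mul]
  rw [h3, T_smul, ← ev_Tpoly (a m) 1 (θ m • l m) (r m) (H.cm' m (θ m)), h1, hz2]

theorem QB.coc_cobd (H : QB a p l r) (k : ℕ) (θ : Fin n → F) (v : V) :
    Coc a p l r k θ (fun i => r i v - θ i • l i v) := by
  refine ⟨fun i _ => ?_, fun i j _ _ => ?_⟩
  · have h1 := ((H.lr i i).smul_left (θ i)).geom_sum₂_mul (a i)
    rw [_root_.smul_pow, H.lp, H.rp, smul_zero, sub_zero] at h1
    have h2 : T (a i) (θ i) (l i) (r i)
        = ∑ s ∈ range (a i), (θ i • l i) ^ s * r i ^ (a i - 1 - s) := by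
      rw [T]
      exact Finset.sum_congr rfl fun s _ => by rw [_root_.smul_pow, smul_mul_assoc]
    rw [← h2] at h1
    have h3 := congrArg (fun A : Module.End F V => A v) h1
    simp only [Module.End.mul_apply, LinearMap.sub_apply, LinearMap.smul_apply,
      LinearMap.zero_apply] at h3
    have h4 : r i v - θ i • l i v = -(θ i • l i v - r i v) := by abel
    simp only []
    rw [h4, map_neg, h3, neg_zero]
  · have cr : ∀ x y v, r x (r y v) = p y x • r y (r x v) := fun x y v => by
      have := congrArg (fun A : Module.End F V => A v) (H.rr y x)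
      simpa using this
    have cl : ∀ x y v, l x (l y v) = p x y • l y (l x v) := fun x y v => by
      have := congrArg (fun A : Module.End F V => A v) (H.ll x y)
      simpa using this
    have clr : ∀ x y v, l x (r y v) = r y (l x v) := fun x y v => by
      have := congrArg (fun A : Module.End F V => A v) (H.lr x y).eq
      simpa using this
    have a1 := cr j i v
    have a2 := cl i j v
    have a3 := clr i j v
    have a4 := clr j i v
    simp only [map_sub, map_smul]
    rw [a1, a2, a3, a4]
    module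

end Ev

end Pool.Agent.V1110.Qci
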