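import Pool.Agent.V1110.QciTop

/-!
Roots of one over algebraically closed fields.
-/

set_option autoImplicit false

namespace Pool.Agent.V1110.Qci

open Polynomial Finset

theorem prod_getD {R : Type*} [CommMonoid R] {α : Type*} (f : α → R) (d : α) (l : List α) :
    ∏ j ∈ range l.length, f (l.getD j d) = (l.map f).prod := by
  induction l with
  | nil => simp
  | cons x l ih =>
    rw [List.length_cons, Finset.prod_range_succ', List.map_cons, List.prod_cons, ← ih, mul_comm]
    simp

variable {F : Type*} [Field F]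

theorem homog_aux {G : Type*} [Field G] (φ : F →+* G) (x y : G) (hx0 : x ≠ 0) (a : ℕ)
    (ξ : ℕ → F) (h : ∏ j ∈ range a, (X - C (ξ j)) = (X ^ a - 1 : F[X])) :
    ∏ j ∈ range a, (y - φ (ξ j) * x) = y ^ a - x ^ a := by
  have h2 := congrArg (eval₂ φ (y / x)) h
  rw [eval₂_finsetProd, eval₂_sub, eval₂_pow, eval₂_X, eval₂_one] at h2
  simp only [eval₂_sub, eval₂_X, eval₂_C] at h2
  have h3 : ∏ j ∈ range a, (y - φ (ξ j) * x) = x ^ a * ∏ j ∈ range a, (y / x - φ (ξ j)) := by
    have : x ^ a = ∏ _j ∈ range a, x := by simp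
    rw [this, ← Finset.prod_mul_distrib]
    refine Finset.prod_congr rfl fun j _ => ?_
    field_simp
  rw [h3, h2, div_pow]
  field_simp

theorem homog (a : ℕ) (ξ : ℕ → F) (h : ∏ j ∈ range a, (X - C (ξ j)) = (X ^ a - 1 : F[X])) :
    ∏ j ∈ range a, lin (ξ j) = X ^ a - C (X ^ a : F[X]) := by
  have hinj : Function.Injective (algebraMap F[X][X] (FractionRing F[X][X])) :=
    IsFractionRing.injective _ _
  apply hinj
  have hx0 : algebraMap F[X][X] (FractionRing F[X][X]) (C X) ≠ 0 := by
    intro h0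
    have : (C X : F[X][X]) = 0 := hinj (by rw [map_zero]; exact h0)
    rw [C_eq_zero] at this
    exact X_ne_zero this
  have := homog_aux ((algebraMap F[X][X] (FractionRing F[X][X])).comp
    ((C : F[X] →+* F[X][X]).comp (C : F →+* F[X])))
    (algebraMap F[X][X] (FractionRing F[X][X]) (C X))
    (algebraMap F[X][X] (FractionRing F[X][X]) X) hx0 a ξ h
  rw [map_prod, map_sub, map_pow, C_pow, map_pow, ← this]
  refine Finset.prod_congr rfl fun j _ => ?_
  simp only [lin, map_sub, map_mul, RingHom.comp_apply]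

theorem exists_roots [IsAlgClosed F] (a : ℕ) (ha : 0 < a) :
    ∃ ξ : ℕ → F, Roots a ξ ∧ (∀ j, j < a → ξ j ≠ 0) ∧ ξ (a - 1) = 1 := by
  classical
  have hmon : (X ^ a - C 1 : F[X]).Monic := monic_X_pow_sub_C 1 ha.ne'
  have hs : (X ^ a - C 1 : F[X]).Splits := IsAlgClosed.splits _
  have hprod : ((X ^ a - C 1 : F[X]).roots.map fun x => X - C x).prod = X ^ a - C 1 :=
    (hs.eq_prod_roots_of_monic hmon).symm
  have hcard : (X ^ a - C 1 : F[X]).roots.card = a := by
    have := hs.natDegree_eq_card_roots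
    rw [natDegree_X_pow_sub_C] at this
    exact this.symm
  have h1 : (1 : F) ∈ (X ^ a - C 1 : F[X]).roots := by
    rw [mem_roots hmon.ne_zero]
    simp
  obtain ⟨R', hR'⟩ := Multiset.exists_cons_of_mem h1
  set L := R'.toList ++ [1] with hL
  have hLR : (↑L : Multiset F) = (X ^ a - C 1 : F[X]).roots := by
    rw [hL, ← Multiset.coe_add, Multiset.coe_toList, hR']
    rw [add_comm]; rfl
  have hlen : L.length = a := by
    rw [← Multiset.coe_card, hLR, hcard]
  have hRl : R'.toList.length = a - 1 := by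
    have : L.length = R'.toList.length + 1 := by simp [hL]
    omega
  have hP : ∏ j ∈ range a, (X - C (L.getD j 1)) = (X ^ a - 1 : F[X]) := by
    conv_lhs => rw [← hlen]
    rw [prod_getD (fun x => X - C x) 1 L]
    have : ((↑L : Multiset F).map fun x => (X - C x : F[X])).prod
        = (L.map fun x => (X - C x : F[X])).prod := by
      rw [Multiset.map_coe, Multiset.prod_coe]
    rw [← this, hLR, hprod, C_1]
  have hpow : ∀ j, j < a → L.getD j 1 ^ a = 1 := by
    intro j hj
    have h := congrArg (eval (L.getD j 1)) hP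
    rw [eval_prod, Finset.prod_eq_zero (Finset.mem_range.2 hj) (by simp)] at h
    simp only [eval_sub, eval_pow, eval_X, eval_one] at h
    exact (sub_eq_zero.1 h.symm)
  refine ⟨fun j => L.getD j 1, ⟨homog a _ hP, hpow⟩, fun j hj h0 => ?_, ?_⟩
  · have := hpow j hj
    have h0' : L.getD j 1 = 0 := h0
    rw [h0', zero_pow ha.ne'] at this
    exact zero_ne_one this
  · rw [hL, ← hRl]
    simp

theorem hasRoots [IsAlgClosed F] {n : ℕ} (a : Fin n → ℕ) (ha : ∀ i, 0 < a i) : HasRoots F a :=
  fun i => exists_roots (a i) (ha i)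

end Pool.Agent.V1110.Qci
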