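import Pool.Agent.V1110.QciOps

/-!
The total trace operator: existence of preimages, invariance of its values, naturality.
-/

set_option autoImplicit false

namespace Pool.Agent.V1110.Qci

open Polynomial Finset

section Top

variable {F : Type*} [Field F] {V : Type*} [AddCommGroup V] [Module F V]
variable {n : ℕ} {a : Fin n → ℕ} {p : Fin n → Fin n → F} {l r : Fin n → Module.End F V}

/-- The accumulated twist. -/
noncomputable def th (a : Fin n → ℕ) (p : Fin n → Fin n → F) (k : ℕ) (i : Fin n) : F :=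
  ∏ j ∈ univ.filter (fun j : Fin n => j.val < k), p i j ^ (a j - 1)

theorem th_zero (i : Fin n) : th a p 0 i = 1 := by
  simp [th]

theorem th_succ (m : Fin n) (i : Fin n) :
    th a p (m.val + 1) i = p i m ^ (a m - 1) * th a p m.val i := by
  have : univ.filter (fun j : Fin n => j.val < m.val + 1)
      = insert m (univ.filter (fun j : Fin n => j.val < m.val)) := by
    ext j
    simp only [mem_filter, mem_univ, true_and, mem_insert]
    constructor
    · intro h
      rcases Nat.lt_succ_iff_lt_or_eq.1 h with h | h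
      · exact Or.inr h
      · exact Or.inl (Fin.ext h)
    · rintro (rfl | h) <;> omega
  rw [th, this, Finset.prod_insert (by simp), th]

theorem th_ne (H : QB a p l r) (k : ℕ) (i : Fin n) : th a p k i ≠ 0 :=
  Finset.prod_ne_zero_iff.2 fun j _ => pow_ne_zero _ (H.p_ne i j)

/-- The composite of the operators `T` for the variables with index at least `k`. -/
noncomputable def top (a : Fin n → ℕ) (p : Fin n → Fin n → F) (l r : Fin n → Module.End F V)
    (k : ℕ) : Module.End F V :=
  (((List.finRange n).drop k).map fun i => T (a i) (th a p i.val i) (l i) (r i)).prod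

theorem top_eq (m : Fin n) : top a p l r m.val
    = T (a m) (th a p m.val m) (l m) (r m) * top a p l r (m.val + 1) := by
  rw [top, List.drop_eq_getElem_cons (by simp), List.map_cons, List.prod_cons, top]
  simp

theorem top_last : top a p l r n = 1 := by
  rw [top, List.drop_eq_nil_of_le (by simp)]
  simp

/-- Enumerations of the roots of one for all exponents. -/
def HasRoots (F : Type*) [Field F] {n : ℕ} (a : Fin n → ℕ) : Prop :=
  ∀ i, ∃ ξ : ℕ → F, Roots (a i) ξ ∧ (∀ j, j < a i → ξ j ≠ 0) ∧ ξ (a i - 1) = 1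

theorem pte_all (H : QB a p l r) (hR : HasRoots F a) (h0 : PTE a p l r 0) (k : ℕ) (hk : k ≤ n) :
    PTE a p l r k := by
  induction k with
  | zero => exact h0
  | succ k ih =>
    obtain ⟨ξ, h1, h2, -⟩ := hR ⟨k, hk⟩
    exact pte_succ H ⟨k, hk⟩ k rfl (ih (le_of_lt hk)) ξ h1 h2

theorem top_exists (H : QB a p l r) (hR : HasRoots F a) (ha : ∀ i, 0 < a i)
    (h0 : PTE a p l r 0) (d : ℕ) : ∀ k, k + d = n → ∀ φ : V,
      (∀ i : Fin n, k ≤ i.val → r i φ = th a p k i • l i φ) → ∃ ψ : V, top a p l r k ψ = φ := by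
  induction d with
  | zero =>
    intro k hk φ _
    rw [add_zero] at hk
    subst hk
    exact ⟨φ, by rw [top_last]; rfl⟩
  | succ d ih =>
    intro k hk φ hφ
    have hkn : k < n := by omega
    obtain ⟨ξ, h1, h2, h3⟩ := hR ⟨k, hkn⟩
    obtain ⟨ψ', hψ1, hψ2⟩ := descend H ⟨k, hkn⟩ k rfl (pte_all H hR h0 k (le_of_lt hkn))
      (ha _) ξ h1 h2 h3 (th a p k) (th_ne H k) φ hφ
    obtain ⟨ψ, hψ⟩ := ih (k + 1) (by omega) ψ' (fun i hi => by
      rw [hψ1 i hi]
      congr 1
      exact (th_succ (a := a) (p := p) ⟨k, hkn⟩ i).symm)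
    refine ⟨ψ, ?_⟩
    have := top_eq (a := a) (p := p) (l := l) (r := r) ⟨k, hkn⟩
    rw [show k = (⟨k, hkn⟩ : Fin n).val from rfl, this, Module.End.mul_apply, hψ]
    exact hψ2

theorem T_comm (H : QB a p l r) (m i : Fin n) (ν θ : F) (v : V)
    (hv : r i v = (p i m ^ (a m - 1) * θ) • l i v) :
    r i (T (a m) ν (l m) (r m) v) = θ • l i (T (a m) ν (l m) (r m) v) := by
  rw [T_apply, map_sum, map_sum, Finset.smul_sum]
  refine Finset.sum_congr rfl fun s hs => ?_
  have hR : ∀ t, r m ^ t * r i = (p i m) ^ t • (r i * r m ^ t) := fun t => pow_skew (H.rr i m) t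
  have hL : ∀ t, l m ^ t * l i = (p m i) ^ t • (l i * l m ^ t) := fun t => pow_skew (H.ll m i) t
  have hs' : s + (a m - 1 - s) = a m - 1 := by
    have := Finset.mem_range.1 hs; omega
  set t := a m - 1 - s with ht
  have e1 : r i ((l m ^ s) ((r m ^ t) v)) = (l m ^ s) (r i ((r m ^ t) v)) := by
    have := congrArg (fun A : Module.End F V => A ((r m ^ t) v)) (((H.lr m i).pow_left s).eq)
    simpa using this.symm
  have e2 : r i ((r m ^ t) v) = (p m i) ^ t • (r m ^ t) (r i v) := by
    have := congrArg (fun A : Module.End F V => A v) (hR t)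
    simp only [Module.End.mul_apply, LinearMap.smul_apply] at this
    rw [this, smul_smul, ← mul_pow, H.pp, one_pow, one_smul]
  have e3 : (r m ^ t) (l i v) = l i ((r m ^ t) v) := by
    have := congrArg (fun A : Module.End F V => A v) (((H.lr i m).pow_right t).eq)
    simpa using this.symm
  have e4 : (l m ^ s) (l i ((r m ^ t) v)) = (p m i) ^ s • l i ((l m ^ s) ((r m ^ t) v)) := by
    have := congrArg (fun A : Module.End F V => A ((r m ^ t) v)) (hL s)
    simpa using this
  rw [map_smul, map_smul, e1, e2, hv, map_smul, map_smul, map_smul, e3, e4, smul_smul, smul_smul,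
    smul_smul, smul_smul]
  congr 1
  have h1 : (p m i) ^ s * (p m i) ^ t * (p i m) ^ (a m - 1) = 1 := by
    rw [← pow_add, hs', ← mul_pow, H.pp, one_pow]
  linear_combination (ν ^ s * θ) * h1

theorem T_self (H : QB a p l r) (m : Fin n) (ν : F) (v : V) :
    r m (T (a m) ν (l m) (r m) v) = ν • l m (T (a m) ν (l m) (r m) v) := by
  have h : lin ν * Tpoly (a m) ν = X ^ a m - (C (C ν * X)) ^ a m := by
    rw [mul_comm, Tpoly_mul]
  have h1 := congrArg (ev (l m) (r m) (H.lr m m)) h
  rw [map_mul, ev_lin, ev_Tpoly, map_sub, map_pow, ev_X, H.rp, map_pow, ev_C] at h1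
  have h2 : (aeval (l m)) (C ν * X) = ν • l m := by simp [Algebra.smul_def]
  rw [h2, _root_.smul_pow, H.lp, smul_zero, sub_zero] at h1
  have h3 := congrArg (fun A : Module.End F V => A v) h1
  simp only [Module.End.mul_apply, LinearMap.sub_apply, LinearMap.smul_apply,
    LinearMap.zero_apply] at h3
  exact sub_eq_zero.1 h3

theorem top_inv (H : QB a p l r) (d : ℕ) : ∀ k, k + d = n → ∀ u : V, ∀ i : Fin n,
    k ≤ i.val → r i (top a p l r k u) = th a p k i • l i (top a p l r k u) := by
  induction d with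
  | zero =>
    intro k hk u i hi
    have := i.isLt
    omega
  | succ d ih =>
    intro k hk u i hi
    have hkn : k < n := by omega
    have e := top_eq (a := a) (p := p) (l := l) (r := r) ⟨k, hkn⟩
    rw [show k = (⟨k, hkn⟩ : Fin n).val from rfl, e, Module.End.mul_apply]
    by_cases him : i = ⟨k, hkn⟩
    · subst him
      exact T_self H _ _ _
    · have hi' : k + 1 ≤ i.val := by
        rcases Nat.lt_or_ge k i.val with h | h
        · exact h
        · exact absurd (Fin.ext (by simp; omega)) him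
      refine T_comm H _ i _ _ _ ?_
      rw [ih (k + 1) (by omega) u i hi']
      congr 1
      exact th_succ (a := a) (p := p) ⟨k, hkn⟩ i

theorem top_inv_zero (H : QB a p l r) (u : V) (i : Fin n) :
    r i (top a p l r 0 u) = l i (top a p l r 0 u) := by
  have := top_inv H n 0 (by omega) u i (Nat.zero_le _)
  rwa [th_zero, one_smul] at this

end Top

section Nat

variable {K F : Type*} [Field K] [Field F] {V W : Type*} [AddCommGroup V] [Module F V]
  [AddCommGroup W] [Module K W]
variable {n : ℕ} {a : Fin n → ℕ} {p : Fin n → Fin n → K}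
  {l r : Fin n → Module.End F V} {l' r' : Fin n → Module.End K W}

theorem T_nat (ρ : K →+* F) (Φ : V →+ W) (hs : ∀ (c : K) (v : V), Φ (ρ c • v) = c • Φ v)
    (L R : Module.End F V) (L' R' : Module.End K W) (hL : ∀ v, Φ (L v) = L' (Φ v))
    (hR : ∀ v, Φ (R v) = R' (Φ v)) (c : ℕ) (ν : K) (v : V) :
    Φ (T c (ρ ν) L R v) = T c ν L' R' (Φ v) := by
  have hLp : ∀ (t : ℕ) v, Φ ((L ^ t) v) = (L' ^ t) (Φ v) := by
    intro t
    induction t with
    | zero => intro v; simp
    | succ t ih => intro v; rw [pow_succ', pow_succ', Module.End.mul_apply, hL, ih]; rfl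
  have hRp : ∀ (t : ℕ) v, Φ ((R ^ t) v) = (R' ^ t) (Φ v) := by
    intro t
    induction t with
    | zero => intro v; simp
    | succ t ih => intro v; rw [pow_succ', pow_succ', Module.End.mul_apply, hR, ih]; rfl
  rw [T_apply, T_apply, map_sum]
  refine Finset.sum_congr rfl fun s _ => ?_
  rw [← map_pow, hs, hLp, hRp]

theorem th_map (ρ : K →+* F) (k : ℕ) (i : Fin n) :
    th a (fun i j => ρ (p i j)) k i = ρ (th a p k i) := by
  simp [th, map_prod, map_pow]

theorem top_nat (ρ : K →+* F) (Φ : V →+ W) (hs : ∀ (c : K) (v : V), Φ (ρ c • v) = c • Φ v)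
    (hL : ∀ i v, Φ (l i v) = l' i (Φ v)) (hR : ∀ i v, Φ (r i v) = r' i (Φ v)) (k : ℕ) (v : V) :
    Φ (top a (fun i j => ρ (p i j)) l r k v) = top a p l' r' k (Φ v) := by
  rw [top, top]
  generalize (List.finRange n).drop k = L
  induction L generalizing v with
  | nil => simp
  | cons i L ih =>
    simp only [List.map_cons, List.prod_cons, Module.End.mul_apply]
    rw [th_map, T_nat ρ Φ hs (l i) (r i) (l' i) (r' i) (hL i) (hR i), ih]

end Nat

end Pool.Agent.V1110.Qci
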