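import Pool.Agent.V1110.QciRoots

/-!
Rigid tuples are isomorphic to all their twists by the torus.
-/

set_option autoImplicit false

namespace Pool.Agent.V1110.Qci

open Polynomial Finset

section Skew

variable {R : Type*} [CommRing R] {A : Type*} [Ring A] [Algebra R A] {n : ℕ}

/-- A tuple satisfying the relations of a quantum complete intersection. -/
structure Skew (a : Fin n → ℕ) (p : Fin n → Fin n → R) (X : Fin n → A) : Prop where
  nil : ∀ i, X i ^ a i = 0
  comm : ∀ i j, X i * X j = p i j • (X j * X i)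
  pp : ∀ i j, p i j * p j i = 1
  pi : ∀ i, p i i = 1

variable {a : Fin n → ℕ} {p : Fin n → Fin n → R} {X : Fin n → A}

theorem Skew.qb (H : Skew a p X) :
    QB a p (fun i => LinearMap.mulLeft R (X i)) (fun i => LinearMap.mulRight R (X i)) where
  lr i j := LinearMap.ext fun v => by simp [mul_assoc]
  ll i j := LinearMap.ext fun v => by
    simp only [Module.End.mul_apply, LinearMap.mulLeft_apply, LinearMap.smul_apply]
    rw [← mul_assoc, H.comm i j, smul_mul_assoc, mul_assoc]
  rr i j := LinearMap.ext fun v => by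
    simp only [Module.End.mul_apply, LinearMap.mulRight_apply, LinearMap.smul_apply]
    rw [mul_assoc, H.comm i j, mul_smul_comm, mul_assoc]
  lp i := by rw [LinearMap.pow_mulLeft, H.nil, LinearMap.mulLeft_zero_eq_zero]
  rp i := by rw [LinearMap.pow_mulRight, H.nil, LinearMap.mulRight_zero_eq_zero]
  pp := H.pp
  pi := H.pi

/-- Exactness for the trivial twist. -/
def PT1 {V : Type*} [AddCommGroup V] [Module R V] (a : Fin n → ℕ) (p : Fin n → Fin n → R)
    (l r : Fin n → Module.End R V) : Prop :=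
  ∀ f : Fin n → V, Coc a p l r 0 (fun _ => 1) f → ∃ h : V, ∀ i, r i h - l i h = f i

end Skew

section CocMap

variable {R S : Type*} [CommRing R] [CommRing S] {V W : Type*} [AddCommGroup V] [Module R V]
  [AddCommGroup W] [Module S W]
variable {n : ℕ} {a : Fin n → ℕ} {p : Fin n → Fin n → R}
  {l r : Fin n → Module.End R V} {l' r' : Fin n → Module.End S W}

theorem T_map (σ : R →+* S) (Φ : V →+ W) (hs : ∀ (c : R) (v : V), Φ (c • v) = σ c • Φ v)
    (L Q : Module.End R V) (L' Q' : Module.End S W) (hL : ∀ v, Φ (L v) = L' (Φ v))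
    (hR : ∀ v, Φ (Q v) = Q' (Φ v)) (c : ℕ) (ν : R) (v : V) :
    Φ (T c ν L Q v) = T c (σ ν) L' Q' (Φ v) := by
  have hLp : ∀ (t : ℕ) v, Φ ((L ^ t) v) = (L' ^ t) (Φ v) := by
    intro t
    induction t with
    | zero => intro v; simp
    | succ t ih => intro v; rw [pow_succ', pow_succ', Module.End.mul_apply, hL, ih]; rfl
  have hRp : ∀ (t : ℕ) v, Φ ((Q ^ t) v) = (Q' ^ t) (Φ v) := by
    intro t
    induction t with
    | zero => intro v; simp
    | succ t ih => intro v; rw [pow_succ', pow_succ', Module.End.mul_apply, hR, ih]; rfl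
  rw [T_apply, T_apply, map_sum]
  refine Finset.sum_congr rfl fun s _ => ?_
  rw [hs, map_pow, hLp, hRp]

theorem coc_map (σ : R →+* S) (Φ : V →+ W) (hs : ∀ (c : R) (v : V), Φ (c • v) = σ c • Φ v)
    (hL : ∀ i v, Φ (l i v) = l' i (Φ v)) (hR : ∀ i v, Φ (r i v) = r' i (Φ v)) (k : ℕ)
    (θ : Fin n → R) (f : Fin n → V) (hf : Coc a p l r k θ f) :
    Coc a (fun i j => σ (p i j)) l' r' k (fun i => σ (θ i)) (fun i => Φ (f i)) := by
  refine ⟨fun i hi => ?_, fun i j hi hj => ?_⟩
  · rw [← T_map σ Φ hs (l i) (r i) (l' i) (r' i) (hL i) (hR i), hf.1 i hi, map_zero]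
  · have := congrArg Φ (hf.2 i j hi hj)
    simpa only [map_add, hs, hL, hR] using this

theorem coc_smul {k : ℕ} {θ : Fin n → R} {f : Fin n → V} (c : R)
    (hc : ∀ v : V, c • v = 0 → v = 0) (hf : Coc a p l r k θ (fun i => c • f i)) :
    Coc a p l r k θ f := by
  refine ⟨fun i hi => hc _ ?_, fun i j hi hj => ?_⟩
  · rw [← map_smul]; exact hf.1 i hi
  · have h := hf.2 i j hi hj
    refine sub_eq_zero.1 (hc _ ?_)
    simp only [map_smul] at h
    linear_combination (norm := module) h

end CocMap

section Twist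

variable {F : Type*} [Field F] {n : ℕ} {a : Fin n → ℕ} {p : Fin n → Fin n → F}
  {ι : Type*} [Fintype ι] [DecidableEq ι]

omit [Fintype ι] [DecidableEq ι] in
theorem mat_smul_eq_zero {g : F[X]} (hg : g ≠ 0) (v : Matrix ι ι F[X]) (h : g • v = 0) :
    v = 0 := by
  refine Matrix.ext fun x y => ?_
  have := congrFun (congrFun h x) y
  simp only [Matrix.smul_apply, smul_eq_mul, Matrix.zero_apply] at this
  simpa [hg] using this

/-- The polynomial twist. -/
noncomputable def wt (F : Type*) [Field F] {n : ℕ} (i0 j : Fin n) : F[X] := if j = i0 then X else 1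

theorem exists_poly (X' : Fin n → Matrix ι ι F) (H : Skew a p X')
    (hE : PT1 a p (fun i => LinearMap.mulLeft F (X' i)) (fun i => LinearMap.mulRight F (X' i)))
    (i0 : Fin n) :
    ∃ φ : Matrix ι ι F[X], φ.map (eval 1) = 1 ∧
      ∀ j, φ * (X' j).map C = wt F i0 j • ((X' j).map C * φ) := by
  classical
  let XP : Fin n → Matrix ι ι F[X] := fun j => (X' j).map C
  have HP : Skew a (fun i j => C (p i j)) XP :=
    { nil := fun i => by
        have := congrArg (C : F →+* F[X]).mapMatrix (H.nil i)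
        rw [map_pow, map_zero] at this
        exact this
      comm := fun i j => by
        have := congrArg (C : F →+* F[X]).mapMatrix (H.comm i j)
        rw [map_mul] at this
        have e : (C : F →+* F[X]).mapMatrix (p i j • (X' j * X' i))
            = C (p i j) • ((C : F →+* F[X]).mapMatrix (X' j) * (C : F →+* F[X]).mapMatrix (X' i)) := by
          rw [← map_mul]
          refine Matrix.ext fun x y => ?_
          exact C_mul
        rw [e] at this
        exact this
      pp := fun i j => by rw [← C_mul, H.pp, C_1]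
      pi := fun i => by rw [H.pi, C_1] }
  let lP : Fin n → Module.End F[X] (Matrix ι ι F[X]) := fun i => LinearMap.mulLeft F[X] (XP i)
  let rP : Fin n → Module.End F[X] (Matrix ι ι F[X]) := fun i => LinearMap.mulRight F[X] (XP i)
  let d0 : Matrix ι ι F[X] →ₗ[F[X]] (Fin n → Matrix ι ι F[X]) :=
    LinearMap.pi fun j => rP j - wt F i0 j • lP j
  have hd0 : ∀ v j, d0 v j = v * XP j - wt F i0 j • (XP j * v) := fun v j => rfl
  let B := LinearMap.range d0
  have hcocB : ∀ u ∈ B, Coc a (fun i j => C (p i j)) lP rP 0 (wt F i0) u := by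
    rintro u ⟨v, rfl⟩
    exact HP.qb.coc_cobd 0 (wt F i0) v
  let Φ : Matrix ι ι F[X] →+ Matrix ι ι F := (evalRingHom 1).mapMatrix.toAddMonoidHom
  have hΦ : ∀ v, Φ v = v.map (eval 1) := fun v => rfl
  have hΦm : ∀ v w, Φ (v * w) = Φ v * Φ w := fun v w => map_mul (evalRingHom 1).mapMatrix v w
  have hΦX : ∀ j, Φ (XP j) = X' j := fun j => by
    rw [hΦ]; ext x y; simp [XP, Matrix.map_apply]
  have hΦs : ∀ (c : F[X]) (v : Matrix ι ι F[X]), Φ (c • v) = (evalRingHom (1 : F)) c • Φ v := by
    intro c v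
    rw [hΦ, hΦ]; ext x y; simp [Matrix.map_apply, Matrix.smul_apply]
  have heval : ∀ u, Coc a (fun i j => C (p i j)) lP rP 0 (wt F i0) u →
      Coc a p (fun i => LinearMap.mulLeft F (X' i)) (fun i => LinearMap.mulRight F (X' i)) 0
        (fun _ => 1) (fun i => Φ (u i)) := by
    intro u hu
    have := coc_map (l' := fun i => LinearMap.mulLeft F (X' i))
      (r' := fun i => LinearMap.mulRight F (X' i)) (evalRingHom (1 : F)) Φ hΦs
      (fun i v => by simp only [lP, LinearMap.mulLeft_apply, hΦm, hΦX])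
      (fun i v => by simp only [rP, LinearMap.mulRight_apply, hΦm, hΦX]) 0 (wt F i0) u hu
    have e1 : (fun i j => (evalRingHom (1 : F)) (C (p i j))) = p := by
      funext i j; simp
    have e2 : (fun i => (evalRingHom (1 : F)) (wt F i0 i)) = fun _ => 1 := by
      funext i; simp only [wt]; split_ifs <;> simp
    rwa [e1, e2] at this
  -- divisibility
  have hdiv : ∀ v : Matrix ι ι F[X], Φ v = 0 → ∃ w, v = (X - 1 : F[X]) • w := by
    intro v hv
    refine ⟨v.map fun q => q /ₘ (X - C 1), ?_⟩
    refine Matrix.ext fun x y => ?_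
    have h1 : eval 1 (v x y) = 0 := congrFun (congrFun hv x) y
    have h2 := mul_divByMonic_eq_iff_isRoot.2 (show IsRoot (v x y) 1 from h1)
    simp only [Matrix.smul_apply, Matrix.map_apply, smul_eq_mul]
    rw [← C_1, h2]
  have hX1 : (X - 1 : F[X]) ≠ 0 := by
    rw [← C_1]; exact X_sub_C_ne_zero 1
  -- main claim
  have hmain : ∀ u : Fin n → Matrix ι ι F[X], (X - 1 : F[X]) • u ∈ B → u ∈ B := by
    intro u hu
    let S : ℕ →o Submodule F[X] (Fin n → Matrix ι ι F[X]) :=
      { toFun := fun k => B.comap (((X - 1 : F[X]) ^ k) • (LinearMap.id :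
          (Fin n → Matrix ι ι F[X]) →ₗ[F[X]] (Fin n → Matrix ι ι F[X])))
        monotone' := by
          refine monotone_nat_of_le_succ fun k v hv => ?_
          simp only [Submodule.mem_comap, LinearMap.smul_apply, LinearMap.id_apply] at hv ⊢
          rw [pow_succ', mul_smul]
          exact B.smul_mem _ hv }
    have hS : ∀ k v, v ∈ S k ↔ (X - 1 : F[X]) ^ k • v ∈ B := fun k v => Iff.rfl
    have hnoeth : IsNoetherian F[X] (Fin n → Matrix ι ι F[X]) := by
      have : Module.Finite F[X] (Matrix ι ι F[X]) := inferInstance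
      infer_instance
    obtain ⟨N, hN⟩ := monotone_stabilizes_iff_noetherian.2 hnoeth S
    have hstep : ∀ k : ℕ, ∃ v u', u = d0 v + (X - 1 : F[X]) ^ k • u' ∧
        (X - 1 : F[X]) ^ (k + 1) • u' ∈ B := by
      intro k
      induction k with
      | zero => exact ⟨0, u, by simp, by simpa using hu⟩
      | succ k ih =>
        obtain ⟨v, u', hu1, hu2⟩ := ih
        have hc := coc_smul (f := u') ((X - 1 : F[X]) ^ (k + 1))
          (fun v hv => mat_smul_eq_zero (pow_ne_zero _ hX1) v hv) (hcocB _ hu2)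
        obtain ⟨c, hc'⟩ := hE _ (heval u' hc)
        have hz : ∀ j, Φ ((u' - d0 (c.map C)) j) = 0 := by
          intro j
          rw [Pi.sub_apply, map_sub, ← hc' j, hd0, map_sub, hΦs, hΦm, hΦm, hΦX]
          have e1 : Φ (c.map C) = c := by rw [hΦ]; ext x y; simp [Matrix.map_apply]
          have e2 : (evalRingHom (1 : F)) (wt F i0 j) = 1 := by
            simp only [wt]; split_ifs <;> simp
          rw [e1, e2, one_smul]
          simp
        choose w hw using fun j => hdiv _ (hz j)
        have hw' : u' - d0 (c.map C) = (X - 1 : F[X]) • w := funext fun j => hw j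
        refine ⟨v + (X - 1 : F[X]) ^ k • c.map C, w, ?_, ?_⟩
        · rw [map_add, map_smul, pow_succ, mul_smul, ← hw', smul_sub, hu1]
          abel
        · rw [pow_succ, mul_smul, ← hw', smul_sub]
          exact B.sub_mem hu2 (B.smul_mem _ ⟨_, rfl⟩)
    obtain ⟨v, u', h1, h2⟩ := hstep N
    have h3 : u' ∈ S (N + 1) := (hS _ _).2 h2
    rw [← hN (N + 1) (Nat.le_succ N)] at h3
    rw [h1]
    exact B.add_mem ⟨v, rfl⟩ ((hS _ _).1 h3)
  -- the solution
  have hu0 : (fun j => if j = i0 then -XP j else 0) ∈ B := by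
    refine hmain _ ⟨1, ?_⟩
    funext j
    rw [hd0, one_mul, mul_one, Pi.smul_apply]
    by_cases hj : j = i0
    · simp only [wt, hj, if_true]; module
    · simp only [wt, hj, if_false]; simp
  obtain ⟨v, hv⟩ := hu0
  refine ⟨1 - (X - 1 : F[X]) • v, ?_, fun j => ?_⟩
  · rw [← hΦ, map_sub, hΦs]
    have e1 : Φ 1 = 1 := map_one (evalRingHom 1).mapMatrix
    rw [e1]; simp
  · have h1 := congrFun hv j
    rw [hd0] at h1
    have h2 : (1 - (X - 1 : F[X]) • v) * XP j - wt F i0 j • (XP j * (1 - (X - 1 : F[X]) • v)) = 0 := by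
      rw [sub_mul, mul_sub, one_mul, mul_one, smul_mul_assoc, mul_smul_comm]
      have h3 : v * XP j = (if j = i0 then -XP j else 0) + wt F i0 j • (XP j * v) := by
        rw [← h1]; abel
      rw [h3]
      by_cases hj : j = i0
      · simp only [wt, hj, if_true]; module
      · simp only [wt, hj, if_false]; module
    exact sub_eq_zero.1 h2

theorem exists_twist_one [Infinite F] (X' : Fin n → Matrix ι ι F) (H : Skew a p X')
    (hE : PT1 a p (fun i => LinearMap.mulLeft F (X' i)) (fun i => LinearMap.mulRight F (X' i)))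
    (i0 : Fin n) (t : F) (ht : t ≠ 0) :
    ∃ U : Matrix ι ι F, IsUnit U ∧ ∀ j, U * X' j = (if j = i0 then t else 1) • (X' j * U) := by
  classical
  obtain ⟨φ, h1, h2⟩ := exists_poly X' H hE i0
  have hev : ∀ s : F, ∀ j, φ.map (eval s) * X' j
      = (if j = i0 then s else 1) • (X' j * φ.map (eval s)) := by
    intro s j
    have h := congrArg (evalRingHom s).mapMatrix (h2 j)
    rw [map_mul] at h
    have e1 : (evalRingHom s).mapMatrix ((X' j).map C) = X' j := by
      refine Matrix.ext fun x y => ?_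
      simp [RingHom.mapMatrix_apply, Matrix.map_apply]
    have e2 : (evalRingHom s).mapMatrix (wt F i0 j • ((X' j).map C * φ))
        = (if j = i0 then s else 1) • (X' j * (evalRingHom s).mapMatrix φ) := by
      have : (evalRingHom s).mapMatrix ((X' j).map C * φ) = X' j * (evalRingHom s).mapMatrix φ := by
        rw [map_mul, e1]
      rw [← this]
      refine Matrix.ext fun x y => ?_
      simp only [RingHom.mapMatrix_apply, Matrix.map_apply, Matrix.smul_apply, smul_eq_mul, wt]
      split_ifs <;> simp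
    rw [e1, e2] at h
    exact h
  let Q : F[X] := φ.det
  have hdet : ∀ s : F, (φ.map (eval s)).det = Q.eval s := by
    intro s
    have := RingHom.map_det (evalRingHom s) φ
    exact this.symm
  have hQ : Q ≠ 0 := by
    intro h
    have := hdet 1
    rw [h1, h, Matrix.det_one, eval_zero] at this
    exact one_ne_zero this
  obtain ⟨t1, ht1⟩ := Infinite.exists_notMem_finset
    (Q.roots.toFinset ∪ {0} ∪ Q.roots.toFinset.image fun ρ => t / ρ)
  simp only [Finset.mem_union, Finset.mem_singleton, Finset.mem_image, not_or] at ht1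
  obtain ⟨⟨ht1a, ht1b⟩, ht1c⟩ := ht1
  have hu : ∀ s : F, Q.eval s ≠ 0 → IsUnit (φ.map (eval s)) := by
    intro s hs
    rw [Matrix.isUnit_iff_isUnit_det, hdet]
    exact isUnit_iff_ne_zero.2 hs
  have hQ1 : Q.eval t1 ≠ 0 := fun h => ht1a (by
    rw [Multiset.mem_toFinset, mem_roots hQ]; exact h)
  have hQ2 : Q.eval (t / t1) ≠ 0 := fun h => ht1c ⟨t / t1, by
    rw [Multiset.mem_toFinset, mem_roots hQ]; exact h, by field_simp⟩
  refine ⟨φ.map (eval t1) * φ.map (eval (t / t1)), (hu _ hQ1).mul (hu _ hQ2), fun j => ?_⟩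
  rw [mul_assoc, hev (t / t1) j, mul_smul_comm, ← mul_assoc, hev t1 j, smul_mul_assoc, smul_smul,
    mul_assoc]
  congr 1
  split_ifs
  · field_simp
  · ring

theorem exists_twist [Infinite F] (X' : Fin n → Matrix ι ι F) (H : Skew a p X')
    (hE : PT1 a p (fun i => LinearMap.mulLeft F (X' i)) (fun i => LinearMap.mulRight F (X' i)))
    (θ : Fin n → F) (hθ : ∀ i, θ i ≠ 0) :
    ∃ U : Matrix ι ι F, IsUnit U ∧ ∀ j, U * X' j = θ j • (X' j * U) := by
  classical
  have key : ∀ S : Finset (Fin n), ∃ U : Matrix ι ι F, IsUnit U ∧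
      ∀ j, U * X' j = (if j ∈ S then θ j else 1) • (X' j * U) := by
    intro S
    induction S using Finset.induction_on with
    | empty => exact ⟨1, isUnit_one, fun j => by simp⟩
    | insert i S hi ih =>
      obtain ⟨U, hU, hU'⟩ := ih
      obtain ⟨W, hW, hW'⟩ := exists_twist_one X' H hE i (θ i) (hθ i)
      refine ⟨U * W, hU.mul hW, fun j => ?_⟩
      rw [mul_assoc, hW' j, mul_smul_comm, ← mul_assoc, hU' j, smul_mul_assoc, smul_smul,
        mul_assoc]
      congr 1
      by_cases hj : j = i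
      · subst hj; simp [hi]
      · simp [hj]
  obtain ⟨U, hU, hU'⟩ := key Finset.univ
  exact ⟨U, hU, fun j => by simpa using hU' j⟩

theorem pte_of_pt1 [Infinite F] (X' : Fin n → Matrix ι ι F) (H : Skew a p X')
    (hE : PT1 a p (fun i => LinearMap.mulLeft F (X' i)) (fun i => LinearMap.mulRight F (X' i))) :
    PTE a p (fun i => LinearMap.mulLeft F (X' i)) (fun i => LinearMap.mulRight F (X' i)) 0 := by
  intro θ hθ f hf
  obtain ⟨U, hU, hU'⟩ := exists_twist X' H hE θ hθ
  obtain ⟨W, hW1, hW2⟩ : ∃ W, W * U = 1 ∧ U * W = 1 := by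
    obtain ⟨u, rfl⟩ := hU
    exact ⟨↑u⁻¹, u.inv_mul, u.mul_inv⟩
  have hcU : ∀ v : Matrix ι ι F, U * v = 0 → v = 0 := fun v hv => by
    have := congrArg (fun z => W * z) hv
    simpa [← mul_assoc, hW1] using this
  have hfU : ∀ i, f i = U * (W * f i) := fun i => by rw [← mul_assoc, hW2, one_mul]
  have hpow : ∀ i s, θ i ^ s • (X' i ^ s * U) = U * X' i ^ s := by
    intro i s
    induction s with
    | zero => simp
    | succ s ih =>
      rw [pow_succ (X' i), ← mul_assoc U, ← ih, smul_mul_assoc, mul_assoc, mul_assoc, hU' i,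
        mul_smul_comm, smul_smul, pow_succ]
  obtain ⟨h, hh⟩ := hE (fun i => W * f i) (by
    refine ⟨fun i hi => hcU _ ?_, fun i j hi hj => ?_⟩
    · have h1 := hf.1 i hi
      rw [T_apply] at h1 ⊢
      rw [Finset.mul_sum, ← h1]
      refine Finset.sum_congr rfl fun s _ => ?_
      simp only [LinearMap.pow_mulLeft, LinearMap.pow_mulRight, LinearMap.mulLeft_apply,
        LinearMap.mulRight_apply, one_pow, one_smul]
      rw [← mul_assoc U, ← hpow, smul_mul_assoc, mul_assoc, ← mul_assoc U, ← mul_assoc U, hW2,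
        one_mul]
    · have h1 := hf.2 i j hi hj
      simp only [LinearMap.mulLeft_apply, LinearMap.mulRight_apply, one_smul] at h1 ⊢
      refine sub_eq_zero.1 (hcU _ ?_)
      have e1 : U * (W * f i * X' j) = f i * X' j := by
        rw [← mul_assoc, ← mul_assoc, hW2, one_mul]
      have e2 : U * (X' i * (W * f j)) = θ i • (X' i * f j) := by
        rw [← mul_assoc, hU' i, smul_mul_assoc, mul_assoc, ← mul_assoc U, hW2, one_mul]
      have e3 : U * (W * f j * X' i) = f j * X' i := by
        rw [← mul_assoc, ← mul_assoc, hW2, one_mul]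
      have e4 : U * (X' j * (W * f i)) = θ j • (X' j * f i) := by
        rw [← mul_assoc, hU' j, smul_mul_assoc, mul_assoc, ← mul_assoc U, hW2, one_mul]
      rw [mul_sub, mul_add, mul_smul_comm, mul_add, e1, e2, e3, e4, h1, sub_self])
  refine ⟨U * h, fun i _ => ?_⟩
  have h1 := hh i
  simp only [LinearMap.mulLeft_apply, LinearMap.mulRight_apply] at h1 ⊢
  rw [← mul_assoc (X' i), ← smul_mul_assoc, ← hU' i, mul_assoc, mul_assoc, ← mul_sub, h1,
    ← mul_assoc, hW2, one_mul]

end Twist

end Pool.Agent.V1110.Qci
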