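import Pool.Agent.Y854.GM.Mean2
import Pool.Agent.Y854.GM.Log
import Pool.Agent.Y854.GM.Abel

/-!
# Exact proportions along the sequences `⌊α n ^ c⌋`

Let `P`, `Q` be sets of natural numbers such that `#Q(X) ≥ a X / (log X) ^ A` and the quotient
`#P(X) / #Q(X)` has a limit. For all real `α > 0` outside a set of Hausdorff dimension smaller than
one the numbers of the `n ≤ N` with `⌊α n ^ c⌋ ∈ P`, `⌊α n ^ c⌋ ∈ Q` have a quotient with the same
limit. This holds for countably many pairs with one exceptional set.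
-/

set_option autoImplicit false

namespace Pool.Agent.V1110.SpA

open Finset Filter Topology
open Pool.Agent.Y854.PS
open Pool.Agent.Y854.GM

open Classical in
/-- the number of the `1 ≤ t ≤ X` in `P` -/
noncomputable def cnt (P : Set ℕ) (X : ℕ) : ℕ := ((Ioc 0 X).filter (fun t => t ∈ P)).card

open Classical in
/-- the number of the `1 ≤ n ≤ N` with `⌊α n ^ c⌋ ∈ P` -/
noncomputable def seqCnt (α c : ℝ) (P : Set ℕ) (N : ℕ) : ℕ :=
  ((Icc 1 N).filter (fun n : ℕ => ⌊α * (n : ℝ) ^ c⌋₊ ∈ P)).card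

open Classical in
/-- the indicator -/
noncomputable def ind (P : Set ℕ) (t : ℕ) : ℝ := if t ∈ P then 1 else 0

lemma ind_nonneg (P : Set ℕ) (t : ℕ) : 0 ≤ ind P t := by
  unfold ind; split_ifs <;> norm_num

lemma ind_le_one (P : Set ℕ) (t : ℕ) : ind P t ≤ 1 := by
  unfold ind; split_ifs <;> norm_num

lemma cnt_eq (P : Set ℕ) (X : ℕ) : (cnt P X : ℝ) = ∑ t ∈ Ioc 0 X, ind P t := by
  classical
  unfold cnt ind
  rw [Finset.sum_boole]

lemma seqCnt_eq (α c : ℝ) (P : Set ℕ) (N : ℕ) :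
    (seqCnt α c P N : ℝ) = ∑ n ∈ Icc 1 N, ind P ⌊α * (n : ℝ) ^ c⌋₊ := by
  classical
  unfold seqCnt ind
  rw [Finset.sum_boole]

lemma cnt_le (P : Set ℕ) (X : ℕ) : cnt P X ≤ X := by
  classical
  unfold cnt
  refine (Finset.card_filter_le _ _).trans ?_
  simp

/-- a function of the type `b N / (log N) ^ A` beats `C N ^ (1 - κ)` -/
lemma beats (b A κ C : ℝ) (hb : 0 < b) (hκ : 0 < κ) : ∃ N1 : ℕ, ∀ N : ℕ, N1 ≤ N →
    C * (N : ℝ) ^ (1 - κ) ≤ b * N / (Real.log N) ^ A := by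
  have h1 : Tendsto (fun x : ℝ => x ^ κ / (Real.log x) ^ A) atTop atTop := by
    have h := isLittleO_log_rpow_rpow_atTop A hκ
    have h2 : Tendsto (fun x : ℝ => (Real.log x) ^ A / x ^ κ) atTop (𝓝 0) := h.tendsto_div_nhds_zero
    have h3 : ∀ᶠ x : ℝ in atTop, 0 < (Real.log x) ^ A / x ^ κ := by
      filter_upwards [eventually_gt_atTop (1 : ℝ)] with x hx
      have : 0 < Real.log x := Real.log_pos hx
      positivity
    have h4 : Tendsto (fun x : ℝ => (Real.log x) ^ A / x ^ κ) atTop (𝓝[>] 0) :=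
      tendsto_nhdsWithin_iff.2 ⟨h2, h3⟩
    refine (tendsto_inv_nhdsGT_zero.comp h4).congr fun x => ?_
    simp
  have h2 := (h1.comp tendsto_natCast_atTop_atTop).eventually (eventually_ge_atTop (C / b))
  obtain ⟨M, hM⟩ := h2.exists_forall_of_atTop
  refine ⟨max M 2, fun N hN => ?_⟩
  have h3 := hM N ((le_max_left _ _).trans hN)
  have hN2 : (2 : ℝ) ≤ N := by exact_mod_cast (le_max_right M 2).trans hN
  have hl : 0 < Real.log N := Real.log_pos (by linarith)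
  have hlA : 0 < (Real.log N) ^ A := Real.rpow_pos_of_pos hl A
  simp only [Function.comp_apply] at h3
  have hNp : (0 : ℝ) < N := by linarith
  rw [div_le_iff₀ hb] at h3
  have e : (N : ℝ) ^ (1 - κ) * (N : ℝ) ^ κ = N := by
    rw [← Real.rpow_add hNp]
    simp
  have hp : 0 < (N : ℝ) ^ (1 - κ) := Real.rpow_pos_of_pos hNp _
  calc C * (N : ℝ) ^ (1 - κ) ≤ ((N : ℝ) ^ κ / (Real.log N) ^ A * b) * (N : ℝ) ^ (1 - κ) :=
        mul_le_mul_of_nonneg_right h3 hp.le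
    _ = b * ((N : ℝ) ^ (1 - κ) * (N : ℝ) ^ κ) / (Real.log N) ^ A := by ring
    _ = b * N / (Real.log N) ^ A := by rw [e]

/-- lower bound of the weighted sums over `Q` -/
lemma weighted_lower {α c : ℝ} (hα : 0 < α) (hc : 1 < c) (Q : Set ℕ) {a A : ℝ} (ha : 0 < a)
    (hA : 0 ≤ A) (hQ : ∃ X0 : ℕ, ∀ X : ℕ, X0 ≤ X → a * X / (Real.log X) ^ A ≤ cnt Q X) :
    ∃ b : ℝ, 0 < b ∧ ∃ N1 : ℕ, ∀ N : ℕ, N1 ≤ N →
      b * N / (Real.log N) ^ A ≤ ∑ t ∈ Ioc 0 ⌊α * (N : ℝ) ^ c⌋₊, wt c t * ind Q t := by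
  obtain ⟨X0, hX0⟩ := hQ
  obtain ⟨B, hB1, hB⟩ := log_last hα hc
  obtain ⟨N2, hN2⟩ := last_ge hα hc
  have hc0 : 0 < c := by linarith
  refine ⟨a / c * (α / 2) ^ (1 / c) / B ^ A, by positivity, max (max N2 X0) 3, fun N hN => ?_⟩
  have g2 : N2 ≤ N := ((le_max_left _ _).trans (le_max_left _ _)).trans hN
  have g0 : X0 ≤ N := ((le_max_right _ _).trans (le_max_left _ _)).trans hN
  have g3 : 3 ≤ N := (le_max_right _ _).trans hN
  have hNX := hN2 N g2
  have hlog := hB N g3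
  set X : ℕ := ⌊α * (N : ℝ) ^ c⌋₊ with hX
  have hX3 : 3 ≤ X := g3.trans hNX
  have hX3' : (3 : ℝ) ≤ X := by exact_mod_cast hX3
  have hXp : (0 : ℝ) < X := by linarith
  have hN3' : (3 : ℝ) ≤ N := by exact_mod_cast g3
  have hlX : 1 ≤ Real.log X := one_le_log3 hX3
  have hlN : 1 ≤ Real.log N := one_le_log3 g3
  have h1 : wt c X * cnt Q X ≤ ∑ t ∈ Ioc 0 X, wt c t * ind Q t := by
    rw [cnt_eq, Finset.mul_sum]
    refine Finset.sum_le_sum fun t ht => ?_
    rw [Finset.mem_Ioc] at ht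
    exact mul_le_mul_of_nonneg_right (wt_anti hc ht.1 ht.2) (ind_nonneg _ _)
  have h2 := hX0 X (g0.trans hNX)
  have h3 : (1 / c) * (X : ℝ) ^ (1 / c - 1) * (a * X / (Real.log X) ^ A) ≤ wt c X * cnt Q X := by
    unfold wt
    exact mul_le_mul_of_nonneg_left h2 (by positivity)
  have h4 : (1 / c) * (X : ℝ) ^ (1 / c - 1) * (a * X / (Real.log X) ^ A) =
      a / c * (X : ℝ) ^ (1 / c) / (Real.log X) ^ A := by
    rw [Real.rpow_sub hXp, Real.rpow_one]
    field_simp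
  have h5 : (α / 2) ^ (1 / c) * N ≤ (X : ℝ) ^ (1 / c) := by
    have h6 : α * (N : ℝ) ^ c ≤ X + 1 := (Nat.lt_floor_add_one _).le
    have h7 : α / 2 * (N : ℝ) ^ c ≤ X := by linarith
    have h8 := Real.rpow_le_rpow (by positivity) h7 (show 0 ≤ 1 / c by positivity)
    rw [Real.mul_rpow (by positivity) (by positivity), ← Real.rpow_mul (by linarith)] at h8
    have h9 : c * (1 / c) = 1 := by field_simp
    rw [h9, Real.rpow_one] at h8
    exact h8
  have h6 : (Real.log X) ^ A ≤ B ^ A * (Real.log N) ^ A := by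
    rw [← Real.mul_rpow (by linarith) (by linarith)]
    refine Real.rpow_le_rpow (by linarith) ?_ hA
    refine le_trans (Real.log_le_log hXp (by linarith)) hlog
  have hlXA : 0 < (Real.log X) ^ A := Real.rpow_pos_of_pos (by linarith) A
  have hlNA : 0 < (Real.log N) ^ A := Real.rpow_pos_of_pos (by linarith) A
  have hBA : 0 < B ^ A := Real.rpow_pos_of_pos (by linarith) A
  refine le_trans ?_ h1
  refine le_trans ?_ h3
  rw [h4]
  calc a / c * (α / 2) ^ (1 / c) / B ^ A * N / (Real.log N) ^ A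
      = a / c * ((α / 2) ^ (1 / c) * N) / (B ^ A * (Real.log N) ^ A) := by field_simp
    _ ≤ a / c * (X : ℝ) ^ (1 / c) / (B ^ A * (Real.log N) ^ A) := by
        apply div_le_div_of_nonneg_right _ (by positivity)
        exact mul_le_mul_of_nonneg_left h5 (by positivity)
    _ ≤ a / c * (X : ℝ) ^ (1 / c) / (Real.log X) ^ A := by
        apply div_le_div_of_nonneg_left (by positivity) hlXA h6

/-- comparison of the sums of the indicators -/
lemma compare (P Q : Set ℕ) {p a A : ℝ} (ha : 0 < a)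
    (hQ : ∃ X0 : ℕ, ∀ X : ℕ, X0 ≤ X → a * X / (Real.log X) ^ A ≤ cnt Q X)
    (hp : Tendsto (fun X : ℕ => (cnt P X : ℝ) / cnt Q X) atTop (𝓝 p)) (ε : ℝ) (hε : 0 < ε) :
    ∃ C : ℝ, 0 ≤ C ∧ ∀ X : ℕ, |(cnt P X : ℝ) - p * cnt Q X| ≤ ε * cnt Q X + C := by
  obtain ⟨X0, hX0⟩ := hQ
  obtain ⟨X1, hX1⟩ := (Metric.tendsto_atTop.1 hp) ε hε
  refine ⟨(1 + |p|) * (max (max X0 X1) 2 : ℕ), by positivity, fun X => ?_⟩
  rcases le_total (max (max X0 X1) 2) X with h | h
  · have g0 : X0 ≤ X := ((le_max_left _ _).trans (le_max_left _ _)).trans h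
    have g1 : X1 ≤ X := ((le_max_right _ _).trans (le_max_left _ _)).trans h
    have g2 : 2 ≤ X := (le_max_right _ _).trans h
    have hX2 : (2 : ℝ) ≤ X := by exact_mod_cast g2
    have hl : 0 < Real.log X := Real.log_pos (by linarith)
    have hlA : 0 < (Real.log X) ^ A := Real.rpow_pos_of_pos hl A
    have h1 : 0 < (cnt Q X : ℝ) := lt_of_lt_of_le (by positivity) (hX0 X g0)
    have h2 := hX1 X g1
    rw [Real.dist_eq] at h2
    have h3 : (cnt P X : ℝ) - p * cnt Q X = ((cnt P X : ℝ) / cnt Q X - p) * cnt Q X := by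
      field_simp
    rw [h3, abs_mul, abs_of_pos h1]
    have h4 : |(cnt P X : ℝ) / cnt Q X - p| * cnt Q X ≤ ε * cnt Q X :=
      mul_le_mul_of_nonneg_right h2.le h1.le
    have h5 : 0 ≤ (1 + |p|) * ((max (max X0 X1) 2 : ℕ) : ℝ) := by positivity
    linarith
  · have h' : (X : ℝ) ≤ ((max (max X0 X1) 2 : ℕ) : ℝ) := by exact_mod_cast h
    have h1 : (cnt P X : ℝ) ≤ X := by exact_mod_cast cnt_le P X
    have h2 : (cnt Q X : ℝ) ≤ X := by exact_mod_cast cnt_le Q X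
    have h3 : |(cnt P X : ℝ) - p * cnt Q X| ≤ |(cnt P X : ℝ)| + |p * cnt Q X| := abs_sub _ _
    rw [abs_mul, abs_of_nonneg (show (0 : ℝ) ≤ cnt P X by positivity),
      abs_of_nonneg (show (0 : ℝ) ≤ cnt Q X by positivity)] at h3
    have h4 : 0 ≤ ε * (cnt Q X : ℝ) := by positivity
    have h5 := abs_nonneg p
    nlinarith

/-- comparison of the weighted sums -/
lemma compare_wt {c : ℝ} (hc : 1 < c) (P Q : Set ℕ) {p ε C : ℝ}
    (h : ∀ X : ℕ, |(cnt P X : ℝ) - p * cnt Q X| ≤ ε * cnt Q X + C) (X : ℕ) :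
    |∑ t ∈ Ioc 0 X, wt c t * ind P t - p * ∑ t ∈ Ioc 0 X, wt c t * ind Q t| ≤
      ε * (∑ t ∈ Ioc 0 X, wt c t * ind Q t) + C * wt c 1 := by
  have h1 := w_lower hc (fun t => (p + ε) * ind Q t - ind P t) C (fun X => by
    have h2 := (abs_le.1 (h X)).2
    rw [cnt_eq, cnt_eq] at h2
    rw [Finset.sum_sub_distrib, ← Finset.mul_sum]
    linarith) X
  have h2 := w_lower hc (fun t => ind P t - (p - ε) * ind Q t) C (fun X => by
    have h2 := (abs_le.1 (h X)).1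
    rw [cnt_eq, cnt_eq] at h2
    rw [Finset.sum_sub_distrib, ← Finset.mul_sum]
    linarith) X
  have e1 : ∑ m ∈ Ioc 0 X, wt c m * ((p + ε) * ind Q m - ind P m) =
      (p + ε) * ∑ m ∈ Ioc 0 X, wt c m * ind Q m - ∑ m ∈ Ioc 0 X, wt c m * ind P m := by
    rw [Finset.mul_sum, ← Finset.sum_sub_distrib]
    exact Finset.sum_congr rfl fun m _ => by ring
  have e2 : ∑ m ∈ Ioc 0 X, wt c m * (ind P m - (p - ε) * ind Q m) =
      ∑ m ∈ Ioc 0 X, wt c m * ind P m - (p - ε) * ∑ m ∈ Ioc 0 X, wt c m * ind Q m := by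
    rw [Finset.mul_sum, ← Finset.sum_sub_distrib]
    exact Finset.sum_congr rfl fun m _ => by ring
  rw [e1] at h1
  rw [e2] at h2
  rw [abs_le]
  constructor <;> linarith

/-- **Exact proportions along `⌊α n ^ c⌋`.** -/
theorem ratio (c : ℝ) (hc : 1 < c) {ι : Type} [Countable ι] (P Q : ι → Set ℕ) :
    ∃ E : Set ℝ, dimH E < 1 ∧ ∀ α : ℝ, 0 < α → α ∉ E → ∀ k : ι, ∀ p a A : ℝ, 0 < a → 0 ≤ A →
      (∃ X0 : ℕ, ∀ X : ℕ, X0 ≤ X → a * X / (Real.log X) ^ A ≤ cnt (Q k) X) →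
      Tendsto (fun X : ℕ => (cnt (P k) X : ℝ) / cnt (Q k) X) atTop (𝓝 p) →
      Tendsto (fun N : ℕ => (seqCnt α c (P k) N : ℝ) / seqCnt α c (Q k) N) atTop (𝓝 p) ∧
      ∃ b : ℝ, 0 < b ∧ ∃ N0 : ℕ, ∀ N : ℕ, N0 ≤ N →
        b * N / (Real.log N) ^ A ≤ seqCnt α c (Q k) N := by
  obtain ⟨κ, hκ, hκ1, hmean⟩ := mean2 c hc
  obtain ⟨E, hE, hlaw⟩ := hmean (fun (v : ι × Bool) t => ind (if v.2 then P v.1 else Q v.1) t)
  refine ⟨E, hE, fun α hα hαE k p a A ha hA hQ hp => ?_⟩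
  have hgrow : ∀ S : Set ℕ, ∃ C : ℝ, 0 < C ∧ ∀ m : ℕ, 1 ≤ m → |ind S m| ≤ C * (m : ℝ) ^ κ := by
    intro S
    refine ⟨1, one_pos, fun m hm => ?_⟩
    have h1 : (1 : ℝ) ≤ (m : ℝ) ^ κ := Real.one_le_rpow (by exact_mod_cast hm) hκ.le
    rw [abs_of_nonneg (ind_nonneg _ _)]
    linarith [ind_le_one S m]
  obtain ⟨N1, hN1⟩ := hlaw α hα hαE (k, true) (by simpa using hgrow (P k))
  obtain ⟨N2, hN2⟩ := hlaw α hα hαE (k, false) (by simpa using hgrow (Q k))
  simp only [if_true, Bool.false_eq_true, if_false] at hN1 hN2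
  simp only [← seqCnt_eq] at hN1 hN2
  set a' := α ^ (-(1 / c)) with ha'
  have ha'0 : 0 < a' := Real.rpow_pos_of_pos hα _
  have hw1 := wt_nonneg hc 1
  obtain ⟨b, hb, N3, hN3⟩ := weighted_lower hα hc (Q k) ha hA hQ
  -- the lower bound
  obtain ⟨N4, hN4⟩ := beats (a' * b / 2) A κ 1 (by positivity) hκ
  have hlow : ∀ N : ℕ, max (max N2 N3) N4 ≤ N → a' * b / 2 * N / (Real.log N) ^ A ≤
      seqCnt α c (Q k) N := by
    intro N hN
    have g2 : N2 ≤ N := ((le_max_left _ _).trans (le_max_left _ _)).trans hN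
    have g3 : N3 ≤ N := ((le_max_right _ _).trans (le_max_left _ _)).trans hN
    have g4 : N4 ≤ N := (le_max_right _ _).trans hN
    have h1 := (abs_le.1 (hN2 N g2)).1
    have h2 := mul_le_mul_of_nonneg_left (hN3 N g3) ha'0.le
    have h3 := hN4 N g4
    have e1 : a' * (b * N / (Real.log N) ^ A) = 2 * (a' * b / 2 * N / (Real.log N) ^ A) := by ring
    rw [e1] at h2
    linarith
  refine ⟨?_, a' * b / 2, by positivity, max (max N2 N3) N4, hlow⟩
  rw [Metric.tendsto_atTop]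
  intro ε hε
  obtain ⟨C, hC0, hC⟩ := compare (P k) (Q k) ha hQ hp (ε / 4) (by positivity)
  obtain ⟨N5, hN5⟩ := beats (a' * b / 2) A κ (4 / ε * ((1 + |p| + ε / 4) + a' * (C * wt c 1)))
    (by positivity) hκ
  refine ⟨max (max N1 N5) (max (max (max N2 N3) N4) 3), fun N hN => ?_⟩
  have g1 : N1 ≤ N := ((le_max_left _ _).trans (le_max_left _ _)).trans hN
  have g5 : N5 ≤ N := ((le_max_right _ _).trans (le_max_left _ _)).trans hN
  have gl : max (max N2 N3) N4 ≤ N := ((le_max_left _ _).trans (le_max_right _ _)).trans hN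
  have g3 : 3 ≤ N := ((le_max_right _ _).trans (le_max_right _ _)).trans hN
  have g2 : N2 ≤ N := ((le_max_left _ _).trans (le_max_left _ _)).trans gl
  have hN3' : (3 : ℝ) ≤ N := by exact_mod_cast g3
  have hlN : 1 ≤ Real.log N := one_le_log3 g3
  have hlNA : 0 < (Real.log N) ^ A := Real.rpow_pos_of_pos (by linarith) A
  have hS := hlow N gl
  have hSpos : 0 < (seqCnt α c (Q k) N : ℝ) := lt_of_lt_of_le (by positivity) hS
  have h1 := hN1 N g1
  have h2 := hN2 N g2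
  have h3 := compare_wt hc (P k) (Q k) hC ⌊α * (N : ℝ) ^ c⌋₊
  have h5 := hN5 N g5
  set Wp := ∑ t ∈ Ioc 0 ⌊α * (N : ℝ) ^ c⌋₊, wt c t * ind (P k) t with hWp
  set Wq := ∑ t ∈ Ioc 0 ⌊α * (N : ℝ) ^ c⌋₊, wt c t * ind (Q k) t with hWq
  set Sp : ℝ := (seqCnt α c (P k) N : ℝ) with hSp
  set Sq : ℝ := (seqCnt α c (Q k) N : ℝ) with hSq
  set R : ℝ := (N : ℝ) ^ (1 - κ) with hR
  have hR1 : 1 ≤ R := Real.one_le_rpow (by linarith) (by linarith)
  have h6 : |Sp - p * Sq| ≤ R + a' * (ε / 4 * Wq + C * wt c 1) + |p| * R := by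
    have e : Sp - p * Sq = (Sp - a' * Wp) + a' * (Wp - p * Wq) + p * (a' * Wq - Sq) := by ring
    rw [e]
    refine (abs_add_le _ _).trans ?_
    refine add_le_add ((abs_add_le _ _).trans ?_) ?_
    · refine add_le_add h1 ?_
      rw [abs_mul, abs_of_pos ha'0]
      exact mul_le_mul_of_nonneg_left h3 ha'0.le
    · rw [abs_mul]
      refine mul_le_mul_of_nonneg_left ?_ (abs_nonneg _)
      rw [abs_sub_comm]
      exact h2
  have h7 : a' * Wq ≤ Sq + R := by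
    have := (abs_le.1 h2).1
    linarith
  have h8 : |Sp - p * Sq| ≤ ε / 4 * Sq + ((1 + |p| + ε / 4) + a' * (C * wt c 1)) * R := by
    have h9 : ε / 4 * (a' * Wq) ≤ ε / 4 * (Sq + R) := mul_le_mul_of_nonneg_left h7 (by positivity)
    have h10 : a' * (C * wt c 1) ≤ a' * (C * wt c 1) * R := by
      have : 0 ≤ a' * (C * wt c 1) := by positivity
      nlinarith
    nlinarith
  have h9 : ((1 + |p| + ε / 4) + a' * (C * wt c 1)) * R ≤ ε / 4 * Sq := by
    have h10 : 4 / ε * ((1 + |p| + ε / 4) + a' * (C * wt c 1)) * R ≤ Sq := h5.trans hS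
    have h11 : ε / 4 * (4 / ε * ((1 + |p| + ε / 4) + a' * (C * wt c 1)) * R) =
        ((1 + |p| + ε / 4) + a' * (C * wt c 1)) * R := by
      field_simp
    rw [← h11]
    exact mul_le_mul_of_nonneg_left h10 (by positivity)
  rw [Real.dist_eq]
  have e : Sp / Sq - p = (Sp - p * Sq) / Sq := by
    field_simp
  rw [e, abs_div, abs_of_pos hSpos, div_lt_iff₀ hSpos]
  have : 0 < ε * Sq := by positivity
  linarith

end Pool.Agent.V1110.SpA
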